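import Mathlib

/-!
Basics on `L^p[0,1)` for problem MP_e03f8f_an.
-/

set_option autoImplicit false
set_option linter.unusedSectionVars false

open MeasureTheory Filter Topology Set
open scoped ENNReal NNReal

noncomputable section

namespace Pool.Agent.Helper89.Haar

/-- Lebesgue measure on `[0,1)`. -/
def μ : Measure ℝ := volume.restrict (Ico 0 1)

instance : IsProbabilityMeasure μ := ⟨by simp [μ]⟩

/-- The space `L^p[0,1)`. -/
abbrev LL (p : ℝ≥0∞) := Lp ℝ p μ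

/-- bounded measurable functions -/
structure Bd (f : ℝ → ℝ) : Prop where
  meas : Measurable f
  bdd : ∃ C, ∀ t, |f t| ≤ C

theorem Bd.memLp {f : ℝ → ℝ} (hf : Bd f) (p : ℝ≥0∞) : MemLp f p μ := by
  obtain ⟨C, hC⟩ := hf.bdd
  exact MemLp.of_bound hf.meas.aestronglyMeasurable C (Eventually.of_forall hC)

theorem Bd.integrable {f : ℝ → ℝ} (hf : Bd f) : Integrable f μ :=
  memLp_one_iff_integrable.1 (hf.memLp 1)

theorem Bd.add {f g : ℝ → ℝ} (hf : Bd f) (hg : Bd g) : Bd (fun t => f t + g t) := by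
  obtain ⟨C, hC⟩ := hf.bdd
  obtain ⟨D, hD⟩ := hg.bdd
  exact ⟨hf.meas.add hg.meas, C + D, fun t => (abs_add_le _ _).trans (add_le_add (hC t) (hD t))⟩

theorem Bd.mul {f g : ℝ → ℝ} (hf : Bd f) (hg : Bd g) : Bd (fun t => f t * g t) := by
  obtain ⟨C, hC⟩ := hf.bdd
  obtain ⟨D, hD⟩ := hg.bdd
  refine ⟨hf.meas.mul hg.meas, C * D, fun t => ?_⟩
  rw [abs_mul]
  exact mul_le_mul (hC t) (hD t) (abs_nonneg _) ((abs_nonneg _).trans (hC t))

theorem Bd.const (c : ℝ) : Bd (fun _ => c) := ⟨measurable_const, |c|, fun _ => le_rfl⟩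

theorem Bd.neg {f : ℝ → ℝ} (hf : Bd f) : Bd (fun t => - f t) := by
  obtain ⟨C, hC⟩ := hf.bdd
  exact ⟨hf.meas.neg, C, fun t => by rw [abs_neg]; exact hC t⟩

theorem Bd.sub {f g : ℝ → ℝ} (hf : Bd f) (hg : Bd g) : Bd (fun t => f t - g t) := by
  simpa [sub_eq_add_neg] using hf.add hg.neg

theorem Bd.ind {A : Set ℝ} (hA : MeasurableSet A) : Bd (A.indicator (fun _ => (1 : ℝ))) := by
  refine ⟨measurable_const.indicator hA, 1, fun t => ?_⟩
  by_cases h : t ∈ A <;> simp [h]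

theorem Bd.sum {ι : Type*} (s : Finset ι) {f : ι → ℝ → ℝ} (hf : ∀ i ∈ s, Bd (f i)) :
    Bd (fun t => ∑ i ∈ s, f i t) := by
  classical
  induction s using Finset.induction_on with
  | empty => simpa using Bd.const 0
  | insert a s ha ih =>
    simp only [Finset.sum_insert ha]
    exact (hf a (Finset.mem_insert_self _ _)).add
      (ih fun i hi => hf i (Finset.mem_insert_of_mem hi))

/-- class of a function in `L^p` (junk value 0) -/
def cl (p : ℝ≥0∞) (f : ℝ → ℝ) : LL p :=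
  open Classical in if h : MemLp f p μ then h.toLp f else 0

theorem cl_of {p : ℝ≥0∞} {f : ℝ → ℝ} (h : MemLp f p μ) : cl p f = h.toLp f := by
  simp [cl, h]

theorem coe_cl {p : ℝ≥0∞} {f : ℝ → ℝ} (h : MemLp f p μ) : (cl p f : ℝ → ℝ) =ᵐ[μ] f := by
  rw [cl_of h]; exact h.coeFn_toLp

theorem cl_congr {p : ℝ≥0∞} {f g : ℝ → ℝ} (hf : MemLp f p μ) (hfg : f =ᵐ[μ] g) :
    cl p f = cl p g := by
  have hg : MemLp g p μ := (memLp_congr_ae hfg).1 hf
  rw [cl_of hf, cl_of hg]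
  exact (MemLp.toLp_eq_toLp_iff hf hg).2 hfg

theorem cl_coe {p : ℝ≥0∞} (f : LL p) : cl p f = f := by
  rw [cl_of (Lp.memLp f)]; exact Lp.toLp_coeFn f _

theorem cl_add {p : ℝ≥0∞} {f g : ℝ → ℝ} (hf : MemLp f p μ) (hg : MemLp g p μ) :
    cl p (fun t => f t + g t) = cl p f + cl p g := by
  rw [cl_of hf, cl_of hg, cl_of (f := fun t => f t + g t) (hf.add hg)]
  rfl

theorem cl_smul {p : ℝ≥0∞} {f : ℝ → ℝ} (c : ℝ) (hf : MemLp f p μ) :
    cl p (fun t => c * f t) = c • cl p f := by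
  rw [cl_of hf, cl_of (f := fun t => c * f t) (hf.const_mul c)]
  rfl

theorem cl_sub {p : ℝ≥0∞} {f g : ℝ → ℝ} (hf : MemLp f p μ) (hg : MemLp g p μ) :
    cl p (fun t => f t - g t) = cl p f - cl p g := by
  rw [cl_of hf, cl_of hg, cl_of (f := fun t => f t - g t) (hf.sub hg)]
  rfl

theorem cl_zero {p : ℝ≥0∞} : cl p (fun _ => 0) = 0 := by
  have h : MemLp (fun _ : ℝ => (0 : ℝ)) p μ := MemLp.zero
  rw [cl_of h]; rfl

theorem cl_sum {p : ℝ≥0∞} {ι : Type*} (s : Finset ι) {f : ι → ℝ → ℝ}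
    (hf : ∀ i ∈ s, MemLp (f i) p μ) :
    cl p (fun t => ∑ i ∈ s, f i t) = ∑ i ∈ s, cl p (f i) := by
  classical
  induction s using Finset.induction_on with
  | empty => simpa using cl_zero
  | insert a s ha ih =>
    simp only [Finset.sum_insert ha]
    rw [cl_add (hf a (Finset.mem_insert_self _ _)) (memLp_finsetSum s
      fun i hi => hf i (Finset.mem_insert_of_mem hi)), ih fun i hi => hf i (Finset.mem_insert_of_mem hi)]

theorem norm_cl {p : ℝ≥0∞} {f : ℝ → ℝ} (h : MemLp f p μ) : ‖cl p f‖ = (eLpNorm f p μ).toReal := by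
  rw [cl_of h, Lp.norm_toLp]

theorem norm_cl_le {p : ℝ≥0∞} [Fact (1 ≤ p)] {f : ℝ → ℝ} (hf : Measurable f) {C : ℝ} (hC : 0 ≤ C)
    (h : ∀ t, |f t| ≤ C) : ‖cl p f‖ ≤ C := by
  have hm : MemLp f p μ := Bd.memLp ⟨hf, C, h⟩ p
  rw [norm_cl hm]
  refine ENNReal.toReal_le_of_le_ofReal hC ?_
  have := eLpNorm_le_of_ae_bound (p := p) (μ := μ) (f := f) (C := C) (Eventually.of_forall h)
  simpa using this

theorem integrable_coe {p : ℝ≥0∞} [Fact (1 ≤ p)] (f : LL p) : Integrable f μ :=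
  memLp_one_iff_integrable.1 ((Lp.memLp f).mono_exponent Fact.out)

theorem integral_abs_le {p : ℝ≥0∞} [Fact (1 ≤ p)] (f : LL p) : ∫ t, |f t| ∂μ ≤ ‖f‖ := by
  have h1 : ∫ t, |f t| ∂μ = (eLpNorm f 1 μ).toReal := by
    rw [eLpNorm_one_eq_lintegral_enorm, integral_eq_lintegral_of_nonneg_ae
      (Eventually.of_forall fun t => abs_nonneg _) (Lp.aestronglyMeasurable f).norm]
    congr 1
    refine lintegral_congr fun t => ?_
    rw [← Real.norm_eq_abs, ofReal_norm]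
  rw [h1, Lp.norm_def]
  refine ENNReal.toReal_mono (Lp.eLpNorm_ne_top f) ?_
  exact eLpNorm_le_eLpNorm_of_exponent_le Fact.out (Lp.aestronglyMeasurable f)

/-- integration against a bounded function, as a functional on `L^p` -/
def ig (p : ℝ≥0∞) [Fact (1 ≤ p)] (g : ℝ → ℝ) : LL p →ₗ[ℝ] ℝ :=
  open Classical in
  if hg : Bd g then
    { toFun := fun f => ∫ t, g t * f t ∂μ
      map_add' := by
        intro f f'
        obtain ⟨C, hC⟩ := hg.bdd
        rw [← integral_add]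
        · refine integral_congr_ae ?_
          filter_upwards [Lp.coeFn_add f f'] with t ht
          rw [ht, Pi.add_apply, mul_add]
        · exact (integrable_coe f).bdd_mul hg.meas.aestronglyMeasurable (c := C)
            (Eventually.of_forall hC)
        · exact (integrable_coe f').bdd_mul hg.meas.aestronglyMeasurable (c := C)
            (Eventually.of_forall hC)
      map_smul' := by
        intro c f
        rw [RingHom.id_apply, smul_eq_mul, ← integral_const_mul]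
        refine integral_congr_ae ?_
        filter_upwards [Lp.coeFn_smul c f] with t ht
        rw [ht, Pi.smul_apply, smul_eq_mul]
        ring }
  else 0

theorem ig_apply {p : ℝ≥0∞} [Fact (1 ≤ p)] {g : ℝ → ℝ} (hg : Bd g) (f : LL p) :
    ig p g f = ∫ t, g t * f t ∂μ := by
  simp [ig, hg]

theorem Bd.mul_integrable {g : ℝ → ℝ} (hg : Bd g) {f : ℝ → ℝ} (hf : Integrable f μ) :
    Integrable (fun t => g t * f t) μ := by
  obtain ⟨C, hC⟩ := hg.bdd
  exact hf.bdd_mul hg.meas.aestronglyMeasurable (c := C) (Eventually.of_forall hC)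

theorem ig_cl {p : ℝ≥0∞} [Fact (1 ≤ p)] {g : ℝ → ℝ} (hg : Bd g) {f : ℝ → ℝ} (hf : MemLp f p μ) :
    ig p g (cl p f) = ∫ t, g t * f t ∂μ := by
  rw [ig_apply hg]
  refine integral_congr_ae ?_
  filter_upwards [coe_cl hf] with t ht
  rw [ht]

theorem abs_ig_le {p : ℝ≥0∞} [Fact (1 ≤ p)] {g : ℝ → ℝ} (hg : Bd g) {C : ℝ} (hC : ∀ t, |g t| ≤ C)
    (f : LL p) : |ig p g f| ≤ C * ‖f‖ := by
  have hC0 : 0 ≤ C := (abs_nonneg _).trans (hC 0)
  rw [ig_apply hg]
  calc |∫ t, g t * f t ∂μ| ≤ ∫ t, |g t * f t| ∂μ := abs_integral_le_integral_abs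
    _ ≤ ∫ t, C * |f t| ∂μ := by
        refine integral_mono ?_ ?_ ?_
        · exact (hg.mul_integrable (integrable_coe f)).abs
        · exact (integrable_coe f).abs.const_mul C
        · intro t
          show |g t * f t| ≤ C * |f t|
          rw [abs_mul]
          exact mul_le_mul_of_nonneg_right (hC t) (abs_nonneg _)
    _ = C * ∫ t, |f t| ∂μ := integral_const_mul _ _
    _ ≤ C * ‖f‖ := mul_le_mul_of_nonneg_left (integral_abs_le f) hC0

/-- continuous version -/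
def igc (p : ℝ≥0∞) [Fact (1 ≤ p)] (g : ℝ → ℝ) : LL p →L[ℝ] ℝ :=
  open Classical in
  if hg : Bd g then (ig p g).mkContinuousOfExistsBound (by
    obtain ⟨C, hC⟩ := hg.bdd
    exact ⟨C, fun f => abs_ig_le hg hC f⟩)
  else 0

theorem igc_apply {p : ℝ≥0∞} [Fact (1 ≤ p)] {g : ℝ → ℝ} (hg : Bd g) (f : LL p) :
    igc p g f = ∫ t, g t * f t ∂μ := by
  simp only [igc, dif_pos hg]
  exact ig_apply hg f

theorem igc_cl {p : ℝ≥0∞} [Fact (1 ≤ p)] {g : ℝ → ℝ} (hg : Bd g) {f : ℝ → ℝ} (hf : MemLp f p μ) :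
    igc p g (cl p f) = ∫ t, g t * f t ∂μ := by
  simp only [igc, dif_pos hg]
  exact ig_cl hg hf

theorem abs_igc_le {p : ℝ≥0∞} [Fact (1 ≤ p)] {g : ℝ → ℝ} (hg : Bd g) {C : ℝ} (hC : ∀ t, |g t| ≤ C)
    (f : LL p) : |igc p g f| ≤ C * ‖f‖ := by
  simp only [igc, dif_pos hg]
  exact abs_ig_le hg hC f

end Pool.Agent.Helper89.Haar
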