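import Pool.Agent.Helper89.Haar.Basic

/-!
Block operators on `L^p[0,1)` (problem MP_e03f8f_an).
-/

set_option autoImplicit false
set_option linter.unusedSectionVars false

open MeasureTheory Filter Topology Set
open scoped ENNReal NNReal

noncomputable section

namespace Pool.Agent.Helper89.Haar

/-- finite disjoint families of measurable sets, of measure at most `α` -/
structure Fam (N : ℕ) (P : ℕ → Set ℝ) (α : ℝ≥0∞) : Prop where
  meas : ∀ k < N, MeasurableSet (P k)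
  disj : ∀ k < N, ∀ l < N, k ≠ l → Disjoint (P k) (P l)
  le : ∀ k < N, μ (P k) ≤ α

theorem Fam.disjF {N : ℕ} {P : ℕ → Set ℝ} {α : ℝ≥0∞} (h : Fam N P α) :
    (↑(Finset.range N) : Set ℕ).PairwiseDisjoint P := by
  intro k hk l hl hkl
  exact h.disj k (by simpa using hk) l (by simpa using hl) hkl

variable {p : ℝ≥0∞} [hp1 : Fact (1 ≤ p)]

theorem toReal_one_le (hp : p ≠ ∞) : 1 ≤ p.toReal := by
  have := ENNReal.toReal_mono hp hp1.out
  simpa using this

theorem lint_rpow (hp : p ≠ ∞) {f : ℝ → ℝ} : eLpNorm f p μ ^ p.toReal = ∫⁻ t, ‖f t‖ₑ ^ p.toReal ∂μ := by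
  have h0 : p ≠ 0 := (lt_of_lt_of_le one_pos hp1.out).ne'
  have h1 : 0 < p.toReal := lt_of_lt_of_le one_pos (toReal_one_le hp)
  rw [eLpNorm_eq_lintegral_rpow_enorm_toReal h0 hp, ← ENNReal.rpow_mul, one_div,
    inv_mul_cancel₀ h1.ne', ENNReal.rpow_one]

theorem sum_ind_rpow (hp : p ≠ ∞) {N : ℕ} {Q : ℕ → Set ℝ} {β : ℝ≥0∞} (hQ : Fam N Q β) (c : ℕ → ℝ)
    {w : ℝ → ℝ} (hw : ∀ t, |w t| ≤ 1) :
    eLpNorm (fun t => ∑ k ∈ Finset.range N, c k * (w t * (Q k).indicator (fun _ => 1) t)) p μ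
      ^ p.toReal ≤ ∑ k ∈ Finset.range N, ‖c k‖ₑ ^ p.toReal * μ (Q k) := by
  have h1 : 0 < p.toReal := lt_of_lt_of_le one_pos (toReal_one_le hp)
  rw [lint_rpow hp]
  calc ∫⁻ t, ‖∑ k ∈ Finset.range N, c k * (w t * (Q k).indicator (fun _ => 1) t)‖ₑ ^ p.toReal ∂μ
      ≤ ∫⁻ t, ∑ k ∈ Finset.range N, (Q k).indicator (fun _ => ‖c k‖ₑ ^ p.toReal) t ∂μ := by
        refine lintegral_mono fun t => ?_
        by_cases h : ∃ k ∈ Finset.range N, t ∈ Q k
        · obtain ⟨k, hk, ht⟩ := h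
          have h2 : ∑ k ∈ Finset.range N, c k * (w t * (Q k).indicator (fun _ => 1) t) = c k * w t := by
            rw [Finset.sum_eq_single_of_mem k hk, indicator_of_mem ht, mul_one]
            intro l hl hlk
            have : t ∉ Q l := fun h' => (Set.disjoint_left.1 (hQ.disj l (by simpa using hl) k
              (by simpa using hk) hlk)) h' ht
            rw [indicator_of_notMem this]; ring
          rw [h2]
          refine le_trans ?_ (Finset.single_le_sum (f := fun k => (Q k).indicator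
            (fun _ => ‖c k‖ₑ ^ p.toReal) t) (fun _ _ => zero_le) hk)
          show ‖c k * w t‖ₑ ^ p.toReal ≤ (Q k).indicator (fun _ => ‖c k‖ₑ ^ p.toReal) t
          rw [indicator_of_mem ht]
          refine ENNReal.rpow_le_rpow ?_ h1.le
          rw [← ofReal_norm, ← ofReal_norm]
          refine ENNReal.ofReal_le_ofReal ?_
          rw [norm_mul]
          exact mul_le_of_le_one_right (norm_nonneg _) (hw t)
        · push Not at h
          have h2 : ∑ k ∈ Finset.range N, c k * (w t * (Q k).indicator (fun _ => 1) t) = 0 := by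
            refine Finset.sum_eq_zero fun k hk => ?_
            rw [indicator_of_notMem (h k hk)]; ring
          rw [h2, enorm_zero, ENNReal.zero_rpow_of_pos h1]
          exact zero_le
    _ = ∑ k ∈ Finset.range N, ∫⁻ t, (Q k).indicator (fun _ => ‖c k‖ₑ ^ p.toReal) t ∂μ := by
        rw [lintegral_finsetSum']
        intro k hk
        exact (measurable_const.indicator (hQ.meas k (by simpa using hk))).aemeasurable
    _ = ∑ k ∈ Finset.range N, ‖c k‖ₑ ^ p.toReal * μ (Q k) := by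
        refine Finset.sum_congr rfl fun k hk => ?_
        rw [lintegral_indicator (hQ.meas k (by simpa using hk)), setLIntegral_const]

theorem coef_rpow (hp : p ≠ ∞) {A : Set ℝ} (hA : MeasurableSet A) {f : ℝ → ℝ} (hf : MemLp f p μ)
    {w : ℝ → ℝ} (hw : ∀ t, |w t| ≤ 1) :
    ‖∫ t, (w t * A.indicator (fun _ => 1) t) * f t ∂μ‖ₑ ^ p.toReal ≤
      μ A ^ (p.toReal - 1) * ∫⁻ t in A, ‖f t‖ₑ ^ p.toReal ∂μ := by
  have h1 : 0 < p.toReal := lt_of_lt_of_le one_pos (toReal_one_le hp)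
  have h0 : p ≠ 0 := (lt_of_lt_of_le one_pos hp1.out).ne'
  have h2 : ‖∫ t, (w t * A.indicator (fun _ => 1) t) * f t ∂μ‖ₑ ≤ ∫⁻ t in A, ‖f t‖ₑ ∂μ := by
    calc ‖∫ t, (w t * A.indicator (fun _ => 1) t) * f t ∂μ‖ₑ
        ≤ ∫⁻ t, ‖(w t * A.indicator (fun _ => 1) t) * f t‖ₑ ∂μ := enorm_integral_le_lintegral_enorm _
      _ ≤ ∫⁻ t, A.indicator (fun t => ‖f t‖ₑ) t ∂μ := by
          refine lintegral_mono fun t => ?_
          by_cases ht : t ∈ A
          · simp only [indicator_of_mem ht]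
            rw [← ofReal_norm, ← ofReal_norm]
            refine ENNReal.ofReal_le_ofReal ?_
            rw [norm_mul, mul_one]
            exact mul_le_of_le_one_left (norm_nonneg _) (hw t)
          · simp [indicator_of_notMem ht]
      _ = ∫⁻ t in A, ‖f t‖ₑ ∂μ := lintegral_indicator hA _
  have h3 : ∫⁻ t in A, ‖f t‖ₑ ∂μ = eLpNorm f 1 (μ.restrict A) := eLpNorm_one_eq_lintegral_enorm.symm
  have h4 := eLpNorm_le_eLpNorm_mul_rpow_measure_univ (μ := μ.restrict A) hp1.out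
    (hf.1.mono_measure Measure.restrict_le_self)
  calc ‖∫ t, (w t * A.indicator (fun _ => 1) t) * f t ∂μ‖ₑ ^ p.toReal
      ≤ (eLpNorm f p (μ.restrict A) * (μ.restrict A) univ ^ (1 / (1 : ℝ≥0∞).toReal - 1 / p.toReal))
        ^ p.toReal := ENNReal.rpow_le_rpow (h2.trans (h3.le.trans h4)) h1.le
    _ = μ A ^ (p.toReal - 1) * ∫⁻ t in A, ‖f t‖ₑ ^ p.toReal ∂μ := by
        rw [ENNReal.mul_rpow_of_nonneg _ _ h1.le, ← ENNReal.rpow_mul, Measure.restrict_apply_univ,
          eLpNorm_eq_lintegral_rpow_enorm_toReal h0 hp, ← ENNReal.rpow_mul, one_div,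
          inv_mul_cancel₀ h1.ne', ENNReal.rpow_one, mul_comm]
        congr 2
        simp only [ENNReal.toReal_one, div_one]
        field_simp

/-- block operator -/
def blk (p : ℝ≥0∞) [Fact (1 ≤ p)] (N : ℕ) (P Q : ℕ → Set ℝ) (w₁ w₂ : ℝ → ℝ) : LL p →L[ℝ] LL p :=
  ∑ k ∈ Finset.range N, (igc p (fun t => w₁ t * (P k).indicator (fun _ => 1) t)).smulRight
    (cl p (fun t => w₂ t * (Q k).indicator (fun _ => 1) t))

theorem blk_apply (N : ℕ) (P Q : ℕ → Set ℝ) (w₁ w₂ : ℝ → ℝ) (f : LL p) :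
    blk p N P Q w₁ w₂ f = ∑ k ∈ Finset.range N, (igc p (fun t => w₁ t * (P k).indicator (fun _ => 1) t) f) •
      (cl p (fun t => w₂ t * (Q k).indicator (fun _ => 1) t)) := by
  simp [blk]

theorem Bd.mul_ind {w : ℝ → ℝ} (hw : Bd w) {A : Set ℝ} (hA : MeasurableSet A) :
    Bd (fun t => w t * A.indicator (fun _ => 1) t) := hw.mul (Bd.ind hA)

theorem norm_blk_le (hp : p ≠ ∞) {N : ℕ} {P Q : ℕ → Set ℝ} {w₁ w₂ : ℝ → ℝ} {α β : ℝ≥0∞}
    (hα : α ≠ ∞) (hβ : β ≠ ∞) (hP : Fam N P α) (hQ : Fam N Q β)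
    (hw₁ : Measurable w₁) (hw₂ : Measurable w₂) (h₁ : ∀ t, |w₁ t| ≤ 1) (h₂ : ∀ t, |w₂ t| ≤ 1) :
    ‖blk p N P Q w₁ w₂‖ ≤ (α ^ (1 - 1 / p.toReal) * β ^ (1 / p.toReal)).toReal := by
  have h1 : 0 < p.toReal := lt_of_lt_of_le one_pos (toReal_one_le hp)
  have h1' : 1 / p.toReal ≤ 1 := (div_le_one h1).2 (toReal_one_le hp)
  have hfin : α ^ (1 - 1 / p.toReal) * β ^ (1 / p.toReal) ≠ ∞ := by
    refine ENNReal.mul_ne_top (ENNReal.rpow_ne_top_of_nonneg (by linarith) hα)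
      (ENNReal.rpow_ne_top_of_nonneg (by positivity) hβ)
  refine ContinuousLinearMap.opNorm_le_bound _ ENNReal.toReal_nonneg fun f => ?_
  have hb₁ : Bd w₁ := ⟨hw₁, 1, h₁⟩
  have hb₂ : Bd w₂ := ⟨hw₂, 1, h₂⟩
  set c : ℕ → ℝ := fun k => igc p (fun t => w₁ t * (P k).indicator (fun _ => 1) t) f with hc
  have hmem : ∀ k ∈ Finset.range N, MemLp (fun t => w₂ t * (Q k).indicator (fun _ => 1) t) p μ :=
    fun k hk => (hb₂.mul_ind (hQ.meas k (by simpa using hk))).memLp p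
  have e1 : blk p N P Q w₁ w₂ f =
      cl p (fun t => ∑ k ∈ Finset.range N, c k * (w₂ t * (Q k).indicator (fun _ => 1) t)) := by
    rw [blk_apply, cl_sum _ (fun k hk => (hmem k hk).const_mul _)]
    exact Finset.sum_congr rfl fun k hk => (cl_smul _ (hmem k hk)).symm
  rw [e1, norm_cl (memLp_finsetSum _ fun k hk => (hmem k hk).const_mul _), Lp.norm_def,
    ← ENNReal.toReal_mul]
  refine ENNReal.toReal_mono (ENNReal.mul_ne_top hfin (Lp.eLpNorm_ne_top f)) ?_
  rw [← ENNReal.rpow_le_rpow_iff h1]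
  calc _ ≤ ∑ k ∈ Finset.range N, ‖c k‖ₑ ^ p.toReal * μ (Q k) := sum_ind_rpow hp hQ c h₂
    _ ≤ ∑ k ∈ Finset.range N, (α ^ (p.toReal - 1) * ∫⁻ t in P k, ‖f t‖ₑ ^ p.toReal ∂μ) * β := by
        refine Finset.sum_le_sum fun k hk => ?_
        have hk' : k < N := by simpa using hk
        refine mul_le_mul' ?_ (hQ.le k hk')
        rw [hc]
        simp only
        rw [igc_apply (hb₁.mul_ind (hP.meas k hk'))]
        refine (coef_rpow hp (hP.meas k hk') (Lp.memLp f) h₁).trans ?_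
        refine mul_le_mul' (ENNReal.rpow_le_rpow (hP.le k hk') ?_) le_rfl
        linarith [toReal_one_le (p := p) hp]
    _ = α ^ (p.toReal - 1) * β * ∑ k ∈ Finset.range N, ∫⁻ t in P k, ‖f t‖ₑ ^ p.toReal ∂μ := by
        rw [Finset.mul_sum]
        exact Finset.sum_congr rfl fun k _ => by ring
    _ ≤ α ^ (p.toReal - 1) * β * ∫⁻ t, ‖f t‖ₑ ^ p.toReal ∂μ := by
        refine mul_le_mul' le_rfl ?_
        rw [← lintegral_biUnion_finset hP.disjF (fun k hk => hP.meas k (by simpa using hk))]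
        exact setLIntegral_le_lintegral _ _
    _ = (α ^ (1 - 1 / p.toReal) * β ^ (1 / p.toReal) * eLpNorm f p μ) ^ p.toReal := by
        rw [← lint_rpow hp, ENNReal.mul_rpow_of_nonneg _ _ h1.le, ENNReal.mul_rpow_of_nonneg _ _ h1.le,
          ← ENNReal.rpow_mul, ← ENNReal.rpow_mul, one_div, inv_mul_cancel₀ h1.ne', ENNReal.rpow_one,
          sub_mul, one_mul, inv_mul_cancel₀ h1.ne']

end Pool.Agent.Helper89.Haar
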