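import Mathlib

/-!
Random signs for a quadratic form without diagonal (problem MP_e03f8f_an).
-/

set_option autoImplicit false
set_option linter.unusedSectionVars false

namespace Pool.Agent.Helper89.Haar

section
variable {ι : Type} [Fintype ι] [DecidableEq ι]

/-- real value of a sign -/
noncomputable def sg (e : ℤˣ) : ℝ := ((e : ℤ) : ℝ)

theorem sg_or (e : ℤˣ) : sg e = 1 ∨ sg e = -1 := by
  rcases Int.units_eq_one_or e with rfl | rfl
  · left; simp [sg]
  · right; simp [sg]

theorem sg_sq (e : ℤˣ) : sg e * sg e = 1 := by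
  rcases sg_or e with h | h <;> rw [h] <;> norm_num

theorem sg_neg (e : ℤˣ) : sg (-e) = - sg e := by simp [sg]

/-- flipping one coordinate -/
def flip (a : ι) : (ι → ℤˣ) ≃ (ι → ℤˣ) where
  toFun e := Function.update e a (- e a)
  invFun e := Function.update e a (- e a)
  left_inv e := by ext i; by_cases h : i = a <;> simp [h, Function.update]
  right_inv e := by ext i; by_cases h : i = a <;> simp [h, Function.update]

theorem sum_flip (a : ι) (F : (ι → ℤˣ) → ℝ) (h : ∀ e, F (flip a e) = - F e) : ∑ e, F e = 0 := by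
  have h1 : ∑ e, F e = ∑ e, F (flip a e) := (Equiv.sum_comp (flip a) F).symm
  simp only [h, Finset.sum_neg_distrib] at h1
  linarith

theorem flip_same (a : ι) (e : ι → ℤˣ) : sg (flip a e a) = - sg (e a) := by
  simp [flip, sg_neg]

theorem flip_ne {a i : ι} (h : i ≠ a) (e : ι → ℤˣ) : sg (flip a e i) = sg (e i) := by
  simp [flip, Function.update, h]

theorem four (i j k l : ι) (hij : i ≠ j) (hkl : k ≠ l) :
    ∑ e : ι → ℤˣ, (sg (e i) * sg (e j)) * (sg (e k) * sg (e l)) =
      if (k = i ∧ l = j) ∨ (k = j ∧ l = i) then (Fintype.card (ι → ℤˣ) : ℝ) else 0 := by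
  split_ifs with h
  · have : ∀ e : ι → ℤˣ, (sg (e i) * sg (e j)) * (sg (e k) * sg (e l)) = 1 := by
      intro e
      rcases h with ⟨rfl, rfl⟩ | ⟨rfl, rfl⟩
      · linear_combination (sg (e l) * sg (e l)) * sg_sq (e k) + sg_sq (e l)
      · linear_combination (sg (e l) * sg (e l)) * sg_sq (e k) + sg_sq (e l)
    simp [this]
  · by_cases h1 : i = k
    · subst h1
      have hjl : l ≠ j := fun h' => h (Or.inl ⟨rfl, h'⟩)
      apply sum_flip j
      intro e
      rw [flip_same, flip_ne hij, flip_ne hjl]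
      ring
    · by_cases h2 : i = l
      · subst h2
        have hjk : k ≠ j := fun h' => h (Or.inr ⟨h', rfl⟩)
        apply sum_flip j
        intro e
        rw [flip_same, flip_ne hij, flip_ne hjk]
        ring
      · apply sum_flip i
        intro e
        rw [flip_same, flip_ne (Ne.symm hij), flip_ne (Ne.symm h1), flip_ne (Ne.symm h2)]
        ring

/-- off-diagonal quadratic form -/
noncomputable def Qf (y : ι × ι → ℝ) (e : ι → ℤˣ) : ℝ :=
  ∑ a, y a * (sg (e a.1) * sg (e a.2))

theorem sum_Qf_sq (y : ι × ι → ℝ) (hy : ∀ i, y (i, i) = 0) :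
    ∑ e : ι → ℤˣ, (Qf y e) ^ 2 ≤ (Fintype.card (ι → ℤˣ) : ℝ) * (2 * ∑ a, (y a) ^ 2) := by
  have e1 : ∀ e : ι → ℤˣ, (Qf y e) ^ 2 = ∑ a, ∑ b,
      (y a * y b) * ((sg (e a.1) * sg (e a.2)) * (sg (e b.1) * sg (e b.2))) := by
    intro e
    rw [Qf, pow_two, Finset.sum_mul_sum]
    refine Finset.sum_congr rfl fun a _ => Finset.sum_congr rfl fun b _ => ?_
    ring
  simp only [e1]
  rw [Finset.sum_comm]
  set c : ℝ := (Fintype.card (ι → ℤˣ) : ℝ) with hc
  have hc0 : 0 ≤ c := by positivity
  have e2 : ∀ a : ι × ι, ∑ e : ι → ℤˣ, ∑ b,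
      (y a * y b) * ((sg (e a.1) * sg (e a.2)) * (sg (e b.1) * sg (e b.2))) ≤
      c * (y a ^ 2 + |y a * y a.swap|) := by
    intro a
    rw [Finset.sum_comm]
    simp only [← Finset.mul_sum]
    by_cases ha : a.1 = a.2
    · have h0 : y a = 0 := by
        have := hy a.1
        rwa [show (a.1, a.1) = a from Prod.ext rfl ha] at this
      simp [h0]
    · have e3 : ∀ b : ι × ι, (y a * y b) * ∑ e : ι → ℤˣ,
          ((sg (e a.1) * sg (e a.2)) * (sg (e b.1) * sg (e b.2))) =
          (if b = a then c * (y a * y a) else 0) + (if b = a.swap then c * (y a * y a.swap) else 0) := by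
        intro b
        by_cases hb : b.1 = b.2
        · have h0 : y b = 0 := by
            have := hy b.1
            rwa [show (b.1, b.1) = b from Prod.ext rfl hb] at this
          have hba : b ≠ a := fun h => ha (h ▸ hb)
          have hbs : b ≠ a.swap := fun h => by
            rw [h] at hb; exact ha hb.symm
          simp [h0, hba, hbs]
        · rw [four a.1 a.2 b.1 b.2 ha hb]
          by_cases h1 : b = a
          · subst h1
            have h2 : b ≠ b.swap := fun h => hb (by simpa using congrArg Prod.fst h)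
            simp only [and_self, true_or, if_true, h2, if_false, add_zero]
            ring
          · by_cases h2 : b = a.swap
            · subst h2
              simp only [Prod.fst_swap, Prod.snd_swap, and_self, or_true, if_true, h1, if_false, zero_add]
              ring
            · rw [if_neg, if_neg h1, if_neg h2]
              · ring
              · rintro (⟨h3, h4⟩ | ⟨h3, h4⟩)
                · exact h1 (Prod.ext h3 h4)
                · exact h2 (Prod.ext h3 h4)
      simp only [e3, Finset.sum_add_distrib, Finset.sum_ite_eq', Finset.mem_univ, if_true]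
      have := le_abs_self (y a * y a.swap)
      nlinarith
  calc _ ≤ ∑ a : ι × ι, c * (y a ^ 2 + |y a * y a.swap|) := Finset.sum_le_sum fun a _ => e2 a
    _ ≤ ∑ a : ι × ι, c * (y a ^ 2 + (y a ^ 2 / 2 + y a.swap ^ 2 / 2)) := by
        refine Finset.sum_le_sum fun a _ => mul_le_mul_of_nonneg_left ?_ hc0
        have h1 : |y a * y a.swap| ≤ y a ^ 2 / 2 + y a.swap ^ 2 / 2 := by
          rw [abs_mul]
          nlinarith [sq_nonneg (|y a| - |y a.swap|), sq_abs (y a), sq_abs (y a.swap)]
        linarith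
    _ = c * (2 * ∑ a, (y a) ^ 2) := by
        rw [← Finset.mul_sum]
        congr 1
        simp only [Finset.sum_add_distrib]
        have h1 : ∑ a : ι × ι, y a.swap ^ 2 / 2 = ∑ a : ι × ι, y a ^ 2 / 2 :=
          Equiv.sum_comp (Equiv.prodComm ι ι) (fun a => y a ^ 2 / 2)
        rw [h1, ← Finset.sum_div]
        ring

theorem exists_signs {J : Type} [Fintype J] (y : J → ι × ι → ℝ) (hy : ∀ c i, y c (i, i) = 0) :
    ∃ e : ι → ℤˣ, ∑ c, (Qf (y c) e) ^ 2 ≤ 2 * ∑ c, ∑ a, (y c a) ^ 2 := by
  obtain ⟨e, -, he⟩ := Finset.exists_le_of_sum_le (s := (Finset.univ : Finset (ι → ℤˣ)))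
    (f := fun e => ∑ c, (Qf (y c) e) ^ 2) (g := fun _ => 2 * ∑ c, ∑ a, (y c a) ^ 2)
    Finset.univ_nonempty (by
      rw [Finset.sum_comm, Finset.sum_const, Finset.card_univ, nsmul_eq_mul]
      calc _ ≤ ∑ c, (Fintype.card (ι → ℤˣ) : ℝ) * (2 * ∑ a, (y c a) ^ 2) :=
            Finset.sum_le_sum fun c _ => sum_Qf_sq (y c) (hy c)
        _ = _ := by
            rw [← Finset.mul_sum, ← Finset.mul_sum])
  exact ⟨e, he⟩

end
end Pool.Agent.Helper89.Haar
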