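import Pool.Agent.Helper89.Haar.OpLim
import Pool.Agent.Helper89.Haar.Signs

/-!
Haar functions and the off-diagonal bound (problem MP_e03f8f_an).
-/

set_option autoImplicit false
set_option linter.unusedSectionVars false

open MeasureTheory Filter Topology Set
open scoped ENNReal NNReal

noncomputable section

namespace Pool.Agent.Helper89.Haar

/-- Rademacher functions -/
def rad (n : ℕ) (t : ℝ) : ℝ := if qq n t % 2 = 0 then 1 else -1

theorem rad_or (n : ℕ) (t : ℝ) : rad n t = 1 ∨ rad n t = -1 := by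
  unfold rad; split_ifs <;> simp

theorem abs_rad (n : ℕ) (t : ℝ) : |rad n t| = 1 := by
  rcases rad_or n t with h | h <;> rw [h] <;> simp

theorem meas_rad (n : ℕ) : Measurable (rad n) := by
  have : Measurable fun k : ℕ => if k % 2 = 0 then (1 : ℝ) else -1 := measurable_from_top
  exact this.comp (meas_qq n)

theorem bd_rad (n : ℕ) : Bd (rad n) := ⟨meas_rad n, 1, fun t => (abs_rad n t).le⟩

/-- Haar function -/
def hh (K : ℕ × ℕ) (t : ℝ) : ℝ := rad (K.1 + 1) t * (I K.1 K.2).indicator (fun _ => 1) t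

theorem bd_hh (K : ℕ × ℕ) : Bd (hh K) := (bd_rad _).mul_ind (meas_I _ _)

theorem abs_hh_le (K : ℕ × ℕ) (t : ℝ) : |hh K t| ≤ 1 := by
  rw [hh, abs_mul, abs_rad, one_mul]
  by_cases h : t ∈ I K.1 K.2 <;> simp [h]

variable {p : ℝ≥0∞} [hp1 : Fact (1 ≤ p)]

theorem real_mu_I {n k : ℕ} (hk : k < 2 ^ n) : μ.real (I n k) = ((2 : ℝ) ^ n)⁻¹ := by
  rw [Measure.real, mu_I hk, ENNReal.toReal_ofReal (by positivity)]

theorem holder (hp : p ≠ ∞) (f : LL p) {A : Set ℝ} (hA : MeasurableSet A) {w : ℝ → ℝ}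
    (hw : ∀ t, |w t| ≤ 1) :
    |∫ t, (w t * A.indicator (fun _ => 1) t) * f t ∂μ| ≤ ‖f‖ * μ.real A ^ (1 - 1 / p.toReal) := by
  have h1 : 0 < p.toReal := lt_of_lt_of_le one_pos (toReal_one_le hp)
  have h1' : 1 / p.toReal ≤ 1 := (div_le_one h1).2 (toReal_one_le hp)
  have h := coef_rpow hp hA (Lp.memLp f) hw
  have h2 : ‖∫ t, (w t * A.indicator (fun _ => 1) t) * f t ∂μ‖ₑ ≤
      μ A ^ (1 - 1 / p.toReal) * eLpNorm f p μ := by
    rw [← ENNReal.rpow_le_rpow_iff h1]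
    refine h.trans ?_
    rw [ENNReal.mul_rpow_of_nonneg _ _ h1.le, lint_rpow hp, ← ENNReal.rpow_mul]
    have e1 : (1 - 1 / p.toReal) * p.toReal = p.toReal - 1 := by field_simp
    rw [e1]
    exact mul_le_mul' le_rfl (setLIntegral_le_lintegral _ _)
  have hfin : μ A ^ (1 - 1 / p.toReal) * eLpNorm f p μ ≠ ∞ :=
    ENNReal.mul_ne_top (ENNReal.rpow_ne_top_of_nonneg (by linarith) (measure_ne_top _ _))
      (Lp.eLpNorm_ne_top f)
  have h3 := ENNReal.toReal_mono hfin h2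
  rw [toReal_enorm, ENNReal.toReal_mul, ← ENNReal.toReal_rpow, Real.norm_eq_abs] at h3
  rw [Lp.norm_def, mul_comm]
  exact h3

theorem norm_cl_ind_le (hp : p ≠ ∞) {A : Set ℝ} (hA : MeasurableSet A) {w : ℝ → ℝ}
    (hwm : Measurable w) (hw : ∀ t, |w t| ≤ 1) :
    ‖cl p (fun t => w t * A.indicator (fun _ => 1) t)‖ ≤ μ.real A ^ (1 / p.toReal) := by
  have h1 : 0 < p.toReal := lt_of_lt_of_le one_pos (toReal_one_le hp)
  have hF : Fam 1 (fun _ => A) (μ A) := ⟨fun _ _ => hA, fun k hk l hl h => by omega, fun _ _ => le_rfl⟩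
  have h := sum_ind_rpow hp hF (fun _ => 1) hw
  simp only [Finset.range_one, Finset.sum_singleton, one_mul, enorm_one, ENNReal.one_rpow] at h
  have hb : Bd w := ⟨hwm, 1, hw⟩
  rw [norm_cl ((hb.mul_ind hA).memLp p)]
  have h2 : eLpNorm (fun t => w t * A.indicator (fun _ => 1) t) p μ ≤ μ A ^ (1 / p.toReal) := by
    rw [← ENNReal.rpow_le_rpow_iff h1, ← ENNReal.rpow_mul, one_div, inv_mul_cancel₀ h1.ne',
      ENNReal.rpow_one]
    exact h
  have h3 := ENNReal.toReal_mono (ENNReal.rpow_ne_top_of_nonneg (by positivity) (measure_ne_top _ _)) h2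
  rwa [← ENNReal.toReal_rpow] at h3

/-- matrix entries -/
def xx (T : LL p →L[ℝ] LL p) (K K' : ℕ × ℕ) : ℝ := igc p (hh K') (T (cl p (hh K)))

/-- size -/
def sz (K : ℕ × ℕ) : ℝ := ((2 : ℝ) ^ K.1)⁻¹

theorem sz_pos (K : ℕ × ℕ) : 0 < sz K := by unfold sz; positivity

/-- finite families of pairwise disjoint dyadic cells of level at least `m` -/
structure Cells (m : ℕ) (C : Finset (ℕ × ℕ)) : Prop where
  lev : ∀ K ∈ C, m ≤ K.1
  lt : ∀ K ∈ C, K.2 < 2 ^ K.1
  disj : ∀ K ∈ C, ∀ L ∈ C, K ≠ L → Disjoint (I K.1 K.2) (I L.1 L.2)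

theorem Cells.pd {m : ℕ} {C : Finset (ℕ × ℕ)} (h : Cells m C) :
    (↑C : Set (ℕ × ℕ)).PairwiseDisjoint (fun K => I K.1 K.2) :=
  fun K hK L hL hKL => h.disj K hK L hL hKL

theorem Cells.sum_sz {m : ℕ} {C : Finset (ℕ × ℕ)} (h : Cells m C) : ∑ K ∈ C, sz K ≤ 1 := by
  have h1 : μ.real (⋃ K ∈ C, I K.1 K.2) = ∑ K ∈ C, μ.real (I K.1 K.2) :=
    measureReal_biUnion_finset h.pd (fun K _ => meas_I _ _)
  calc ∑ K ∈ C, sz K = ∑ K ∈ C, μ.real (I K.1 K.2) :=
        Finset.sum_congr rfl fun K hK => (real_mu_I (h.lt K hK)).symm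
    _ = μ.real (⋃ K ∈ C, I K.1 K.2) := h1.symm
    _ ≤ 1 := by
        exact measureReal_le_one

theorem Cells.sum_abs {m : ℕ} {C : Finset (ℕ × ℕ)} (h : Cells m C) (f : LL p) :
    ∑ K ∈ C, |igc p (hh K) f| ≤ ‖f‖ := by
  have hfi : Integrable f μ := integrable_coe f
  calc ∑ K ∈ C, |igc p (hh K) f| ≤ ∑ K ∈ C, ∫ t in I K.1 K.2, |f t| ∂μ := by
        refine Finset.sum_le_sum fun K _ => ?_
        rw [igc_apply (bd_hh K), ← integral_indicator (meas_I _ _)]
        refine abs_integral_le_integral_abs.trans ?_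
        refine integral_mono ((bd_hh K).mul_integrable hfi).abs
          (hfi.abs.indicator (meas_I _ _)) fun t => ?_
        show |hh K t * f t| ≤ _
        by_cases ht : t ∈ I K.1 K.2
        · rw [indicator_of_mem ht, abs_mul]
          exact mul_le_of_le_one_left (abs_nonneg _) (abs_hh_le K t)
        · rw [indicator_of_notMem ht, hh, indicator_of_notMem ht]
          simp
    _ = ∫ t in ⋃ K ∈ C, I K.1 K.2, |f t| ∂μ := by
        rw [integral_biUnion_finset C (fun K _ => meas_I _ _) h.pd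
          (fun K _ => hfi.abs.integrableOn)]
    _ ≤ ∫ t, |f t| ∂μ := setIntegral_le_integral hfi.abs (Eventually.of_forall fun t => abs_nonneg _)
    _ ≤ ‖f‖ := integral_abs_le f

theorem holder_hh (hp : p ≠ ∞) (f : LL p) {K : ℕ × ℕ} (hK : K.2 < 2 ^ K.1) :
    |igc p (hh K) f| ≤ ‖f‖ * sz K ^ (1 - 1 / p.toReal) := by
  have h := holder hp f (meas_I K.1 K.2) (w := rad (K.1 + 1)) (fun t => (abs_rad _ t).le)
  rw [real_mu_I hK] at h
  rw [igc_apply (bd_hh K)]
  exact h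

theorem norm_hh_le (hp : p ≠ ∞) {K : ℕ × ℕ} (hK : K.2 < 2 ^ K.1) :
    ‖cl p (hh K)‖ ≤ sz K ^ (1 / p.toReal) := by
  have h := norm_cl_ind_le hp (meas_I K.1 K.2) (w := rad (K.1 + 1)) (meas_rad _)
    (fun t => (abs_rad _ t).le)
  rw [real_mu_I hK] at h
  exact h

theorem abs_xx_le (hp : p ≠ ∞) (T : LL p →L[ℝ] LL p) {K K' : ℕ × ℕ} (hK : K.2 < 2 ^ K.1)
    (hK' : K'.2 < 2 ^ K'.1) :
    |xx T K K'| ≤ ‖T‖ * sz K ^ (1 / p.toReal) * sz K' ^ (1 - 1 / p.toReal) := by
  refine (holder_hh hp _ hK').trans ?_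
  refine mul_le_mul_of_nonneg_right ?_ (Real.rpow_nonneg (sz_pos _).le _)
  exact (T.le_opNorm _).trans (mul_le_mul_of_nonneg_left (norm_hh_le hp hK) (norm_nonneg _))

theorem sum_xx_right (hp : p ≠ ∞) (T : LL p →L[ℝ] LL p) {m : ℕ} {C : Finset (ℕ × ℕ)} (h : Cells m C)
    {K : ℕ × ℕ} (hK : K.2 < 2 ^ K.1) :
    ∑ K' ∈ C, |xx T K K'| ≤ ‖T‖ * sz K ^ (1 / p.toReal) := by
  refine (h.sum_abs _).trans ?_
  exact (T.le_opNorm _).trans (mul_le_mul_of_nonneg_left (norm_hh_le hp hK) (norm_nonneg _))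

theorem Cells.norm_sum_le {m : ℕ} {C : Finset (ℕ × ℕ)} (h : Cells m C) (s : ℕ × ℕ → ℝ)
    (hs : ∀ K, |s K| ≤ 1) : ‖∑ K ∈ C, s K • cl p (hh K)‖ ≤ 1 := by
  have e : ∑ K ∈ C, s K • cl p (hh K) = cl p (fun t => ∑ K ∈ C, s K * hh K t) := by
    rw [cl_sum _ (fun K _ => ((bd_hh K).memLp p).const_mul _)]
    exact Finset.sum_congr rfl fun K _ => (cl_smul _ ((bd_hh K).memLp p)).symm
  rw [e]
  refine norm_cl_le (Bd.sum C (fun K _ => (Bd.const (s K)).mul (bd_hh K))).meas zero_le_one fun t => ?_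
  by_cases hex : ∃ K ∈ C, t ∈ I K.1 K.2
  · obtain ⟨K, hK, ht⟩ := hex
    rw [Finset.sum_eq_single_of_mem K hK, abs_mul]
    · exact mul_le_one₀ (hs K) (abs_nonneg _) (abs_hh_le K t)
    · intro L hL hLK
      have : t ∉ I L.1 L.2 := fun h' => (Set.disjoint_left.1 (h.disj L hL K hK hLK)) h' ht
      rw [hh, indicator_of_notMem this]; simp
  · push Not at hex
    rw [Finset.sum_eq_zero, abs_zero]
    · exact zero_le_one
    · intro K hK
      rw [hh, indicator_of_notMem (hex K hK)]; simp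

theorem sum_xx_left (hp : p ≠ ∞) (T : LL p →L[ℝ] LL p) {m : ℕ} {C : Finset (ℕ × ℕ)} (h : Cells m C)
    {K' : ℕ × ℕ} (hK' : K'.2 < 2 ^ K'.1) :
    ∑ K ∈ C, |xx T K K'| ≤ ‖T‖ * sz K' ^ (1 - 1 / p.toReal) := by
  set s : ℕ × ℕ → ℝ := fun K => if 0 ≤ xx T K K' then 1 else -1 with hs
  have e1 : ∑ K ∈ C, |xx T K K'| = igc p (hh K') (T (∑ K ∈ C, s K • cl p (hh K))) := by
    rw [map_sum, map_sum]
    refine Finset.sum_congr rfl fun K _ => ?_
    rw [map_smul, map_smul, smul_eq_mul]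
    show _ = s K * xx T K K'
    simp only [hs]
    split_ifs with h0
    · rw [abs_of_nonneg h0, one_mul]
    · rw [abs_of_neg (not_le.1 h0)]; ring
  rw [e1]
  refine (le_abs_self _).trans ((holder_hh hp _ hK').trans ?_)
  refine mul_le_mul_of_nonneg_right ?_ (Real.rpow_nonneg (sz_pos _).le _)
  refine (T.le_opNorm _).trans ?_
  refine mul_le_of_le_one_right (norm_nonneg _) ?_
  refine h.norm_sum_le s fun K => ?_
  simp only [hs]
  split_ifs <;> simp

theorem sz_le {m : ℕ} {C : Finset (ℕ × ℕ)} (h : Cells m C) {K : ℕ × ℕ} (hK : K ∈ C) :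
    sz K ≤ ((2 : ℝ) ^ m)⁻¹ := by
  unfold sz
  have := h.lev K hK
  gcongr
  norm_num

/-- The off-diagonal bound. -/
theorem sum_xx_sq (hp : p ≠ ∞) (T : LL p →L[ℝ] LL p) {m : ℕ} {C : Finset (ℕ × ℕ)} (h : Cells m C) :
    ∑ K ∈ C, ∑ K' ∈ C, xx T K K' ^ 2 ≤ ‖T‖ ^ 2 * (((2 : ℝ) ^ m)⁻¹) ^ (1 / 2 : ℝ) := by
  have hr1 := toReal_one_le (p := p) hp
  set r := p.toReal with hr
  set a : ℝ := ((2 : ℝ) ^ m)⁻¹ with ha
  have ha0 : 0 < a := by positivity
  have ha1 : a ≤ 1 := by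
    rw [ha]; exact inv_le_one_of_one_le₀ (one_le_pow₀ (by norm_num))
  have hT := norm_nonneg T
  have hr0 : 0 < r := by linarith
  have hinv : 0 < 1 / r := by positivity
  have hinv1 : 1 / r ≤ 1 := (div_le_one hr0).2 hr1
  rcases le_total r 2 with h2 | h2
  · have hinv2 : 1 / 2 ≤ 1 / r := one_div_le_one_div_of_le hr0 h2
    calc ∑ K ∈ C, ∑ K' ∈ C, xx T K K' ^ 2
        ≤ ∑ K ∈ C, ∑ K' ∈ C, |xx T K K'| * (‖T‖ * sz K ^ (1 / r) * a ^ (1 - 1 / r)) := by
          refine Finset.sum_le_sum fun K hK => Finset.sum_le_sum fun K' hK' => ?_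
          rw [← sq_abs, pow_two]
          refine mul_le_mul_of_nonneg_left ?_ (abs_nonneg _)
          refine (abs_xx_le hp T (h.lt K hK) (h.lt K' hK')).trans ?_
          refine mul_le_mul_of_nonneg_left ?_ (mul_nonneg hT (Real.rpow_nonneg (sz_pos _).le _))
          exact Real.rpow_le_rpow (sz_pos _).le (sz_le h hK') (by linarith)
      _ ≤ ∑ K ∈ C, (‖T‖ * sz K ^ (1 / r)) * (‖T‖ * sz K ^ (1 / r) * a ^ (1 - 1 / r)) := by
          refine Finset.sum_le_sum fun K hK => ?_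
          rw [← Finset.sum_mul]
          refine mul_le_mul_of_nonneg_right (sum_xx_right hp T h (h.lt K hK)) ?_
          exact mul_nonneg (mul_nonneg hT (Real.rpow_nonneg (sz_pos _).le _)) (Real.rpow_nonneg ha0.le _)
      _ ≤ ∑ K ∈ C, ‖T‖ ^ 2 * a ^ (1 / 2 : ℝ) * sz K := by
          refine Finset.sum_le_sum fun K hK => ?_
          have e1 : (‖T‖ * sz K ^ (1 / r)) * (‖T‖ * sz K ^ (1 / r) * a ^ (1 - 1 / r)) =
              ‖T‖ ^ 2 * (sz K ^ (1 / r) * sz K ^ (1 / r) * a ^ (1 - 1 / r)) := by ring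
          rw [e1, mul_assoc (‖T‖ ^ 2) (a ^ (1 / 2 : ℝ)) (sz K)]
          refine mul_le_mul_of_nonneg_left ?_ (sq_nonneg _)
          have e2 : sz K ^ (1 / r) * sz K ^ (1 / r) = sz K * sz K ^ (2 / r - 1) := by
            rw [← Real.rpow_add (sz_pos K)]
            nth_rewrite 2 [← Real.rpow_one (sz K)]
            rw [← Real.rpow_add (sz_pos K)]
            congr 1
            ring
          have e3 : sz K ^ (2 / r - 1) ≤ a ^ (2 / r - 1) := by
            refine Real.rpow_le_rpow (sz_pos _).le (sz_le h hK) ?_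
            have : 2 / r = 2 * (1 / r) := by ring
            rw [this]; linarith
          calc sz K ^ (1 / r) * sz K ^ (1 / r) * a ^ (1 - 1 / r)
              ≤ (sz K * a ^ (2 / r - 1)) * a ^ (1 - 1 / r) := by
                rw [e2]
                refine mul_le_mul_of_nonneg_right ?_ (Real.rpow_nonneg ha0.le _)
                exact mul_le_mul_of_nonneg_left e3 (sz_pos _).le
            _ = sz K * a ^ (1 / r) := by
                rw [mul_assoc, ← Real.rpow_add ha0]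
                congr 2
                ring
            _ ≤ a ^ (1 / 2 : ℝ) * sz K := by
                rw [mul_comm]
                refine mul_le_mul_of_nonneg_right ?_ (sz_pos _).le
                exact Real.rpow_le_rpow_of_exponent_ge ha0 ha1 hinv2
      _ ≤ ‖T‖ ^ 2 * a ^ (1 / 2 : ℝ) := by
          rw [← Finset.mul_sum]
          exact mul_le_of_le_one_right (mul_nonneg (sq_nonneg _) (Real.rpow_nonneg ha0.le _)) h.sum_sz
  · have hinv2 : 1 / r ≤ 1 / 2 := one_div_le_one_div_of_le (by norm_num) h2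
    rw [Finset.sum_comm]
    calc ∑ K' ∈ C, ∑ K ∈ C, xx T K K' ^ 2
        ≤ ∑ K' ∈ C, ∑ K ∈ C, |xx T K K'| * (‖T‖ * a ^ (1 / r) * sz K' ^ (1 - 1 / r)) := by
          refine Finset.sum_le_sum fun K' hK' => Finset.sum_le_sum fun K hK => ?_
          rw [← sq_abs, pow_two]
          refine mul_le_mul_of_nonneg_left ?_ (abs_nonneg _)
          refine (abs_xx_le hp T (h.lt K hK) (h.lt K' hK')).trans ?_
          refine mul_le_mul_of_nonneg_right ?_ (Real.rpow_nonneg (sz_pos _).le _)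
          exact mul_le_mul_of_nonneg_left (Real.rpow_le_rpow (sz_pos _).le (sz_le h hK) hinv.le) hT
      _ ≤ ∑ K' ∈ C, (‖T‖ * sz K' ^ (1 - 1 / r)) * (‖T‖ * a ^ (1 / r) * sz K' ^ (1 - 1 / r)) := by
          refine Finset.sum_le_sum fun K' hK' => ?_
          rw [← Finset.sum_mul]
          refine mul_le_mul_of_nonneg_right (sum_xx_left hp T h (h.lt K' hK')) ?_
          exact mul_nonneg (mul_nonneg hT (Real.rpow_nonneg ha0.le _)) (Real.rpow_nonneg (sz_pos _).le _)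
      _ ≤ ∑ K' ∈ C, ‖T‖ ^ 2 * a ^ (1 / 2 : ℝ) * sz K' := by
          refine Finset.sum_le_sum fun K hK => ?_
          have e1 : (‖T‖ * sz K ^ (1 - 1 / r)) * (‖T‖ * a ^ (1 / r) * sz K ^ (1 - 1 / r)) =
              ‖T‖ ^ 2 * (sz K ^ (1 - 1 / r) * sz K ^ (1 - 1 / r) * a ^ (1 / r)) := by ring
          rw [e1, mul_assoc (‖T‖ ^ 2) (a ^ (1 / 2 : ℝ)) (sz K)]
          refine mul_le_mul_of_nonneg_left ?_ (sq_nonneg _)
          have e2 : sz K ^ (1 - 1 / r) * sz K ^ (1 - 1 / r) = sz K * sz K ^ (1 - 2 / r) := by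
            rw [← Real.rpow_add (sz_pos K)]
            nth_rewrite 2 [← Real.rpow_one (sz K)]
            rw [← Real.rpow_add (sz_pos K)]
            congr 1
            ring
          have e3 : sz K ^ (1 - 2 / r) ≤ a ^ (1 - 2 / r) := by
            refine Real.rpow_le_rpow (sz_pos _).le (sz_le h hK) ?_
            have : 2 / r = 2 * (1 / r) := by ring
            rw [this]; linarith
          calc sz K ^ (1 - 1 / r) * sz K ^ (1 - 1 / r) * a ^ (1 / r)
              ≤ (sz K * a ^ (1 - 2 / r)) * a ^ (1 / r) := by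
                rw [e2]
                refine mul_le_mul_of_nonneg_right ?_ (Real.rpow_nonneg ha0.le _)
                exact mul_le_mul_of_nonneg_left e3 (sz_pos _).le
            _ = sz K * a ^ (1 - 1 / r) := by
                rw [mul_assoc, ← Real.rpow_add ha0]
                congr 2
                ring
            _ ≤ a ^ (1 / 2 : ℝ) * sz K := by
                rw [mul_comm]
                refine mul_le_mul_of_nonneg_right ?_ (sz_pos _).le
                exact Real.rpow_le_rpow_of_exponent_ge ha0 ha1 (by linarith)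
      _ ≤ ‖T‖ ^ 2 * a ^ (1 / 2 : ℝ) := by
          rw [← Finset.mul_sum]
          exact mul_le_of_le_one_right (mul_nonneg (sq_nonneg _) (Real.rpow_nonneg ha0.le _)) h.sum_sz

end Pool.Agent.Helper89.Haar
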