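import Pool.Agent.Helper89.Haar.Ops2

/-!
Reduction to `T = 1 + S` with `S` vanishing on the coordinates.
-/

set_option autoImplicit false
set_option linter.unusedSectionVars false

open MeasureTheory Filter Topology Set
open scoped ENNReal NNReal

noncomputable section

namespace Pool.Agent.Helper89.Haar

variable {p : ℕ → ℝ≥0∞} [hp1 : ∀ k, Fact (1 ≤ p k)]

theorem YY_pair {s σ : ℕ → ℝ → ℝ} {j k m : ℕ} (h : j.unpair = (k, m)) (i : ℕ) (z : ZZ p) :
    YY p s σ j i z = igc (p k) (fun t => s k t * bb σ k m i t) (z k) := by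
  have h1 : j.unpair.1 = k := by rw [h]
  have h2 : j.unpair.2 = m := by rw [h]
  subst h1; subst h2
  rfl

/-- the Haar array -/
def hz (p : ℕ → ℝ≥0∞) [∀ k, Fact (1 ≤ p k)] (j i : ℕ) : ZZ p :=
  inc j.unpair.1 (cl (p j.unpair.1) (HH j.unpair.2 i))

/-- the dual functionals -/
def hs (p : ℕ → ℝ≥0∞) [∀ k, Fact (1 ≤ p k)] (j i : ℕ) : ZZ p →L[ℝ] ℝ :=
  (igc (p j.unpair.1) (HH j.unpair.2 i)).comp (ev j.unpair.1)

theorem abs_hs_le (j i : ℕ) (z : ZZ p) : |hs p j i z| ≤ ‖z‖ := by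
  show |igc (p j.unpair.1) (HH j.unpair.2 i) (z j.unpair.1)| ≤ _
  refine (abs_igc_le (bd_HH _ _) (abs_HH_le _ _) _).trans ?_
  rw [one_mul]
  exact norm_coord_le z _

theorem hs_hz {j i j' i' : ℕ} (hi : i < 2 ^ (j.unpair.2 - 1)) (hi' : i' < 2 ^ (j'.unpair.2 - 1)) :
    hs p j' i' (hz p j i) = if j = j' ∧ i = i' then ((2 : ℝ) ^ (j.unpair.2 - 1))⁻¹ else 0 := by
  show igc (p j'.unpair.1) (HH j'.unpair.2 i') ((inc j.unpair.1 (cl (p j.unpair.1) (HH j.unpair.2 i)) : ZZ p) j'.unpair.1) = _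
  by_cases hk : j'.unpair.1 = j.unpair.1
  · rw [hk, inc_same, igc_cl (bd_HH _ _) ((bd_HH _ _).memLp _)]
    have e := int_HH (m := j.unpair.2) (i := i) (m' := j'.unpair.2) (i' := i') hi hi'
    have e2 : ∫ t, HH j'.unpair.2 i' t * HH j.unpair.2 i t ∂μ = ∫ t, HH j.unpair.2 i t * HH j'.unpair.2 i' t ∂μ :=
      integral_congr_ae (Eventually.of_forall fun t => mul_comm _ _)
    rw [e2, e]
    have e3 : j = j' ↔ j.unpair.2 = j'.unpair.2 := by
      constructor
      · rintro rfl; rfl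
      · intro h
        rw [← Nat.pair_unpair j, ← Nat.pair_unpair j', hk, h]
    simp only [e3]
  · rw [inc_ne hk, map_zero, if_neg]
    rintro ⟨rfl, -⟩
    exact hk rfl

theorem kill {E : Type*} [NormedAddCommGroup E] [NormedSpace ℝ E] {q : ℝ≥0∞} [Fact (1 ≤ q)] (hq : q ≠ ∞)
    (S : LL q →L[ℝ] E) (h : ∀ m i, i < 2 ^ (m - 1) → S (cl q (HH m i)) = 0) (x : LL q) : S x = 0 := by
  have h1 : ∀ n, ∀ i < 2 ^ n, S (uu q n i) = 0 := by
    intro n
    induction n with
    | zero =>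
      intro i hi
      have : i = 0 := by simpa using hi
      subst this
      rw [uu_zero]
      exact h 0 0 (by simp)
    | succ n ih =>
      intro i hi
      rw [pow_succ] at hi
      have hi2 : i / 2 < 2 ^ n := by omega
      have e1 := ih (i / 2) hi2
      have e2 := h (n + 1) (i / 2) (by simpa using hi2)
      rw [uu_add, map_add] at e1
      rw [uu_sub, map_sub, sub_eq_zero] at e2
      have e3 : S (uu q (n + 1) (2 * (i / 2))) = 0 := by
        rw [← e2, ← two_smul ℝ] at e1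
        exact (smul_eq_zero.1 e1).resolve_left (by norm_num)
      have e4 : S (uu q (n + 1) (2 * (i / 2) + 1)) = 0 := e2 ▸ e3
      rcases Nat.even_or_odd' i with ⟨c, hc | hc⟩
      · rw [show i = 2 * (i / 2) by omega]; exact e3
      · rw [show i = 2 * (i / 2) + 1 by omega]; exact e4
  have h2 : ∀ n, S (EE q n x) = 0 := by
    intro n
    rw [EE, smul_apply, blk_apply, map_smul, map_sum]
    rw [Finset.sum_eq_zero, smul_zero]
    intro i hi
    rw [map_smul]
    have := h1 n i (Finset.mem_range.1 hi)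
    unfold uu at this
    rw [this, smul_zero]
  have h3 : Tendsto (fun n => S (EE q n x)) atTop (𝓝 (S x)) :=
    (S.continuous.tendsto _).comp (EE_tendsto hq x)
  simp only [h2] at h3
  exact (tendsto_nhds_unique h3 tendsto_const_nhds)

theorem norm_Tkk_le (T : ZZ p →L[ℝ] ZZ p) (k : ℕ) : ‖Tkk T k‖ ≤ ‖T‖ := by
  refine ContinuousLinearMap.opNorm_le_bound _ (norm_nonneg _) fun x => ?_
  show ‖(T (inc k x)) k‖ ≤ _
  calc _ ≤ ‖T (inc k x)‖ := norm_coord_le _ _
    _ ≤ ‖T‖ * ‖(inc k x : ZZ p)‖ := T.le_opNorm _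
    _ = ‖T‖ * ‖x‖ := by rw [norm_inc]

theorem geo_bd (m : ℕ) : (4 : ℝ) ^ (m - 1) * (1 / 8) ^ m ≤ (1 / 2) ^ m := by
  have h1 : (4 : ℝ) ^ (m - 1) ≤ 4 ^ m := pow_le_pow_right₀ (by norm_num) (by omega)
  calc (4 : ℝ) ^ (m - 1) * (1 / 8) ^ m ≤ 4 ^ m * (1 / 8) ^ m := by gcongr
    _ = (1 / 2) ^ m := by rw [← mul_pow]; norm_num

theorem eta_le {δ : ℝ} (hδ : 0 < δ) {j j' l : ℕ} (h1 : j ≤ l) (h2 : j' ≤ l) :
    eta δ l ≤ δ / 8 * ((1 / 8) ^ j * (1 / 8) ^ j') := by
  unfold eta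
  have e : (1 / 64 : ℝ) ^ l = (1 / 8) ^ l * (1 / 8) ^ l := by rw [← mul_pow]; norm_num
  rw [e]
  have a1 : (1 / 8 : ℝ) ^ l ≤ (1 / 8) ^ j := pow_le_pow_of_le_one (by norm_num) (by norm_num) h1
  have a2 : (1 / 8 : ℝ) ^ l ≤ (1 / 8) ^ j' := pow_le_pow_of_le_one (by norm_num) (by norm_num) h2
  gcongr

theorem reduce (hp : ∀ k, p k ≠ ∞) (T : ZZ p →L[ℝ] ZZ p) {δ : ℝ} (hδ : 0 < δ)
    (hT : ∀ k, ∀ K : ℕ × ℕ, K.2 < 2 ^ K.1 → δ * sz K ≤ |xx (Tkk T k) K K|) :
    ∃ A B S : ZZ p →L[ℝ] ZZ p, (∀ z, A (T (B z)) = z + S z) ∧ ∀ k x, S (inc k x) = 0 := by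
  have h0 := fun k => exists_rho (hp k) (Tkk T k) hδ (hT k)
  choose s Θ ms mΘ spm Θb hρ using h0
  set M := max δ ‖T‖ with hM
  have D : Dat T s Θ δ M := ⟨hδ, ms, mΘ, spm, fun k t => ⟨(Θb k t).1, (Θb k t).2.trans
    (max_le_max le_rfl (norm_Tkk_le T k))⟩, hρ⟩
  obtain ⟨σ, hσ⟩ := exists_sel D
  have one : ∀ k, One σ k (Θ k) δ M := by
    intro k
    refine ⟨fun m => (hσ _).meas, fun m => (hσ _).pm, hδ, mΘ k, D.bd k, fun m i => ?_⟩
    have := (hσ (Nat.pair k m)).bal i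
    rw [Nat.unpair_pair] at this
    exact this
  choose B hB1 hB2 using fun k => exists_B (hp k) (one k)
  choose A hA1 hA2 using fun k => exists_A (hp k) (one k) (ms k) (spm k)
  have hM0 : 0 < M := hδ.trans_le (le_max_left _ _)
  have hcomp : ∀ (C : ℝ) (k : ℕ) (L : LL (p k) →L[ℝ] LL (p k)), 0 ≤ C → ‖L‖ ≤ C →
      ‖L.comp (ev k : ZZ p →L[ℝ] LL (p k))‖ ≤ C := by
    intro C k L hC hL
    refine (L.opNorm_comp_le _).trans ?_
    calc ‖L‖ * ‖(ev k : ZZ p →L[ℝ] LL (p k))‖ ≤ C * 1 := mul_le_mul hL (norm_ev_le k) (norm_nonneg _) hC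
      _ = C := mul_one C
  set BB : ZZ p →L[ℝ] ZZ p := mkZ (fun k => (B k).comp (ev k)) (M / δ) (by positivity)
    (fun k => hcomp _ k _ (by positivity) (hB1 k)) with hBB
  set AA : ZZ p →L[ℝ] ZZ p := mkZ (fun k => (A k).comp (ev k)) (δ⁻¹ * (M / δ)) (by positivity)
    (fun k => hcomp _ k _ (by positivity) (hA1 k)) with hAA
  set R : ZZ p →L[ℝ] ZZ p := AA.comp (T.comp BB) with hR
  have hBh : ∀ j i, i < 2 ^ (j.unpair.2 - 1) → BB (hz p j i) = XX p σ j i := by
    intro j i hi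
    apply lp.ext; funext k
    show B k ((inc j.unpair.1 (cl (p j.unpair.1) (HH j.unpair.2 i)) : ZZ p) k) =
      (inc j.unpair.1 (cl (p j.unpair.1) (bb σ j.unpair.1 j.unpair.2 i)) : ZZ p) k
    by_cases hk : k = j.unpair.1
    · subst hk
      rw [inc_same, inc_same, hB2 _ _ _ hi]
    · rw [inc_ne hk, inc_ne hk, map_zero]
  -- the estimate
  have hest : ∀ j i, i < 2 ^ (j.unpair.2 - 1) → ‖R (hz p j i) - hz p j i‖ ≤ 1 / 4 * (1 / 8) ^ j := by
    intro j i hi
    refine norm_ZZ_le (by positivity) fun k => ?_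
    show ‖A k ((T (BB (hz p j i))) k) - (hz p j i : ZZ p) k‖ ≤ _
    rw [hBh j i hi]
    set g : LL (p k) := (T (XX p σ j i)) k with hg
    set e : ℕ → ℝ := fun m => 1 / 8 * (1 / 8) ^ j * (1 / 2) ^ m with he
    have hes : HasSum e (1 / 4 * (1 / 8) ^ j) := by
      have := (hasSum_geometric_two).mul_left (1 / 8 * (1 / 8 : ℝ) ^ j)
      have e5 : 1 / 4 * (1 / 8 : ℝ) ^ j = 1 / 8 * (1 / 8 : ℝ) ^ j * 2 := by ring
      rw [he, e5]
      exact this
    set w : ℕ → LL (p k) := fun m => ∑ i' ∈ Finset.range (2 ^ (m - 1)),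
      (if j = Nat.pair k m ∧ i = i' then (1 : ℝ) else 0) • cl (p k) (HH m i') with hw
    have hws : HasSum w ((hz p j i : ZZ p) k) := by
      by_cases hk : k = j.unpair.1
      · subst hk
        have e1 : w j.unpair.2 = (hz p j i : ZZ p) j.unpair.1 := by
          show _ = (inc j.unpair.1 (cl (p j.unpair.1) (HH j.unpair.2 i)) : ZZ p) j.unpair.1
          rw [inc_same, hw]
          dsimp only
          rw [Finset.sum_eq_single i]
          · rw [if_pos ⟨(Nat.pair_unpair j).symm, rfl⟩, one_smul]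
          · intro i' _ hi'
            rw [if_neg (fun h => hi' h.2.symm), zero_smul]
          · intro h; exact absurd (Finset.mem_range.2 hi) h
        rw [← e1]
        refine hasSum_single _ fun m hm => ?_
        rw [hw]
        refine Finset.sum_eq_zero fun i' _ => ?_
        rw [if_neg, zero_smul]
        rintro ⟨h, -⟩
        apply hm
        rw [h, Nat.unpair_pair]
      · have e1 : (hz p j i : ZZ p) k = 0 := inc_ne hk _
        rw [e1]
        have e2 : w = fun _ => 0 := by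
          funext m
          rw [hw]
          refine Finset.sum_eq_zero fun i' _ => ?_
          rw [if_neg, zero_smul]
          rintro ⟨h, -⟩
          apply hk
          rw [h, Nat.unpair_pair]
        rw [e2]
        exact hasSum_zero
    have hbound : ∀ m, ‖blkH (p k) σ (s k) (∫ t, Θ k t ∂μ) k m g - w m‖ ≤ e m := by
      intro m
      set c := ∫ t, Θ k t ∂μ with hc
      have hc0 : δ ≤ c := (one k).intΘ.1
      have hcp : 0 < c := hδ.trans_le hc0
      rw [blkH, hw]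
      dsimp only
      rw [← Finset.sum_sub_distrib]
      have hterm : ∀ i' ∈ Finset.range (2 ^ (m - 1)),
          ‖(c⁻¹ * (2 : ℝ) ^ (m - 1) * igc (p k) (fun t => s k t * bb σ k m i' t) g) • cl (p k) (HH m i') -
            (if j = Nat.pair k m ∧ i = i' then (1 : ℝ) else 0) • cl (p k) (HH m i')‖ ≤
          δ⁻¹ * 2 ^ (m - 1) * (δ / 8 * ((1 / 8) ^ j * (1 / 8) ^ m)) := by
        intro i' hi'
        have hi'' := Finset.mem_range.1 hi'
        have e1 : igc (p k) (fun t => s k t * bb σ k m i' t) g = YY p s σ (Nat.pair k m) i' (T (XX p σ j i)) :=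
          (YY_pair (Nat.unpair_pair k m) i' _).symm
        have e2 : |YY p s σ (Nat.pair k m) i' (T (XX p σ j i)) -
            (if j = Nat.pair k m ∧ i = i' then c * ((2 : ℝ) ^ (m - 1))⁻¹ else 0)| ≤
            δ / 8 * ((1 / 8) ^ j * (1 / 8) ^ m) := by
          have hmp : m ≤ Nat.pair k m := Nat.right_le_pair k m
          have hpw : (1 / 8 : ℝ) ^ (Nat.pair k m) ≤ (1 / 8) ^ m :=
            pow_le_pow_of_le_one (by norm_num) (by norm_num) hmp
          have hfin : δ / 8 * ((1 / 8 : ℝ) ^ j * (1 / 8) ^ (Nat.pair k m)) ≤ δ / 8 * ((1 / 8) ^ j * (1 / 8) ^ m) := by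
            gcongr
          have hu2 : (Nat.pair k m).unpair.2 = m := by rw [Nat.unpair_pair]
          have hu1 : (Nat.pair k m).unpair.1 = k := by rw [Nat.unpair_pair]
          rcases lt_trichotomy j (Nat.pair k m) with h | h | h
          · rw [if_neg (fun h' => absurd h'.1 h.ne), sub_zero]
            refine ((hσ (Nat.pair k m)).c1 j h i' (by rw [hu2]; exact hi'') i hi).trans ?_
            exact (eta_le hδ h.le le_rfl).trans hfin
          · have h3 := (hσ (Nat.pair k m)).c3 i (by rw [← h]; exact hi) i' (by rw [hu2]; exact hi'')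
            rw [hu2, hu1] at h3
            rw [h] at hfin ⊢
            simp only [true_and]
            refine h3.trans ?_
            exact (eta_le hδ (le_refl (Nat.pair k m)) le_rfl).trans hfin
          · rw [if_neg (fun h' => absurd h'.1 h.ne'), sub_zero]
            refine ((hσ j).c2 (Nat.pair k m) h i hi i' (by rw [hu2]; exact hi'')).trans ?_
            exact (eta_le hδ le_rfl h.le).trans hfin
        rw [← sub_smul, norm_smul]
        have e3 : c⁻¹ * (2 : ℝ) ^ (m - 1) * igc (p k) (fun t => s k t * bb σ k m i' t) g -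
            (if j = Nat.pair k m ∧ i = i' then (1 : ℝ) else 0) =
            c⁻¹ * (2 : ℝ) ^ (m - 1) * (YY p s σ (Nat.pair k m) i' (T (XX p σ j i)) -
            (if j = Nat.pair k m ∧ i = i' then c * ((2 : ℝ) ^ (m - 1))⁻¹ else 0)) := by
          rw [e1, mul_sub]
          congr 1
          split_ifs
          · field_simp
          · simp
        rw [e3, norm_mul, Real.norm_of_nonneg (by positivity : 0 ≤ c⁻¹ * (2 : ℝ) ^ (m - 1)), Real.norm_eq_abs]
        calc c⁻¹ * (2 : ℝ) ^ (m - 1) * |YY p s σ (Nat.pair k m) i' (T (XX p σ j i)) -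
            (if j = Nat.pair k m ∧ i = i' then c * ((2 : ℝ) ^ (m - 1))⁻¹ else 0)| * ‖cl (p k) (HH m i')‖
            ≤ δ⁻¹ * (2 : ℝ) ^ (m - 1) * (δ / 8 * ((1 / 8) ^ j * (1 / 8) ^ m)) * 1 := by
              have a1 : c⁻¹ ≤ δ⁻¹ := inv_anti₀ hδ hc0
              have a2 := norm_cl_HH_le (p := p k) m i'
              gcongr
          _ = _ := mul_one _
      refine (norm_sum_le_of_le _ hterm).trans ?_
      rw [Finset.sum_const, Finset.card_range, nsmul_eq_mul, he]
      push_cast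
      have g1 := geo_bd m
      have e4 : (4 : ℝ) ^ (m - 1) = 2 ^ (m - 1) * 2 ^ (m - 1) := by rw [← mul_pow]; norm_num
      calc (2 : ℝ) ^ (m - 1) * (δ⁻¹ * 2 ^ (m - 1) * (δ / 8 * ((1 / 8) ^ j * (1 / 8) ^ m)))
          = 1 / 8 * (1 / 8) ^ j * ((4 : ℝ) ^ (m - 1) * (1 / 8) ^ m) := by
            rw [e4]; field_simp
        _ ≤ 1 / 8 * (1 / 8) ^ j * (1 / 2) ^ m := by gcongr
    have := hA2 k g w e _ hws hes.summable hbound
    rw [hes.tsum_eq] at this
    exact this
  -- the small operator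
  set Kj : ℕ → ZZ p →L[ℝ] ZZ p := fun j => ∑ i ∈ Finset.range (2 ^ (j.unpair.2 - 1)),
    ((2 : ℝ) ^ (j.unpair.2 - 1)) • (hs p j i).smulRight (R (hz p j i) - hz p j i) with hKj
  have hKn : ∀ j, ‖Kj j‖ ≤ 1 / 4 * (1 / 2) ^ j := by
    intro j
    set m := j.unpair.2 with hm
    have hmj : m ≤ j := Nat.unpair_right_le j
    have hterm : ∀ i ∈ Finset.range (2 ^ (m - 1)),
        ‖((2 : ℝ) ^ (m - 1)) • (hs p j i).smulRight (R (hz p j i) - hz p j i)‖ ≤ (2 : ℝ) ^ (m - 1) * (1 / 4 * (1 / 8) ^ j) := by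
      intro i hi
      rw [norm_smul, Real.norm_of_nonneg (by positivity)]
      refine mul_le_mul_of_nonneg_left ?_ (by positivity)
      rw [ContinuousLinearMap.norm_smulRight_apply]
      calc ‖hs p j i‖ * ‖R (hz p j i) - hz p j i‖ ≤ 1 * (1 / 4 * (1 / 8) ^ j) := by
            refine mul_le_mul ?_ (hest j i (Finset.mem_range.1 hi)) (norm_nonneg _) zero_le_one
            refine ContinuousLinearMap.opNorm_le_bound _ zero_le_one fun z => ?_
            rw [one_mul]
            exact abs_hs_le j i z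
        _ = _ := one_mul _
    refine (norm_sum_le_of_le _ hterm).trans ?_
    rw [Finset.sum_const, Finset.card_range, nsmul_eq_mul]
    push_cast
    have e4 : (4 : ℝ) ^ (m - 1) = 2 ^ (m - 1) * 2 ^ (m - 1) := by rw [← mul_pow]; norm_num
    have e5 : (4 : ℝ) ^ (m - 1) ≤ 4 ^ j := pow_le_pow_right₀ (by norm_num) (by omega)
    calc (2 : ℝ) ^ (m - 1) * (2 ^ (m - 1) * (1 / 4 * (1 / 8) ^ j)) = 1 / 4 * ((4 : ℝ) ^ (m - 1) * (1 / 8) ^ j) := by
          rw [e4]; ring
      _ ≤ 1 / 4 * ((4 : ℝ) ^ j * (1 / 8) ^ j) := by gcongr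
      _ = 1 / 4 * (1 / 2) ^ j := by rw [← mul_pow]; norm_num
  have hgs : HasSum (fun j : ℕ => 1 / 4 * (1 / 2 : ℝ) ^ j) (1 / 2) := by
    have := (hasSum_geometric_two).mul_left (1 / 4 : ℝ)
    have e5 : (1 / 4 * 2 : ℝ) = 1 / 2 := by norm_num
    rwa [e5] at this
  have hKs : Summable Kj := Summable.of_norm_bounded hgs.summable hKn
  set K := ∑' j, Kj j with hK
  have hKnorm : ‖K‖ ≤ 1 / 2 := tsum_of_norm_bounded hgs hKn
  have hKh : ∀ j i, i < 2 ^ (j.unpair.2 - 1) → K (hz p j i) = R (hz p j i) - hz p j i := by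
    intro j i hi
    have e1 : HasSum (fun j' => Kj j' (hz p j i)) (K (hz p j i)) := by
      have := hKs.hasSum.mapL (ContinuousLinearMap.apply ℝ (ZZ p) (hz p j i))
      exact this
    have e2 : ∀ j', Kj j' (hz p j i) = if j' = j then R (hz p j i) - hz p j i else 0 := by
      intro j'
      rw [hKj]
      dsimp only
      rw [sum_apply]
      have e3 : ∀ i' ∈ Finset.range (2 ^ (j'.unpair.2 - 1)),
          (((2 : ℝ) ^ (j'.unpair.2 - 1)) • (hs p j' i').smulRight (R (hz p j' i') - hz p j' i')) (hz p j i) =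
          if j = j' ∧ i = i' then R (hz p j i) - hz p j i else 0 := by
        intro i' hi'
        rw [smul_apply, ContinuousLinearMap.smulRight_apply, hs_hz hi (Finset.mem_range.1 hi')]
        by_cases h : j = j' ∧ i = i'
        · obtain ⟨rfl, rfl⟩ := h
          rw [if_pos ⟨rfl, rfl⟩, if_pos ⟨rfl, rfl⟩, smul_smul, mul_inv_cancel₀ (by positivity), one_smul]
        · rw [if_neg h, if_neg h, zero_smul, smul_zero]
      rw [Finset.sum_congr rfl e3]
      by_cases h : j' = j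
      · subst h
        rw [if_pos rfl, Finset.sum_eq_single i]
        · rw [if_pos ⟨rfl, rfl⟩]
        · intro i' _ hi'
          rw [if_neg (fun h => hi' h.2.symm)]
        · intro h; exact absurd (Finset.mem_range.2 hi) h
      · rw [if_neg h]
        refine Finset.sum_eq_zero fun i' _ => ?_
        rw [if_neg (fun h' => h h'.1.symm)]
    simp only [e2] at e1
    exact e1.unique (hasSum_ite_eq j _)
  set S0 : ZZ p →L[ℝ] ZZ p := R - 1 - K with hS0
  have hS0h : ∀ k m i, i < 2 ^ (m - 1) → S0 (inc k (cl (p k) (HH m i))) = 0 := by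
    intro k m i hi
    have e1 : hz p (Nat.pair k m) i = inc k (cl (p k) (HH m i)) := by
      have : ∀ j, j.unpair = (k, m) → hz p j i = inc k (cl (p k) (HH m i)) := by
        intro j h
        have h1 : j.unpair.1 = k := by rw [h]
        have h2 : j.unpair.2 = m := by rw [h]
        subst h1; subst h2
        rfl
      exact this _ (Nat.unpair_pair k m)
    rw [← e1, hS0]
    show R _ - _ - K _ = 0
    rw [hKh _ _ (by rw [Nat.unpair_pair]; exact hi)]
    show R _ - (1 : ZZ p →L[ℝ] ZZ p) _ - _ = 0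
    rw [one_apply_eq_self]
    abel
  have hS0z : ∀ k x, S0 (inc k x) = 0 := fun k x =>
    kill (hp k) (S0.comp (inc k)) (fun m i hi => hS0h k m i hi) x
  have hlt : ‖-K‖ < 1 := by rw [norm_neg]; linarith
  set u := Units.oneSub (-K) hlt with hu
  have huv : (u : ZZ p →L[ℝ] ZZ p) = 1 + K := by rw [hu, Units.val_oneSub, sub_neg_eq_add]
  refine ⟨(↑u⁻¹ : ZZ p →L[ℝ] ZZ p) * AA, BB, (↑u⁻¹ : ZZ p →L[ℝ] ZZ p) * S0, fun z => ?_, fun k x => ?_⟩
  · have e1 : AA (T (BB z)) = (u : ZZ p →L[ℝ] ZZ p) z + S0 z := by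
      rw [huv, hS0]
      show R z = ((1 : ZZ p →L[ℝ] ZZ p) + K) z + (R - 1 - K) z
      simp only [add_apply, sub_apply]
      abel
    show (↑u⁻¹ : ZZ p →L[ℝ] ZZ p) (AA (T (BB z))) = z + (↑u⁻¹ : ZZ p →L[ℝ] ZZ p) (S0 z)
    rw [e1, map_add]
    congr 1
    show ((↑u⁻¹ : ZZ p →L[ℝ] ZZ p) * (u : ZZ p →L[ℝ] ZZ p)) z = z
    rw [Units.inv_mul]
    rfl
  · show (↑u⁻¹ : ZZ p →L[ℝ] ZZ p) (S0 (inc k x)) = 0
    rw [hS0z, map_zero]

end Pool.Agent.Helper89.Haar
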