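import Pool.Agent.Helper89.Haar.Block

/-!
Dyadic intervals and dyadic averages on `L^p[0,1)` (problem MP_e03f8f_an).
-/

set_option autoImplicit false
set_option linter.unusedSectionVars false

open MeasureTheory Filter Topology Set
open scoped ENNReal NNReal

noncomputable section

namespace Pool.Agent.Helper89.Haar

/-- dyadic interval `[k 2^{-n}, (k+1) 2^{-n})` -/
def I (n k : ℕ) : Set ℝ := Ico ((k : ℝ) / 2 ^ n) (((k : ℝ) + 1) / 2 ^ n)

theorem meas_I (n k : ℕ) : MeasurableSet (I n k) := measurableSet_Ico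

theorem mem_I_iff {n k : ℕ} {t : ℝ} (ht : 0 ≤ t) : t ∈ I n k ↔ ⌊2 ^ n * t⌋₊ = k := by
  have h2 : (0 : ℝ) < 2 ^ n := by positivity
  rw [Nat.floor_eq_iff (by positivity), I, mem_Ico, div_le_iff₀ h2, lt_div_iff₀ h2, mul_comm]

theorem I_nonneg {n k : ℕ} {t : ℝ} (h : t ∈ I n k) : 0 ≤ t :=
  le_trans (by positivity) h.1

theorem I_subset {n k : ℕ} (hk : k < 2 ^ n) : I n k ⊆ Ico 0 1 := by
  intro t ht
  refine ⟨I_nonneg ht, lt_of_lt_of_le ht.2 ?_⟩
  rw [div_le_one (by positivity)]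
  have : (k : ℝ) + 1 ≤ 2 ^ n := by exact_mod_cast hk
  exact this

theorem disj_I {n k l : ℕ} (h : k ≠ l) : Disjoint (I n k) (I n l) := by
  rw [Set.disjoint_left]
  intro t h1 h2
  have h0 := I_nonneg h1
  exact h (((mem_I_iff h0).1 h1).symm.trans ((mem_I_iff h0).1 h2))

theorem vol_I (n k : ℕ) : volume (I n k) = ENNReal.ofReal ((2 : ℝ) ^ n)⁻¹ := by
  rw [I, Real.volume_Ico]
  congr 1
  field_simp
  ring

theorem mu_I {n k : ℕ} (hk : k < 2 ^ n) : μ (I n k) = ENNReal.ofReal ((2 : ℝ) ^ n)⁻¹ := by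
  rw [μ, Measure.restrict_apply (meas_I n k), inter_eq_left.2 (I_subset hk), vol_I]

theorem fam_I (n : ℕ) : Fam (2 ^ n) (I n) (ENNReal.ofReal ((2 : ℝ) ^ n)⁻¹) :=
  ⟨fun k _ => meas_I n k, fun _ _ _ _ h => disj_I h, fun _ hk => (mu_I hk).le⟩

theorem I_split (n k : ℕ) : I n k = I (n + 1) (2 * k) ∪ I (n + 1) (2 * k + 1) := by
  have h2 : (0 : ℝ) < 2 ^ n := by positivity
  have e1 : ((2 * k : ℕ) : ℝ) / 2 ^ (n + 1) = k / 2 ^ n := by
    push_cast; rw [pow_succ]; field_simp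
  have e2 : (((2 * k + 1 : ℕ) : ℝ) + 1) / 2 ^ (n + 1) = (k + 1) / 2 ^ n := by
    push_cast; rw [pow_succ]; field_simp; ring
  have e3 : (((2 * k : ℕ) : ℝ) + 1) / 2 ^ (n + 1) = ((2 * k + 1 : ℕ) : ℝ) / 2 ^ (n + 1) := by
    push_cast; ring
  rw [I, I, I, e1, e2, e3, Ico_union_Ico_eq_Ico]
  · rw [← e1, ← e3]
    gcongr
    linarith
  · rw [← e2]
    gcongr
    linarith

theorem ae_mem : ∀ᵐ t ∂μ, t ∈ Ico (0 : ℝ) 1 := ae_restrict_mem measurableSet_Ico

theorem floor_lt {n : ℕ} {t : ℝ} (ht : t ∈ Ico (0 : ℝ) 1) : ⌊2 ^ n * t⌋₊ < 2 ^ n := by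
  have h2 : (0 : ℝ) < 2 ^ n := by positivity
  rw [Nat.floor_lt (by have := ht.1; positivity)]
  push_cast
  nlinarith [ht.2]

theorem sum_ind_I {n : ℕ} (c : ℕ → ℝ) {t : ℝ} (ht : t ∈ Ico (0 : ℝ) 1) :
    ∑ k ∈ Finset.range (2 ^ n), c k * (I n k).indicator (fun _ => 1) t = c ⌊2 ^ n * t⌋₊ := by
  rw [Finset.sum_eq_single_of_mem ⌊2 ^ n * t⌋₊ (by simpa using floor_lt ht)]
  · rw [indicator_of_mem ((mem_I_iff ht.1).2 rfl), mul_one]
  · intro l _ hl
    rw [indicator_of_notMem, mul_zero]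
    intro h
    exact hl ((mem_I_iff ht.1).1 h).symm

variable {p : ℝ≥0∞} [hp1 : Fact (1 ≤ p)]

/-- dyadic averaging -/
def EE (p : ℝ≥0∞) [Fact (1 ≤ p)] (n : ℕ) : LL p →L[ℝ] LL p :=
  (2 : ℝ) ^ n • blk p (2 ^ n) (I n) (I n) (fun _ => 1) (fun _ => 1)

theorem rpow_conj {a : ℝ≥0∞} (ha : a ≠ 0) (ha' : a ≠ ∞) :
    a ^ (1 - 1 / p.toReal) * a ^ (1 / p.toReal) = a := by
  rw [← ENNReal.rpow_add _ _ ha ha', sub_add_cancel, ENNReal.rpow_one]

theorem norm_EE_le (hp : p ≠ ∞) (n : ℕ) : ‖EE p n‖ ≤ 1 := by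
  have h2 : (0 : ℝ) < 2 ^ n := by positivity
  have h3 : ENNReal.ofReal ((2 : ℝ) ^ n)⁻¹ ≠ 0 := by
    simp only [ne_eq, ENNReal.ofReal_eq_zero, not_le]; positivity
  have h := norm_blk_le (p := p) hp ENNReal.ofReal_ne_top ENNReal.ofReal_ne_top (fam_I n) (fam_I n)
    (w₁ := fun _ => 1) (w₂ := fun _ => 1) measurable_const measurable_const (by simp) (by simp)
  rw [rpow_conj h3 ENNReal.ofReal_ne_top, ENNReal.toReal_ofReal (by positivity)] at h
  rw [EE, norm_smul, Real.norm_of_nonneg h2.le]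
  calc _ ≤ (2 : ℝ) ^ n * ((2 : ℝ) ^ n)⁻¹ := by gcongr
    _ = 1 := mul_inv_cancel₀ h2.ne'

theorem EE_le (hp : p ≠ ∞) (n : ℕ) (f : LL p) : ‖EE p n f‖ ≤ ‖f‖ := by
  have := (EE p n).le_opNorm f
  have h2 := norm_EE_le hp n
  calc _ ≤ ‖EE p n‖ * ‖f‖ := this
    _ ≤ 1 * ‖f‖ := by gcongr
    _ = ‖f‖ := one_mul _

theorem bd_one_I (n k : ℕ) : Bd (fun t => (1 : ℝ) * (I n k).indicator (fun _ => 1) t) :=
  (Bd.const 1).mul_ind (meas_I n k)

/-- integral over dyadic interval -/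
def av (f : ℝ → ℝ) (n k : ℕ) : ℝ := ∫ t in I n k, f t ∂μ

theorem igc_I (n k : ℕ) (f : LL p) :
    igc p (fun t => (1 : ℝ) * (I n k).indicator (fun _ => 1) t) f = av f n k := by
  rw [igc_apply (bd_one_I n k), av, ← integral_indicator (meas_I n k)]
  congr 1
  ext t
  by_cases h : t ∈ I n k <;> simp [h]

theorem EE_apply (n : ℕ) (f : LL p) : EE p n f = cl p (fun t => ∑ k ∈ Finset.range (2 ^ n),
    (2 ^ n * av f n k) * (I n k).indicator (fun _ => 1) t) := by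
  rw [EE, smul_apply, blk_apply, Finset.smul_sum, cl_sum]
  · refine Finset.sum_congr rfl fun k _ => ?_
    rw [igc_I, smul_smul, ← cl_smul _ ((bd_one_I n k).memLp p)]
    congr 1
    ext t
    ring
  · intro k _
    exact ((Bd.ind (meas_I n k)).memLp p).const_mul _

theorem EE_ae (n : ℕ) (f : LL p) :
    ∀ᵐ t ∂μ, EE p n f t = 2 ^ n * av f n ⌊2 ^ n * t⌋₊ := by
  rw [EE_apply]
  have h : MemLp (fun t => ∑ k ∈ Finset.range (2 ^ n),
    (2 ^ n * av f n k) * (I n k).indicator (fun _ => 1) t) p μ :=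
    memLp_finsetSum _ fun k _ => ((Bd.ind (meas_I n k)).memLp p).const_mul _
  filter_upwards [coe_cl h, ae_mem] with t ht ht'
  rw [ht]
  exact sum_ind_I (fun k => 2 ^ n * av f n k) ht'

theorem norm_le_of_ae (f : LL p) {C : ℝ} (hC : 0 ≤ C) (h : ∀ᵐ t ∂μ, |f t| ≤ C) : ‖f‖ ≤ C := by
  rw [Lp.norm_def]
  refine ENNReal.toReal_le_of_le_ofReal hC ?_
  have := eLpNorm_le_of_ae_bound (p := p) (μ := μ) (f := f) (C := C) h
  simpa using this

theorem EE_tendsto (hp : p ≠ ∞) (f : LL p) : Tendsto (fun n => EE p n f) atTop (𝓝 f) := by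
  rw [Metric.tendsto_atTop]
  intro ε hε
  obtain ⟨g, hgs, hg, hgc, hgm⟩ := (Lp.memLp f).exists_hasCompactSupport_eLpNorm_sub_le hp
    (ε := ENNReal.ofReal (ε / 4)) (by simp only [ne_eq, ENNReal.ofReal_eq_zero, not_le]; positivity)
  have hfg : ‖f - cl p g‖ ≤ ε / 4 := by
    have h1 : f - cl p g = cl p (fun t => f t - g t) := by
      rw [cl_sub (Lp.memLp f) hgm, cl_coe]
    rw [h1, norm_cl (f := fun t => f t - g t) ((Lp.memLp f).sub hgm)]
    exact ENNReal.toReal_le_of_le_ofReal (by positivity) hg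
  have huc : UniformContinuous g := hgs.uniformContinuous_of_continuous hgc
  obtain ⟨δ, hδ, hu⟩ := Metric.uniformContinuous_iff.1 huc (ε / 4) (by positivity)
  obtain ⟨N, hN⟩ := exists_pow_lt_of_lt_one hδ (show (1 / 2 : ℝ) < 1 by norm_num)
  refine ⟨N, fun n hn => ?_⟩
  have hn' : ((2 : ℝ) ^ n)⁻¹ < δ := by
    calc ((2 : ℝ) ^ n)⁻¹ ≤ ((2 : ℝ) ^ N)⁻¹ := by gcongr; norm_num
      _ = (1 / 2) ^ N := by rw [one_div, inv_pow]
      _ < δ := hN
  have h3 : ‖EE p n (cl p g) - cl p g‖ ≤ ε / 4 := by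
    refine norm_le_of_ae _ (by positivity) ?_
    filter_upwards [Lp.coeFn_sub (EE p n (cl p g)) (cl p g), EE_ae n (cl p g), coe_cl hgm, ae_mem]
      with t h1 h2 h3 h4
    rw [h1, Pi.sub_apply, h2, h3]
    set k := ⌊2 ^ n * t⌋₊ with hk
    have hkl : k < 2 ^ n := floor_lt h4
    have htI : t ∈ I n k := (mem_I_iff h4.1).2 rfl
    have hμ : μ.real (I n k) = ((2 : ℝ) ^ n)⁻¹ := by
      rw [Measure.real, mu_I hkl, ENNReal.toReal_ofReal (by positivity)]
    have h5 : av (cl p g) n k = ∫ s in I n k, g s ∂μ := by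
      rw [av]
      refine integral_congr_ae (ae_restrict_of_ae ?_)
      exact coe_cl hgm
    have hgi : Integrable g μ := memLp_one_iff_integrable.1 (hgm.mono_exponent hp1.out)
    have h6 : (2 : ℝ) ^ n * av (cl p g) n k - g t = 2 ^ n * ∫ s in I n k, (g s - g t) ∂μ := by
      rw [h5, integral_sub hgi.integrableOn (integrable_const _).integrableOn, setIntegral_const, hμ]
      rw [smul_eq_mul, mul_sub, ← mul_assoc, mul_inv_cancel₀ (by positivity), one_mul]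
    rw [h6, abs_mul, abs_of_pos (by positivity : (0 : ℝ) < 2 ^ n)]
    have h7 : |∫ s in I n k, (g s - g t) ∂μ| ≤ ε / 4 * μ.real (I n k) := by
      rw [← Real.norm_eq_abs]
      refine norm_setIntegral_le_of_norm_le_const (measure_lt_top _ _) fun s hs => ?_
      rw [Real.norm_eq_abs]
      have h8 : dist s t < δ := by
        rw [Real.dist_eq]
        refine lt_of_le_of_lt ?_ hn'
        have e1 := hs.1; have e2 := hs.2; have e3 := htI.1; have e4 := htI.2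
        have e5 : ((k : ℝ) + 1) / 2 ^ n = k / 2 ^ n + (2 ^ n)⁻¹ := by ring
        rw [e5] at e2 e4
        rw [abs_le]
        constructor <;> linarith
      have := hu h8
      rw [Real.dist_eq] at this
      exact this.le
    calc (2 : ℝ) ^ n * |∫ s in I n k, (g s - g t) ∂μ| ≤ 2 ^ n * (ε / 4 * ((2 : ℝ) ^ n)⁻¹) := by
          rw [← hμ]; gcongr
      _ = ε / 4 := by field_simp
  rw [dist_eq_norm]
  have h4 : EE p n f - f = EE p n (f - cl p g) + (EE p n (cl p g) - cl p g) - (f - cl p g) := by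
    rw [map_sub]; abel
  rw [h4]
  calc _ ≤ ‖EE p n (f - cl p g)‖ + ‖EE p n (cl p g) - cl p g‖ + ‖f - cl p g‖ :=
        (norm_sub_le _ _).trans (add_le_add (norm_add_le _ _) le_rfl)
    _ ≤ ε / 4 + ε / 4 + ε / 4 := by
        gcongr
        exact (EE_le hp n _).trans hfg
    _ < ε := by linarith

end Pool.Agent.Helper89.Haar
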