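import Pool.Agent.Helper89.Haar.Final

/-!
The Haar expansion.
-/

set_option autoImplicit false
set_option linter.unusedSectionVars false

open MeasureTheory Filter Topology Set
open scoped ENNReal NNReal

noncomputable section

namespace Pool.Agent.Helper89.Haar

variable {p : ℝ≥0∞} [hp1 : Fact (1 ≤ p)]

theorem coef_eq (n i : ℕ) (f : LL p) : ∫ t, f t * hh (n, i) t ∂μ = av f (n + 1) (2 * i) - av f (n + 1) (2 * i + 1) := by
  have e1 : ∫ t, f t * hh (n, i) t ∂μ = igc p (hh (n, i)) f := by
    rw [igc_apply (bd_hh _)]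
    exact integral_congr_ae (Eventually.of_forall fun t => mul_comm _ _)
  rw [e1, ← igc_I, ← igc_I, ← igc_sub' (bd_one_I _ _) (bd_one_I _ _)]
  refine igc_congr (bd_hh _) ((bd_one_I _ _).sub (bd_one_I _ _)) (fun t ht => ?_) f
  have h1 := HH_eq (n + 1) i ht
  rw [HH_succ] at h1
  rw [h1, Phi, if_neg (Nat.succ_ne_zero n), one_mul, one_mul]
  simp only [Set.indicator, mem_I' ht]
  by_cases h2 : qq (n + 1) t / 2 = i
  · rw [if_pos h2]
    by_cases h3 : qq (n + 1) t = 2 * i
    · have h4 : qq (n + 1) t % 2 = 0 := by omega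
      have h5 : ¬ qq (n + 1) t = 2 * i + 1 := by omega
      rw [if_pos h4, if_pos h3, if_neg h5]; norm_num
    · have h4 : ¬ qq (n + 1) t % 2 = 0 := by omega
      have h5 : qq (n + 1) t = 2 * i + 1 := by omega
      rw [if_neg h4, if_neg h3, if_pos h5]; norm_num
  · have h4 : ¬ qq (n + 1) t = 2 * i := by omega
    have h5 : ¬ qq (n + 1) t = 2 * i + 1 := by omega
    rw [if_neg h2, if_neg h4, if_neg h5]; norm_num

theorem EE_uu (n : ℕ) (f : LL p) : EE p n f = ∑ k ∈ Finset.range (2 ^ n), (2 ^ n * av f n k) • uu p n k := by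
  rw [EE, smul_apply, blk_apply, Finset.smul_sum]
  refine Finset.sum_congr rfl fun k _ => ?_
  rw [igc_I, smul_smul]
  rfl

theorem expansion (hp : p ≠ ∞) (f : LL p) :
    Tendsto (fun N => (∫ t, f t ∂μ) • cl p (fun _ => 1) +
      ∑ n ∈ Finset.range N, ∑ i ∈ Finset.range (2 ^ n), (2 ^ n * ∫ t, f t * hh (n, i) t ∂μ) • cl p (hh (n, i)))
      atTop (𝓝 f) := by
  have key : ∀ N, (∫ t, f t ∂μ) • cl p (fun _ => 1) +
      ∑ n ∈ Finset.range N, ∑ i ∈ Finset.range (2 ^ n), (2 ^ n * ∫ t, f t * hh (n, i) t ∂μ) • cl p (hh (n, i)) =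
      EE p N f := by
    intro N
    induction N with
    | zero =>
      rw [Finset.sum_range_zero, add_zero, EE_uu, pow_zero, Finset.sum_range_one, pow_zero, one_mul, uu_zero, HH_zero]
      congr 1
      rw [av, ← integral_indicator (meas_I 0 0)]
      refine integral_congr_ae ?_
      filter_upwards [ae_mem] with t ht
      rw [indicator_of_mem]
      rw [mem_I' ht]
      have := floor_lt (n := 0) ht
      simp only [pow_zero, one_mul, Nat.lt_one_iff] at this
      rw [qq, pow_zero, one_mul]; exact this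
    | succ n ih =>
      rw [Finset.sum_range_succ, ← add_assoc, ih, EE_uu, EE_uu, pow_succ 2 n, mul_comm (2 ^ n) 2, sum_even_odd',
        ← Finset.sum_add_distrib]
      refine Finset.sum_congr rfl fun q _ => ?_
      rw [coef_eq, av_split (integrable_coe f) n q, uu_add n q, ← HH_succ, uu_sub, pow_succ]
      module
  simp only [key]
  exact EE_tendsto hp f

end Pool.Agent.Helper89.Haar
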