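import Pool.Agent.Helper89.Haar.Sys2

/-!
Factorization of the remainder through the coordinates in `Γ`.
-/

set_option autoImplicit false
set_option linter.unusedSectionVars false

open MeasureTheory Filter Topology Set
open scoped ENNReal NNReal

noncomputable section

namespace Pool.Agent.Helper89.Haar

variable {p : ℕ → ℝ≥0∞} [hp1 : ∀ k, Fact (1 ≤ p k)]

theorem exists_inj_choice' {T : Type*} [Denumerable T] (A : T → Set ℕ) (hA : ∀ i, (A i).Infinite) :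
    ∃ g : T → ℕ, Function.Injective g ∧ ∀ i, g i ∈ A i := by
  obtain ⟨g, h1, h2⟩ := exists_inj_choice (fun n => A (Denumerable.ofNat T n)) fun n => hA _
  refine ⟨fun t => g (Encodable.encode t), h1.comp Encodable.encode_injective, fun i => ?_⟩
  have := h2 (Encodable.encode i)
  rw [Denumerable.ofNat_encode] at this
  exact this

theorem exists_glue {Y : Type*} [NormedAddCommGroup Y] [NormedSpace ℝ Y] {T : Type*} (jj : T → ℕ)
    (hj : Function.Injective jj) (L : ∀ t, Y →L[ℝ] LL (p (jj t))) (C : ℝ) (hC : 0 ≤ C) (hL : ∀ t, ‖L t‖ ≤ C) :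
    ∃ V : Y →L[ℝ] ZZ p, ‖V‖ ≤ C ∧ (∀ t y, V y (jj t) = L t y) ∧ ∀ j, (∀ t, jj t ≠ j) → ∀ y, V y j = 0 := by
  have h : ∀ j, ∃ W : Y →L[ℝ] LL (p j), ‖W‖ ≤ C ∧ (∀ t (h : jj t = j) y, W y = h ▸ (L t y)) ∧
      ((∀ t, jj t ≠ j) → ∀ y, W y = 0) := by
    intro j
    by_cases hr : ∃ t, jj t = j
    · obtain ⟨t, rfl⟩ := hr
      refine ⟨L t, hL t, fun t' h y => ?_, fun h => absurd rfl (h t)⟩
      have := hj h
      subst this
      rfl
    · push Not at hr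
      exact ⟨0, by rw [norm_zero]; exact hC, fun t h => absurd h (hr t), fun _ _ => rfl⟩
  choose W h1 h2 h3 using h
  refine ⟨mkZ W C hC h1, norm_mkZ_le _ _ _ _, fun t y => ?_, fun j hjj y => h3 j hjj y⟩
  rw [mkZ_apply, h2 (jj t) t rfl y]

/-- reciprocal exponents -/
def xk (p : ℕ → ℝ≥0∞) (k : ℕ) : ℝ := 1 / (p k).toReal

/-- indices close to `k` -/
def Om (p : ℕ → ℝ≥0∞) (k N : ℕ) : Set ℕ := {j | (N : ℝ) ^ |xk p k - xk p j| ≤ 2}

theorem pow_small (N : ℕ) : (N : ℝ) ^ (1 / ((N : ℝ) + 1)) ≤ 2 := by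
  have h1 : (N : ℝ) ≤ 2 ^ ((N : ℝ) + 1) := by
    have h2 : N ≤ 2 ^ (N + 1) := (Nat.lt_two_pow_self).le.trans (Nat.pow_le_pow_right (by norm_num) (by omega))
    calc (N : ℝ) ≤ ((2 ^ (N + 1) : ℕ) : ℝ) := by exact_mod_cast h2
      _ = 2 ^ ((N : ℝ) + 1) := by
        push_cast
        rw [← Real.rpow_natCast]
        push_cast
        rfl
  calc (N : ℝ) ^ (1 / ((N : ℝ) + 1)) ≤ (2 ^ ((N : ℝ) + 1)) ^ (1 / ((N : ℝ) + 1)) :=
        Real.rpow_le_rpow (by positivity) h1 (by positivity)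
    _ = 2 := by
      rw [← Real.rpow_mul (by norm_num), mul_one_div, div_self (by positivity), Real.rpow_one]

theorem mem_Om {k j N : ℕ} (h : |xk p k - xk p j| ≤ 1 / ((N : ℝ) + 1)) : j ∈ Om p k N := by
  show (N : ℝ) ^ |xk p k - xk p j| ≤ 2
  rcases Nat.eq_zero_or_pos N with hN | hN
  · subst hN
    by_cases h0 : |xk p k - xk p j| = 0
    · rw [h0, Real.rpow_zero]; norm_num
    · rw [Nat.cast_zero, Real.zero_rpow h0]; norm_num
  · have hN1 : (1 : ℝ) ≤ N := by exact_mod_cast hN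
    exact (Real.rpow_le_rpow_of_exponent_le hN1 h).trans (pow_small N)

theorem exists_k0 (hp : ∀ k, p k ≠ ∞) (N : ℕ) : ∃ k0, ∀ k, k0 ≤ k → (Om p k N).Infinite := by
  have hx0 : ∀ k, 0 ≤ xk p k := fun k => by unfold xk; positivity
  have hx1 : ∀ k, xk p k ≤ 1 := fun k => by
    unfold xk
    have := toReal_one_le (hp k)
    exact (div_le_one (by linarith)).2 this
  have hfin : {k | ¬ (Om p k N).Infinite}.Finite := by
    by_contra hinf
    have hinf' : {k | ¬ (Om p k N).Infinite}.Infinite := hinf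
    set fl : ℕ → ℕ := fun k => ⌊((N : ℝ) + 1) * xk p k⌋₊ with hfl
    have hmaps : Set.MapsTo fl {k | ¬ (Om p k N).Infinite} (Set.Iic (N + 1)) := by
      intro k _
      show ⌊((N : ℝ) + 1) * xk p k⌋₊ ≤ N + 1
      rw [← Nat.floor_natCast (R := ℝ) (N + 1)]
      refine Nat.floor_le_floor ?_
      push_cast
      have := hx1 k
      nlinarith [hx0 k]
    -- infinite fiber
    have : ∃ b, ({k | ¬ (Om p k N).Infinite} ∩ fl ⁻¹' {b}).Infinite := by
      by_contra hcon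
      apply hinf'
      have : {k | ¬ (Om p k N).Infinite} ⊆ ⋃ b ∈ Set.Iic (N + 1), ({k | ¬ (Om p k N).Infinite} ∩ fl ⁻¹' {b}) := by
        intro k hk
        exact Set.mem_biUnion (hmaps hk) ⟨hk, rfl⟩
      exact ((Set.finite_Iic (N + 1)).biUnion fun b _ => Set.not_infinite.1 fun h => hcon ⟨b, h⟩).subset this
    obtain ⟨b, hb⟩ := this
    obtain ⟨k1, hk1⟩ := hb.nonempty
    apply hk1.1
    refine hb.mono fun j hj => mem_Om ?_
    have e1 : ⌊((N : ℝ) + 1) * xk p k1⌋₊ = b := hk1.2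
    have e2 : ⌊((N : ℝ) + 1) * xk p j⌋₊ = b := hj.2
    have hN0 : (0 : ℝ) < (N : ℝ) + 1 := by positivity
    have a1 := Nat.floor_le (mul_nonneg hN0.le (hx0 k1))
    have a2 := Nat.lt_floor_add_one (((N : ℝ) + 1) * xk p k1)
    have a3 := Nat.floor_le (mul_nonneg hN0.le (hx0 j))
    have a4 := Nat.lt_floor_add_one (((N : ℝ) + 1) * xk p j)
    rw [e1] at a1 a2
    rw [e2] at a3 a4
    rw [abs_le]
    have a5 : xk p k1 - xk p j ≤ 1 / ((N : ℝ) + 1) := by rw [le_div_iff₀ hN0]; nlinarith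
    have a6 : xk p j - xk p k1 ≤ 1 / ((N : ℝ) + 1) := by rw [le_div_iff₀ hN0]; nlinarith
    constructor <;> linarith
  obtain ⟨k0, hk0⟩ := hfin.bddAbove
  refine ⟨k0 + 1, fun k hk => ?_⟩
  by_contra h
  have := hk0 h
  omega

theorem factor (hp : ∀ k, p k ≠ ∞) (S : ZZ p →L[ℝ] ZZ p) (hS : ∀ k x, S (inc k x) = 0) :
    ∃ (Γ : Set ℕ) (U V : ZZ p →L[ℝ] ZZ p), (∀ z : ZZ p, (∀ j ∉ Γ, z j = 0) → S z = 0) ∧
      (∀ z, ∀ j ∉ Γ, V z j = 0) ∧ ∀ z, U (V z) = S z := by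
  classical
  have : ∀ k, Fact (p k ≠ ∞) := fun k => ⟨hp k⟩
  set Ωs : ℕ → Set ℕ := fun t => if (Om p t.unpair.1 t.unpair.2).Infinite then Om p t.unpair.1 t.unpair.2 else Set.univ
    with hΩs
  obtain ⟨Γ, hΓ1, hΓ2⟩ := exists_Gamma hp S hS Ωs (fun t => by
    rw [hΩs]; dsimp only
    split_ifs with h
    · exact h
    · exact Set.infinite_univ)
  -- the injection
  set A : ℕ × ℕ × ℕ × ℕ → Set ℕ := fun t => Γ ∩ Ωs (Nat.pair t.1 (NN t.2.1 t.2.2.2)) with hA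
  obtain ⟨jj, hj1, hj2⟩ := exists_inj_choice' A fun t => hΓ1 _
  have hjΓ : ∀ t, jj t ∈ Γ := fun t => (hj2 t).1
  have hjO : ∀ t : ℕ × ℕ × ℕ × ℕ, (Om p t.1 (NN t.2.1 t.2.2.2)).Infinite → jj t ∈ Om p t.1 (NN t.2.1 t.2.2.2) := by
    intro t ht
    have h1 := (hj2 t).2
    rw [hΩs] at h1
    dsimp only at h1
    rw [Nat.unpair_pair] at h1
    rwa [if_pos ht] at h1
  -- dense tuples
  set dd : ∀ k m : ℕ, ℕ → Metric.closedBall (0 : Fin m → LL (p k)) 1 := fun k m =>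
    haveI : Nonempty (Metric.closedBall (0 : Fin m → LL (p k)) 1) := ⟨⟨0, Metric.mem_closedBall_self zero_le_one⟩⟩
    TopologicalSpace.denseSeq _ with hdd
  have hdense : ∀ k m, DenseRange (dd k m) := fun k m =>
    haveI : Nonempty (Metric.closedBall (0 : Fin m → LL (p k)) 1) := ⟨⟨0, Metric.mem_closedBall_self zero_le_one⟩⟩
    TopologicalSpace.denseRange_denseSeq _
  have hball : ∀ (k m : ℕ) (x : Metric.closedBall (0 : Fin m → LL (p k)) 1) (l : Fin m), ‖x.1 l‖ ≤ 1 := by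
    intro k m x l
    have := x.2
    rw [mem_closedBall_zero_iff] at this
    exact (norm_le_pi_norm x.1 l).trans this
  have hVU : ∀ t : ℕ × ℕ × ℕ × ℕ, ∃ (V : LL (p t.1) →L[ℝ] LL (p (jj t))) (U : LL (p (jj t)) →L[ℝ] LL (p t.1)),
      ‖V‖ ≤ 2 ∧ ‖U‖ ≤ 2 ∧ ((Om p t.1 (NN t.2.1 t.2.2.2)).Infinite →
        ∀ l, ‖U (V ((dd t.1 t.2.1 t.2.2.1).1 l)) - (dd t.1 t.2.1 t.2.2.1).1 l‖ ≤ 1 / ((t.2.2.2 : ℝ) + 1)) := by
    intro t
    by_cases ht : (Om p t.1 (NN t.2.1 t.2.2.2)).Infinite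
    · obtain ⟨V, U, h1, h2, h3⟩ := exists_VU (hp t.1) (hp (jj t)) t.2.1 t.2.2.2 (dd t.1 t.2.1 t.2.2.1).1
        (hball _ _ _) (hjO t ht)
      exact ⟨V, U, h1, h2, fun _ => h3⟩
    · exact ⟨0, 0, by simp, by simp, fun h => absurd h ht⟩
  choose Vt Ut hV1 hU1 hUV using hVU
  have hcomp : ∀ {q : ℝ≥0∞} [Fact (1 ≤ q)] (k : ℕ) (L : LL (p k) →L[ℝ] LL q), ‖L‖ ≤ 2 →
      ‖L.comp (ev k : ZZ p →L[ℝ] LL (p k))‖ ≤ 2 := by
    intro q _ k L hL
    refine (L.opNorm_comp_le _).trans ?_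
    calc ‖L‖ * ‖(ev k : ZZ p →L[ℝ] LL (p k))‖ ≤ 2 * 1 := mul_le_mul hL (norm_ev_le k) (norm_nonneg _) zero_le_two
      _ = 2 := mul_one 2
  obtain ⟨V, hVn, hVt, hVz⟩ := exists_glue (Y := ZZ p) jj hj1 (fun t => (Vt t).comp (ev t.1)) 2 zero_le_two
    (fun t => hcomp _ _ (hV1 t))
  -- the choice of the approximating tuple
  have hsel : ∀ (d : ℕ × Finset (ZZ p)) (k : ℕ), ∃ n, ∀ l : Fin d.2.card,
      ‖((1 + ‖(d.2.equivFin.symm l : ZZ p)‖)⁻¹ • (d.2.equivFin.symm l : ZZ p)) k - (dd k d.2.card n).1 l‖ ≤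
        1 / ((d.1 : ℝ) + 1) := by
    intro d k
    set x : Metric.closedBall (0 : Fin d.2.card → LL (p k)) 1 := ⟨fun l =>
      ((1 + ‖(d.2.equivFin.symm l : ZZ p)‖)⁻¹ • (d.2.equivFin.symm l : ZZ p)) k, by
        rw [mem_closedBall_zero_iff, pi_norm_le_iff_of_nonneg zero_le_one]
        intro l
        refine (norm_coord_le _ k).trans ?_
        rw [norm_smul, norm_inv, Real.norm_of_nonneg (by positivity), inv_mul_le_iff₀ (by positivity)]
        linarith⟩ with hx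
    obtain ⟨n, hn⟩ := (hdense k d.2.card).exists_dist_lt x (ε := 1 / ((d.1 : ℝ) + 1)) (by positivity)
    refine ⟨n, fun l => ?_⟩
    have h1 : dist x.1 (dd k d.2.card n).1 < 1 / ((d.1 : ℝ) + 1) := hn
    have h2 := (dist_le_pi_dist x.1 (dd k d.2.card n).1 l).trans h1.le
    rw [dist_eq_norm] at h2
    exact h2
  choose nn hnn using hsel
  set Ud : ℕ × Finset (ZZ p) → ZZ p →L[ℝ] ZZ p := fun d =>
    mkZ (fun k => (Ut (k, d.2.card, nn d k, d.1)).comp (ev (jj (k, d.2.card, nn d k, d.1)))) 2 zero_le_two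
      (fun k => hcomp _ _ (hU1 _)) with hUd
  have hUdn : ∀ d, ‖Ud d‖ ≤ 2 := fun d => norm_mkZ_le _ _ _ _
  -- key estimate
  have key : ∀ (d : ℕ × Finset (ZZ p)) (z : ZZ p), z ∈ d.2 →
      ‖S (Ud d (V z)) - S z‖ ≤ ‖S‖ * (6 * (1 + ‖z‖)) * (1 / ((d.1 : ℝ) + 1)) := by
    intro d z hz
    obtain ⟨k0, hk0⟩ := exists_k0 hp (NN d.2.card d.1)
    obtain ⟨w', h1, h2, h3, h4⟩ := exists_cut (Ud d (V z) - z) (Finset.range k0)
    have e1 : S (Ud d (V z)) - S z = S w' := by rw [h4 S hS, map_sub]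
    have hb : ∀ k, ‖w' k‖ ≤ 6 * (1 + ‖z‖) * (1 / ((d.1 : ℝ) + 1)) := by
      intro k
      by_cases hk : k ∈ Finset.range k0
      · rw [h2 k hk, norm_zero]; positivity
      · rw [h3 k hk]
        have hk' : k0 ≤ k := by simpa using hk
        set t : ℕ × ℕ × ℕ × ℕ := (k, d.2.card, nn d k, d.1) with ht
        have e2 : (Ud d (V z) - z) k = Ut t (Vt t (z k)) - z k := by
          show Ut t ((V z) (jj t)) - z k = _
          rw [hVt]
          rfl
        rw [e2]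
        set l : Fin d.2.card := d.2.equivFin ⟨z, hz⟩ with hl
        have e3 : (d.2.equivFin.symm l : ZZ p) = z := by rw [hl, Equiv.symm_apply_apply]
        have e4 := hnn d k l
        rw [e3] at e4
        set c : ℝ := 1 + ‖z‖ with hc
        have hc0 : 0 < c := by positivity
        set x : LL (p k) := (c⁻¹ • z : ZZ p) k with hx
        set f : LL (p k) := (dd k d.2.card (nn d k)).1 l with hf
        have e5 := hUV t (hk0 k hk') l
        have e5' : ‖Ut t (Vt t f) - f‖ ≤ 1 / ((d.1 : ℝ) + 1) := e5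
        have e6 : z k = c • x := by
          have : x = c⁻¹ • z k := rfl
          rw [this, smul_smul, mul_inv_cancel₀ hc0.ne', one_smul]
        have e7 : ‖Ut t (Vt t x) - x‖ ≤ 6 * (1 / ((d.1 : ℝ) + 1)) := by
          have e8 : Ut t (Vt t x) - x = Ut t (Vt t (x - f)) + (Ut t (Vt t f) - f) - (x - f) := by
            rw [map_sub, map_sub]; abel
          have e9 : ‖Ut t (Vt t (x - f))‖ ≤ 4 * ‖x - f‖ := by
            calc ‖Ut t (Vt t (x - f))‖ ≤ ‖Ut t‖ * ‖Vt t (x - f)‖ := (Ut t).le_opNorm _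
              _ ≤ 2 * (‖Vt t‖ * ‖x - f‖) := mul_le_mul (hU1 t) ((Vt t).le_opNorm _) (norm_nonneg _) zero_le_two
              _ ≤ 2 * (2 * ‖x - f‖) := by gcongr; exact hV1 t
              _ = 4 * ‖x - f‖ := by ring
          rw [e8]
          calc _ ≤ ‖Ut t (Vt t (x - f))‖ + ‖Ut t (Vt t f) - f‖ + ‖x - f‖ :=
                (norm_sub_le _ _).trans (add_le_add_left (norm_add_le _ _) _)
            _ ≤ 4 * (1 / ((d.1 : ℝ) + 1)) + 1 / ((d.1 : ℝ) + 1) + 1 / ((d.1 : ℝ) + 1) := by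
                have := mul_le_mul_of_nonneg_left e4 (by norm_num : (0 : ℝ) ≤ 4)
                linarith
            _ = 6 * (1 / ((d.1 : ℝ) + 1)) := by ring
        rw [e6, map_smul, map_smul, ← smul_sub, norm_smul, Real.norm_of_nonneg hc0.le]
        calc c * ‖Ut t (Vt t x) - x‖ ≤ c * (6 * (1 / ((d.1 : ℝ) + 1))) := by gcongr
          _ = _ := by ring
    have hw : ‖w'‖ ≤ 6 * (1 + ‖z‖) * (1 / ((d.1 : ℝ) + 1)) := norm_ZZ_le (by positivity) hb
    rw [e1]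
    calc ‖S w'‖ ≤ ‖S‖ * ‖w'‖ := S.le_opNorm _
      _ ≤ ‖S‖ * (6 * (1 + ‖z‖) * (1 / ((d.1 : ℝ) + 1))) := by gcongr
      _ = _ := by ring
  -- limit
  set 𝒰 : Ultrafilter (ℕ × Finset (ZZ p)) := Ultrafilter.of atTop with h𝒰
  have h𝒰le : (𝒰 : Filter (ℕ × Finset (ZZ p))) ≤ atTop := Ultrafilter.of_le _
  have hlim : ∀ z, Tendsto (fun d => S (Ud d (V z))) atTop (𝓝 (S z)) := by
    intro z
    rw [tendsto_iff_norm_sub_tendsto_zero]
    have ht1 : Tendsto (fun d : ℕ × Finset (ZZ p) => (1 / ((d.1 : ℝ) + 1))) atTop (𝓝 0) := by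
      have h1 : Tendsto (fun n : ℕ => 1 / ((n : ℝ) + 1)) atTop (𝓝 0) := tendsto_one_div_add_atTop_nhds_zero_nat
      have h2 : Tendsto (fun d : ℕ × Finset (ZZ p) => d.1) atTop atTop := by
        rw [← prod_atTop_atTop_eq]; exact tendsto_fst
      exact h1.comp h2
    have ht2 := ht1.const_mul (‖S‖ * (6 * (1 + ‖z‖)))
    rw [mul_zero] at ht2
    have hev : ∀ᶠ d : ℕ × Finset (ZZ p) in atTop, z ∈ d.2 := by
      filter_upwards [eventually_ge_atTop ((0, {z}) : ℕ × Finset (ZZ p))] with d hd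
      exact hd.2 (Finset.mem_singleton_self z)
    refine squeeze_zero' (Eventually.of_forall fun d => norm_nonneg _) ?_ ht2
    filter_upwards [hev] with d hd
    exact key d z hd
  obtain ⟨U, -, hU⟩ := OLZ (Y := ZZ p) hp 𝒰 (fun d => S.comp (Ud d)) (‖S‖ * 2) (by positivity) (fun d =>
    (S.opNorm_comp_le _).trans (by gcongr; exact hUdn d))
  refine ⟨Γ, U, V, hΓ2, fun z j hj => hVz j (fun t h => hj (h ▸ hjΓ t)) z, fun z => ?_⟩
  apply lp.ext; funext k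
  refine hU (V z) k (S z k) ?_
  have h1 := (hlim z).mono_left h𝒰le
  exact ((ev k).continuous.tendsto _).comp h1

end Pool.Agent.Helper89.Haar
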