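import Pool.Agent.Helper89.Haar.Factor

/-!
Two disjoint copies, and the final algebra.
-/

set_option autoImplicit false
set_option linter.unusedSectionVars false

open MeasureTheory Filter Topology Set
open scoped ENNReal NNReal

noncomputable section

namespace Pool.Agent.Helper89.Haar

section one
variable {p : ℝ≥0∞} [hp1 : Fact (1 ≤ p)]

theorem kill_uu {E : Type*} [NormedAddCommGroup E] [NormedSpace ℝ E] (hq : p ≠ ∞)
    (S : LL p →L[ℝ] E) (h : ∀ n i, i < 2 ^ n → S (uu p n i) = 0) (x : LL p) : S x = 0 := by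
  refine kill hq S (fun m i hi => ?_) x
  cases m with
  | zero =>
    have : i = 0 := by simpa using hi
    subst this
    rw [← uu_zero]
    exact h 0 0 (by simp)
  | succ n =>
    have hi' : i < 2 ^ n := by simpa using hi
    rw [uu_sub, map_sub, h (n + 1) (2 * i) (by rw [pow_succ]; omega), h (n + 1) (2 * i + 1) (by rw [pow_succ]; omega),
      sub_zero]

theorem igc_uu {n i q : ℕ} (hi : i < 2 ^ n) :
    igc p (fun t => (1 : ℝ) * (I n q).indicator (fun _ => 1) t) (uu p n i) = if q = i then ((2 : ℝ) ^ n)⁻¹ else 0 := by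
  unfold uu
  rw [igc_cl (bd_one_I n q) ((bd_one_I n i).memLp p)]
  by_cases h : q = i
  · subst h
    rw [if_pos rfl, ← real_mu_I hi]
    have : ∀ t, 1 * (I n q).indicator (fun _ => (1 : ℝ)) t * (1 * (I n q).indicator (fun _ => (1 : ℝ)) t) =
        (I n q).indicator (fun _ => (1 : ℝ)) t := by
      intro t; by_cases h : t ∈ I n q <;> simp [h]
    simp only [this]
    rw [integral_indicator (meas_I n q)]
    simp
  · rw [if_neg h]
    have : ∀ t, 1 * (I n q).indicator (fun _ => (1 : ℝ)) t * (1 * (I n i).indicator (fun _ => (1 : ℝ)) t) = 0 := by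
      intro t
      by_cases h1 : t ∈ I n q
      · have : t ∉ I n i := fun h2 => Set.disjoint_left.1 (disj_I (n := n) h) h1 h2
        simp [this]
      · simp [h1]
    simp only [this, integral_zero]

/-- shifts into a half -/
def Jn (p : ℝ≥0∞) [Fact (1 ≤ p)] (h : ℕ → ℕ) (n : ℕ) : LL p →L[ℝ] LL p :=
  (2 : ℝ) ^ n • blk p (2 ^ n) (I n) (fun q => I (n + 1) (h n + q)) (fun _ => 1) (fun _ => 1)

/-- restrictions to a half -/
def Qn (p : ℝ≥0∞) [Fact (1 ≤ p)] (h : ℕ → ℕ) (n : ℕ) : LL p →L[ℝ] LL p :=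
  (2 : ℝ) ^ (n + 1) • blk p (2 ^ n) (fun q => I (n + 1) (h n + q)) (I n) (fun _ => 1) (fun _ => 1)

theorem fam_half (h : ℕ → ℕ) (n : ℕ) : Fam (2 ^ n) (fun q => I (n + 1) (h n + q)) (ENNReal.ofReal ((2 : ℝ) ^ n)⁻¹) := by
  refine ⟨fun q _ => meas_I _ _, fun q _ l _ hql => disj_I (by omega), fun q _ => ?_⟩
  have h1 := mu_I_le (n + 1) (h n + q)
  have h2 : ((2 : ℝ) ^ (n + 1))⁻¹ ≤ ((2 : ℝ) ^ n)⁻¹ :=
    inv_anti₀ (by positivity) (pow_le_pow_right₀ (by norm_num) (by omega))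
  calc μ (I (n + 1) (h n + q)) = ENNReal.ofReal (μ.real (I (n + 1) (h n + q))) := by
        rw [Measure.real, ENNReal.ofReal_toReal (measure_ne_top _ _)]
    _ ≤ _ := ENNReal.ofReal_le_ofReal (h1.trans h2)

theorem norm_Jn_le (hp : p ≠ ∞) (h : ℕ → ℕ) (n : ℕ) : ‖Jn p h n‖ ≤ 2 := by
  have h2 : (0 : ℝ) < 2 ^ n := by positivity
  have h1 := norm_blk_le' (p := p) hp (inv_pos.2 h2) (fam_I n) (fam_half h n)
    (w₁ := fun _ => 1) (w₂ := fun _ => 1) measurable_const measurable_const (by simp) (by simp)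
  rw [Jn, norm_smul, Real.norm_of_nonneg h2.le]
  calc _ ≤ (2 : ℝ) ^ n * ((2 : ℝ) ^ n)⁻¹ := by gcongr
    _ = 1 := mul_inv_cancel₀ h2.ne'
    _ ≤ 2 := by norm_num

theorem norm_Qn_le (hp : p ≠ ∞) (h : ℕ → ℕ) (n : ℕ) : ‖Qn p h n‖ ≤ 2 := by
  have h2 : (0 : ℝ) < 2 ^ n := by positivity
  have h1 := norm_blk_le' (p := p) hp (inv_pos.2 h2) (fam_half h n) (fam_I n)
    (w₁ := fun _ => 1) (w₂ := fun _ => 1) measurable_const measurable_const (by simp) (by simp)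
  rw [Qn, norm_smul, Real.norm_of_nonneg (by positivity)]
  calc _ ≤ (2 : ℝ) ^ (n + 1) * ((2 : ℝ) ^ n)⁻¹ := by gcongr
    _ = 2 := by rw [pow_succ]; field_simp

theorem Jn_uu {h : ℕ → ℕ} (hh : ∀ n, h (n + 1) = 2 * h n) : ∀ d n i, i < 2 ^ n →
    Jn p h (n + d) (uu p n i) = uu p (n + 1) (h n + i) := by
  intro d
  induction d with
  | zero =>
    intro n i hi
    rw [add_zero, Jn, smul_apply, blk_apply, Finset.sum_eq_single i]
    · rw [igc_uu hi, if_pos rfl, smul_smul, mul_inv_cancel₀ (by positivity), one_smul]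
      rfl
    · intro q _ hq
      rw [igc_uu hi, if_neg hq, zero_smul]
    · intro h; exact absurd (Finset.mem_range.2 hi) h
  | succ d ih =>
    intro n i hi
    rw [uu_add n i, map_add, show n + (d + 1) = n + 1 + d by ring, ih (n + 1) (2 * i) (by rw [pow_succ]; omega),
      ih (n + 1) (2 * i + 1) (by rw [pow_succ]; omega), uu_add (n + 1) (h n + i), hh]
    congr 2 <;> omega

theorem Qn_uu {h : ℕ → ℕ} (hh : ∀ n, h (n + 1) = 2 * h n) : ∀ d n i, i < 2 ^ (n + 1) →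
    Qn p h (n + d) (uu p (n + 1) i) = if h n ≤ i ∧ i < h n + 2 ^ n then uu p n (i - h n) else 0 := by
  intro d
  induction d with
  | zero =>
    intro n i hi
    rw [add_zero, Qn, smul_apply, blk_apply]
    by_cases hc : h n ≤ i ∧ i < h n + 2 ^ n
    · rw [if_pos hc, Finset.sum_eq_single (i - h n)]
      · rw [igc_uu hi, if_pos (by omega), smul_smul, mul_inv_cancel₀ (by positivity), one_smul]
        rfl
      · intro q _ hq
        rw [igc_uu hi, if_neg (by omega), zero_smul]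
      · intro h'; exact absurd (Finset.mem_range.2 (by omega)) h'
    · rw [if_neg hc, Finset.sum_eq_zero, smul_zero]
      intro q hq
      have := Finset.mem_range.1 hq
      rw [igc_uu hi, if_neg (by omega), zero_smul]
  | succ d ih =>
    intro n i hi
    have e1 : 2 ^ (n + 1) = 2 * 2 ^ n := by rw [pow_succ]; ring
    have e2 : 2 ^ (n + 1 + 1) = 2 * 2 ^ (n + 1) := by rw [pow_succ]; ring
    rw [uu_add (n + 1) i, map_add, show n + (d + 1) = n + 1 + d by ring, ih (n + 1) (2 * i) (by omega),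
      ih (n + 1) (2 * i + 1) (by omega), hh]
    by_cases hc : h n ≤ i ∧ i < h n + 2 ^ n
    · rw [if_pos (by omega), if_pos (by omega), if_pos hc, uu_add n (i - h n)]
      congr 2 <;> omega
    · rw [if_neg (by omega), if_neg (by omega), if_neg hc, add_zero]

theorem exists_J (hp : p ≠ ∞) {h : ℕ → ℕ} (hh : ∀ n, h (n + 1) = 2 * h n) : ∃ J : LL p →L[ℝ] LL p, ‖J‖ ≤ 2 ∧
    ∀ n i, i < 2 ^ n → J (uu p n i) = uu p (n + 1) (h n + i) := by
  obtain ⟨B, hB1, hB2⟩ := OL hp (hyperfilter ℕ) (fun n => Jn p h n) 2 zero_le_two (norm_Jn_le hp h)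
  refine ⟨B, hB1, fun n i hi => hB2 _ _ ?_⟩
  refine tendsto_const_nhds.congr' ?_
  have : ∀ᶠ n' in atTop, n ≤ n' := eventually_ge_atTop n
  have h2 : ∀ᶠ n' in (hyperfilter ℕ : Filter ℕ), n ≤ n' := Nat.hyperfilter_le_atTop this
  refine h2.mono fun n' hn => ?_
  have := Jn_uu (p := p) hh (n' - n) n i hi
  rw [show n + (n' - n) = n' by omega] at this
  exact this.symm

theorem exists_Q (hp : p ≠ ∞) {h : ℕ → ℕ} (hh : ∀ n, h (n + 1) = 2 * h n) : ∃ Q : LL p →L[ℝ] LL p, ‖Q‖ ≤ 2 ∧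
    ∀ n i, i < 2 ^ (n + 1) → Q (uu p (n + 1) i) = if h n ≤ i ∧ i < h n + 2 ^ n then uu p n (i - h n) else 0 := by
  obtain ⟨B, hB1, hB2⟩ := OL hp (hyperfilter ℕ) (fun n => Qn p h n) 2 zero_le_two (norm_Qn_le hp h)
  refine ⟨B, hB1, fun n i hi => hB2 _ _ ?_⟩
  refine tendsto_const_nhds.congr' ?_
  have : ∀ᶠ n' in atTop, n ≤ n' := eventually_ge_atTop n
  have h2 : ∀ᶠ n' in (hyperfilter ℕ : Filter ℕ), n ≤ n' := Nat.hyperfilter_le_atTop this
  refine h2.mono fun n' hn => ?_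
  have := Qn_uu (p := p) hh (n' - n) n i hi
  rw [show n + (n' - n) = n' by omega] at this
  exact this.symm

theorem exists_halves (hp : p ≠ ∞) : ∃ J₁ J₂ Q₁ Q₂ : LL p →L[ℝ] LL p, ‖J₁‖ ≤ 2 ∧ ‖J₂‖ ≤ 2 ∧ ‖Q₁‖ ≤ 2 ∧ ‖Q₂‖ ≤ 2 ∧
    (∀ x, Q₁ (J₁ x) = x) ∧ (∀ x, Q₂ (J₂ x) = x) ∧ (∀ x, Q₁ (J₂ x) = 0) ∧ (∀ x, Q₂ (J₁ x) = 0) := by
  obtain ⟨J₁, a1, b1⟩ := exists_J hp (h := fun _ => 0) (fun _ => rfl)
  obtain ⟨J₂, a2, b2⟩ := exists_J hp (h := fun n => 2 ^ n) (fun n => by rw [pow_succ]; ring)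
  obtain ⟨Q₁, a3, b3⟩ := exists_Q hp (h := fun _ => 0) (fun _ => rfl)
  obtain ⟨Q₂, a4, b4⟩ := exists_Q hp (h := fun n => 2 ^ n) (fun n => by rw [pow_succ]; ring)
  refine ⟨J₁, J₂, Q₁, Q₂, a1, a2, a3, a4, fun x => ?_, fun x => ?_, fun x => ?_, fun x => ?_⟩
  · have := kill_uu hp (Q₁.comp J₁ - ContinuousLinearMap.id ℝ _) (fun n i hi => ?_) x
    · exact sub_eq_zero.1 this
    · show Q₁ (J₁ _) - _ = 0
      rw [b1 n i hi, b3 n _ (by rw [pow_succ]; omega), if_pos (by omega)]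
      simp
  · have := kill_uu hp (Q₂.comp J₂ - ContinuousLinearMap.id ℝ _) (fun n i hi => ?_) x
    · exact sub_eq_zero.1 this
    · show Q₂ (J₂ _) - _ = 0
      rw [b2 n i hi, b4 n _ (by rw [pow_succ]; omega), if_pos (by omega)]
      simp
  · refine kill_uu hp (Q₁.comp J₂) (fun n i hi => ?_) x
    show Q₁ (J₂ _) = 0
    rw [b2 n i hi, b3 n _ (by rw [pow_succ]; omega), if_neg (by omega)]
  · refine kill_uu hp (Q₂.comp J₁) (fun n i hi => ?_) x
    show Q₂ (J₁ _) = 0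
    rw [b1 n i hi, b4 n _ (by rw [pow_succ]; omega), if_neg (by omega)]

end one

variable {p : ℕ → ℝ≥0∞} [hp1 : ∀ k, Fact (1 ≤ p k)]

/-- coordinatewise operator supported on `Γ` -/
theorem exists_diag (Γ : Set ℕ) (L : ∀ k, LL (p k) →L[ℝ] LL (p k)) (hL : ∀ k, ‖L k‖ ≤ 2) :
    ∃ D : ZZ p →L[ℝ] ZZ p, (∀ z, ∀ k ∈ Γ, D z k = L k (z k)) ∧ ∀ z, ∀ k ∉ Γ, D z k = 0 := by
  classical
  refine ⟨mkZ (fun k => if k ∈ Γ then (L k).comp (ev k) else 0) 2 zero_le_two (fun k => ?_), fun z k hk => ?_,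
    fun z k hk => ?_⟩
  · split_ifs
    · refine ((L k).opNorm_comp_le _).trans ?_
      calc ‖L k‖ * ‖(ev k : ZZ p →L[ℝ] LL (p k))‖ ≤ 2 * 1 :=
            mul_le_mul (hL k) (norm_ev_le k) (norm_nonneg _) zero_le_two
        _ = 2 := mul_one 2
    · rw [norm_zero]; exact zero_le_two
  · rw [mkZ_apply, if_pos hk]; rfl
  · rw [mkZ_apply, if_neg hk]; rfl

theorem final (hp : ∀ k, p k ≠ ∞) (S : ZZ p →L[ℝ] ZZ p) (hS : ∀ k x, S (inc k x) = 0) :
    ∃ A B : ZZ p →L[ℝ] ZZ p, ∀ z, A (B z + S (B z)) = z := by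
  obtain ⟨Γ, U, V, hΓ, hV, hUV⟩ := factor hp S hS
  choose j₁ j₂ q₁ q₂ n1 n2 n3 n4 r1 r2 r3 r4 using fun k => exists_halves (hp k)
  obtain ⟨P, P1', P2⟩ := exists_diag Γ (fun k => ContinuousLinearMap.id ℝ (LL (p k))) (fun k =>
    ContinuousLinearMap.norm_id_le.trans one_le_two)
  have P1 : ∀ z, ∀ k ∈ Γ, P z k = z k := P1'
  obtain ⟨J₁, J11, J12⟩ := exists_diag Γ j₁ n1
  obtain ⟨J₂, J21, J22⟩ := exists_diag Γ j₂ n2
  obtain ⟨Q₁, Q11, Q12⟩ := exists_diag Γ q₁ n3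
  obtain ⟨Q₂, Q21, Q22⟩ := exists_diag Γ q₂ n4
  set one : ZZ p →L[ℝ] ZZ p := ContinuousLinearMap.id ℝ (ZZ p) with hone
  set V' : ZZ p →L[ℝ] ZZ p := V - Q₂.comp S with hV'
  set B : ZZ p →L[ℝ] ZZ p := (one - P) + J₂.comp V' + J₁ with hB
  set A : ZZ p →L[ℝ] ZZ p := (one - P + Q₁).comp (one - U.comp Q₂) with hA
  have V'c : ∀ z, ∀ k ∉ Γ, V' z k = 0 := by
    intro z k hk
    show V z k - Q₂ (S z) k = 0
    rw [hV z k hk, Q22 _ k hk, sub_zero]
  have Bc : ∀ z k, B z k = (z k - P z k) + J₂ (V' z) k + J₁ z k := fun z k => rfl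
  have hSB : ∀ z, S (B z) = S z := by
    intro z
    have : S (B z - z) = 0 := by
      refine hΓ _ fun k hk => ?_
      show B z k - z k = 0
      rw [Bc, P2 z k hk, J22 _ k hk, J12 _ k hk]
      simp
    rw [map_sub, sub_eq_zero] at this
    exact this
  have hQ2 : ∀ z, Q₂ (B z + S z) = V z := by
    intro z
    apply lp.ext; funext k
    by_cases hk : k ∈ Γ
    · rw [Q21 _ k hk]
      have e1 : (B z + S z) k = B z k + S z k := rfl
      rw [e1, Bc, P1 z k hk, J21 _ k hk, J11 _ k hk, map_add, map_add, map_add, r2, r4]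
      have e2 : V' z k = V z k - q₂ k (S z k) := by
        show V z k - Q₂ (S z) k = _
        rw [Q21 _ k hk]
      rw [e2]
      simp
    · rw [Q22 _ k hk, hV z k hk]
  refine ⟨A, B, fun z => ?_⟩
  rw [hSB]
  have e1 : (one - U.comp Q₂) (B z + S z) = B z := by
    show (B z + S z) - U (Q₂ (B z + S z)) = B z
    rw [hQ2, hUV]
    abel
  show (one - P + Q₁) ((one - U.comp Q₂) (B z + S z)) = z
  rw [e1]
  apply lp.ext; funext k
  show B z k - P (B z) k + Q₁ (B z) k = z k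
  by_cases hk : k ∈ Γ
  · rw [P1 _ k hk, sub_self, zero_add, Q11 _ k hk, Bc, P1 z k hk, J21 _ k hk, J11 _ k hk, sub_self, zero_add,
      map_add, r3, r1, zero_add]
  · rw [P2 _ k hk, Q12 _ k hk, Bc, P2 z k hk, J22 _ k hk, J12 _ k hk]
    simp

theorem main (hp : ∀ k, p k ≠ ∞) (T : ZZ p →L[ℝ] ZZ p) {δ : ℝ} (hδ : 0 < δ)
    (hT : ∀ k, ∀ K : ℕ × ℕ, K.2 < 2 ^ K.1 → δ * sz K ≤ |xx (Tkk T k) K K|) :
    ∃ A B : ZZ p →L[ℝ] ZZ p, ∀ z, A (T (B z)) = z := by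
  obtain ⟨A₀, B₀, S, h1, h2⟩ := reduce hp T hδ hT
  obtain ⟨A, B, h3⟩ := final hp S h2
  refine ⟨A.comp A₀, B₀.comp B, fun z => ?_⟩
  show A (A₀ (T (B₀ (B z)))) = z
  rw [h1, h3]

end Pool.Agent.Helper89.Haar
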