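import Pool.Agent.Helper89.Haar.Diag

/-!
An infinite set on which the remainder vanishes.
-/

set_option autoImplicit false
set_option linter.unusedSectionVars false

open MeasureTheory Filter Topology Set
open scoped ENNReal NNReal

noncomputable section

namespace Pool.Agent.Helper89.Haar

variable {p : ℕ → ℝ≥0∞} [hp1 : ∀ k, Fact (1 ≤ p k)]

theorem exists_inj_choice (A : ℕ → Set ℕ) (hA : ∀ i, (A i).Infinite) :
    ∃ g : ℕ → ℕ, Function.Injective g ∧ ∀ i, g i ∈ A i := by
  obtain ⟨g, hg⟩ := exists_seq (α := ℕ) (fun j σ => σ j ∈ A j ∧ ∀ i < j, σ i ≠ σ j)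
    (fun j σ τ h h1 => by
      refine ⟨h j le_rfl ▸ h1.1, fun i hi => ?_⟩
      rw [← h j le_rfl, ← h i hi.le]; exact h1.2 i hi)
    (fun j σ _ => by
      obtain ⟨a, ha1, ha2⟩ := (hA j).exists_notMem_finset ((Finset.range j).image σ)
      refine ⟨a, by simpa using ha1, fun i hi => ?_⟩
      rw [Function.update_self, Function.update_of_ne hi.ne]
      intro h
      exact ha2 (Finset.mem_image.2 ⟨i, Finset.mem_range.2 hi, h⟩))
  refine ⟨g, ?_, fun i => (hg i).1⟩
  intro i j hij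
  by_contra hne
  rcases Nat.lt_or_gt_of_ne hne with h | h
  · exact (hg j).2 i h hij
  · exact (hg i).2 j h hij.symm

/-- code of a node of the binary tree -/
def nd (α : ℕ → Bool) (n : ℕ) : ℕ := Encodable.encode (List.ofFn fun i : Fin n => α i)

theorem nd_inj {α β : ℕ → Bool} {n m : ℕ} (h : nd α n = nd β m) : n = m ∧ ∀ i < n, α i = β i := by
  have h1 := Encodable.encode_injective h
  have h2 : n = m := by
    have := congrArg List.length h1
    simpa using this
  subst h2
  refine ⟨rfl, fun i hi => ?_⟩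
  have h3 := List.ofFn_injective h1
  exact congrFun h3 ⟨i, hi⟩

/-- the restriction to a cofinite set of coordinates -/
theorem exists_cut (z : ZZ p) (F : Finset ℕ) : ∃ z' : ZZ p, ‖z'‖ ≤ ‖z‖ ∧ (∀ j ∈ F, z' j = 0) ∧
    (∀ j ∉ F, z' j = z j) ∧ ∀ {E : Type} [NormedAddCommGroup E] [NormedSpace ℝ E] (S : ZZ p →L[ℝ] E),
      (∀ k x, S (inc k x) = 0) → S z' = S z := by
  set z' : ZZ p := z - ∑ k ∈ F, inc k (z k) with hz'
  have hc : ∀ j, z' j = if j ∈ F then 0 else z j := by
    intro j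
    have e1 : z' j = z j - ∑ k ∈ F, (inc k (z k) : ZZ p) j := by
      have := map_sub (ev j) z (∑ k ∈ F, inc k (z k))
      rw [map_sum] at this
      exact this
    rw [e1]
    by_cases hj : j ∈ F
    · rw [Finset.sum_eq_single j (fun k _ hk => inc_ne (Ne.symm hk) _) (fun h => absurd hj h), inc_same,
        if_pos hj, sub_self]
    · rw [Finset.sum_eq_zero (fun k hk => inc_ne (fun h : j = k => hj (by rw [h]; exact hk)) _), if_neg hj, sub_zero]
  refine ⟨z', norm_ZZ_le (norm_nonneg _) fun j => ?_, fun j hj => by rw [hc, if_pos hj],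
    fun j hj => by rw [hc, if_neg hj], ?_⟩
  · rw [hc]
    split_ifs
    · rw [norm_zero]; exact norm_nonneg _
    · exact norm_coord_le z j
  · intro E _ _ S hS
    rw [hz', map_sub, map_sum, Finset.sum_eq_zero (fun k _ => hS k _), sub_zero]

theorem exists_fun_ne {q : ℝ≥0∞} [Fact (1 ≤ q)] (hq : q ≠ ∞) {x : LL q} (hx : x ≠ 0) :
    ∃ n i, igc q (fun t => (1 : ℝ) * (I n i).indicator (fun _ => 1) t) x ≠ 0 := by
  by_contra hcon
  push Not at hcon
  apply hx
  have h2 : ∀ n, EE q n x = 0 := by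
    intro n
    rw [EE, smul_apply, blk_apply, Finset.sum_eq_zero, smul_zero]
    intro i _
    rw [hcon n i, zero_smul]
  have h3 := EE_tendsto hq x
  simp only [h2] at h3
  exact (tendsto_nhds_unique h3 tendsto_const_nhds)

theorem exists_Gamma (hp : ∀ k, p k ≠ ∞) (S : ZZ p →L[ℝ] ZZ p) (hS : ∀ k x, S (inc k x) = 0)
    (Ω : ℕ → Set ℕ) (hΩ : ∀ l, (Ω l).Infinite) :
    ∃ Γ : Set ℕ, (∀ l, (Γ ∩ Ω l).Infinite) ∧ ∀ z : ZZ p, (∀ j ∉ Γ, z j = 0) → S z = 0 := by
  obtain ⟨g, hg1, hg2⟩ := exists_inj_choice (fun i => Ω i.unpair.2) (fun i => hΩ _)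
  set Γ : (ℕ → Bool) → Set ℕ := fun α => {j | ∃ n l, l ≤ n ∧ j = g (Nat.pair (nd α n) l)} with hΓ
  have hinf : ∀ α l, (Γ α ∩ Ω l).Infinite := by
    intro α l
    refine Set.infinite_of_injective_forall_mem (f := fun n => g (Nat.pair (nd α (n + l)) l)) ?_ ?_
    · intro n m h
      have h1 := congrArg (fun x => x.unpair.1) (hg1 h)
      simp only [Nat.unpair_pair] at h1
      have := (nd_inj h1).1
      omega
    · intro n
      refine ⟨⟨n + l, l, by omega, rfl⟩, ?_⟩
      have := hg2 (Nat.pair (nd α (n + l)) l)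
      rw [Nat.unpair_pair] at this
      exact this
  have had : ∀ α β, α ≠ β → (Γ α ∩ Γ β).Finite := by
    intro α β hαβ
    obtain ⟨N, hN⟩ := Function.ne_iff.1 hαβ
    refine ((Finset.range (N + 1) ×ˢ Finset.range (N + 1)).image
      fun x : ℕ × ℕ => g (Nat.pair (nd α x.1) x.2)).finite_toSet.subset ?_
    rintro j ⟨⟨n, l, hl, rfl⟩, ⟨m, l', hl', h⟩⟩
    have h1 := congrArg (fun x => x.unpair.1) (hg1 h)
    simp only [Nat.unpair_pair] at h1
    have h2 := nd_inj h1
    have h3 : n ≤ N := by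
      by_contra hcon
      exact hN (h2.2 N (by omega))
    rw [Finset.mem_coe, Finset.mem_image]
    exact ⟨(n, l), Finset.mem_product.2 ⟨Finset.mem_range.2 (by omega), Finset.mem_range.2 (by dsimp only; omega)⟩, rfl⟩
  by_contra hcon
  push Not at hcon
  have h1 : ∀ α, ∃ z : ZZ p, (∀ j ∉ Γ α, z j = 0) ∧ S z ≠ 0 := fun α => hcon (Γ α) (hinf α)
  -- a functional and normalization
  have h2 : ∀ α, ∃ (z : ZZ p) (c : ℕ × ℕ × ℕ × ℕ), (∀ j ∉ Γ α, z j = 0) ∧ ‖z‖ ≤ 1 ∧
      1 / ((c.2.2.2 : ℝ) + 1) < igc (p c.1) (fun t => (1 : ℝ) * (I c.2.1 c.2.2.1).indicator (fun _ => 1) t) (S z c.1) := by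
    intro α
    obtain ⟨z, hz1, hz2⟩ := h1 α
    have h3 : ∃ k, S z k ≠ 0 := by
      by_contra h4
      push Not at h4
      apply hz2
      apply lp.ext; funext k
      exact h4 k
    obtain ⟨k, hk⟩ := h3
    obtain ⟨n, i, hni⟩ := exists_fun_ne (hp k) hk
    set φ : LL (p k) →L[ℝ] ℝ := igc (p k) (fun t => (1 : ℝ) * (I n i).indicator (fun _ => 1) t) with hφ
    have hzn : 0 < ‖z‖ := by
      rw [norm_pos_iff]
      rintro rfl
      exact hz2 (map_zero S)
    set c : ℝ := SignType.sign (φ (S z k)) * ‖z‖⁻¹ with hc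
    have hpos : 0 < φ (S (c • z) k) := by
      have e1 : S (c • z) k = c • S z k := by rw [map_smul]; rfl
      rw [e1, map_smul, smul_eq_mul, hc, mul_right_comm, sign_mul_self]
      positivity
    obtain ⟨q, hq⟩ := exists_nat_one_div_lt hpos
    refine ⟨c • z, (k, n, i, q), fun j hj => ?_, ?_, hq⟩
    · have : (c • z : ZZ p) j = c • z j := rfl
      rw [this, hz1 j hj, smul_zero]
    · rw [norm_smul, hc, norm_mul, norm_inv, norm_norm, mul_assoc, inv_mul_cancel₀ hzn.ne', mul_one]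
      have : ‖((SignType.sign (φ (S z k)) : SignType) : ℝ)‖ ≤ 1 := by
        rcases lt_trichotomy (φ (S z k)) 0 with h | h | h
        · rw [sign_neg h]; simp
        · rw [h]; simp
        · rw [sign_pos h]; simp
      exact this
  choose z c hz1 hz2 hz3 using h2
  -- pigeonhole
  have h4 : ∃ c0, {α | c α = c0}.Infinite := by
    by_contra h5
    push Not at h5
    have h6 : (Set.univ : Set (ℕ → Bool)).Countable := by
      have : (Set.univ : Set (ℕ → Bool)) = ⋃ c0, {α | c α = c0} := by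
        ext α; simp
      rw [this]
      exact Set.countable_iUnion fun c0 => (h5 c0).countable
    rw [Set.countable_univ_iff] at h6
    obtain ⟨f, hf⟩ := exists_surjective_nat (ℕ → Bool)
    obtain ⟨n, hn⟩ := hf fun n => !(f n n)
    have := congrFun hn n
    simp at this
  obtain ⟨⟨k, n, i, q⟩, hc0⟩ := h4
  set φ : LL (p k) →L[ℝ] ℝ := igc (p k) (fun t => (1 : ℝ) * (I n i).indicator (fun _ => 1) t) with hφ
  obtain ⟨r, hr⟩ := exists_nat_gt (‖S‖ * ((q : ℝ) + 1))
  obtain ⟨s, hs1, hs2⟩ := hc0.exists_subset_card_eq r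
  classical
  -- the exceptional set
  have hFfin : (⋃ α ∈ s, ⋃ β ∈ s, if α = β then (∅ : Set ℕ) else Γ α ∩ Γ β).Finite := by
    refine s.finite_toSet.biUnion fun α _ => s.finite_toSet.biUnion fun β _ => ?_
    split_ifs with h
    · exact Set.finite_empty
    · exact had α β h
  set F := hFfin.toFinset with hF
  choose z' e1 e2 e3 e4 using fun α => exists_cut (z α) F
  have hdisj : ∀ j, ∀ α ∈ s, ∀ β ∈ s, α ≠ β → z' α j ≠ 0 → z' β j = 0 := by
    intro j α hα β hβ hαβ h
    by_cases hj : j ∈ F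
    · exact e2 β j hj
    · have h5 : j ∈ Γ α := by
        by_contra h6
        exact h (by rw [e3 α j hj, hz1 α j h6])
      rw [e3 β j hj]
      refine hz1 β j fun h6 => hj ?_
      rw [hF, Set.Finite.mem_toFinset]
      refine Set.mem_biUnion hα (Set.mem_biUnion hβ ?_)
      rw [if_neg hαβ]
      exact ⟨h5, h6⟩
  set w : ZZ p := ∑ α ∈ s, z' α with hw
  have hwn : ‖w‖ ≤ 1 := by
    refine norm_ZZ_le zero_le_one fun j => ?_
    have e5 : w j = ∑ α ∈ s, z' α j := by
      have := map_sum (ev j) z' s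
      exact this
    rw [e5]
    by_cases hall : ∀ α ∈ s, z' α j = 0
    · rw [Finset.sum_eq_zero hall, norm_zero]; exact zero_le_one
    · push Not at hall
      obtain ⟨α, hα, hα2⟩ := hall
      rw [Finset.sum_eq_single α (fun β hβ hne => hdisj j α hα β hβ (Ne.symm hne) hα2) (fun h => absurd hα h)]
      exact (norm_coord_le _ j).trans ((e1 α).trans (hz2 α))
  have hup : φ (S w k) ≤ ‖S‖ := by
    refine (le_abs_self _).trans ((abs_igc_le (bd_one_I n i) (C := 1) (fun t => ?_) _).trans ?_)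
    · by_cases h : t ∈ I n i <;> simp [h]
    · rw [one_mul]
      calc ‖S w k‖ ≤ ‖S w‖ := norm_coord_le _ _
        _ ≤ ‖S‖ * ‖w‖ := S.le_opNorm w
        _ ≤ ‖S‖ * 1 := by gcongr
        _ = ‖S‖ := mul_one _
  have hlow : (r : ℝ) * (1 / ((q : ℝ) + 1)) ≤ φ (S w k) := by
    have e5 : φ (S w k) = ∑ α ∈ s, φ (S (z α) k) := by
      have e6 : S w = ∑ α ∈ s, S (z α) := by
        rw [hw, map_sum]
        exact Finset.sum_congr rfl fun α _ => e4 α S hS
      have e7 : S w k = ∑ α ∈ s, S (z α) k := by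
        rw [e6]
        exact map_sum (ev k) (fun α => S (z α)) s
      rw [e7, map_sum]
    rw [e5, ← hs2, ← nsmul_eq_mul]
    refine Finset.card_nsmul_le_sum _ _ _ fun α hα => ?_
    have h5 : c α = (k, n, i, q) := hs1 hα
    have h6 := hz3 α
    have : ∀ c', c' = (k, n, i, q) → 1 / ((c'.2.2.2 : ℝ) + 1) < igc (p c'.1)
        (fun t => (1 : ℝ) * (I c'.2.1 c'.2.2.1).indicator (fun _ => 1) t) (S (z α) c'.1) →
        1 / ((q : ℝ) + 1) ≤ φ (S (z α) k) := by
      rintro c' rfl h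
      exact h.le
    exact this _ h5 h6
  have hq0 : (0 : ℝ) < (q : ℝ) + 1 := by positivity
  have := hlow.trans hup
  rw [mul_one_div, div_le_iff₀ hq0] at this
  linarith

end Pool.Agent.Helper89.Haar
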