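import Pool.Agent.Helper89.Haar.Dyadic

/-!
Dyadic martingales and operator ultralimits on `L^p[0,1)` (problem MP_e03f8f_an).
-/

set_option autoImplicit false
set_option linter.unusedSectionVars false

open MeasureTheory Filter Topology Set
open scoped ENNReal NNReal

noncomputable section

namespace Pool.Agent.Helper89.Haar

/-- dyadic index -/
def qq (n : ℕ) (t : ℝ) : ℕ := ⌊2 ^ n * t⌋₊

theorem meas_qq (n : ℕ) : Measurable (qq n) := Nat.measurable_floor.comp (measurable_const_mul _)

theorem qq_succ (n : ℕ) (t : ℝ) : qq n t = qq (n + 1) t / 2 := by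
  rw [qq, qq, ← Nat.floor_div_natCast]
  congr 1
  rw [pow_succ]
  push_cast
  ring

/-- dyadic filtration -/
def FF : Filtration ℕ (borel ℝ) where
  seq n := MeasurableSpace.comap (qq n) ⊤
  mono' := by
    refine monotone_nat_of_le_succ fun n => ?_
    rintro _ ⟨B, -, rfl⟩
    refine ⟨{k | k / 2 ∈ B}, trivial, ?_⟩
    ext t
    simp only [mem_preimage, mem_ofPred_eq, qq_succ n t]
  le' n := by
    rintro _ ⟨B, -, rfl⟩
    exact meas_qq n (MeasurableSet.of_discrete)

theorem int_floor (n : ℕ) (φ : ℕ → ℝ) :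
    ∫ t, φ (qq n t) ∂μ = ∑ k ∈ Finset.range (2 ^ n), φ k * ((2 : ℝ) ^ n)⁻¹ := by
  have h1 : ∫ t, φ (qq n t) ∂μ =
      ∫ t, ∑ k ∈ Finset.range (2 ^ n), φ k * (I n k).indicator (fun _ => 1) t ∂μ := by
    refine integral_congr_ae ?_
    filter_upwards [ae_mem] with t ht
    rw [sum_ind_I φ ht, qq]
  rw [h1, integral_finsetSum]
  · refine Finset.sum_congr rfl fun k hk => ?_
    rw [integral_const_mul, integral_indicator (meas_I n k), setIntegral_const, smul_eq_mul, mul_one,
      Measure.real, mu_I (by simpa using hk), ENNReal.toReal_ofReal (by positivity)]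
  · intro k _
    exact (Bd.ind (meas_I n k)).integrable.const_mul _

theorem integrable_floor (n : ℕ) (φ : ℕ → ℝ) : Integrable (fun t => φ (qq n t)) μ := by
  have h : Integrable (fun t => ∑ k ∈ Finset.range (2 ^ n), φ k * (I n k).indicator (fun _ => 1) t) μ :=
    integrable_finsetSum _ fun k _ => (Bd.ind (meas_I n k)).integrable.const_mul _
  refine h.congr ?_
  filter_upwards [ae_mem] with t ht
  rw [sum_ind_I φ ht, qq]

theorem sum_even_odd (m : ℕ) (g : ℕ → ℝ) :
    ∑ k ∈ Finset.range (2 * m), g k = ∑ k ∈ Finset.range m, (g (2 * k) + g (2 * k + 1)) := by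
  induction m with
  | zero => simp
  | succ m ih =>
    rw [show 2 * (m + 1) = 2 * m + 1 + 1 by ring, Finset.sum_range_succ, Finset.sum_range_succ, ih,
      Finset.sum_range_succ]
    ring

theorem mart (a : ℕ → ℕ → ℝ) (hsplit : ∀ n, ∀ k < 2 ^ n, a n k = a (n + 1) (2 * k) + a (n + 1) (2 * k + 1))
    (R : ℝ≥0) (hbd : ∀ n, eLpNorm (fun t => 2 ^ n * a n (qq n t)) 1 μ ≤ R) :
    ∀ᵐ t ∂μ, ∃ c, Tendsto (fun n => 2 ^ n * a n (qq n t)) atTop (𝓝 c) := by
  have hmart : Martingale (fun n t => 2 ^ n * a n (qq n t)) FF μ := by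
    refine martingale_nat ?_ ?_ ?_
    · intro n
      have : Measurable[MeasurableSpace.comap (qq n) ⊤] (fun t => 2 ^ n * a n (qq n t)) :=
        (measurable_from_top (f := fun k => 2 ^ n * a n k)).comp (comap_measurable _)
      exact this.stronglyMeasurable
    · intro n
      exact integrable_floor n (fun k => 2 ^ n * a n k)
    · intro n
      refine ae_eq_condExp_of_forall_setIntegral_eq (FF.le n) (integrable_floor (n + 1) (fun k => 2 ^ (n + 1) * a (n + 1) k))
        (fun s _ _ => (integrable_floor n (fun k => 2 ^ n * a n k)).integrableOn) ?_ ?_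
      · rintro _ ⟨B, -, rfl⟩ -
        classical
        have hB : MeasurableSet (qq n ⁻¹' B) := meas_qq n (MeasurableSet.of_discrete)
        rw [← integral_indicator hB, ← integral_indicator hB]
        have e1 : (qq n ⁻¹' B).indicator (fun t => 2 ^ n * a n (qq n t)) =
            fun t => (fun k => if k ∈ B then 2 ^ n * a n k else 0) (qq n t) := by
          ext t
          by_cases h : qq n t ∈ B <;> simp [h, indicator]
        have e2 : (qq n ⁻¹' B).indicator (fun t => 2 ^ (n + 1) * a (n + 1) (qq (n + 1) t)) =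
            fun t => (fun k => if k / 2 ∈ B then 2 ^ (n + 1) * a (n + 1) k else 0) (qq (n + 1) t) := by
          ext t
          simp only [indicator, mem_preimage, qq_succ n t]
        rw [e1, e2, int_floor, int_floor, pow_succ 2 n, mul_comm (2 ^ n) 2, sum_even_odd]
        refine Finset.sum_congr rfl fun k hk => ?_
        rw [hsplit n k (by simpa using hk)]
        have h1 : (2 * k) / 2 = k := by omega
        have h2 : (2 * k + 1) / 2 = k := by omega
        simp only [h1, h2]
        by_cases hkB : k ∈ B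
        · simp only [hkB, if_true]
          field_simp
        · simp [hkB]
      · have : Measurable[MeasurableSpace.comap (qq n) ⊤] (fun t => 2 ^ n * a n (qq n t)) :=
          (measurable_from_top (f := fun k => 2 ^ n * a n k)).comp (comap_measurable _)
        exact this.stronglyMeasurable.aestronglyMeasurable
  exact hmart.submartingale.exists_ae_tendsto_of_bdd hbd

variable {p : ℝ≥0∞} [hp1 : Fact (1 ≤ p)]

theorem abs_av_le (f : LL p) (n k : ℕ) : |av f n k| ≤ ‖f‖ := by
  rw [← igc_I]
  have := abs_igc_le (p := p) (bd_one_I n k) (C := 1) (fun t => by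
    by_cases h : t ∈ I n k <;> simp [h]) f
  simpa using this

theorem av_add (f g : LL p) (n k : ℕ) : av (f + g : LL p) n k = av f n k + av g n k := by
  rw [← igc_I, ← igc_I, ← igc_I, map_add]

theorem av_smul (c : ℝ) (f : LL p) (n k : ℕ) : av (c • f : LL p) n k = c * av f n k := by
  rw [← igc_I, ← igc_I, map_smul, smul_eq_mul]

theorem av_split {f : ℝ → ℝ} (hf : Integrable f μ) (n k : ℕ) :
    av f n k = av f (n + 1) (2 * k) + av f (n + 1) (2 * k + 1) := by
  rw [av, I_split, setIntegral_union (disj_I (by omega)) (meas_I _ _) hf.integrableOn hf.integrableOn]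
  rfl

theorem EE_apply' (n : ℕ) (f : LL p) : EE p n f = ∑ k ∈ Finset.range (2 ^ n),
    (2 ^ n * av f n k) • cl p ((I n k).indicator (fun _ => 1)) := by
  rw [EE_apply, cl_sum _ (fun k _ => ((Bd.ind (meas_I n k)).memLp p).const_mul _)]
  exact Finset.sum_congr rfl fun k _ => cl_smul _ ((Bd.ind (meas_I n k)).memLp p)

/-- Operator ultralimits. -/
theorem OL {Y : Type*} [NormedAddCommGroup Y] [NormedSpace ℝ Y] (hp : p ≠ ∞) {D : Type*}
    (𝒰 : Ultrafilter D) (U : D → Y →L[ℝ] LL p) (C : ℝ) (hC : 0 ≤ C) (hU : ∀ d, ‖U d‖ ≤ C) :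
    ∃ V : Y →L[ℝ] LL p, ‖V‖ ≤ C ∧ ∀ y x, Tendsto (fun d => U d y) 𝒰 (𝓝 x) → V y = x := by
  have hUy : ∀ d y, ‖U d y‖ ≤ C * ‖y‖ := fun d y =>
    ((U d).le_opNorm y).trans (mul_le_mul_of_nonneg_right (hU d) (norm_nonneg _))
  have hlim : ∀ (y : Y) (n k : ℕ), ∃ l, Tendsto (fun d => av (U d y) n k) 𝒰 (𝓝 l) := by
    intro y n k
    have hc : IsCompact (Icc (-(C * ‖y‖)) (C * ‖y‖)) := isCompact_Icc
    obtain ⟨l, -, hl⟩ := hc.ultrafilter_le_nhds (𝒰.map fun d => av (U d y) n k) (by
      rw [Filter.le_principal_iff]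
      show (fun d => av (U d y) n k) ⁻¹' _ ∈ 𝒰
      refine Filter.univ_mem' fun d => ?_
      exact abs_le.1 ((abs_av_le _ n k).trans (hUy d y)))
    exact ⟨l, hl⟩
  choose lam hlam using hlim
  have lam_add : ∀ y y' n k, lam (y + y') n k = lam y n k + lam y' n k := by
    intro y y' n k
    refine tendsto_nhds_unique (hlam (y + y') n k) ?_
    have := (hlam y n k).add (hlam y' n k)
    refine this.congr fun d => ?_
    rw [map_add, av_add]
  have lam_smul : ∀ (c : ℝ) y n k, lam (c • y) n k = c * lam y n k := by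
    intro c y n k
    refine tendsto_nhds_unique (hlam (c • y) n k) ?_
    have := (hlam y n k).const_mul c
    refine this.congr fun d => ?_
    rw [map_smul, av_smul]
  have lam_split : ∀ y n k, lam y n k = lam y (n + 1) (2 * k) + lam y (n + 1) (2 * k + 1) := by
    intro y n k
    refine tendsto_nhds_unique (hlam y n k) ?_
    have := (hlam y (n + 1) (2 * k)).add (hlam y (n + 1) (2 * k + 1))
    refine this.congr fun d => ?_
    rw [← av_split (integrable_coe _)]
  set F : Y → ℕ → ℝ → ℝ := fun y n t => 2 ^ n * lam y n (qq n t) with hF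
  have hFae : ∀ y n, F y n =ᵐ[μ] fun t => ∑ k ∈ Finset.range (2 ^ n),
      (2 ^ n * lam y n k) * (I n k).indicator (fun _ => 1) t := by
    intro y n
    filter_upwards [ae_mem] with t ht
    rw [sum_ind_I (fun k => 2 ^ n * lam y n k) ht]
    rfl
  have hmS : ∀ y n, MemLp (fun t => ∑ k ∈ Finset.range (2 ^ n),
      (2 ^ n * lam y n k) * (I n k).indicator (fun _ => 1) t) p μ := fun y n =>
    memLp_finsetSum _ fun k _ => ((Bd.ind (meas_I n k)).memLp p).const_mul _
  have hmF : ∀ y n, MemLp (F y n) p μ := fun y n => (memLp_congr_ae (hFae y n)).2 (hmS y n)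
  have hclF : ∀ y n, cl p (F y n) = ∑ k ∈ Finset.range (2 ^ n),
      (2 ^ n * lam y n k) • cl p ((I n k).indicator (fun _ => 1)) := by
    intro y n
    rw [cl_congr (hmF y n) (hFae y n), cl_sum _ (fun k _ => ((Bd.ind (meas_I n k)).memLp p).const_mul _)]
    exact Finset.sum_congr rfl fun k _ => cl_smul _ ((Bd.ind (meas_I n k)).memLp p)
  have hTF : ∀ y n, Tendsto (fun d => EE p n (U d y)) 𝒰 (𝓝 (cl p (F y n))) := by
    intro y n
    rw [hclF]
    simp only [EE_apply']
    refine tendsto_finsetSum _ fun k _ => ?_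
    exact ((hlam y n k).const_mul _).smul_const _
  have hnF : ∀ y n, ‖cl p (F y n)‖ ≤ C * ‖y‖ := by
    intro y n
    refine le_of_tendsto (hTF y n).norm (Eventually.of_forall fun d => ?_)
    exact (EE_le hp n _).trans (hUy d y)
  have heF : ∀ y n, eLpNorm (F y n) p μ ≤ ENNReal.ofReal (C * ‖y‖) := by
    intro y n
    have := hnF y n
    rw [norm_cl (hmF y n)] at this
    exact ENNReal.le_ofReal_iff_toReal_le (hmF y n).2.ne (by positivity) |>.2 this
  have hconv : ∀ y, ∀ᵐ t ∂μ, ∃ c, Tendsto (fun n => F y n t) atTop (𝓝 c) := by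
    intro y
    refine mart (lam y) (fun n k _ => lam_split y n k) (C * ‖y‖).toNNReal fun n => ?_
    have h1 : eLpNorm (F y n) 1 μ ≤ eLpNorm (F y n) p μ :=
      eLpNorm_le_eLpNorm_of_exponent_le hp1.out (hmF y n).1
    exact h1.trans (heF y n)
  set G : Y → ℝ → ℝ := fun y t => limUnder atTop (fun n => F y n t) with hG
  have hGl : ∀ y, ∀ᵐ t ∂μ, Tendsto (fun n => F y n t) atTop (𝓝 (G y t)) := by
    intro y
    filter_upwards [hconv y] with t ht
    exact tendsto_nhds_limUnder ht
  have hGm : ∀ y, AEStronglyMeasurable (G y) μ := fun y =>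
    aestronglyMeasurable_of_tendsto_ae atTop (fun n => (hmF y n).1) (hGl y)
  have hGe : ∀ y, eLpNorm (G y) p μ ≤ ENNReal.ofReal (C * ‖y‖) := by
    intro y
    refine (Lp.eLpNorm_lim_le_liminf_eLpNorm (fun n => (hmF y n).1) (G y) (hGl y)).trans ?_
    refine Filter.liminf_le_of_le (by isBoundedDefault) fun b hb => ?_
    obtain ⟨n, hn⟩ := hb.exists
    exact hn.trans (heF y n)
  have hGL : ∀ y, MemLp (G y) p μ := fun y => ⟨hGm y, (hGe y).trans_lt ENNReal.ofReal_lt_top⟩
  let V₀ : Y →ₗ[ℝ] LL p :=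
    { toFun := fun y => cl p (G y)
      map_add' := by
        intro y y'
        rw [← cl_add (hGL y) (hGL y')]
        refine cl_congr (hGL _) ?_
        filter_upwards [hGl y, hGl y', hGl (y + y')] with t h1 h2 h3
        refine tendsto_nhds_unique h3 ?_
        refine (h1.add h2).congr fun n => ?_
        simp only [hF, lam_add]
        ring
      map_smul' := by
        intro c y
        rw [RingHom.id_apply, ← cl_smul c (hGL y)]
        refine cl_congr (hGL _) ?_
        filter_upwards [hGl y, hGl (c • y)] with t h1 h3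
        refine tendsto_nhds_unique h3 ?_
        refine (h1.const_mul c).congr fun n => ?_
        simp only [hF, lam_smul]
        ring }
  have hV₀ : ∀ y, ‖V₀ y‖ ≤ C * ‖y‖ := by
    intro y
    show ‖cl p (G y)‖ ≤ _
    rw [norm_cl (hGL y)]
    exact ENNReal.toReal_le_of_le_ofReal (by positivity) (hGe y)
  refine ⟨V₀.mkContinuous C hV₀, V₀.mkContinuous_norm_le hC _, fun y x hx => ?_⟩
  show cl p (G y) = x
  have h1 : ∀ n, cl p (F y n) = EE p n x := by
    intro n
    exact tendsto_nhds_unique (hTF y n) ((EE p n).continuous.continuousAt.tendsto.comp hx)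
  have h2 : Tendsto (fun n => cl p (F y n)) atTop (𝓝 x) := by
    simp only [h1]
    exact EE_tendsto hp x
  obtain ⟨ns, hns, hae⟩ := (tendstoInMeasure_of_tendsto_Lp h2).exists_seq_tendsto_ae
  rw [← cl_coe x]
  refine cl_congr (hGL y) ?_
  have h3 : ∀ᵐ t ∂μ, ∀ n, cl p (F y n) t = F y n t := ae_all_iff.2 fun n => coe_cl (hmF y n)
  filter_upwards [hae, hGl y, h3] with t h4 h5 h6
  refine tendsto_nhds_unique (h5.comp hns.tendsto_atTop) ?_
  refine h4.congr fun n => ?_
  rw [h6]
  rfl

end Pool.Agent.Helper89.Haar
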