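import Pool.Agent.Helper89.Haar.Sel2

/-!
The operators attached to one coordinate.
-/

set_option autoImplicit false
set_option linter.unusedSectionVars false

open MeasureTheory Filter Topology Set
open scoped ENNReal NNReal

noncomputable section

namespace Pool.Agent.Helper89.Haar

theorem Fam.mono {N : ℕ} {P : ℕ → Set ℝ} {α β : ℝ≥0∞} (h : Fam N P α) (hαβ : α ≤ β) : Fam N P β :=
  ⟨h.meas, h.disj, fun k hk => (h.le k hk).trans hαβ⟩

variable {p : ℝ≥0∞} [hp1 : Fact (1 ≤ p)]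

theorem norm_blk_le' (hp : p ≠ ∞) {N : ℕ} {P Q : ℕ → Set ℝ} {w₁ w₂ : ℝ → ℝ} {a : ℝ} (ha : 0 < a)
    (hP : Fam N P (ENNReal.ofReal a)) (hQ : Fam N Q (ENNReal.ofReal a))
    (hw₁ : Measurable w₁) (hw₂ : Measurable w₂) (h₁ : ∀ t, |w₁ t| ≤ 1) (h₂ : ∀ t, |w₂ t| ≤ 1) :
    ‖blk p N P Q w₁ w₂‖ ≤ a := by
  have h3 : ENNReal.ofReal a ≠ 0 := by
    simp only [ne_eq, ENNReal.ofReal_eq_zero, not_le]; positivity
  have h := norm_blk_le (p := p) hp ENNReal.ofReal_ne_top ENNReal.ofReal_ne_top hP hQ hw₁ hw₂ h₁ h₂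
  rwa [rpow_conj h3 ENNReal.ofReal_ne_top, ENNReal.toReal_ofReal ha.le] at h

/-- Haar functions, index 0 is the constant function -/
def HH (m i : ℕ) : ℝ → ℝ := if m = 0 then fun _ => 1 else hh (m - 1, i)

theorem HH_zero (i : ℕ) : HH 0 i = fun _ => 1 := by simp [HH]

theorem HH_succ (m i : ℕ) : HH (m + 1) i = hh (m, i) := by simp [HH]

theorem bd_HH (m i : ℕ) : Bd (HH m i) := by
  cases m with
  | zero => rw [HH_zero]; exact Bd.const 1
  | succ m => rw [HH_succ]; exact bd_hh _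

theorem abs_HH_le (m i : ℕ) (t : ℝ) : |HH m i t| ≤ 1 := by
  cases m with
  | zero => rw [HH_zero]; simp
  | succ m => rw [HH_succ]; exact abs_hh_le _ t

theorem norm_cl_HH_le (m i : ℕ) : ‖cl p (HH m i)‖ ≤ 1 :=
  norm_cl_le (bd_HH m i).meas zero_le_one (abs_HH_le m i)

/-- values of the Haar functions -/
def Phi (m i q : ℕ) : ℝ := if m = 0 then 1 else if q / 2 = i then (if q % 2 = 0 then 1 else -1) else 0

theorem HH_eq (m i : ℕ) {t : ℝ} (ht : t ∈ Ico (0 : ℝ) 1) : HH m i t = Phi m i (qq m t) := by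
  cases m with
  | zero => simp [HH_zero, Phi]
  | succ m =>
    rw [HH_succ, hh, rad, Phi]
    dsimp only
    rw [if_neg (Nat.succ_ne_zero m), ← qq_succ]
    by_cases h : qq m t = i
    · rw [indicator_of_mem ((mem_I' ht).2 h), if_pos h, mul_one]
    · rw [indicator_of_notMem (fun h' => h ((mem_I' ht).1 h')), if_neg h, mul_zero]

/-- orthogonality -/
theorem int_HH {m i m' i' : ℕ} (hi : i < 2 ^ (m - 1)) (hi' : i' < 2 ^ (m' - 1)) :
    ∫ t, HH m i t * HH m' i' t ∂μ = if m = m' ∧ i = i' then ((2 : ℝ) ^ (m - 1))⁻¹ else 0 := by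
  have key : ∀ {m i m' i' : ℕ}, m < m' → ∫ t, HH m i t * HH m' i' t ∂μ = 0 := by
    intro m i m' i' h
    obtain ⟨n, rfl⟩ : ∃ n, m' = n + 1 := ⟨m' - 1, by omega⟩
    have h1 : MZ m (hh (n, i')) := MZ.hh (K := (n, i')) (show m ≤ n by omega)
    rw [HH_succ, ← h1 (Phi m i)]
    refine integral_congr_ae ?_
    filter_upwards [ae_mem] with t ht
    rw [HH_eq m i ht]
  rcases lt_trichotomy m m' with h | h | h
  · rw [key h, if_neg (fun h' => by omega)]
  · subst h
    cases m with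
    | zero =>
      have e1 : i = 0 := by simpa using hi
      have e2 : i' = 0 := by simpa using hi'
      subst e1; subst e2
      simp [HH_zero]
    | succ m =>
      rw [HH_succ, HH_succ]
      by_cases hii : i = i'
      · subst hii
        have e : ∀ t, hh (m, i) t * hh (m, i) t = (I m i).indicator (fun _ => (1 : ℝ)) t := by
          intro t
          rw [hh]
          dsimp only
          rcases rad_or (m + 1) t with h | h <;> rw [h] <;> by_cases h2 : t ∈ I m i <;> simp [h2]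
        simp only [e]
        rw [integral_indicator (meas_I m i)]
        simp only [and_self, if_true, Nat.add_sub_cancel]
        rw [← real_mu_I (by simpa using hi : i < 2 ^ m)]
        simp
      · rw [if_neg (fun h => hii h.2)]
        have e : ∀ t, hh (m, i) t * hh (m, i') t = 0 := by
          intro t
          rw [hh, hh]
          dsimp only
          by_cases h2 : t ∈ I m i
          · have h3 : t ∉ I m i' := fun h3 => (Set.disjoint_left.1 (disj_I (n := m) hii)) h2 h3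
            simp [h3]
          · simp [h2]
        simp [e]
  · have := key (i := i') (i' := i) h
    rw [if_neg (fun h' => by omega), ← this]
    refine integral_congr_ae (Eventually.of_forall fun t => ?_)
    show _ = _
    ring

theorem code_div {σ : ℕ → ℝ → ℝ} {k m : ℕ} {t : ℝ} : ∀ {n : ℕ}, m ≤ n →
    code σ k m t = code σ k n t / 2 ^ (n - m) := by
  intro n h
  induction n with
  | zero =>
    have : m = 0 := by omega
    subst this
    simp
  | succ n ih =>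
    rcases Nat.lt_or_eq_of_le h with h1 | h1
    · have h2 : m ≤ n := by omega
      rw [ih h2, code, show n + 1 - m = (n - m) + 1 by omega, pow_succ, mul_comm (2 ^ (n - m)) 2,
        ← Nat.div_div_eq_div_mul]
      congr 1
      split_ifs <;> omega
    · subst h1; simp

theorem bb_eq {σ : ℕ → ℝ → ℝ} {k : ℕ} {m i : ℕ} (hi : i < 2 ^ (m - 1)) {t : ℝ}
    (h2 : ∀ m, σ (Nat.pair k m) t = 1 ∨ σ (Nat.pair k m) t = -1) :
    bb σ k m i t = σ (Nat.pair k 0) t * Phi m i (code σ k m t) := by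
  unfold bb pb
  cases m with
  | zero =>
    have e1 : i = 0 := by simpa using hi
    subst e1
    simp [code, Phi]
  | succ m =>
    rw [Nat.add_sub_cancel, if_neg (Nat.succ_ne_zero m), Phi, if_neg (Nat.succ_ne_zero m), code]
    rcases h2 (m + 1) with h | h
    · rw [h]
      simp only [if_true]
      by_cases h1 : code σ k m t = i
      · rw [if_pos h1, if_pos (by omega), if_pos (by omega)]; ring
      · rw [if_neg h1, if_neg (by omega)]; ring
    · rw [h]
      have h3 : ¬ ((-1 : ℝ) = 1) := by norm_num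
      simp only [if_neg h3]
      by_cases h1 : code σ k m t = i
      · rw [if_pos h1, if_pos (by omega), if_neg (by omega)]; ring
      · rw [if_neg h1, if_neg (by omega)]; ring

/-- cells of the code -/
def cell (σ : ℕ → ℝ → ℝ) (k n i : ℕ) : Set ℝ := {t | code σ k n t = i}

/-- hypotheses for one coordinate -/
structure One (σ : ℕ → ℝ → ℝ) (k : ℕ) (Θ : ℝ → ℝ) (δ M : ℝ) : Prop where
  meas : ∀ m, Measurable (σ (Nat.pair k m))
  pm : ∀ m t, σ (Nat.pair k m) t = 1 ∨ σ (Nat.pair k m) t = -1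
  hδ : 0 < δ
  mΘ : Measurable Θ
  bd : ∀ t, δ ≤ Θ t ∧ Θ t ≤ M
  bal : ∀ m i, ∫ t in cell σ k (m - 1) i, Θ t * σ (Nat.pair k m) t ∂μ = 0

namespace One

variable {σ : ℕ → ℝ → ℝ} {k : ℕ} {Θ : ℝ → ℝ} {δ M : ℝ}

theorem mcode (h : One σ k Θ δ M) (n : ℕ) : Measurable (code σ k n) := meas_code fun _ _ _ => h.meas _

theorem mcell (h : One σ k Θ δ M) (n i : ℕ) : MeasurableSet (cell σ k n i) :=
  h.mcode n (measurableSet_singleton i)

theorem bdr (h : One σ k Θ δ M) (m : ℕ) : Bd (σ (Nat.pair k m)) :=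
  ⟨h.meas m, 1, fun t => by rcases h.pm m t with h | h <;> rw [h] <;> simp⟩

theorem absr (h : One σ k Θ δ M) (m : ℕ) (t : ℝ) : |σ (Nat.pair k m) t| ≤ 1 := by
  rcases h.pm m t with h | h <;> rw [h] <;> simp

theorem hM (h : One σ k Θ δ M) : δ ≤ M := (h.bd 0).1.trans (h.bd 0).2

theorem bdΘ (h : One σ k Θ δ M) : Bd Θ :=
  ⟨h.mΘ, M, fun t => by rw [abs_of_nonneg (h.hδ.le.trans (h.bd t).1)]; exact (h.bd t).2⟩

theorem intΘ (h : One σ k Θ δ M) : δ ≤ ∫ t, Θ t ∂μ ∧ ∫ t, Θ t ∂μ ≤ M := by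
  constructor
  · have := integral_mono (μ := μ) (integrable_const δ) h.bdΘ.integrable fun t => (h.bd t).1
    simpa using this
  · have := integral_mono (μ := μ) h.bdΘ.integrable (integrable_const M) fun t => (h.bd t).2
    simpa using this

theorem fam (h : One σ k Θ δ M) (n : ℕ) : Fam (2 ^ n) (cell σ k n) (ENNReal.ofReal (M / δ * ((2 : ℝ) ^ n)⁻¹)) := by
  refine ⟨fun i _ => h.mcell n i, fun i _ l _ hil => ?_, fun i hi => ?_⟩
  · rw [Set.disjoint_left]
    intro t h1 h2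
    exact hil (h1.symm.trans h2)
  · have e : ∫ t, (if code σ k n t = i then Θ t else 0) ∂μ = (∫ t, Θ t ∂μ) * ((2 : ℝ) ^ n)⁻¹ :=
      int_code h.bdΘ (fun _ _ _ => h.meas _) (fun _ _ _ => h.pm _) (fun m _ _ i => h.bal m i) i hi
    have e1 : (fun t => if code σ k n t = i then Θ t else 0) = (cell σ k n i).indicator Θ := by
      funext t; simp [Set.indicator, cell]
    rw [e1, integral_indicator (h.mcell n i)] at e
    have e2 : δ * μ.real (cell σ k n i) ≤ ∫ t in cell σ k n i, Θ t ∂μ := by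
      have := integral_mono (μ := μ.restrict (cell σ k n i)) (integrable_const δ)
        h.bdΘ.integrable.integrableOn fun t => (h.bd t).1
      simpa [mul_comm] using this
    have e3 : μ.real (cell σ k n i) ≤ M / δ * ((2 : ℝ) ^ n)⁻¹ := by
      rw [div_mul_eq_mul_div, le_div_iff₀ h.hδ, mul_comm]
      refine e2.trans ?_
      rw [e]
      exact mul_le_mul_of_nonneg_right h.intΘ.2 (by positivity)
    calc μ (cell σ k n i) = ENNReal.ofReal (μ.real (cell σ k n i)) := by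
          rw [Measure.real, ENNReal.ofReal_toReal (measure_ne_top _ _)]
      _ ≤ _ := ENNReal.ofReal_le_ofReal e3

theorem fam' (h : One σ k Θ δ M) (n : ℕ) : Fam (2 ^ n) (I n) (ENNReal.ofReal (M / δ * ((2 : ℝ) ^ n)⁻¹)) := by
  refine (fam_I n).mono (ENNReal.ofReal_le_ofReal ?_)
  have : 1 ≤ M / δ := (one_le_div h.hδ).2 h.hM
  calc ((2 : ℝ) ^ n)⁻¹ = 1 * ((2 : ℝ) ^ n)⁻¹ := (one_mul _).symm
    _ ≤ _ := mul_le_mul_of_nonneg_right this (by positivity)

theorem hK (h : One σ k Θ δ M) : 0 < M / δ := div_pos (h.hδ.trans_le h.hM) h.hδ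

end One

/-- approximations of `B_k` -/
def Bn (p : ℝ≥0∞) [Fact (1 ≤ p)] (σ : ℕ → ℝ → ℝ) (k n : ℕ) : LL p →L[ℝ] LL p :=
  (2 : ℝ) ^ n • blk p (2 ^ n) (I n) (cell σ k n) (fun _ => 1) (σ (Nat.pair k 0))

/-- approximations of `A_k` -/
def An (p : ℝ≥0∞) [Fact (1 ≤ p)] (σ : ℕ → ℝ → ℝ) (s : ℝ → ℝ) (c : ℝ) (k n : ℕ) : LL p →L[ℝ] LL p :=
  (c⁻¹ * (2 : ℝ) ^ n) • blk p (2 ^ n) (cell σ k n) (I n) (fun t => s t * σ (Nat.pair k 0) t) (fun _ => 1)

variable {σ : ℕ → ℝ → ℝ} {k : ℕ} {Θ : ℝ → ℝ} {δ M : ℝ}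

theorem norm_Bn_le (hp : p ≠ ∞) (h : One σ k Θ δ M) (n : ℕ) : ‖Bn p σ k n‖ ≤ M / δ := by
  have h2 : (0 : ℝ) < 2 ^ n := by positivity
  have h1 := norm_blk_le' (p := p) hp (mul_pos h.hK (inv_pos.2 h2)) (h.fam' n) (h.fam n)
    (w₁ := fun _ => 1) (w₂ := σ (Nat.pair k 0)) measurable_const (h.meas 0) (by simp) (h.absr 0)
  rw [Bn, norm_smul, Real.norm_of_nonneg h2.le]
  calc _ ≤ (2 : ℝ) ^ n * (M / δ * ((2 : ℝ) ^ n)⁻¹) := by gcongr
    _ = M / δ := by field_simp

theorem norm_An_le (hp : p ≠ ∞) (h : One σ k Θ δ M) {s : ℝ → ℝ} (hs : Measurable s)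
    (hs1 : ∀ t, s t = 1 ∨ s t = -1) (n : ℕ) : ‖An p σ s (∫ t, Θ t ∂μ) k n‖ ≤ δ⁻¹ * (M / δ) := by
  have h2 : (0 : ℝ) < 2 ^ n := by positivity
  have h1 := norm_blk_le' (p := p) hp (mul_pos h.hK (inv_pos.2 h2)) (h.fam n) (h.fam' n)
    (w₁ := fun t => s t * σ (Nat.pair k 0) t) (w₂ := fun _ => 1) (hs.mul (h.meas 0)) measurable_const
    (fun t => by
      rw [abs_mul]
      have h4 : |s t| ≤ 1 := by rcases hs1 t with h | h <;> rw [h] <;> simp
      calc |s t| * |σ (Nat.pair k 0) t| ≤ 1 * 1 := mul_le_mul h4 (h.absr 0 t) (abs_nonneg _) zero_le_one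
        _ = 1 := one_mul 1) (by simp)
  have h3 : 0 < ∫ t, Θ t ∂μ := h.hδ.trans_le h.intΘ.1
  rw [An, norm_smul, Real.norm_of_nonneg (by positivity)]
  calc _ ≤ ((∫ t, Θ t ∂μ)⁻¹ * (2 : ℝ) ^ n) * (M / δ * ((2 : ℝ) ^ n)⁻¹) := by gcongr
    _ = (∫ t, Θ t ∂μ)⁻¹ * (M / δ) := by field_simp
    _ ≤ δ⁻¹ * (M / δ) := by
      refine mul_le_mul_of_nonneg_right ?_ h.hK.le
      exact inv_anti₀ h.hδ h.intΘ.1

theorem Bn_apply (h : One σ k Θ δ M) (n : ℕ) {f : ℝ → ℝ} (hf : Bd f) (φ : ℕ → ℝ)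
    (hφ : ∀ t ∈ Ico (0 : ℝ) 1, f t = φ (qq n t)) :
    Bn p σ k n (cl p f) = cl p (fun t => σ (Nat.pair k 0) t * φ (code σ k n t)) := by
  have hm : ∀ q, MemLp (fun t => σ (Nat.pair k 0) t * (cell σ k n q).indicator (fun _ => 1) t) p μ :=
    fun q => ((h.bdr 0).mul_ind (h.mcell n q)).memLp p
  rw [Bn, smul_apply, blk_apply, Finset.smul_sum]
  have e1 : ∀ q ∈ Finset.range (2 ^ n), (2 : ℝ) ^ n • (igc p (fun t => 1 * (I n q).indicator (fun _ => 1) t) (cl p f) •
      cl p (fun t => σ (Nat.pair k 0) t * (cell σ k n q).indicator (fun _ => 1) t)) =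
      cl p (fun t => φ q * (σ (Nat.pair k 0) t * (cell σ k n q).indicator (fun _ => 1) t)) := by
    intro q hq
    have e2 : igc p (fun t => 1 * (I n q).indicator (fun _ => 1) t) (cl p f) = φ q * ((2 : ℝ) ^ n)⁻¹ := by
      rw [igc_cl (bd_one_I n q) (hf.memLp p)]
      have e3 : ∫ t, 1 * (I n q).indicator (fun _ => 1) t * f t ∂μ = ∫ t, (I n q).indicator (fun _ => φ q) t ∂μ := by
        refine integral_congr_ae ?_
        filter_upwards [ae_mem] with t ht
        by_cases h1 : t ∈ I n q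
        · rw [hφ t ht, (mem_I' ht).1 h1]; simp [h1]
        · simp [h1]
      rw [e3, integral_indicator (meas_I n q), setIntegral_const, real_mu_I (Finset.mem_range.1 hq), smul_eq_mul, mul_comm]
    rw [e2, smul_smul, cl_smul _ (hm q)]
    congr 1
    field_simp
  rw [Finset.sum_congr rfl e1, ← cl_sum _ fun q _ => (hm q).const_mul _]
  congr 1
  funext t
  rw [Finset.sum_eq_single (code σ k n t)]
  · have : t ∈ cell σ k n (code σ k n t) := rfl
    rw [indicator_of_mem this]; ring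
  · intro q _ hq
    have : t ∉ cell σ k n q := fun h' => hq h'.symm
    rw [indicator_of_notMem this]; ring
  · intro h'
    exact absurd (Finset.mem_range.2 (code_lt σ k n t)) h'

theorem Bn_HH (h : One σ k Θ δ M) {m i n : ℕ} (hi : i < 2 ^ (m - 1)) (hmn : m ≤ n) :
    Bn p σ k n (cl p (HH m i)) = cl p (bb σ k m i) := by
  rw [Bn_apply h n (bd_HH m i) (fun q => Phi m i (q / 2 ^ (n - m))) (fun t ht => by
    rw [HH_eq m i ht, qq_le' hmn])]
  congr 1
  funext t
  rw [bb_eq hi (fun m => h.pm m t), code_div hmn]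

/-- The operator `B_k`. -/
theorem exists_B (hp : p ≠ ∞) (h : One σ k Θ δ M) : ∃ B : LL p →L[ℝ] LL p, ‖B‖ ≤ M / δ ∧
    ∀ m i, i < 2 ^ (m - 1) → B (cl p (HH m i)) = cl p (bb σ k m i) := by
  obtain ⟨B, hB1, hB2⟩ := OL hp (hyperfilter ℕ) (fun n => Bn p σ k n) (M / δ) h.hK.le (norm_Bn_le hp h)
  refine ⟨B, hB1, fun m i hi => hB2 _ _ ?_⟩
  refine tendsto_const_nhds.congr' ?_
  have : ∀ᶠ n in atTop, m ≤ n := eventually_ge_atTop m
  have h2 : ∀ᶠ n in (hyperfilter ℕ : Filter ℕ), m ≤ n := Nat.hyperfilter_le_atTop this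
  exact h2.mono fun n hn => (Bn_HH h hi hn).symm

end Pool.Agent.Helper89.Haar
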