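import Pool.Agent.Helper89.Haar.Ops

/-!
The operators attached to one coordinate, second part.
-/

set_option autoImplicit false
set_option linter.unusedSectionVars false

open MeasureTheory Filter Topology Set
open scoped ENNReal NNReal

noncomputable section

namespace Pool.Agent.Helper89.Haar

theorem sum_even_odd' {E : Type*} [AddCommGroup E] (m : ℕ) (g : ℕ → E) :
    ∑ k ∈ Finset.range (2 * m), g k = ∑ k ∈ Finset.range m, (g (2 * k) + g (2 * k + 1)) := by
  induction m with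
  | zero => simp
  | succ m ih =>
    rw [show 2 * (m + 1) = 2 * m + 1 + 1 by ring, Finset.sum_range_succ, Finset.sum_range_succ, ih,
      Finset.sum_range_succ]
    abel

variable {p : ℝ≥0∞} [hp1 : Fact (1 ≤ p)] {σ : ℕ → ℝ → ℝ} {k : ℕ} {Θ : ℝ → ℝ} {δ M : ℝ}

/-- coefficient functional on a cell -/
def aa (p : ℝ≥0∞) [Fact (1 ≤ p)] (σ : ℕ → ℝ → ℝ) (s : ℝ → ℝ) (k n i : ℕ) (g : LL p) : ℝ :=
  igc p (fun t => s t * σ (Nat.pair k 0) t * (cell σ k n i).indicator (fun _ => 1) t) g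

theorem bd_sr (h : One σ k Θ δ M) {s : ℝ → ℝ} (hs : Bd s) : Bd (fun t => s t * σ (Nat.pair k 0) t) :=
  hs.mul (h.bdr 0)

theorem igc_add' {g g' : ℝ → ℝ} (hg : Bd g) (hg' : Bd g') (f : LL p) :
    igc p (fun t => g t + g' t) f = igc p g f + igc p g' f := by
  rw [igc_apply hg, igc_apply hg', igc_apply (hg.add hg'), ← integral_add (hg.mul_integrable (integrable_coe f))
    (hg'.mul_integrable (integrable_coe f))]
  refine integral_congr_ae (Eventually.of_forall fun t => ?_)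
  show _ = _
  ring

theorem igc_sub' {g g' : ℝ → ℝ} (hg : Bd g) (hg' : Bd g') (f : LL p) :
    igc p (fun t => g t - g' t) f = igc p g f - igc p g' f := by
  rw [igc_apply hg, igc_apply hg', igc_apply (hg.sub hg'), ← integral_sub (hg.mul_integrable (integrable_coe f))
    (hg'.mul_integrable (integrable_coe f))]
  refine integral_congr_ae (Eventually.of_forall fun t => ?_)
  show _ = _
  ring

theorem code_succ (h : One σ k Θ δ M) (n : ℕ) (t : ℝ) :
    (σ (Nat.pair k (n + 1)) t = 1 ∧ code σ k (n + 1) t = 2 * code σ k n t) ∨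
      (σ (Nat.pair k (n + 1)) t = -1 ∧ code σ k (n + 1) t = 2 * code σ k n t + 1) := by
  have h3 : ¬ ((-1 : ℝ) = 1) := by norm_num
  rcases h.pm (n + 1) t with h1 | h1
  · exact Or.inl ⟨h1, by rw [code, if_pos h1, add_zero]⟩
  · exact Or.inr ⟨h1, by rw [code, h1, if_neg h3]⟩

theorem aa_add (h : One σ k Θ δ M) {s : ℝ → ℝ} (hs : Bd s) (n i : ℕ) (g : LL p) :
    aa p σ s k n i g = aa p σ s k (n + 1) (2 * i) g + aa p σ s k (n + 1) (2 * i + 1) g := by
  unfold aa
  rw [← igc_add' ((bd_sr h hs).mul_ind (h.mcell _ _)) ((bd_sr h hs).mul_ind (h.mcell _ _))]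
  congr 2
  funext t
  rw [← mul_add]
  congr 1
  simp only [Set.indicator, cell, Set.mem_ofPred_eq]
  rcases code_succ h n t with ⟨-, h1⟩ | ⟨-, h1⟩
  · rw [h1]
    by_cases h2 : code σ k n t = i
    · rw [if_pos h2, if_pos (by omega), if_neg (by omega)]; norm_num
    · rw [if_neg h2, if_neg (by omega), if_neg (by omega)]; norm_num
  · rw [h1]
    by_cases h2 : code σ k n t = i
    · rw [if_pos h2, if_neg (by omega), if_pos (by omega)]; norm_num
    · rw [if_neg h2, if_neg (by omega), if_neg (by omega)]; norm_num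

theorem aa_sub (h : One σ k Θ δ M) {s : ℝ → ℝ} (hs : Bd s) (n i : ℕ) (g : LL p) :
    igc p (fun t => s t * bb σ k (n + 1) i t) g =
      aa p σ s k (n + 1) (2 * i) g - aa p σ s k (n + 1) (2 * i + 1) g := by
  unfold aa
  rw [← igc_sub' ((bd_sr h hs).mul_ind (h.mcell _ _)) ((bd_sr h hs).mul_ind (h.mcell _ _))]
  congr 2
  funext t
  rw [← mul_sub, mul_assoc]
  congr 1
  simp only [Set.indicator, cell, Set.mem_ofPred_eq]
  unfold bb pb
  rw [Nat.add_sub_cancel, if_neg (Nat.succ_ne_zero n)]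
  rcases code_succ h n t with ⟨h0, h1⟩ | ⟨h0, h1⟩
  · rw [h1, h0]
    by_cases h2 : code σ k n t = i
    · rw [if_pos h2, if_pos (by omega), if_neg (by omega)]; ring
    · rw [if_neg h2, if_neg (by omega), if_neg (by omega)]; ring
  · rw [h1, h0]
    by_cases h2 : code σ k n t = i
    · rw [if_pos h2, if_neg (by omega), if_pos (by omega)]; ring
    · rw [if_neg h2, if_neg (by omega), if_neg (by omega)]; ring

/-- class of the indicator of a dyadic interval -/
def uu (p : ℝ≥0∞) (n i : ℕ) : LL p := cl p (fun t => (1 : ℝ) * (I n i).indicator (fun _ => 1) t)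

theorem uu_add (n i : ℕ) : uu p n i = uu p (n + 1) (2 * i) + uu p (n + 1) (2 * i + 1) := by
  unfold uu
  rw [← cl_add ((bd_one_I _ _).memLp p) ((bd_one_I _ _).memLp p)]
  refine cl_congr' ((bd_one_I _ _).memLp p) fun t ht => ?_
  rw [← mul_add]
  congr 1
  simp only [Set.indicator, mem_I' ht]
  have h1 := qq_succ n t
  by_cases h2 : qq n t = i
  · rw [if_pos h2]
    by_cases h3 : qq (n + 1) t = 2 * i
    · rw [if_pos h3, if_neg (by omega)]; norm_num
    · rw [if_neg h3, if_pos (by omega)]; norm_num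
  · rw [if_neg h2, if_neg (by omega), if_neg (by omega)]; norm_num

theorem uu_sub (n i : ℕ) : cl p (HH (n + 1) i) = uu p (n + 1) (2 * i) - uu p (n + 1) (2 * i + 1) := by
  unfold uu
  rw [← cl_sub ((bd_one_I _ _).memLp p) ((bd_one_I _ _).memLp p)]
  refine cl_congr' ((bd_HH _ _).memLp p) fun t ht => ?_
  rw [HH_eq _ _ ht, Phi, if_neg (Nat.succ_ne_zero n), ← mul_sub, one_mul]
  simp only [Set.indicator, mem_I' ht]
  by_cases h2 : qq (n + 1) t / 2 = i
  · rw [if_pos h2]
    by_cases h3 : qq (n + 1) t = 2 * i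
    · have h4 : qq (n + 1) t % 2 = 0 := by omega
      have h5 : ¬ qq (n + 1) t = 2 * i + 1 := by omega
      rw [if_pos h4, if_pos h3, if_neg h5]; norm_num
    · have h4 : ¬ qq (n + 1) t % 2 = 0 := by omega
      have h5 : qq (n + 1) t = 2 * i + 1 := by omega
      rw [if_neg h4, if_neg h3, if_pos h5]; norm_num
  · have h4 : ¬ qq (n + 1) t = 2 * i := by omega
    have h5 : ¬ qq (n + 1) t = 2 * i + 1 := by omega
    rw [if_neg h2, if_neg h4, if_neg h5]; norm_num

theorem uu_zero : uu p 0 0 = cl p (HH 0 0) := by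
  unfold uu
  refine cl_congr' ((bd_one_I _ _).memLp p) fun t ht => ?_
  rw [HH_zero, indicator_of_mem, one_mul]
  rw [mem_I' ht]
  have := floor_lt (n := 0) ht
  simp only [pow_zero, one_mul, Nat.lt_one_iff] at this
  rw [qq, pow_zero, one_mul]; exact this

/-- the coefficient block -/
def blkH (p : ℝ≥0∞) [Fact (1 ≤ p)] (σ : ℕ → ℝ → ℝ) (s : ℝ → ℝ) (c : ℝ) (k m : ℕ) (g : LL p) : LL p :=
  ∑ i ∈ Finset.range (2 ^ (m - 1)), (c⁻¹ * (2 : ℝ) ^ (m - 1) * igc p (fun t => s t * bb σ k m i t) g) • cl p (HH m i)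

theorem An_apply (h : One σ k Θ δ M) {s : ℝ → ℝ} (hs : Bd s) (c : ℝ) (n : ℕ) (g : LL p) :
    An p σ s c k n g = ∑ m ∈ Finset.range (n + 1), blkH p σ s c k m g := by
  have e0 : ∀ n, An p σ s c k n g = ∑ q ∈ Finset.range (2 ^ n), (c⁻¹ * (2 : ℝ) ^ n * aa p σ s k n q g) • uu p n q := by
    intro n
    rw [An, smul_apply, blk_apply, Finset.smul_sum]
    exact Finset.sum_congr rfl fun q _ => by rw [smul_smul]; rfl
  induction n with
  | zero =>
    rw [e0, Finset.sum_range_one, blkH]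
    simp only [pow_zero, Finset.sum_range_one, Nat.zero_sub, mul_one]
    rw [uu_zero]
    congr 2
    unfold aa
    congr 2
    funext t
    have : t ∈ cell σ k 0 0 := rfl
    rw [indicator_of_mem this, bb_eq (by simp) (fun m => h.pm m t)]
    simp [Phi]
  | succ n ih =>
    rw [Finset.sum_range_succ, ← ih, e0, e0, blkH, pow_succ 2 n, mul_comm (2 ^ n) 2, sum_even_odd',
      Nat.add_sub_cancel, ← Finset.sum_add_distrib]
    refine Finset.sum_congr rfl fun q _ => ?_
    rw [aa_add h hs n q, uu_add n q, aa_sub h hs, uu_sub, pow_succ]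
    module

/-- Limit operator `A_k`. -/
theorem exists_A (hp : p ≠ ∞) (h : One σ k Θ δ M) {s : ℝ → ℝ} (hs : Measurable s)
    (hs1 : ∀ t, s t = 1 ∨ s t = -1) : ∃ A : LL p →L[ℝ] LL p, ‖A‖ ≤ δ⁻¹ * (M / δ) ∧
    ∀ g (w : ℕ → LL p) (e : ℕ → ℝ) (x : LL p), HasSum w x → Summable e →
      (∀ m, ‖blkH p σ s (∫ t, Θ t ∂μ) k m g - w m‖ ≤ e m) → ‖A g - x‖ ≤ ∑' m, e m := by
  have hsB : Bd s := ⟨hs, 1, fun t => by rcases hs1 t with h | h <;> rw [h] <;> simp⟩
  obtain ⟨A, hA1, hA2⟩ := OL hp (hyperfilter ℕ) (fun n => An p σ s (∫ t, Θ t ∂μ) k n) (δ⁻¹ * (M / δ))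
    (mul_nonneg (inv_nonneg.2 h.hδ.le) h.hK.le) (norm_An_le hp h hs hs1)
  refine ⟨A, hA1, fun g w e x hw he hb => ?_⟩
  set d : ℕ → LL p := fun m => blkH p σ s (∫ t, Θ t ∂μ) k m g - w m with hd
  have hdn : Summable fun m => ‖d m‖ := Summable.of_nonneg_of_le (fun m => norm_nonneg _) hb he
  have hds : Summable d := hdn.of_norm
  have hsum : HasSum (fun m => blkH p σ s (∫ t, Θ t ∂μ) k m g) (x + ∑' m, d m) := by
    have h1 := hw.add hds.hasSum
    have h2 : (fun m => w m + d m) = fun m => blkH p σ s (∫ t, Θ t ∂μ) k m g := by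
      funext m; simp [hd]
    rwa [h2] at h1
  have hlim : Tendsto (fun n => An p σ s (∫ t, Θ t ∂μ) k n g) atTop (𝓝 (x + ∑' m, d m)) := by
    have h1 := hsum.tendsto_sum_nat
    have h2 := h1.comp (tendsto_add_atTop_nat 1)
    refine h2.congr fun n => ?_
    exact (An_apply h hsB _ n g).symm
  have hval : A g = x + ∑' m, d m := hA2 g _ (hlim.mono_left Nat.hyperfilter_le_atTop)
  rw [hval, add_sub_cancel_left]
  exact (norm_tsum_le_tsum_norm hdn).trans (hdn.tsum_le_tsum hb he)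

end Pool.Agent.Helper89.Haar
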