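import Pool.Agent.Helper89.Haar.Seq2

/-!
Exactly balanced generalized Rademacher functions (problem MP_e03f8f_an).
-/

set_option autoImplicit false
set_option linter.unusedSectionVars false
set_option linter.unusedVariables false

open MeasureTheory Filter Topology Set
open scoped ENNReal NNReal

noncomputable section

namespace Pool.Agent.Helper89.Haar
variable {p : ℝ≥0∞} [hp1 : Fact (1 ≤ p)]

theorem halve_pos {A : Set ℝ} (hA : MeasurableSet A) {r Θ : ℝ → ℝ} (hr : Measurable r)
    (hr1 : ∀ t, r t = 1 ∨ r t = -1) (hΘ : Measurable Θ) {δ C : ℝ} (hδ : 0 < δ)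
    (hΘb : ∀ t, δ ≤ Θ t ∧ Θ t ≤ C) (hβ : 0 ≤ ∫ t in A, Θ t * r t ∂μ) :
    ∃ r' : ℝ → ℝ, Measurable r' ∧ (∀ t, r' t = 1 ∨ r' t = -1) ∧ (∀ t, t ∉ A → r' t = r t) ∧
      ∫ t in A, Θ t * r' t ∂μ = 0 ∧ ∫ t, |r' t - r t| ∂μ ≤ δ⁻¹ * |∫ t in A, Θ t * r t ∂μ| := by
  set β := ∫ t in A, Θ t * r t ∂μ with hβdef
  have hΘ0 : ∀ t, 0 ≤ Θ t := fun t => hδ.le.trans (hΘb t).1
  have hΘB : Bd Θ := ⟨hΘ, C, fun t => by rw [abs_of_nonneg (hΘ0 t)]; exact (hΘb t).2⟩
  have hrB : Bd r := ⟨hr, 1, fun t => by rcases hr1 t with h | h <;> rw [h] <;> simp⟩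
  set P : Set ℝ := A ∩ {t | r t = 1} with hP
  have hPm : MeasurableSet P := hA.inter (hr (measurableSet_singleton 1))
  set φ : ℝ → ℝ := (P ∩ Ico 0 1).indicator Θ with hφ
  have hφm : Measurable φ := hΘ.indicator (hPm.inter measurableSet_Ico)
  have hφi : ∀ a b : ℝ, IntervalIntegrable φ volume a b := by
    intro a b
    rw [intervalIntegrable_iff]
    have hfin : IsFiniteMeasure (volume.restrict (uIoc a b)) := ⟨by
      rw [Measure.restrict_apply_univ, uIoc, Real.volume_Ioc]; exact ENNReal.ofReal_lt_top⟩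
    have : Integrable φ (volume.restrict (uIoc a b)) := by
      refine Integrable.of_bound (C := C) hφm.aestronglyMeasurable (Eventually.of_forall fun t => ?_)
      have hC : 0 ≤ C := (hΘ0 0).trans (hΘb 0).2
      by_cases h : t ∈ P ∩ Ico 0 1
      · rw [hφ, indicator_of_mem h, Real.norm_eq_abs, abs_of_nonneg (hΘ0 t)]
        exact (hΘb t).2
      · rw [hφ, indicator_of_notMem h, norm_zero]
        exact hC
    exact this
  have hcont := intervalIntegral.continuous_primitive hφi 0
  have hg : ∀ s : ℝ, 0 ≤ s → ∫ x in (0 : ℝ)..s, φ x = ∫ t in P ∩ Ioc 0 s, Θ t ∂μ := by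
    intro s hs
    rw [intervalIntegral.integral_of_le hs, hφ, setIntegral_indicator (hPm.inter measurableSet_Ico), μ,
      Measure.restrict_restrict (hPm.inter measurableSet_Ioc)]
    congr 2
    ext t
    simp only [mem_inter_iff]
    tauto
  have hg1 : ∫ t in P ∩ Ioc 0 1, Θ t ∂μ = ∫ t in P, Θ t ∂μ := by
    refine setIntegral_congr_set ?_
    have h0 : ∀ᵐ t ∂μ, t ≠ 0 := by
      have : μ {0} = 0 := by
        have : μ {0} ≤ volume {(0 : ℝ)} := by rw [μ]; exact Measure.restrict_apply_le _ _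
        simpa using this
      rw [ae_iff]
      simpa using this
    filter_upwards [h0, ae_mem] with t h1 h2
    apply propext
    constructor
    · exact fun h => h.1
    · exact fun h => ⟨h, lt_of_le_of_ne h2.1 (Ne.symm h1), h2.2.le⟩
  have hβle : β / 2 ≤ ∫ t in P, Θ t ∂μ := by
    have h1 : β ≤ ∫ t in P, Θ t ∂μ := by
      rw [hβdef, ← integral_indicator hA, ← integral_indicator hPm]
      refine integral_mono ((hΘB.mul hrB).integrable.indicator hA) (hΘB.integrable.indicator hPm) fun t => ?_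
      by_cases ht : t ∈ A
      · rcases hr1 t with h | h
        · have : t ∈ P := ⟨ht, h⟩
          rw [indicator_of_mem ht, indicator_of_mem this, h, mul_one]
        · have : t ∉ P := fun h' => by
            have := h'.2
            simp only [mem_ofPred_eq] at this
            rw [h] at this; norm_num at this
          rw [indicator_of_mem ht, indicator_of_notMem this, h]
          linarith [hΘ0 t]
      · rw [indicator_of_notMem ht]
        exact indicator_nonneg (fun t _ => hΘ0 t) t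
    linarith
  obtain ⟨s, hs, hsβ⟩ := intermediate_value_Icc (zero_le_one (α := ℝ)) hcont.continuousOn
    (show β / 2 ∈ Icc (∫ x in (0 : ℝ)..0, φ x) (∫ x in (0 : ℝ)..1, φ x) by
      rw [intervalIntegral.integral_same, hg 1 zero_le_one, hg1]
      exact ⟨by linarith, hβle⟩)
  simp only at hsβ
  rw [hg s hs.1] at hsβ
  set F : Set ℝ := P ∩ Ioc 0 s with hF
  have hFm : MeasurableSet F := hPm.inter measurableSet_Ioc
  classical
  set r' : ℝ → ℝ := fun t => if t ∈ F then -1 else r t with hr'
  have hr'm : Measurable r' := Measurable.ite hFm measurable_const hr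
  have hFr : ∀ t ∈ F, r t = 1 := fun t ht => ht.1.2
  have hdiff : ∀ t, r' t - r t = -2 * F.indicator (fun _ => 1) t := by
    intro t
    by_cases h : t ∈ F
    · simp only [hr', if_pos h, indicator_of_mem h, hFr t h]; norm_num
    · simp only [hr', if_neg h, indicator_of_notMem h]; ring
  refine ⟨r', hr'm, fun t => ?_, fun t ht => ?_, ?_, ?_⟩
  · simp only [hr']; split_ifs
    · exact Or.inr rfl
    · exact hr1 t
  · have : t ∉ F := fun h => ht h.1.1
    simp only [hr', if_neg this]
  · have e1 : ∀ t, Θ t * r' t = Θ t * r t - 2 * (F.indicator Θ t) := by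
      intro t
      have := hdiff t
      have h2 : r' t = r t - 2 * F.indicator (fun _ => 1) t := by linarith
      rw [h2]
      by_cases h : t ∈ F <;> simp [h] <;> ring
    simp only [e1]
    rw [integral_sub (hΘB.mul hrB).integrable.integrableOn
      ((hΘB.integrable.indicator hFm).const_mul 2).integrableOn, integral_const_mul,
      setIntegral_indicator hFm, inter_eq_right.2 (fun t ht => ht.1.1), hsβ]
    rw [← hβdef]; ring
  · have e1 : ∫ t, |r' t - r t| ∂μ = 2 * μ.real F := by
      have : ∀ t, |r' t - r t| = 2 * F.indicator (fun _ => 1) t := by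
        intro t
        rw [hdiff, abs_mul]
        by_cases h : t ∈ F <;> simp [h]
      simp only [this]
      rw [integral_const_mul, integral_indicator hFm, setIntegral_const, smul_eq_mul, mul_one]
    have e2 : δ * μ.real F ≤ β / 2 := by
      rw [← hsβ]
      have : ∫ t in F, δ ∂μ ≤ ∫ t in F, Θ t ∂μ :=
        integral_mono (integrable_const _).integrableOn hΘB.integrable.integrableOn fun t => (hΘb t).1
      rwa [setIntegral_const, smul_eq_mul, mul_comm] at this
    rw [e1, abs_of_nonneg hβ, inv_mul_eq_div, le_div_iff₀ hδ]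
    linarith

theorem halve {A : Set ℝ} (hA : MeasurableSet A) {r Θ : ℝ → ℝ} (hr : Measurable r)
    (hr1 : ∀ t, r t = 1 ∨ r t = -1) (hΘ : Measurable Θ) {δ C : ℝ} (hδ : 0 < δ)
    (hΘb : ∀ t, δ ≤ Θ t ∧ Θ t ≤ C) :
    ∃ r' : ℝ → ℝ, Measurable r' ∧ (∀ t, r' t = 1 ∨ r' t = -1) ∧ (∀ t, t ∉ A → r' t = r t) ∧
      ∫ t in A, Θ t * r' t ∂μ = 0 ∧ ∫ t, |r' t - r t| ∂μ ≤ δ⁻¹ * |∫ t in A, Θ t * r t ∂μ| := by
  rcases le_total 0 (∫ t in A, Θ t * r t ∂μ) with h | h
  · exact halve_pos hA hr hr1 hΘ hδ hΘb h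
  · have e1 : ∫ t in A, Θ t * (- r t) ∂μ = - ∫ t in A, Θ t * r t ∂μ := by
      rw [← integral_neg]
      exact integral_congr_ae (Eventually.of_forall fun t => by ring)
    obtain ⟨r', h1, h2, h3, h4, h5⟩ := halve_pos hA (r := fun t => - r t) hr.neg
      (fun t => by rcases hr1 t with h | h <;> rw [h] <;> simp) hΘ hδ hΘb (by rw [e1]; linarith)
    refine ⟨fun t => - r' t, h1.neg, fun t => ?_, fun t ht => ?_, ?_, ?_⟩
    · rcases h2 t with h | h <;> simp [h]
    · show - r' t = r t
      rw [h3 t ht, neg_neg]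
    · rw [← neg_zero, ← h4, ← integral_neg]
      exact integral_congr_ae (Eventually.of_forall fun t => by ring)
    · rw [e1, abs_neg] at h5
      refine le_trans (le_of_eq ?_) h5
      refine integral_congr_ae (Eventually.of_forall fun t => ?_)
      simp only
      rw [← abs_neg]
      congr 1
      ring

theorem small_tendsto {f : ℝ → ℝ} (hf : Integrable f μ) {v : ℕ → ℝ → ℝ} (hv : ∀ n, Measurable (v n))
    (hv1 : ∀ n t, |v n t| ≤ 1) (h : Tendsto (fun n => ∫ t, |v n t| ∂μ) atTop (𝓝 0)) :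
    Tendsto (fun n => ∫ t, f t * v n t ∂μ) atTop (𝓝 0) := by
  rw [Metric.tendsto_atTop]
  intro ε hε
  obtain ⟨η, hη, h1⟩ := small_int' hf (half_pos hε)
  obtain ⟨N, hN⟩ := eventually_atTop.1 (h.eventually (gt_mem_nhds hη))
  refine ⟨N, fun n hn => ?_⟩
  rw [dist_zero_right, Real.norm_eq_abs]
  exact (h1 (v n) (hv n) (hv1 n) (hN n hn).le).trans_lt (by linarith)

/-- The properties of the balanced functions. -/
structure RhoSeq (T : LL p →L[ℝ] LL p) (s Θ : ℝ → ℝ) (π : ℝ → ℕ) (ρ : ℕ → ℝ → ℝ) : Prop where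
  meas : ∀ n, Measurable (ρ n)
  pm : ∀ n t, ρ n t = 1 ∨ ρ n t = -1
  bal : ∀ n i, ∫ t in {t | π t = i}, Θ t * ρ n t ∂μ = 0
  W1 : ∀ f : ℝ → ℝ, Integrable f μ → Tendsto (fun n => ∫ t, f t * ρ n t ∂μ) atTop (𝓝 0)
  W2 : ∀ (Λ : LL p →L[ℝ] ℝ) (F : ℝ → ℝ), Bd F →
    Tendsto (fun n => Λ (cl p (fun t => F t * ρ n t))) atTop (𝓝 0)
  W3 : ∀ f g : ℝ → ℝ, Bd f → Bd g → Tendsto (fun n => igc p (fun t => g t * ρ n t)
    (T (cl p (fun t => f t * ρ n t)))) atTop (𝓝 (∫ t, f t * g t * (s t * Θ t) ∂μ))

theorem exists_rho (hp : p ≠ ∞) (T : LL p →L[ℝ] LL p) {δ : ℝ} (hδ : 0 < δ)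
    (hT : ∀ K : ℕ × ℕ, K.2 < 2 ^ K.1 → δ * sz K ≤ |xx T K K|) :
    ∃ (s Θ : ℝ → ℝ), Measurable s ∧ Measurable Θ ∧ (∀ t, s t = 1 ∨ s t = -1) ∧
      (∀ t, δ ≤ Θ t ∧ Θ t ≤ max δ ‖T‖) ∧
      ∀ (π : ℝ → ℕ) (k : ℕ), Measurable π → (∀ t, π t < k) → ∃ ρ, RhoSeq T s Θ π ρ := by
  obtain ⟨s, Θ, hs, hΘ, hs1, hΘb, H⟩ := exists_theta hp T hδ hT
  refine ⟨s, Θ, hs, hΘ, hs1, hΘb, fun π k hπ hk => ?_⟩
  obtain ⟨R, lv, hR⟩ := exists_RSeq H
  have hsB : Bd s := ⟨hs, 1, fun t => by rcases hs1 t with h | h <;> rw [h] <;> simp⟩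
  have hΘ0 : ∀ t, 0 ≤ Θ t := fun t => hδ.le.trans (hΘb t).1
  have hΘB : Bd Θ := ⟨hΘ, max δ ‖T‖, fun t => by rw [abs_of_nonneg (hΘ0 t)]; exact (hΘb t).2⟩
  have hw : Integrable (fun t => s t * Θ t) μ := (hsB.mul hΘB).integrable
  have hcell : ∀ i, MeasurableSet {t | π t = i} := fun i => hπ (measurableSet_singleton i)
  -- modify
  have hmod : ∀ n i, ∃ r' : ℝ → ℝ, Measurable r' ∧ (∀ t, r' t = 1 ∨ r' t = -1) ∧
      (∀ t, t ∉ {t | π t = i} → r' t = R n t) ∧ ∫ t in {t | π t = i}, Θ t * r' t ∂μ = 0 ∧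
      ∫ t, |r' t - R n t| ∂μ ≤ δ⁻¹ * |∫ t in {t | π t = i}, Θ t * R n t ∂μ| := fun n i =>
    halve (hcell i) (hR.meas n) (hR.pm n) hΘ hδ hΘb
  choose r' m1 m2 m3 m4 m5 using hmod
  set ρ : ℕ → ℝ → ℝ := fun n t => r' n (π t) t with hρ
  have hρm : ∀ n, Measurable (ρ n) := by
    intro n
    have h1 : Measurable (fun x : ℕ × ℝ => r' n x.1 x.2) := measurable_from_prod_countable_right (fun i => m1 n i)
    exact h1.comp (hπ.prodMk measurable_id)
  have hρ1 : ∀ n t, ρ n t = 1 ∨ ρ n t = -1 := fun n t => m2 n _ t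
  have hρB : ∀ n, Bd (ρ n) := fun n => ⟨hρm n, 1, fun t => by rcases hρ1 n t with h | h <;> rw [h] <;> simp⟩
  have hbal : ∀ n i, ∫ t in {t | π t = i}, Θ t * ρ n t ∂μ = 0 := by
    intro n i
    rw [← m4 n i]
    refine setIntegral_congr_fun (hcell i) fun t ht => ?_
    have ht' : π t = i := ht
    simp only [hρ, ht']
  have hdist : ∀ n, ∫ t, |ρ n t - R n t| ∂μ ≤ ∑ i ∈ Finset.range k, δ⁻¹ * |∫ t in {t | π t = i}, Θ t * R n t ∂μ| := by
    intro n
    calc ∫ t, |ρ n t - R n t| ∂μ ≤ ∫ t, ∑ i ∈ Finset.range k, |r' n i t - R n t| ∂μ := by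
          refine integral_mono ((hρB n).sub (hR.bd n)).integrable.abs ?_ fun t => ?_
          · refine integrable_finsetSum _ fun i _ => ?_
            have : Bd (r' n i) := ⟨m1 n i, 1, fun t => by rcases m2 n i t with h | h <;> rw [h] <;> simp⟩
            exact (this.sub (hR.bd n)).integrable.abs
          · show |ρ n t - R n t| ≤ ∑ i ∈ Finset.range k, |r' n i t - R n t|
            exact Finset.single_le_sum (f := fun i => |r' n i t - R n t|) (fun _ _ => abs_nonneg _)
              (Finset.mem_range.2 (hk t))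
      _ = ∑ i ∈ Finset.range k, ∫ t, |r' n i t - R n t| ∂μ := by
          rw [integral_finsetSum]
          intro i _
          have : Bd (r' n i) := ⟨m1 n i, 1, fun t => by rcases m2 n i t with h | h <;> rw [h] <;> simp⟩
          exact (this.sub (hR.bd n)).integrable.abs
      _ ≤ _ := Finset.sum_le_sum fun i _ => m5 n i
  have hd0 : Tendsto (fun n => ∫ t, |ρ n t - R n t| ∂μ) atTop (𝓝 0) := by
    have h1 : Tendsto (fun n => ∑ i ∈ Finset.range k, δ⁻¹ * |∫ t in {t | π t = i}, Θ t * R n t ∂μ|)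
        atTop (𝓝 (∑ i ∈ Finset.range k, δ⁻¹ * |(0 : ℝ)|)) := by
      refine tendsto_finsetSum _ fun i _ => ?_
      refine Tendsto.const_mul _ (Tendsto.abs ?_)
      have h2 := hR.W1 (hΘB.integrable.indicator (hcell i))
      refine h2.congr fun n => ?_
      rw [← integral_indicator (hcell i)]
      refine integral_congr_ae (Eventually.of_forall fun t => ?_)
      simp only
      by_cases ht : π t = i
      · rw [indicator_of_mem (show t ∈ {t | π t = i} from ht), indicator_of_mem (show t ∈ {t | π t = i} from ht)]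
      · rw [indicator_of_notMem (show t ∉ {t | π t = i} from ht),
          indicator_of_notMem (show t ∉ {t | π t = i} from ht), zero_mul]
    simp only [abs_zero, mul_zero, Finset.sum_const_zero] at h1
    exact tendsto_of_tendsto_of_tendsto_of_le_of_le tendsto_const_nhds h1
      (fun n => integral_nonneg fun t => abs_nonneg _) hdist
  set v : ℕ → ℝ → ℝ := fun n t => (1 / 2) * (ρ n t - R n t) with hv
  have hvB : ∀ n, Bd (v n) := fun n => ((hρB n).sub (hR.bd n)).smul _
  have hv1 : ∀ n t, |v n t| ≤ 1 := by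
    intro n t
    rw [hv]; simp only
    rcases hρ1 n t with h | h <;> rcases hR.pm n t with h' | h' <;> rw [h, h'] <;> norm_num
  have hv0 : Tendsto (fun n => ∫ t, |v n t| ∂μ) atTop (𝓝 0) := by
    have := hd0.const_mul (1 / 2)
    rw [mul_zero] at this
    refine this.congr fun n => ?_
    rw [← integral_const_mul]
    refine integral_congr_ae (Eventually.of_forall fun t => ?_)
    simp only [hv]
    rw [abs_mul, abs_of_pos (by norm_num : (0 : ℝ) < 1 / 2)]
  have hρeq : ∀ n t, ρ n t = R n t + 2 * v n t := fun n t => by simp only [hv]; ring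
  -- norm of `F v_n`
  have hFv : ∀ F : ℝ → ℝ, Bd F → Tendsto (fun n => ‖cl p (fun t => F t * v n t)‖) atTop (𝓝 0) := by
    intro F hF
    obtain ⟨B, F', hB, hF', hF1, hFF⟩ := exists_scale hF
    have hr0 : 0 < 1 / p.toReal := by
      have := toReal_one_le (p := p) hp
      positivity
    have h1 : Tendsto (fun n => B * (∫ t, |v n t| ∂μ) ^ (1 / p.toReal)) atTop (𝓝 (B * 0)) := by
      refine Tendsto.const_mul _ ?_
      have := hv0.rpow_const (p := 1 / p.toReal) (Or.inr hr0.le)
      rwa [Real.zero_rpow hr0.ne'] at this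
    rw [mul_zero] at h1
    refine tendsto_of_tendsto_of_tendsto_of_le_of_le tendsto_const_nhds h1 (fun n => norm_nonneg _) fun n => ?_
    have e1 : cl p (fun t => F t * v n t) = B • cl p (fun t => F' t * v n t) := by
      rw [← cl_smul _ ((hF'.mul (hvB n)).memLp p)]
      congr 1
      ext t
      rw [hFF]; ring
    rw [e1, norm_smul, Real.norm_of_nonneg hB.le]
    refine mul_le_mul_of_nonneg_left ?_ hB.le
    refine (norm_cl_small hp (hF'.mul (hvB n)).meas (fun t => ?_)).trans ?_
    · rw [abs_mul]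
      exact mul_le_one₀ (hF1 t) (abs_nonneg _) (hv1 n t)
    · have h3 : ∫ t, |F' t * v n t| ∂μ ≤ ∫ t, |v n t| ∂μ := by
        refine integral_mono (hF'.mul (hvB n)).integrable.abs (hvB n).integrable.abs fun t => ?_
        show |F' t * v n t| ≤ |v n t|
        rw [abs_mul]
        exact mul_le_of_le_one_left (abs_nonneg _) (hF1 t)
      have h4 : 0 ≤ ∫ t, |F' t * v n t| ∂μ := integral_nonneg fun t => abs_nonneg _
      gcongr
  refine ⟨ρ, hρm, hρ1, hbal, ?_, ?_, ?_⟩
  · intro f hf
    have h1 := (hR.W1 hf).add ((small_tendsto hf (fun n => (hvB n).meas) hv1 hv0).const_mul 2)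
    rw [mul_zero, add_zero] at h1
    refine h1.congr fun n => ?_
    rw [← integral_const_mul, ← integral_add]
    · refine integral_congr_ae (Eventually.of_forall fun t => ?_)
      simp only [hρeq]; ring
    · exact ((hR.bd n).mul_integrable hf).congr (Eventually.of_forall fun t => mul_comm _ _)
    · exact (((hvB n).mul_integrable hf).congr (Eventually.of_forall fun t => mul_comm _ _)).const_mul 2
  · intro Λ F hF
    have h2 : Tendsto (fun n => Λ (cl p (fun t => F t * v n t))) atTop (𝓝 0) := by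
      rw [tendsto_zero_iff_norm_tendsto_zero]
      have := (hFv F hF).const_mul ‖Λ‖
      rw [mul_zero] at this
      exact tendsto_of_tendsto_of_tendsto_of_le_of_le tendsto_const_nhds this
        (fun n => norm_nonneg _) (fun n => Λ.le_opNorm _)
    have h1 := (hR.W2 hp Λ hF).add (h2.const_mul 2)
    rw [mul_zero, add_zero] at h1
    refine h1.congr fun n => ?_
    rw [← smul_eq_mul (2 : ℝ), ← map_smul, ← map_add, ← cl_smul _ ((hF.mul (hvB n)).memLp p),
      ← cl_add ((hF.mul (hR.bd n)).memLp p) (((hF.mul (hvB n)).smul 2).memLp p)]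
    congr 2
    ext t
    rw [hρeq]; ring
  · intro f g hf hg
    have h1 := hR.W3 hp hw hf hg
    -- error in f
    have h2 : Tendsto (fun n => igc p (fun t => g t * ρ n t) (T (cl p (fun t => f t * v n t))))
        atTop (𝓝 0) := by
      rw [tendsto_zero_iff_norm_tendsto_zero]
      obtain ⟨C, hC⟩ := hg.bdd
      have := ((hFv f hf).const_mul ‖T‖).const_mul C
      rw [mul_zero, mul_zero] at this
      refine tendsto_of_tendsto_of_tendsto_of_le_of_le tendsto_const_nhds this
        (fun n => norm_nonneg _) (fun n => ?_)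
      have hC0 : 0 ≤ C := (abs_nonneg _).trans (hC 0)
      refine (abs_igc_le (hg.mul (hρB n)) (C := C) (fun t => ?_) _).trans ?_
      · rw [abs_mul]
        have : |ρ n t| = 1 := by rcases hρ1 n t with h | h <;> rw [h] <;> simp
        rw [this, mul_one]; exact hC t
      · exact mul_le_mul_of_nonneg_left (T.le_opNorm _) hC0
    -- error in g
    have h3 : Tendsto (fun n => igc p (fun t => g t * v n t) (T (cl p (fun t => f t * R n t))))
        atTop (𝓝 0) := by
      obtain ⟨B, f', hB, hf', hf1, hff⟩ := exists_scale hf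
      obtain ⟨D, g', hD, hg', hg1, hgg⟩ := exists_scale hg
      have h4 : Tendsto (fun n => igc p (fun t => g' t * v n t) (T (cl p (fun t => f' t * R n t))))
          atTop (𝓝 0) := by
        rw [Metric.tendsto_atTop]
        intro ε hε
        obtain ⟨η, hη, hui⟩ := ui hp T (half_pos hε)
        obtain ⟨N, hN⟩ := eventually_atTop.1 (hv0.eventually (gt_mem_nhds hη))
        refine ⟨N, fun n hn => ?_⟩
        rw [dist_zero_right, Real.norm_eq_abs]
        refine (hui (fun t => f' t * R n t) (fun t => g' t * v n t) (hf'.mul (hR.bd n)).meas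
          (hg'.mul (hvB n)).meas (fun t => ?_) (fun t => ?_) ?_).trans_lt (by linarith)
        · rw [abs_mul, hR.abs_one, mul_one]; exact hf1 t
        · rw [abs_mul]; exact mul_le_one₀ (hg1 t) (abs_nonneg _) (hv1 n t)
        · refine le_trans ?_ (hN n hn).le
          refine integral_mono (hg'.mul (hvB n)).integrable.abs (hvB n).integrable.abs fun t => ?_
          show |g' t * v n t| ≤ |v n t|
          rw [abs_mul]
          exact mul_le_of_le_one_left (abs_nonneg _) (hg1 t)
      have h5 := h4.const_mul (B * D)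
      rw [mul_zero] at h5
      refine h5.congr fun n => ?_
      have e1 : cl p (fun t => f t * R n t) = B • cl p (fun t => f' t * R n t) := by
        rw [← cl_smul _ ((hf'.mul (hR.bd n)).memLp p)]
        congr 1
        ext t
        rw [hff]; ring
      rw [e1, map_smul, map_smul, smul_eq_mul, igc_apply (hg.mul (hvB n)), igc_apply (hg'.mul (hvB n)),
        mul_assoc, ← integral_const_mul]
      congr 1
      refine integral_congr_ae (Eventually.of_forall fun t => ?_)
      simp only [hgg]; ring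
    have h6 := (h1.add (h2.const_mul 2)).add (h3.const_mul 2)
    rw [mul_zero, add_zero, add_zero] at h6
    refine h6.congr fun n => ?_
    have e1 : cl p (fun t => f t * ρ n t) = cl p (fun t => f t * R n t) + (2 : ℝ) • cl p (fun t => f t * v n t) := by
      rw [← cl_smul _ ((hf.mul (hvB n)).memLp p),
        ← cl_add ((hf.mul (hR.bd n)).memLp p) (((hf.mul (hvB n)).smul 2).memLp p)]
      congr 1
      ext t
      rw [hρeq]; ring
    have e2 : ∀ x : LL p, igc p (fun t => g t * ρ n t) x = igc p (fun t => g t * R n t) x +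
        2 * igc p (fun t => g t * v n t) x := by
      intro x
      rw [igc_apply (hg.mul (hρB n)), igc_apply (hg.mul (hR.bd n)), igc_apply (hg.mul (hvB n)),
        ← integral_const_mul, ← integral_add ((hg.mul (hR.bd n)).mul_integrable (integrable_coe x))
          (((hg.mul (hvB n)).mul_integrable (integrable_coe x)).const_mul 2)]
      refine integral_congr_ae (Eventually.of_forall fun t => ?_)
      simp only [hρeq]; ring
    rw [e1, map_add, map_add, map_smul, map_smul, smul_eq_mul, e2 (T (cl p (fun t => f t * R n t)))]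
    ring

end Pool.Agent.Helper89.Haar
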