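import Pool.Agent.Helper89.Haar.ZSum

/-!
Selection of the balanced functions.
-/

set_option autoImplicit false
set_option linter.unusedSectionVars false

open MeasureTheory Filter Topology Set
open scoped ENNReal NNReal

noncomputable section

namespace Pool.Agent.Helper89.Haar

/-- Dependent choice along the natural numbers. -/
theorem exists_seq {α : Type*} [Inhabited α] (P : ℕ → (ℕ → α) → Prop)
    (hP : ∀ j σ τ, (∀ i ≤ j, σ i = τ i) → P j σ → P j τ)
    (h : ∀ j σ, (∀ i < j, P i σ) → ∃ a, P j (Function.update σ j a)) : ∃ σ, ∀ j, P j σ := by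
  classical
  have step : ∀ (n : ℕ) (σ : ℕ → α), ∃ a, (∀ i < n, P i σ) → P n (Function.update σ n a) := by
    intro n σ
    by_cases hn : ∀ i < n, P i σ
    · obtain ⟨a, ha⟩ := h n σ hn
      exact ⟨a, fun _ => ha⟩
    · exact ⟨default, fun h => absurd h hn⟩
  choose a ha using step
  let s : ℕ → ℕ → α := fun n => Nat.rec (fun _ => default) (fun n σ => Function.update σ n (a n σ)) n
  have hs : ∀ n, s (n + 1) = Function.update (s n) n (a n (s n)) := fun n => rfl
  have hag : ∀ i n, i < n → s n i = s (i + 1) i := by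
    intro i n hin
    induction n with
    | zero => omega
    | succ n ih =>
      rcases Nat.lt_succ_iff_lt_or_eq.1 hin with h | h
      · rw [hs n, Function.update_of_ne (by omega), ih h]
      · rw [h]
  have hgood : ∀ n, ∀ i < n, P i (s n) := by
    intro n
    induction n with
    | zero => intro i hi; omega
    | succ n ih =>
      intro i hi
      rcases Nat.lt_succ_iff_lt_or_eq.1 hi with h | h
      · refine hP i (s n) _ (fun l hl => ?_) (ih i h)
        rw [hs n, Function.update_of_ne (by omega)]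
      · subst h
        rw [hs i]
        exact ha i (s i) ih
  refine ⟨fun i => s (i + 1) i, fun j => ?_⟩
  refine hP j (s (j + 1)) _ (fun i hi => ?_) (hgood (j + 1) j (by omega))
  exact hag i (j + 1) (by omega)

/-- codes -/
def code (σ : ℕ → ℝ → ℝ) (k : ℕ) : ℕ → ℝ → ℕ
  | 0, _ => 0
  | m + 1, t => 2 * code σ k m t + if σ (Nat.pair k (m + 1)) t = 1 then 0 else 1

theorem code_lt (σ : ℕ → ℝ → ℝ) (k m : ℕ) (t : ℝ) : code σ k m t < 2 ^ m := by
  induction m with
  | zero => simp [code]
  | succ m ih =>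
    rw [code, pow_succ]
    split_ifs <;> omega

theorem code_congr {σ τ : ℕ → ℝ → ℝ} {k m : ℕ}
    (h : ∀ m', 1 ≤ m' → m' ≤ m → σ (Nat.pair k m') = τ (Nat.pair k m')) : code σ k m = code τ k m := by
  induction m with
  | zero => rfl
  | succ m ih =>
    funext t
    rw [code, code, ih fun m' h1 h2 => h m' h1 (by omega), h (m + 1) (by omega) le_rfl]

theorem meas_code {σ : ℕ → ℝ → ℝ} {k m : ℕ}
    (h : ∀ m', 1 ≤ m' → m' ≤ m → Measurable (σ (Nat.pair k m'))) : Measurable (code σ k m) := by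
  induction m with
  | zero => exact measurable_const
  | succ m ih =>
    have e : code σ k (m + 1) = fun t => 2 * code σ k m t + if σ (Nat.pair k (m + 1)) t = 1 then 0 else 1 := by
      funext t; rw [code]
    rw [e]
    refine ((ih fun m' h1 h2 => h m' h1 (by omega)).const_mul 2).add ?_
    exact Measurable.ite (h (m + 1) (by omega) le_rfl (measurableSet_singleton 1)) measurable_const
      measurable_const

/-- previous part of `bb` -/
def pb (σ : ℕ → ℝ → ℝ) (k m i : ℕ) (t : ℝ) : ℝ :=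
  (if m = 0 then 1 else σ (Nat.pair k 0) t) * (if code σ k (m - 1) t = i then 1 else 0)

/-- the image of the Haar function -/
def bb (σ : ℕ → ℝ → ℝ) (k m i : ℕ) (t : ℝ) : ℝ := pb σ k m i t * σ (Nat.pair k m) t

theorem pb_congr {σ τ : ℕ → ℝ → ℝ} {k m : ℕ} (h : ∀ m' < m, σ (Nat.pair k m') = τ (Nat.pair k m'))
    (i : ℕ) : pb σ k m i = pb τ k m i := by
  funext t
  unfold pb
  rw [code_congr (m := m - 1) fun m' h1 h2 => h m' (by omega)]
  by_cases hm : m = 0
  · simp [hm]
  · rw [h 0 (by omega)]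

theorem bb_congr {σ τ : ℕ → ℝ → ℝ} {k m : ℕ} (h : ∀ m' ≤ m, σ (Nat.pair k m') = τ (Nat.pair k m'))
    (i : ℕ) : bb σ k m i = bb τ k m i := by
  funext t
  unfold bb
  rw [pb_congr fun m' hm' => h m' hm'.le, h m le_rfl]

theorem meas_pb {σ : ℕ → ℝ → ℝ} {k m : ℕ} (h : ∀ m' < m, Measurable (σ (Nat.pair k m')))
    (i : ℕ) : Measurable (pb σ k m i) := by
  unfold pb
  refine Measurable.mul ?_ ?_
  · by_cases hm : m = 0
    · simp only [hm, if_true]; exact measurable_const
    · simp only [hm, if_false]; exact h 0 (by omega)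
  · exact Measurable.ite (meas_code (fun m' h1 h2 => h m' (by omega)) (measurableSet_singleton i))
      measurable_const measurable_const

theorem abs_pb_le {σ : ℕ → ℝ → ℝ} {k m : ℕ} (h : ∀ m' < m, ∀ t, σ (Nat.pair k m') t = 1 ∨ σ (Nat.pair k m') t = -1)
    (i : ℕ) (t : ℝ) : |pb σ k m i t| ≤ 1 := by
  unfold pb
  rw [abs_mul]
  have h1 : |(if m = 0 then (1 : ℝ) else σ (Nat.pair k 0) t)| ≤ 1 := by
    by_cases hm : m = 0
    · simp [hm]
    · simp only [hm, if_false]
      rcases h 0 (by omega) t with h | h <;> rw [h] <;> simp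
  have h2 : |(if code σ k (m - 1) t = i then (1 : ℝ) else 0)| ≤ 1 := by split_ifs <;> simp
  calc _ ≤ (1 : ℝ) * 1 := mul_le_mul h1 h2 (abs_nonneg _) zero_le_one
    _ = 1 := by norm_num

theorem bd_pb {σ : ℕ → ℝ → ℝ} {k m : ℕ} (h : ∀ m' < m, Measurable (σ (Nat.pair k m')))
    (h' : ∀ m' < m, ∀ t, σ (Nat.pair k m') t = 1 ∨ σ (Nat.pair k m') t = -1) (i : ℕ) : Bd (pb σ k m i) :=
  ⟨meas_pb h i, 1, abs_pb_le h' i⟩

theorem bd_bb {σ : ℕ → ℝ → ℝ} {k m : ℕ} (h : ∀ m' ≤ m, Measurable (σ (Nat.pair k m')))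
    (h' : ∀ m' ≤ m, ∀ t, σ (Nat.pair k m') t = 1 ∨ σ (Nat.pair k m') t = -1) (i : ℕ) : Bd (bb σ k m i) :=
  (bd_pb (fun m' hm' => h m' hm'.le) (fun m' hm' => h' m' hm'.le) i).mul
    ⟨h m le_rfl, 1, fun t => by rcases h' m le_rfl t with h | h <;> rw [h] <;> simp⟩

theorem pb_mul_pb {σ : ℕ → ℝ → ℝ} {k m : ℕ}
    (h : ∀ m' < m, ∀ t, σ (Nat.pair k m') t = 1 ∨ σ (Nat.pair k m') t = -1) (i i' : ℕ) (t : ℝ) :
    pb σ k m i t * pb σ k m i' t = if i = i' then (if code σ k (m - 1) t = i then 1 else 0) else 0 := by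
  unfold pb
  have h1 : (if m = 0 then (1 : ℝ) else σ (Nat.pair k 0) t) * (if m = 0 then (1 : ℝ) else σ (Nat.pair k 0) t) = 1 := by
    by_cases hm : m = 0
    · simp [hm]
    · simp only [hm, if_false]
      rcases h 0 (by omega) t with h | h <;> rw [h] <;> norm_num
  rw [mul_mul_mul_comm, h1, one_mul]
  by_cases hi : i = i'
  · subst hi
    simp
  · rw [if_neg hi]
    by_cases h2 : code σ k (m - 1) t = i
    · rw [if_neg (by omega : ¬ code σ k (m - 1) t = i')]; simp
    · simp [h2]

theorem code_succ_ite (σ : ℕ → ℝ → ℝ) (k m i : ℕ) (t : ℝ) (Θ : ℝ)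
    (hσ : σ (Nat.pair k (m + 1)) t = 1 ∨ σ (Nat.pair k (m + 1)) t = -1) :
    (if code σ k (m + 1) t = i then Θ else 0) =
      1 / 2 * (if code σ k m t = i / 2 then Θ else 0) +
      (if i % 2 = 0 then 1 / 2 else -1 / 2) *
        (if code σ k m t = i / 2 then Θ * σ (Nat.pair k (m + 1)) t else 0) := by
  rw [code]
  rcases hσ with h | h
  · rw [h]
    simp only [if_true]
    by_cases h1 : code σ k m t = i / 2
    · rw [if_pos h1, if_pos h1]
      by_cases h2 : i % 2 = 0
      · rw [if_pos (by omega), if_pos h2]; ring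
      · rw [if_neg (by omega), if_neg h2]; ring
    · rw [if_neg h1, if_neg h1, if_neg (by omega)]; ring
  · rw [h]
    have h3 : ¬ ((-1 : ℝ) = 1) := by norm_num
    simp only [if_neg h3]
    by_cases h1 : code σ k m t = i / 2
    · rw [if_pos h1, if_pos h1]
      by_cases h2 : i % 2 = 0
      · rw [if_neg (by omega), if_pos h2]; ring
      · rw [if_pos (by omega), if_neg h2]; ring
    · rw [if_neg h1, if_neg h1, if_neg (by omega)]; ring

theorem int_code {σ : ℕ → ℝ → ℝ} {k : ℕ} {Θ : ℝ → ℝ} (hΘ : Bd Θ) {m : ℕ}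
    (h1 : ∀ m', 1 ≤ m' → m' ≤ m → Measurable (σ (Nat.pair k m')))
    (h2 : ∀ m', 1 ≤ m' → m' ≤ m → ∀ t, σ (Nat.pair k m') t = 1 ∨ σ (Nat.pair k m') t = -1)
    (h3 : ∀ m', 1 ≤ m' → m' ≤ m → ∀ i, ∫ t in {t | code σ k (m' - 1) t = i}, Θ t * σ (Nat.pair k m') t ∂μ = 0) :
    ∀ i < 2 ^ m, ∫ t, (if code σ k m t = i then Θ t else 0) ∂μ = (∫ t, Θ t ∂μ) * ((2 : ℝ) ^ m)⁻¹ := by
  induction m with
  | zero =>
    intro i hi
    have : i = 0 := by simpa using hi
    subst this
    simp [code]
  | succ m ih =>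
    intro i hi
    have ih' := ih (fun m' a b => h1 m' a (by omega)) (fun m' a b => h2 m' a (by omega))
      (fun m' a b => h3 m' a (by omega)) (i / 2) (by rw [pow_succ] at hi; omega)
    have hm : Measurable (code σ k m) := meas_code fun m' a b => h1 m' a (by omega)
    have hA : MeasurableSet {t | code σ k m t = i / 2} := hm (measurableSet_singleton _)
    have hr : Bd (σ (Nat.pair k (m + 1))) := ⟨h1 _ (by omega) le_rfl, 1, fun t => by
      rcases h2 (m + 1) (by omega) le_rfl t with h | h <;> rw [h] <;> simp⟩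
    have e1 : (fun t => if code σ k m t = i / 2 then Θ t else 0) =
        {t | code σ k m t = i / 2}.indicator Θ := by
      funext t; simp [Set.indicator]
    have e2 : (fun t => if code σ k m t = i / 2 then Θ t * σ (Nat.pair k (m + 1)) t else 0) =
        {t | code σ k m t = i / 2}.indicator (fun t => Θ t * σ (Nat.pair k (m + 1)) t) := by
      funext t; simp [Set.indicator]
    have i1 : Integrable (fun t => if code σ k m t = i / 2 then Θ t else 0) μ := by
      rw [e1]; exact hΘ.integrable.indicator hA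
    have i2 : Integrable (fun t => if code σ k m t = i / 2 then Θ t * σ (Nat.pair k (m + 1)) t else 0) μ := by
      rw [e2]; exact (hΘ.mul hr).integrable.indicator hA
    have e3 : ∫ t, (if code σ k m t = i / 2 then Θ t * σ (Nat.pair k (m + 1)) t else 0) ∂μ = 0 := by
      rw [e2, integral_indicator hA]
      exact h3 (m + 1) (by omega) le_rfl (i / 2)
    rw [integral_congr_ae (Eventually.of_forall fun t =>
      code_succ_ite σ k m i t (Θ t) (h2 (m + 1) (by omega) le_rfl t))]
    rw [integral_add (i1.const_mul _) (i2.const_mul _), integral_const_mul, integral_const_mul, e3, ih', mul_zero,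
      add_zero, pow_succ, mul_inv]
    ring

end Pool.Agent.Helper89.Haar
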