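import Pool.Agent.Helper89.Haar.Sel

/-!
Selection of the balanced functions, the recursion.
-/

set_option autoImplicit false
set_option linter.unusedSectionVars false

open MeasureTheory Filter Topology Set
open scoped ENNReal NNReal

noncomputable section

namespace Pool.Agent.Helper89.Haar

variable {p : ℕ → ℝ≥0∞} [hp1 : ∀ k, Fact (1 ≤ p k)]

/-- images of the Haar functions in the sum -/
def XX (p : ℕ → ℝ≥0∞) [∀ k, Fact (1 ≤ p k)] (σ : ℕ → ℝ → ℝ) (j i : ℕ) : ZZ p :=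
  inc j.unpair.1 (cl (p j.unpair.1) (bb σ j.unpair.1 j.unpair.2 i))

/-- dual functionals -/
def YY (p : ℕ → ℝ≥0∞) [∀ k, Fact (1 ≤ p k)] (s σ : ℕ → ℝ → ℝ) (j i : ℕ) : ZZ p →L[ℝ] ℝ :=
  (igc (p j.unpair.1) (fun t => s j.unpair.1 t * bb σ j.unpair.1 j.unpair.2 i t)).comp (ev j.unpair.1)

/-- diagonal operators -/
def Tkk (T : ZZ p →L[ℝ] ZZ p) (k : ℕ) : LL (p k) →L[ℝ] LL (p k) := (ev k).comp (T.comp (inc k))

/-- tolerance -/
def eta (δ : ℝ) (j : ℕ) : ℝ := δ / 8 * (1 / 64) ^ j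

structure Good (T : ZZ p →L[ℝ] ZZ p) (s Θ : ℕ → ℝ → ℝ) (δ : ℝ) (j : ℕ) (σ : ℕ → ℝ → ℝ) : Prop where
  meas : Measurable (σ j)
  pm : ∀ t, σ j t = 1 ∨ σ j t = -1
  bal : ∀ i, ∫ t in {t | code σ j.unpair.1 (j.unpair.2 - 1) t = i}, Θ j.unpair.1 t * σ j t ∂μ = 0
  c1 : ∀ j' < j, ∀ i < 2 ^ (j.unpair.2 - 1), ∀ i' < 2 ^ (j'.unpair.2 - 1),
    |YY p s σ j i (T (XX p σ j' i'))| ≤ eta δ j
  c2 : ∀ j' < j, ∀ i < 2 ^ (j.unpair.2 - 1), ∀ i' < 2 ^ (j'.unpair.2 - 1),
    |YY p s σ j' i' (T (XX p σ j i))| ≤ eta δ j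
  c3 : ∀ i < 2 ^ (j.unpair.2 - 1), ∀ i' < 2 ^ (j.unpair.2 - 1),
    |YY p s σ j i' (T (XX p σ j i)) -
      if i = i' then (∫ t, Θ j.unpair.1 t ∂μ) * ((2 : ℝ) ^ (j.unpair.2 - 1))⁻¹ else 0| ≤ eta δ j

theorem pair_le {j : ℕ} {m' : ℕ} (h : m' ≤ j.unpair.2) : Nat.pair j.unpair.1 m' ≤ j := by
  conv_rhs => rw [← Nat.pair_unpair j]
  rcases h.lt_or_eq with h | h
  · exact (Nat.pair_lt_pair_right _ h).le
  · rw [h]

theorem pair_lt {j : ℕ} {m' : ℕ} (h : m' < j.unpair.2) : Nat.pair j.unpair.1 m' < j := by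
  conv_rhs => rw [← Nat.pair_unpair j]
  exact Nat.pair_lt_pair_right _ h

theorem XX_congr {σ τ : ℕ → ℝ → ℝ} {j : ℕ} (h : ∀ i ≤ j, σ i = τ i) (i : ℕ) :
    XX p σ j i = XX p τ j i := by
  unfold XX
  rw [bb_congr fun m' hm' => h _ (pair_le hm')]

theorem YY_congr {s σ τ : ℕ → ℝ → ℝ} {j : ℕ} (h : ∀ i ≤ j, σ i = τ i) (i : ℕ) :
    YY p s σ j i = YY p s τ j i := by
  unfold YY
  rw [bb_congr fun m' hm' => h _ (pair_le hm')]

theorem Good.congr {T : ZZ p →L[ℝ] ZZ p} {s Θ : ℕ → ℝ → ℝ} {δ : ℝ} {j : ℕ} {σ τ : ℕ → ℝ → ℝ}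
    (h : ∀ i ≤ j, σ i = τ i) (hg : Good T s Θ δ j σ) : Good T s Θ δ j τ := by
  have hc : code σ j.unpair.1 (j.unpair.2 - 1) = code τ j.unpair.1 (j.unpair.2 - 1) :=
    code_congr fun m' h1 h2 => h _ (pair_le (by omega))
  refine ⟨h j le_rfl ▸ hg.meas, fun t => ?_, fun i => ?_, fun j' hj' i hi i' hi' => ?_,
    fun j' hj' i hi i' hi' => ?_, fun i hi i' hi' => ?_⟩
  · rw [← h j le_rfl]; exact hg.pm t
  · rw [← h j le_rfl, ← hc]; exact hg.bal i
  · rw [← XX_congr (σ := σ) (τ := τ) (fun l hl => h l (by omega)), ← YY_congr (σ := σ) (τ := τ) h]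
    exact hg.c1 j' hj' i hi i' hi'
  · rw [← XX_congr (σ := σ) (τ := τ) h, ← YY_congr (σ := σ) (τ := τ) (fun l hl => h l (by omega))]
    exact hg.c2 j' hj' i hi i' hi'
  · rw [← XX_congr (σ := σ) (τ := τ) h, ← YY_congr (σ := σ) (τ := τ) h]
    exact hg.c3 i hi i' hi'

/-- The data needed for the selection. -/
structure Dat (T : ZZ p →L[ℝ] ZZ p) (s Θ : ℕ → ℝ → ℝ) (δ M : ℝ) : Prop where
  hδ : 0 < δ
  ms : ∀ k, Measurable (s k)
  mΘ : ∀ k, Measurable (Θ k)
  pm : ∀ k t, s k t = 1 ∨ s k t = -1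
  bd : ∀ k t, δ ≤ Θ k t ∧ Θ k t ≤ M
  rho : ∀ k (π : ℝ → ℕ) (N : ℕ), Measurable π → (∀ t, π t < N) → ∃ ρ, RhoSeq (Tkk T k) (s k) (Θ k) π ρ

theorem Dat.bdΘ {T : ZZ p →L[ℝ] ZZ p} {s Θ : ℕ → ℝ → ℝ} {δ M : ℝ} (D : Dat T s Θ δ M) (k : ℕ) : Bd (Θ k) :=
  ⟨D.mΘ k, M, fun t => by rw [abs_of_nonneg (D.hδ.le.trans (D.bd k t).1)]; exact (D.bd k t).2⟩

theorem Dat.bds {T : ZZ p →L[ℝ] ZZ p} {s Θ : ℕ → ℝ → ℝ} {δ M : ℝ} (D : Dat T s Θ δ M) (k : ℕ) : Bd (s k) :=
  ⟨D.ms k, 1, fun t => by rcases D.pm k t with h | h <;> rw [h] <;> simp⟩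

theorem step {T : ZZ p →L[ℝ] ZZ p} {s Θ : ℕ → ℝ → ℝ} {δ M : ℝ} (D : Dat T s Θ δ M) (j : ℕ) (σ : ℕ → ℝ → ℝ)
    (h : ∀ j' < j, Good T s Θ δ j' σ) : ∃ a, Good T s Θ δ j (Function.update σ j a) := by
  set k := j.unpair.1 with hk
  set m := j.unpair.2 with hm
  have hj : Nat.pair k m = j := Nat.pair_unpair j
  have g1 : ∀ m' < m, Measurable (σ (Nat.pair k m')) := fun m' hm' => (h _ (pair_lt hm')).meas
  have g2 : ∀ m' < m, ∀ t, σ (Nat.pair k m') t = 1 ∨ σ (Nat.pair k m') t = -1 :=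
    fun m' hm' => (h _ (pair_lt hm')).pm
  have g3 : ∀ m', 1 ≤ m' → m' ≤ m - 1 → ∀ i, ∫ t in {t | code σ k (m' - 1) t = i}, Θ k t * σ (Nat.pair k m') t ∂μ = 0 := by
    intro m' h1 h2 i
    have := (h _ (pair_lt (j := j) (m' := m') (by omega))).bal i
    rw [Nat.unpair_pair] at this
    exact this
  have hπm : Measurable (code σ k (m - 1)) := meas_code fun m' h1 h2 => g1 m' (by omega)
  obtain ⟨ρ, hρ⟩ := D.rho k (code σ k (m - 1)) (2 ^ (m - 1)) hπm (code_lt σ k (m - 1))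
  have hint := int_code (σ := σ) (k := k) (D.bdΘ k) (m := m - 1) (fun m' h1 h2 => g1 m' (by omega))
    (fun m' h1 h2 => g2 m' (by omega)) g3
  have hη : 0 < eta δ j := by unfold eta; have := D.hδ; positivity
  -- the new objects
  have hpb : ∀ i, Bd (pb σ k m i) := fun i => bd_pb g1 g2 i
  have ebb : ∀ n i, bb (Function.update σ j (ρ n)) k m i = fun t => pb σ k m i t * ρ n t := by
    intro n i
    funext t
    unfold bb
    rw [pb_congr (τ := σ) (fun m' hm' => by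
      rw [Function.update_of_ne]
      exact (pair_lt (j := j) hm').ne), hj, Function.update_self]
  have eold : ∀ n, ∀ j' < j, ∀ l ≤ j', Function.update σ j (ρ n) l = σ l := by
    intro n j' hj' l hl
    rw [Function.update_of_ne (by omega)]
  have ecode : ∀ n, code (Function.update σ j (ρ n)) k (m - 1) = code σ k (m - 1) := by
    intro n
    refine code_congr fun m' h1 h2 => ?_
    rw [Function.update_of_ne]
    exact (pair_lt (j := j) (m' := m') (by omega)).ne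
  have eX : ∀ n, ∀ j' < j, ∀ i', XX p (Function.update σ j (ρ n)) j' i' = XX p σ j' i' :=
    fun n j' hj' i' => XX_congr (eold n j' hj') i'
  have eY : ∀ n, ∀ j' < j, ∀ i', YY p s (Function.update σ j (ρ n)) j' i' = YY p s σ j' i' :=
    fun n j' hj' i' => YY_congr (eold n j' hj') i'
  have ρB : ∀ n, Bd (ρ n) := fun n => ⟨hρ.meas n, 1, fun t => by
    rcases hρ.pm n t with h | h <;> rw [h] <;> simp⟩
  -- c1
  have l1 : ∀ i, ∀ j' < j, ∀ i', Tendsto (fun n => YY p s (Function.update σ j (ρ n)) j i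
      (T (XX p (Function.update σ j (ρ n)) j' i'))) atTop (𝓝 0) := by
    intro i j' hj' i'
    have hf : Integrable (fun t => (s k t * pb σ k m i t) * (T (XX p σ j' i') k : ℝ → ℝ) t) μ :=
      ((D.bds k).mul (hpb i)).mul_integrable (integrable_coe _)
    refine (hρ.W1 _ hf).congr fun n => ?_
    rw [eX n j' hj' i']
    show _ = igc (p k) (fun t => s k t * bb (Function.update σ j (ρ n)) k m i t) (T (XX p σ j' i') k)
    rw [ebb, igc_apply ((D.bds k).mul ((hpb i).mul (ρB n)))]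
    refine integral_congr_ae (Eventually.of_forall fun t => ?_)
    show _ = _
    ring
  -- c2
  have l2 : ∀ i, ∀ j' < j, ∀ i', Tendsto (fun n => YY p s (Function.update σ j (ρ n)) j' i'
      (T (XX p (Function.update σ j (ρ n)) j i))) atTop (𝓝 0) := by
    intro i j' hj' i'
    refine (hρ.W2 ((YY p s σ j' i').comp (T.comp (inc k))) (pb σ k m i) (hpb i)).congr fun n => ?_
    rw [eY n j' hj' i']
    show _ = YY p s σ j' i' (T (inc k (cl (p k) (bb (Function.update σ j (ρ n)) k m i))))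
    rw [ebb]
    rfl
  -- c3
  have l3 : ∀ i < 2 ^ (m - 1), ∀ i' < 2 ^ (m - 1), Tendsto (fun n => YY p s (Function.update σ j (ρ n)) j i'
      (T (XX p (Function.update σ j (ρ n)) j i))) atTop
        (𝓝 (if i = i' then (∫ t, Θ k t ∂μ) * ((2 : ℝ) ^ (m - 1))⁻¹ else 0)) := by
    intro i hi i' hi'
    have := hρ.W3 (pb σ k m i) (fun t => s k t * pb σ k m i' t) (hpb i) ((D.bds k).mul (hpb i'))
    have e : ∫ t, pb σ k m i t * (s k t * pb σ k m i' t) * (s k t * Θ k t) ∂μ =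
        if i = i' then (∫ t, Θ k t ∂μ) * ((2 : ℝ) ^ (m - 1))⁻¹ else 0 := by
      have e1 : ∀ t, pb σ k m i t * (s k t * pb σ k m i' t) * (s k t * Θ k t) =
          if i = i' then (if code σ k (m - 1) t = i then Θ k t else 0) else 0 := by
        intro t
        have e2 : s k t * s k t = 1 := by rcases D.pm k t with h | h <;> rw [h] <;> norm_num
        calc pb σ k m i t * (s k t * pb σ k m i' t) * (s k t * Θ k t)
            = (pb σ k m i t * pb σ k m i' t) * (s k t * s k t) * Θ k t := by ring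
          _ = _ := by
            rw [e2, pb_mul_pb g2]
            split_ifs <;> simp
      rw [integral_congr_ae (Eventually.of_forall e1)]
      by_cases hii : i = i'
      · simp only [if_pos hii]
        exact hint i hi
      · simp [if_neg hii]
    rw [← e]
    refine this.congr fun n => ?_
    show _ = igc (p k) (fun t => s k t * bb (Function.update σ j (ρ n)) k m i' t)
      (T (inc k (cl (p k) (bb (Function.update σ j (ρ n)) k m i))) k)
    rw [ebb, ebb]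
    have e3 : (fun t => s k t * pb σ k m i' t * ρ n t) = fun t => s k t * (pb σ k m i' t * ρ n t) := by
      funext t; ring
    rw [e3]
    rfl
  have ev0 : ∀ {f : ℕ → ℝ} {x : ℝ}, Tendsto f atTop (𝓝 x) → ∀ᶠ n in atTop, |f n - x| ≤ eta δ j := by
    intro f x hf
    have := (Metric.tendsto_nhds.1 hf) _ hη
    refine this.mono fun n hn => ?_
    rw [Real.dist_eq] at hn
    exact hn.le
  have E1 : ∀ᶠ n in atTop, ∀ j' ∈ Finset.range j, ∀ i ∈ Finset.range (2 ^ (m - 1)),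
      ∀ i' ∈ Finset.range (2 ^ (j'.unpair.2 - 1)), |YY p s (Function.update σ j (ρ n)) j i
      (T (XX p (Function.update σ j (ρ n)) j' i')) - 0| ≤ eta δ j := by
    rw [Filter.eventually_all_finset]
    intro j' hj'
    rw [Filter.eventually_all_finset]
    intro i hi
    rw [Filter.eventually_all_finset]
    intro i' hi'
    exact ev0 (l1 i j' (Finset.mem_range.1 hj') i')
  have E2 : ∀ᶠ n in atTop, ∀ j' ∈ Finset.range j, ∀ i ∈ Finset.range (2 ^ (m - 1)),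
      ∀ i' ∈ Finset.range (2 ^ (j'.unpair.2 - 1)), |YY p s (Function.update σ j (ρ n)) j' i'
      (T (XX p (Function.update σ j (ρ n)) j i)) - 0| ≤ eta δ j := by
    rw [Filter.eventually_all_finset]
    intro j' hj'
    rw [Filter.eventually_all_finset]
    intro i hi
    rw [Filter.eventually_all_finset]
    intro i' hi'
    exact ev0 (l2 i j' (Finset.mem_range.1 hj') i')
  have E3 : ∀ᶠ n in atTop, ∀ i ∈ Finset.range (2 ^ (m - 1)),
      ∀ i' ∈ Finset.range (2 ^ (m - 1)), |YY p s (Function.update σ j (ρ n)) j i'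
      (T (XX p (Function.update σ j (ρ n)) j i)) -
        (if i = i' then (∫ t, Θ k t ∂μ) * ((2 : ℝ) ^ (m - 1))⁻¹ else 0)| ≤ eta δ j := by
    rw [Filter.eventually_all_finset]
    intro i hi
    rw [Filter.eventually_all_finset]
    intro i' hi'
    exact ev0 (l3 i (Finset.mem_range.1 hi) i' (Finset.mem_range.1 hi'))
  obtain ⟨n, h1, h2, h3⟩ := (E1.and (E2.and E3)).exists
  refine ⟨ρ n, ?_, ?_, ?_, ?_, ?_, ?_⟩
  · rw [Function.update_self]; exact hρ.meas n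
  · rw [Function.update_self]; exact hρ.pm n
  · intro i
    rw [Function.update_self, ← hk, ← hm, ecode]
    exact hρ.bal n i
  · intro j' hj' i hi i' hi'
    simpa using h1 j' (Finset.mem_range.2 hj') i (Finset.mem_range.2 hi) i' (Finset.mem_range.2 hi')
  · intro j' hj' i hi i' hi'
    simpa using h2 j' (Finset.mem_range.2 hj') i (Finset.mem_range.2 hi) i' (Finset.mem_range.2 hi')
  · intro i hi i' hi'
    exact h3 i (Finset.mem_range.2 hi) i' (Finset.mem_range.2 hi')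

theorem exists_sel {T : ZZ p →L[ℝ] ZZ p} {s Θ : ℕ → ℝ → ℝ} {δ M : ℝ} (D : Dat T s Θ δ M) :
    ∃ σ : ℕ → ℝ → ℝ, ∀ j, Good T s Θ δ j σ :=
  exists_seq _ (fun _ _ _ h hg => hg.congr h) (step D)

end Pool.Agent.Helper89.Haar
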