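import Pool.Agent.Helper89.Haar.UI

/-!
The sequence of generalized Rademacher functions: limits (problem MP_e03f8f_an).
-/

set_option autoImplicit false
set_option linter.unusedSectionVars false
set_option linter.unusedVariables false

open MeasureTheory Filter Topology Set
open scoped ENNReal NNReal

noncomputable section

namespace Pool.Agent.Helper89.Haar

/-- function version of the dyadic average -/
def dy (M : ℕ) (F : ℝ → ℝ) (t : ℝ) : ℝ := 2 ^ M * av F M (qq M t)

theorem mu_I_le (M k : ℕ) : μ.real (I M k) ≤ ((2 : ℝ) ^ M)⁻¹ := by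
  have h : μ (I M k) ≤ volume (I M k) := by
    rw [μ]; exact Measure.restrict_apply_le _ _
  rw [vol_I] at h
  have := ENNReal.toReal_mono ENNReal.ofReal_ne_top h
  rwa [ENNReal.toReal_ofReal (by positivity)] at this

theorem abs_dy_le {M : ℕ} {F : ℝ → ℝ} {B : ℝ} (hF : ∀ t, |F t| ≤ B) (t : ℝ) : |dy M F t| ≤ B := by
  have hB : 0 ≤ B := (abs_nonneg _).trans (hF 0)
  rw [dy, abs_mul, abs_of_pos (by positivity : (0 : ℝ) < 2 ^ M), av, ← Real.norm_eq_abs]
  have h1 := norm_setIntegral_le_of_norm_le_const (μ := μ) (s := I M (qq M t)) (f := F) (C := B)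
    (measure_lt_top _ _) (fun t _ => hF t)
  calc (2 : ℝ) ^ M * ‖∫ t in I M (qq M t), F t ∂μ‖ ≤ 2 ^ M * (B * ((2 : ℝ) ^ M)⁻¹) := by
        gcongr
        exact h1.trans (mul_le_mul_of_nonneg_left (mu_I_le _ _) hB)
    _ = B := by field_simp

theorem meas_dy (M : ℕ) (F : ℝ → ℝ) : Measurable (dy M F) :=
  (measurable_from_top (f := fun k => 2 ^ M * av F M k)).comp (meas_qq M)

theorem St_dy (M : ℕ) (F : ℝ → ℝ) : St M (dy M F) := ⟨fun k => 2 ^ M * av F M k, fun _ _ => rfl⟩

theorem Bd.dy {F : ℝ → ℝ} (hF : Bd F) (M : ℕ) : Bd (dy M F) := by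
  obtain ⟨B, hB⟩ := hF.bdd
  exact ⟨meas_dy M F, B, abs_dy_le hB⟩

variable {p : ℝ≥0∞} [hp1 : Fact (1 ≤ p)]

theorem av_congr {F G : ℝ → ℝ} (h : F =ᵐ[μ] G) (n k : ℕ) : av F n k = av G n k :=
  integral_congr_ae (ae_restrict_of_ae h)

theorem cl_dy {F : ℝ → ℝ} (hF : Bd F) (M : ℕ) : cl p (dy M F) = EE p M (cl p F) := by
  rw [← cl_coe (EE p M (cl p F))]
  refine cl_congr ((hF.dy M).memLp p) ?_
  filter_upwards [EE_ae M (cl p F)] with t ht
  rw [ht, av_congr (coe_cl (hF.memLp p))]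
  rfl

theorem dy_tendsto (hp : p ≠ ∞) {F : ℝ → ℝ} (hF : Bd F) :
    Tendsto (fun M => ‖cl p (fun t => F t - dy M F t)‖) atTop (𝓝 0) := by
  have h1 : ∀ M, cl p (fun t => F t - dy M F t) = cl p F - EE p M (cl p F) := by
    intro M
    rw [cl_sub (hF.memLp p) ((hF.dy M).memLp p), cl_dy hF]
  simp only [h1]
  have := (tendsto_const_nhds (x := cl p F)).sub (EE_tendsto hp (cl p F))
  rw [sub_self] at this
  simpa using this.norm

theorem MZ.mono {m m' : ℕ} (h : m ≤ m') {f : ℝ → ℝ} (hf : MZ m' f) : MZ m f := by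
  intro ψ
  have := hf (fun q => ψ (q / 2 ^ (m' - m)))
  simpa only [← qq_le' h] using this

theorem St_MZ {L m : ℕ} (h : L ≤ m) {f g : ℝ → ℝ} (hf : St L f) (hg : MZ m g) :
    ∫ t, f t * g t ∂μ = 0 := by
  obtain ⟨φ, hφ⟩ := hf.mono h
  rw [← hg φ]
  refine integral_congr_ae ?_
  filter_upwards [ae_mem] with t ht
  rw [hφ t ht]

theorem norm_cl_mul_pm {f R : ℝ → ℝ} (hf : Bd f) (hR : Measurable R) (hR1 : ∀ t, R t = 1 ∨ R t = -1) :
    ‖cl p (fun t => f t * R t)‖ = ‖cl p f‖ := by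
  have hRb : Bd R := ⟨hR, 1, fun t => by rcases hR1 t with h | h <;> rw [h] <;> simp⟩
  rw [norm_cl ((hf.mul hRb).memLp p), norm_cl (hf.memLp p)]
  congr 1
  refine eLpNorm_congr_norm_ae (Eventually.of_forall fun t => ?_)
  rcases hR1 t with h | h <;> rw [h] <;> simp

/-- the sequence -/
structure RSeq (T : LL p →L[ℝ] LL p) (w : ℝ → ℝ) (R : ℕ → ℝ → ℝ) (lv : ℕ → ℕ) : Prop where
  meas : ∀ n, Measurable (R n)
  pm : ∀ n t, R n t = 1 ∨ R n t = -1
  st : ∀ n, St (lv (n + 1)) (R n)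
  mz : ∀ n, MZ (max n (lv n)) (R n)
  mono : ∀ n, lv n ≤ lv (n + 1)
  approx : ∀ n, ∀ j < 2 ^ n, ∀ j' < 2 ^ n,
    |igc p (fun t => J n j' t * R n t) (T (cl p (fun t => J n j t * R n t))) -
      if j = j' then ∫ t, J n j t * w t ∂μ else 0| ≤ (1 / 8) ^ n

theorem exists_RSeq {T : LL p →L[ℝ] LL p} {w : ℝ → ℝ}
    (H : ∀ (n L : ℕ) (η : ℝ), 0 < η → ∃ (L' : ℕ) (R : ℝ → ℝ), L ≤ L' ∧ Measurable R ∧
        (∀ t, R t = 1 ∨ R t = -1) ∧ St L' R ∧ MZ (max n L) R ∧
        ∀ j < 2 ^ n, ∀ j' < 2 ^ n,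
          |igc p (fun t => J n j' t * R t) (T (cl p (fun t => J n j t * R t))) -
            if j = j' then ∫ t, J n j t * w t ∂μ else 0| ≤ η) :
    ∃ R lv, RSeq T w R lv := by
  choose L' R h1 h2 h3 h4 h5 h6 using H
  let lv : ℕ → ℕ := fun n => Nat.rec 0 (fun n L => L' n L ((1 / 8) ^ n) (by positivity)) n
  have hlv : ∀ n, lv (n + 1) = L' n (lv n) ((1 / 8) ^ n) (by positivity) := fun n => rfl
  refine ⟨fun n => R n (lv n) ((1 / 8) ^ n) (by positivity), lv, ?_, ?_, ?_, ?_, ?_, ?_⟩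
  · exact fun n => h2 _ _ _ _
  · exact fun n => h3 _ _ _ _
  · exact fun n => h4 _ _ _ _
  · exact fun n => h5 _ _ _ _
  · exact fun n => h1 _ _ _ _
  · exact fun n => h6 _ _ _ _

namespace RSeq
variable {T : LL p →L[ℝ] LL p} {w : ℝ → ℝ} {R : ℕ → ℝ → ℝ} {lv : ℕ → ℕ}

theorem bd (h : RSeq T w R lv) (n : ℕ) : Bd (R n) :=
  ⟨h.meas n, 1, fun t => by rcases h.pm n t with h | h <;> rw [h] <;> simp⟩

theorem abs_one (h : RSeq T w R lv) (n : ℕ) (t : ℝ) : |R n t| = 1 := by
  rcases h.pm n t with h | h <;> rw [h] <;> simp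

theorem W1 (h : RSeq T w R lv) {f : ℝ → ℝ} (hf : Integrable f μ) :
    Tendsto (fun n => ∫ t, f t * R n t ∂μ) atTop (𝓝 0) := by
  have hf1 : MemLp f 1 μ := memLp_one_iff_integrable.2 hf
  have : Fact ((1 : ℝ≥0∞) ≤ 1) := ⟨le_rfl⟩
  rw [Metric.tendsto_atTop]
  intro ε hε
  obtain ⟨M, hM⟩ := (Metric.tendsto_atTop.1 (EE_tendsto ENNReal.one_ne_top (cl 1 f)) ε hε)
  have hM := hM M le_rfl
  refine ⟨M, fun n hn => ?_⟩
  have e1 : ∫ t, f t * R n t ∂μ = igc 1 (R n) (cl 1 f) := by
    rw [igc_cl (h.bd n) hf1]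
    exact integral_congr_ae (Eventually.of_forall fun t => mul_comm _ _)
  have e2 : igc 1 (R n) (EE 1 M (cl 1 f)) = 0 := by
    rw [igc_apply (h.bd n)]
    have h3 := (h.mz n).mono (hn.trans (le_max_left _ _)) (fun k => 2 ^ M * av (cl 1 f) M k)
    rw [← h3]
    refine integral_congr_ae ?_
    filter_upwards [EE_ae M (cl 1 f)] with t ht
    rw [ht, mul_comm]
    rfl
  rw [dist_zero_right, e1, ← sub_zero (igc 1 (R n) (cl 1 f)), ← e2, ← map_sub, Real.norm_eq_abs]
  have h4 := abs_igc_le (h.bd n) (C := 1) (fun t => (h.abs_one n t).le) (cl 1 f - EE 1 M (cl 1 f))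
  rw [one_mul] at h4
  refine h4.trans_lt ?_
  rw [dist_comm, dist_eq_norm] at hM
  exact hM

theorem lv_mono (h : RSeq T w R lv) : Monotone lv := monotone_nat_of_le_succ h.mono

theorem orth (h : RSeq T w R lv) {F : ℝ → ℝ} {M : ℕ} (hF : St M F) {n n' : ℕ} (hn : n < n')
    (hM : M ≤ n') : ∫ t, (F t * R n t * F t) * R n' t ∂μ = 0 := by
  refine St_MZ (L := max M (lv (n + 1))) (m := max n' (lv n')) ?_ ?_ (h.mz n')
  · exact max_le_max hM (h.lv_mono hn)
  · exact ((hF.mono (le_max_left _ _)).mul ((h.st n).mono (le_max_right _ _))).mul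
      (hF.mono (le_max_left _ _))

theorem W2step (hp : p ≠ ∞) (h : RSeq T w R lv) (Λ : LL p →L[ℝ] ℝ) {F : ℝ → ℝ} (hFb : Bd F)
    (hF1 : ∀ t, |F t| ≤ 1) {M : ℕ} (hF : St M F) {ε : ℝ} (hε : 0 < ε) :
    ∀ᶠ n in atTop, |Λ (cl p (fun t => F t * R n t))| < ε := by
  by_contra hcon
  rw [Filter.not_eventually] at hcon
  have hinf : {n | M ≤ n ∧ ε ≤ |Λ (cl p (fun t => F t * R n t))|}.Infinite := by
    have := hcon.and_eventually (eventually_ge_atTop M)
    rw [Nat.frequently_atTop_iff_infinite] at this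
    refine this.mono ?_
    rintro n ⟨h1, h2⟩
    exact ⟨h2, not_lt.1 h1⟩
  have key : ∀ k : ℕ, 0 < k → ε ≤ ‖Λ‖ * (1 / (k : ℝ)) ^ (1 / p.toReal) := by
    intro k hk
    obtain ⟨S, hS, hcard⟩ := hinf.exists_subset_card_eq (k ^ 2)
    set σ : ℕ → ℝ := fun n => if 0 ≤ Λ (cl p (fun t => F t * R n t)) then 1 else -1 with hσ
    have hσ1 : ∀ n, |σ n| = 1 := fun n => by simp only [hσ]; split_ifs <;> simp
    set g : ℝ → ℝ := fun t => ∑ n ∈ S, ((1 / (k : ℝ) ^ 2) * σ n) * (F t * R n t) with hg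
    have hgb : Bd g := Bd.sum S fun n _ => (Bd.const _).mul (hFb.mul (h.bd n))
    have hk' : (0 : ℝ) < k := by exact_mod_cast hk
    have hg1 : ∀ t, |g t| ≤ 1 := by
      intro t
      calc |g t| ≤ ∑ n ∈ S, |((1 / (k : ℝ) ^ 2) * σ n) * (F t * R n t)| := Finset.abs_sum_le_sum_abs _ _
        _ ≤ ∑ n ∈ S, (1 / (k : ℝ) ^ 2) := by
            refine Finset.sum_le_sum fun n _ => ?_
            rw [abs_mul, abs_mul, abs_mul, hσ1, h.abs_one, mul_one, mul_one,
              abs_of_pos (by positivity : (0 : ℝ) < 1 / (k : ℝ) ^ 2)]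
            exact mul_le_of_le_one_right (by positivity) (hF1 t)
        _ = 1 := by
            rw [Finset.sum_const, hcard, nsmul_eq_mul]
            push_cast
            field_simp
    have hg2 : ∫ t, g t ^ 2 ∂μ ≤ 1 / (k : ℝ) ^ 2 := by
      have e1 : ∀ t, g t ^ 2 = ∑ n ∈ S, ∑ n' ∈ S, ((1 / (k : ℝ) ^ 2) * σ n * ((1 / (k : ℝ) ^ 2) * σ n')) *
          ((F t * R n t * F t) * R n' t) := by
        intro t
        rw [hg, pow_two, Finset.sum_mul_sum]
        refine Finset.sum_congr rfl fun n _ => Finset.sum_congr rfl fun n' _ => ?_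
        ring
      have hi : ∀ n n', Integrable (fun t => (F t * R n t * F t) * R n' t) μ := fun n n' =>
        (((hFb.mul (h.bd n)).mul hFb).mul (h.bd n')).integrable
      have hoff : ∀ n ∈ S, ∀ n' ∈ S, n ≠ n' → ∫ t, (F t * R n t * F t) * R n' t ∂μ = 0 := by
        intro n hn n' hn' hne
        rcases lt_or_gt_of_ne hne with hlt | hgt
        · exact h.orth hF hlt (hS hn').1
        · rw [← h.orth hF hgt (hS hn).1]
          exact integral_congr_ae (Eventually.of_forall fun t => by ring)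
      simp only [e1]
      rw [integral_finsetSum _ (fun n _ => integrable_finsetSum _ fun n' _ => (hi n n').const_mul _)]
      calc ∑ n ∈ S, ∫ t, ∑ n' ∈ S, ((1 / (k : ℝ) ^ 2) * σ n * ((1 / (k : ℝ) ^ 2) * σ n')) *
          ((F t * R n t * F t) * R n' t) ∂μ
          = ∑ n ∈ S, (1 / (k : ℝ) ^ 2) ^ 2 * ∫ t, (F t * R n t * F t) * R n t ∂μ := by
            refine Finset.sum_congr rfl fun n hn => ?_
            rw [integral_finsetSum _ (fun n' _ => (hi n n').const_mul _),
              Finset.sum_eq_single_of_mem n hn]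
            · rw [integral_const_mul]
              have : σ n * σ n = 1 := by
                rw [← abs_mul_abs_self, hσ1]; norm_num
              linear_combination ((1 / (k : ℝ) ^ 2) ^ 2 * ∫ t, (F t * R n t * F t) * R n t ∂μ) * this
            · intro n' hn' hne
              rw [integral_const_mul, hoff n hn n' hn' hne.symm, mul_zero]
        _ ≤ ∑ n ∈ S, (1 / (k : ℝ) ^ 2) ^ 2 * 1 := by
            refine Finset.sum_le_sum fun n _ => mul_le_mul_of_nonneg_left ?_ (by positivity)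
            have : ∫ t, (F t * R n t * F t) * R n t ∂μ ≤ ∫ t, (1 : ℝ) ∂μ := by
              refine integral_mono (hi n n) (integrable_const _) fun t => ?_
              have e2 : (F t * R n t * F t) * R n t = |F t| ^ 2 * (|R n t| ^ 2) := by
                rw [sq_abs, sq_abs]; ring
              show (F t * R n t * F t) * R n t ≤ 1
              rw [e2, h.abs_one, one_pow, mul_one]
              exact pow_le_one₀ (abs_nonneg _) (hF1 t)
            simpa using this
        _ = 1 / (k : ℝ) ^ 2 := by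
            rw [Finset.sum_const, hcard, nsmul_eq_mul]
            push_cast
            field_simp
    have hg3 : ∫ t, |g t| ∂μ ≤ 1 / k := by
      have h5 : ∫ t, |g t| ∂μ ≤ ∫ t, (1 / (2 * (k : ℝ)) + k / 2 * g t ^ 2) ∂μ := by
        have hg2i : Integrable (fun t => g t ^ 2) μ := by
          have := (hgb.mul hgb).integrable
          simpa [pow_two] using this
        refine integral_mono hgb.integrable.abs ((integrable_const _).add (hg2i.const_mul _)) fun t => ?_
        show |g t| ≤ 1 / (2 * (k : ℝ)) + k / 2 * g t ^ 2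
        have h6 : 0 ≤ (1 / (k : ℝ) - |g t|) ^ 2 := sq_nonneg _
        have h7 : 1 / (2 * (k : ℝ)) + k / 2 * g t ^ 2 - |g t| = k / 2 * (1 / (k : ℝ) - |g t|) ^ 2 := by
          rw [← sq_abs (g t)]
          field_simp
          ring
        nlinarith [mul_nonneg hk'.le h6]
      have hg2i : Integrable (fun t => g t ^ 2) μ := by
        have := (hgb.mul hgb).integrable
        simpa [pow_two] using this
      rw [integral_add (integrable_const _) (hg2i.const_mul _), integral_const_mul] at h5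
      have h8 : ∫ t, (1 / (2 * (k : ℝ))) ∂μ = 1 / (2 * (k : ℝ)) := by simp
      rw [h8] at h5
      calc ∫ t, |g t| ∂μ ≤ 1 / (2 * (k : ℝ)) + k / 2 * (1 / (k : ℝ) ^ 2) := by
            refine h5.trans ?_
            gcongr
        _ = 1 / k := by field_simp; norm_num
    have hclg : cl p g = ∑ n ∈ S, ((1 / (k : ℝ) ^ 2) * σ n) • cl p (fun t => F t * R n t) := by
      rw [hg, cl_sum _ (fun n _ => ((hFb.mul (h.bd n)).memLp p).const_mul _)]
      exact Finset.sum_congr rfl fun n _ => cl_smul _ ((hFb.mul (h.bd n)).memLp p)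
    have hlow : ε ≤ Λ (cl p g) := by
      rw [hclg, map_sum]
      calc ε = ∑ n ∈ S, (1 / (k : ℝ) ^ 2) * ε := by
            rw [Finset.sum_const, hcard, nsmul_eq_mul]
            push_cast
            field_simp
        _ ≤ _ := by
            refine Finset.sum_le_sum fun n hn => ?_
            rw [map_smul, smul_eq_mul, mul_assoc]
            refine mul_le_mul_of_nonneg_left ?_ (by positivity)
            have h9 := (hS hn).2
            simp only [hσ]
            split_ifs with h0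
            · rwa [abs_of_nonneg h0, ← one_mul (Λ _)] at h9
            · rw [abs_of_neg (not_le.1 h0)] at h9
              linarith
    calc ε ≤ |Λ (cl p g)| := hlow.trans (le_abs_self _)
      _ ≤ ‖Λ‖ * ‖cl p g‖ := Λ.le_opNorm _
      _ ≤ ‖Λ‖ * (1 / (k : ℝ)) ^ (1 / p.toReal) := by
          gcongr
          refine (norm_cl_small hp hgb.meas hg1).trans ?_
          have : 0 ≤ ∫ t, |g t| ∂μ := integral_nonneg fun t => abs_nonneg _
          gcongr
  have h1 : 0 < 1 / p.toReal := by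
    have := toReal_one_le (p := p) hp
    positivity
  have hlim : Tendsto (fun k : ℕ => ‖Λ‖ * (1 / (k : ℝ)) ^ (1 / p.toReal)) atTop (𝓝 (‖Λ‖ * 0)) := by
    refine Tendsto.const_mul _ ?_
    have := (tendsto_one_div_atTop_nhds_zero_nat (𝕜 := ℝ)).rpow_const (p := 1 / p.toReal)
      (Or.inr h1.le)
    rwa [Real.zero_rpow h1.ne'] at this
  rw [mul_zero] at hlim
  obtain ⟨k, hk1, hk2⟩ := ((hlim.eventually (gt_mem_nhds hε)).and (eventually_gt_atTop 0)).exists
  exact absurd (key k hk2) (not_le.2 hk1)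

end RSeq

end Pool.Agent.Helper89.Haar
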