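import Pool.Agent.Helper89.Haar.Seq1

/-!
The sequence of generalized Rademacher functions: limits for bounded functions
(problem MP_e03f8f_an).
-/

set_option autoImplicit false
set_option linter.unusedSectionVars false
set_option linter.unusedVariables false

open MeasureTheory Filter Topology Set
open scoped ENNReal NNReal

noncomputable section

namespace Pool.Agent.Helper89.Haar
variable {p : ℝ≥0∞} [hp1 : Fact (1 ≤ p)]

theorem Bd.smul {f : ℝ → ℝ} (c : ℝ) (hf : Bd f) : Bd (fun t => c * f t) := (Bd.const c).mul hf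

theorem int_abs_le_norm {f : ℝ → ℝ} (hf : Bd f) : ∫ t, |f t| ∂μ ≤ ‖cl p f‖ := by
  refine le_trans (le_of_eq ?_) (integral_abs_le (cl p f))
  refine integral_congr_ae ?_
  filter_upwards [coe_cl (hf.memLp p)] with t ht
  rw [ht]

/-- normalisation -/
theorem exists_scale {f : ℝ → ℝ} (hf : Bd f) : ∃ (B : ℝ) (f' : ℝ → ℝ), 0 < B ∧ Bd f' ∧ (∀ t, |f' t| ≤ 1) ∧
    ∀ t, f t = B * f' t := by
  obtain ⟨C, hC⟩ := hf.bdd
  have hB : 0 < |C| + 1 := by positivity
  refine ⟨|C| + 1, fun t => (|C| + 1)⁻¹ * f t, hB, hf.smul _, fun t => ?_, fun t => ?_⟩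
  · rw [abs_mul, abs_of_pos (inv_pos.2 hB)]
    rw [inv_mul_le_iff₀ hB, mul_one]
    exact (hC t).trans (by linarith [le_abs_self C])
  · rw [← mul_assoc, mul_inv_cancel₀ hB.ne', one_mul]

namespace RSeq
variable {T : LL p →L[ℝ] LL p} {w : ℝ → ℝ} {R : ℕ → ℝ → ℝ} {lv : ℕ → ℕ}

theorem W2 (hp : p ≠ ∞) (h : RSeq T w R lv) (Λ : LL p →L[ℝ] ℝ) {F : ℝ → ℝ} (hF : Bd F) :
    Tendsto (fun n => Λ (cl p (fun t => F t * R n t))) atTop (𝓝 0) := by
  obtain ⟨B, F', hB, hF', hF1, hFF⟩ := exists_scale hF
  have hmain : Tendsto (fun n => Λ (cl p (fun t => F' t * R n t))) atTop (𝓝 0) := by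
    rw [Metric.tendsto_atTop]
    intro ε hε
    obtain ⟨M, hM⟩ := ((dy_tendsto hp hF').eventually (gt_mem_nhds
      (show 0 < ε / 2 / (‖Λ‖ + 1) by positivity))).exists
    obtain ⟨N, hN⟩ := eventually_atTop.1 (h.W2step hp Λ (hF'.dy M) (abs_dy_le hF1) (St_dy M F')
      (half_pos hε))
    refine ⟨N, fun n hn => ?_⟩
    have h1 := hN n hn
    have e1 : cl p (fun t => F' t * R n t) = cl p (fun t => dy M F' t * R n t) +
        cl p (fun t => (F' t - dy M F' t) * R n t) := by
      rw [← cl_add (((hF'.dy M).mul (h.bd n)).memLp p) (((hF'.sub (hF'.dy M)).mul (h.bd n)).memLp p)]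
      congr 1
      ext t
      ring
    have h2 : |Λ (cl p (fun t => (F' t - dy M F' t) * R n t))| ≤ ε / 2 := by
      refine (Λ.le_opNorm _).trans ?_
      rw [norm_cl_mul_pm (hF'.sub (hF'.dy M)) (h.meas n) (h.pm n)]
      calc ‖Λ‖ * ‖cl p (fun t => F' t - dy M F' t)‖ ≤ ‖Λ‖ * (ε / 2 / (‖Λ‖ + 1)) := by
            gcongr
        _ ≤ ε / 2 := by
            rw [mul_div_assoc', div_le_iff₀ (by positivity)]
            nlinarith [half_pos hε]
    rw [dist_zero_right, e1, map_add, Real.norm_eq_abs]
    exact (abs_add_le _ _).trans_lt (by linarith)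
  have h2 := hmain.const_mul B
  rw [mul_zero] at h2
  refine h2.congr fun n => ?_
  rw [← smul_eq_mul, ← map_smul, ← cl_smul _ ((hF'.mul (h.bd n)).memLp p)]
  congr 2
  ext t
  rw [hFF]; ring

/-- the bilinear form -/
theorem W3step (h : RSeq T w R lv) (hw : Integrable w μ) {f g : ℝ → ℝ} (hf : Bd f) (hg : Bd g)
    (hf1 : ∀ t, |f t| ≤ 1) (hg1 : ∀ t, |g t| ≤ 1) (M : ℕ) {n : ℕ} (hn : M ≤ n) :
    |igc p (fun t => dy M g t * R n t) (T (cl p (fun t => dy M f t * R n t))) -
      ∫ t, dy M f t * dy M g t * w t ∂μ| ≤ (1 / 2) ^ n := by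
  obtain ⟨φ, hφ⟩ := (St_dy M f).mono hn
  obtain ⟨ψ, hψ⟩ := (St_dy M g).mono hn
  have hφ1 : ∀ j < 2 ^ n, |φ j| ≤ 1 := by
    intro j hj
    have ht : (j : ℝ) / 2 ^ n ∈ I n j := by
      refine ⟨le_rfl, ?_⟩
      gcongr
      linarith
    have h1 := I_subset hj ht
    have h2 := hφ _ h1
    rw [(mem_I' h1).1 ht] at h2
    rw [← h2]
    exact abs_dy_le hf1 _
  have hψ1 : ∀ j < 2 ^ n, |ψ j| ≤ 1 := by
    intro j hj
    have ht : (j : ℝ) / 2 ^ n ∈ I n j := by
      refine ⟨le_rfl, ?_⟩
      gcongr
      linarith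
    have h1 := I_subset hj ht
    have h2 := hψ _ h1
    rw [(mem_I' h1).1 ht] at h2
    rw [← h2]
    exact abs_dy_le hg1 _
  have eJ : ∀ (c : ℕ → ℝ) {t : ℝ}, t ∈ Ico (0 : ℝ) 1 →
      c (qq n t) = ∑ j ∈ Finset.range (2 ^ n), c j * J n j t := by
    intro c t ht
    exact (sum_ind_I c ht).symm
  have hb : ∀ j ∈ Finset.range (2 ^ n), Bd (fun t => J n j t * R n t) := fun j _ =>
    (bd_J n j).mul (h.bd n)
  have e1 : cl p (fun t => dy M f t * R n t) = ∑ j ∈ Finset.range (2 ^ n),
      φ j • cl p (fun t => J n j t * R n t) := by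
    rw [cl_congr' (((hf.dy M).mul (h.bd n)).memLp p) (g := fun t => ∑ j ∈ Finset.range (2 ^ n),
      φ j * (J n j t * R n t)), cl_sum _ (fun j hj => ((hb j hj).memLp p).const_mul _)]
    · exact Finset.sum_congr rfl fun j hj => cl_smul _ ((hb j hj).memLp p)
    · intro t ht
      rw [hφ t ht, eJ φ ht, Finset.sum_mul]
      exact Finset.sum_congr rfl fun j _ => by ring
  have e2 : ∀ x : LL p, igc p (fun t => dy M g t * R n t) x = ∑ j ∈ Finset.range (2 ^ n),
      ψ j * igc p (fun t => J n j t * R n t) x := by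
    intro x
    rw [igc_congr ((hg.dy M).mul (h.bd n)) (g' := fun t => ∑ j ∈ Finset.range (2 ^ n),
      ψ j * (J n j t * R n t)) (Bd.sum _ fun j hj => (Bd.const _).mul (hb j hj)), igc_sum _ hb]
    intro t ht
    rw [hψ t ht, eJ ψ ht, Finset.sum_mul]
    exact Finset.sum_congr rfl fun j _ => by ring
  have e3 : ∫ t, dy M f t * dy M g t * w t ∂μ = ∑ j ∈ Finset.range (2 ^ n),
      φ j * ψ j * ∫ t, J n j t * w t ∂μ := by
    have : ∫ t, dy M f t * dy M g t * w t ∂μ = ∫ t, ∑ j ∈ Finset.range (2 ^ n),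
        (φ j * ψ j) * (J n j t * w t) ∂μ := by
      refine integral_congr_ae ?_
      filter_upwards [ae_mem] with t ht
      rw [hφ t ht, hψ t ht]
      have := eJ (fun j => φ j * ψ j) ht
      rw [this, Finset.sum_mul]
      exact Finset.sum_congr rfl fun j _ => by ring
    rw [this, integral_finsetSum _ (fun j _ => ((bd_J n j).mul_integrable hw).const_mul _)]
    exact Finset.sum_congr rfl fun j _ => integral_const_mul _ _
  have e4 : igc p (fun t => dy M g t * R n t) (T (cl p (fun t => dy M f t * R n t))) -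
      ∫ t, dy M f t * dy M g t * w t ∂μ =
      ∑ j' ∈ Finset.range (2 ^ n), ∑ j ∈ Finset.range (2 ^ n), (ψ j' * φ j) *
        (igc p (fun t => J n j' t * R n t) (T (cl p (fun t => J n j t * R n t))) -
          if j = j' then ∫ t, J n j t * w t ∂μ else 0) := by
    rw [e2, e1, e3, map_sum, ← Finset.sum_sub_distrib]
    refine Finset.sum_congr rfl fun j' hj' => ?_
    rw [map_sum]
    simp only [mul_sub, Finset.sum_sub_distrib]
    congr 1
    · rw [Finset.mul_sum]
      refine Finset.sum_congr rfl fun j _ => ?_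
      rw [map_smul, map_smul, smul_eq_mul]; ring
    · simp only [mul_ite, mul_zero]
      rw [Finset.sum_ite_eq' _ j', if_pos hj']
      ring
  rw [e4]
  calc |∑ j' ∈ Finset.range (2 ^ n), ∑ j ∈ Finset.range (2 ^ n), (ψ j' * φ j) *
        (igc p (fun t => J n j' t * R n t) (T (cl p (fun t => J n j t * R n t))) -
          if j = j' then ∫ t, J n j t * w t ∂μ else 0)|
      ≤ ∑ j' ∈ Finset.range (2 ^ n), ∑ j ∈ Finset.range (2 ^ n), (1 / 8 : ℝ) ^ n := by
        refine (Finset.abs_sum_le_sum_abs _ _).trans (Finset.sum_le_sum fun j' hj' => ?_)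
        refine (Finset.abs_sum_le_sum_abs _ _).trans (Finset.sum_le_sum fun j hj => ?_)
        have hj1 : j < 2 ^ n := by simpa using hj
        have hj1' : j' < 2 ^ n := by simpa using hj'
        rw [abs_mul, abs_mul]
        calc |ψ j'| * |φ j| * _ ≤ 1 * (1 / 8 : ℝ) ^ n := by
              refine mul_le_mul (mul_le_one₀ (hψ1 j' hj1') (abs_nonneg _) (hφ1 j hj1))
                (h.approx n j hj1 j' hj1') (abs_nonneg _) zero_le_one
          _ = _ := one_mul _
    _ = (1 / 2) ^ n := by
        rw [Finset.sum_const, Finset.sum_const, Finset.card_range, nsmul_eq_mul, nsmul_eq_mul]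
        push_cast
        rw [← mul_assoc, ← mul_pow, ← mul_pow]
        norm_num

theorem W3 (hp : p ≠ ∞) (h : RSeq T w R lv) (hw : Integrable w μ) {f g : ℝ → ℝ} (hf : Bd f)
    (hg : Bd g) : Tendsto (fun n => igc p (fun t => g t * R n t) (T (cl p (fun t => f t * R n t))))
      atTop (𝓝 (∫ t, f t * g t * w t ∂μ)) := by
  obtain ⟨B, f', hB, hf', hf1, hff⟩ := exists_scale hf
  obtain ⟨D, g', hD, hg', hg1, hgg⟩ := exists_scale hg
  have hmain : Tendsto (fun n => igc p (fun t => g' t * R n t) (T (cl p (fun t => f' t * R n t))))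
      atTop (𝓝 (∫ t, f' t * g' t * w t ∂μ)) := by
    rw [Metric.tendsto_atTop]
    intro ε hε
    -- choose M
    obtain ⟨η, hη, hui⟩ := ui hp T (show 0 < ε / 16 by positivity)
    obtain ⟨η', hη', hsm⟩ := small_int' hw (show 0 < ε / 16 by positivity)
    have t1 := dy_tendsto hp hf'
    have t2 := dy_tendsto hp hg'
    have t1' : ∀ M, ∫ t, |f' t - dy M f' t| ∂μ ≤ ‖cl p (fun t => f' t - dy M f' t)‖ := fun M =>
      int_abs_le_norm (hf'.sub (hf'.dy M))
    have t2' : ∀ M, ∫ t, |g' t - dy M g' t| ∂μ ≤ ‖cl p (fun t => g' t - dy M g' t)‖ := fun M =>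
      int_abs_le_norm (hg'.sub (hg'.dy M))
    set κ : ℝ := min (min η η') (ε / 16 / (‖T‖ + 1)) with hκ
    have hκ0 : 0 < κ := by positivity
    obtain ⟨M, hM1, hM2⟩ := ((t1.eventually (gt_mem_nhds hκ0)).and (t2.eventually (gt_mem_nhds hκ0))).exists
    set fM := dy M f' with hfM
    set gM := dy M g' with hgM
    have hfMb : Bd fM := hf'.dy M
    have hgMb : Bd gM := hg'.dy M
    have hfM1 : ∀ t, |fM t| ≤ 1 := abs_dy_le hf1
    have hgM1 : ∀ t, |gM t| ≤ 1 := abs_dy_le hg1
    have hpow : Tendsto (fun n : ℕ => (1 / 2 : ℝ) ^ n) atTop (𝓝 0) :=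
      tendsto_pow_atTop_nhds_zero_of_lt_one (by norm_num) (by norm_num)
    obtain ⟨N, hN⟩ := eventually_atTop.1 (hpow.eventually (gt_mem_nhds (show 0 < ε / 16 by positivity)))
    refine ⟨max M N, fun n hn => ?_⟩
    have hnM : M ≤ n := (le_max_left _ _).trans hn
    have hnN : N ≤ n := (le_max_right _ _).trans hn
    have hRb := h.bd n
    have s1 := h.W3step hw hf' hg' hf1 hg1 M hnM
    have s1' : |igc p (fun t => gM t * R n t) (T (cl p (fun t => fM t * R n t))) -
      ∫ t, fM t * gM t * w t ∂μ| < ε / 16 := s1.trans_lt (hN n hnN)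
    -- difference in f
    have s2 : |igc p (fun t => g' t * R n t) (T (cl p (fun t => f' t * R n t))) -
        igc p (fun t => g' t * R n t) (T (cl p (fun t => fM t * R n t)))| ≤ ε / 16 := by
      rw [← map_sub, ← map_sub, ← cl_sub ((hf'.mul hRb).memLp p) ((hfMb.mul hRb).memLp p)]
      have e1 : (fun t => f' t * R n t - fM t * R n t) = fun t => (f' t - fM t) * R n t := by
        ext t; ring
      rw [e1]
      refine (abs_igc_le (hg'.mul hRb) (C := 1) (fun t => ?_) _).trans ?_
      · rw [abs_mul, h.abs_one, mul_one]; exact hg1 t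
      · rw [one_mul]
        refine (T.le_opNorm _).trans ?_
        rw [norm_cl_mul_pm (hf'.sub hfMb) (h.meas n) (h.pm n)]
        calc ‖T‖ * ‖cl p (fun t => f' t - fM t)‖ ≤ ‖T‖ * (ε / 16 / (‖T‖ + 1)) := by
              gcongr
              exact hM1.le.trans (min_le_right _ _)
          _ ≤ ε / 16 := by
              rw [mul_div_assoc', div_le_iff₀ (by positivity)]
              have : 0 < ε / 16 := by positivity
              nlinarith
    -- difference in g
    have s3 : |igc p (fun t => g' t * R n t) (T (cl p (fun t => fM t * R n t))) -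
        igc p (fun t => gM t * R n t) (T (cl p (fun t => fM t * R n t)))| ≤ ε / 8 := by
      set x := T (cl p (fun t => fM t * R n t)) with hx
      set v : ℝ → ℝ := fun t => (1 / 2) * ((g' t - gM t) * R n t) with hv
      have hvb : Bd v := ((hg'.sub hgMb).mul hRb).smul _
      have hv1 : ∀ t, |v t| ≤ 1 := by
        intro t
        rw [hv]
        simp only
        rw [abs_mul, abs_mul, h.abs_one, mul_one, abs_of_pos (by norm_num : (0 : ℝ) < 1 / 2)]
        have := abs_sub (g' t) (gM t)
        have h1 := hg1 t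
        have h2 := hgM1 t
        linarith
      have hvi : ∫ t, |v t| ∂μ ≤ η := by
        have e1 : ∀ t, |v t| = (1 / 2) * |g' t - gM t| := by
          intro t
          rw [hv]
          simp only
          rw [abs_mul, abs_mul, h.abs_one, mul_one, abs_of_pos (by norm_num : (0 : ℝ) < 1 / 2)]
        simp only [e1]
        rw [integral_const_mul]
        have h1 := (t2' M).trans_lt hM2
        have h2 : κ ≤ η := (min_le_left _ _).trans (min_le_left _ _)
        have h3 : 0 ≤ ∫ t, |g' t - gM t| ∂μ := integral_nonneg fun t => abs_nonneg _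
        linarith
      have h4 := hui (fun t => fM t * R n t) v (hfMb.mul hRb).meas hvb.meas (fun t => by
        rw [abs_mul, h.abs_one, mul_one]; exact hfM1 t) hv1 hvi
      have e2 : igc p (fun t => g' t * R n t) x - igc p (fun t => gM t * R n t) x = 2 * igc p v x := by
        rw [igc_apply (hg'.mul hRb), igc_apply (hgMb.mul hRb), igc_apply hvb, ← integral_const_mul,
          ← integral_sub ((hg'.mul hRb).mul_integrable (integrable_coe x))
            ((hgMb.mul hRb).mul_integrable (integrable_coe x))]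
        refine integral_congr_ae (Eventually.of_forall fun t => ?_)
        simp only [hv]
        ring
      rw [e2, abs_mul, abs_two]
      linarith
    -- difference of the integrals
    have hint : ∀ {a b : ℝ → ℝ}, Bd a → Bd b → Integrable (fun t => a t * b t * w t) μ := fun ha hb =>
      (ha.mul hb).mul_integrable hw
    have s4 : |∫ t, fM t * gM t * w t ∂μ - ∫ t, f' t * g' t * w t ∂μ| ≤ ε / 4 := by
      have e1 : ∫ t, fM t * gM t * w t ∂μ - ∫ t, f' t * g' t * w t ∂μ =
          - (2 * ∫ t, w t * ((1 / 2) * ((f' t - fM t) * gM t)) ∂μ +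
            2 * ∫ t, w t * ((1 / 2) * (f' t * (g' t - gM t))) ∂μ) := by
        rw [← integral_const_mul, ← integral_const_mul, ← integral_add, ← integral_neg,
          ← integral_sub (hint hfMb hgMb) (hint hf' hg')]
        · refine integral_congr_ae (Eventually.of_forall fun t => ?_)
          simp only
          ring
        · refine Integrable.const_mul ?_ _
          exact ((((hf'.sub hfMb).mul hgMb).smul (1 / 2)).mul_integrable hw).congr
            (Eventually.of_forall fun t => mul_comm _ _)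
        · refine Integrable.const_mul ?_ _
          exact (((hf'.mul (hg'.sub hgMb)).smul (1 / 2)).mul_integrable hw).congr
            (Eventually.of_forall fun t => mul_comm _ _)
      have h1 : |∫ t, w t * ((1 / 2) * ((f' t - fM t) * gM t)) ∂μ| ≤ ε / 16 := by
        refine hsm _ (((hf'.sub hfMb).mul hgMb).smul (1 / 2)).meas (fun t => ?_) ?_
        · rw [abs_mul, abs_mul, abs_of_pos (by norm_num : (0 : ℝ) < 1 / 2)]
          have a1 := abs_sub (f' t) (fM t)
          have a2 := hf1 t; have a3 := hfM1 t; have a4 := hgM1 t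
          have a5 : |f' t - fM t| * |gM t| ≤ 2 * 1 :=
            mul_le_mul (by linarith) a4 (abs_nonneg _) (by norm_num)
          linarith
        · have h3 : ∫ t, |(1 / 2) * ((f' t - fM t) * gM t)| ∂μ ≤ ∫ t, |f' t - fM t| ∂μ := by
            refine integral_mono (((hf'.sub hfMb).mul hgMb).smul (1 / 2)).integrable.abs
              (hf'.sub hfMb).integrable.abs fun t => ?_
            show |(1 / 2) * ((f' t - fM t) * gM t)| ≤ |f' t - fM t|
            rw [abs_mul, abs_mul, abs_of_pos (by norm_num : (0 : ℝ) < 1 / 2)]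
            have a4 := hgM1 t
            have a6 := abs_nonneg (f' t - fM t)
            nlinarith [abs_nonneg (gM t)]
          have h4 := (t1' M).trans_lt hM1
          have h5 : κ ≤ η' := (min_le_left _ _).trans (min_le_right _ _)
          linarith
      have h2 : |∫ t, w t * ((1 / 2) * (f' t * (g' t - gM t))) ∂μ| ≤ ε / 16 := by
        refine hsm _ ((hf'.mul (hg'.sub hgMb)).smul (1 / 2)).meas (fun t => ?_) ?_
        · rw [abs_mul, abs_mul, abs_of_pos (by norm_num : (0 : ℝ) < 1 / 2)]
          have a1 := abs_sub (g' t) (gM t)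
          have a2 := hf1 t; have a3 := hgM1 t; have a4 := hg1 t
          have a5 : |f' t| * |g' t - gM t| ≤ 1 * 2 :=
            mul_le_mul a2 (by linarith) (abs_nonneg _) (by norm_num)
          linarith
        · have h3 : ∫ t, |(1 / 2) * (f' t * (g' t - gM t))| ∂μ ≤ ∫ t, |g' t - gM t| ∂μ := by
            refine integral_mono ((hf'.mul (hg'.sub hgMb)).smul (1 / 2)).integrable.abs
              (hg'.sub hgMb).integrable.abs fun t => ?_
            show |(1 / 2) * (f' t * (g' t - gM t))| ≤ |g' t - gM t|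
            rw [abs_mul, abs_mul, abs_of_pos (by norm_num : (0 : ℝ) < 1 / 2)]
            have a4 := hf1 t
            have a6 := abs_nonneg (g' t - gM t)
            nlinarith [abs_nonneg (f' t)]
          have h4 := (t2' M).trans_lt hM2
          have h5 : κ ≤ η' := (min_le_left _ _).trans (min_le_right _ _)
          linarith
      rw [e1, abs_neg]
      refine (abs_add_le _ _).trans ?_
      rw [abs_mul, abs_mul, abs_two]
      linarith
    rw [Real.dist_eq]
    have := abs_sub_le (igc p (fun t => g' t * R n t) (T (cl p (fun t => f' t * R n t))))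
      (igc p (fun t => g' t * R n t) (T (cl p (fun t => fM t * R n t)))) (∫ t, f' t * g' t * w t ∂μ)
    have h5 := abs_sub_le (igc p (fun t => g' t * R n t) (T (cl p (fun t => fM t * R n t))))
      (igc p (fun t => gM t * R n t) (T (cl p (fun t => fM t * R n t)))) (∫ t, f' t * g' t * w t ∂μ)
    have h6 := abs_sub_le (igc p (fun t => gM t * R n t) (T (cl p (fun t => fM t * R n t))))
      (∫ t, fM t * gM t * w t ∂μ) (∫ t, f' t * g' t * w t ∂μ)
    linarith
  have h2 := hmain.const_mul (B * D)
  have e0 : B * D * ∫ t, f' t * g' t * w t ∂μ = ∫ t, f t * g t * w t ∂μ := by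
    rw [← integral_const_mul]
    refine integral_congr_ae (Eventually.of_forall fun t => ?_)
    simp only [hff, hgg]; ring
  rw [e0] at h2
  refine h2.congr fun n => ?_
  have e1 : cl p (fun t => f t * R n t) = B • cl p (fun t => f' t * R n t) := by
    rw [← cl_smul _ ((hf'.mul (h.bd n)).memLp p)]
    congr 1
    ext t
    rw [hff]; ring
  rw [e1, map_smul, map_smul, smul_eq_mul, igc_apply (hg.mul (h.bd n)), igc_apply (hg'.mul (h.bd n)),
    mul_assoc, ← integral_const_mul]
  congr 1
  refine integral_congr_ae (Eventually.of_forall fun t => ?_)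
  simp only [hgg]; ring

end RSeq

end Pool.Agent.Helper89.Haar
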