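import Pool.Agent.Helper89.Haar.Stop

/-!
One random-sign stage (problem MP_e03f8f_an).
-/

set_option autoImplicit false
set_option linter.unusedSectionVars false
set_option linter.unnecessarySeqFocus false
set_option linter.unusedVariables false

open MeasureTheory Filter Topology Set
open scoped ENNReal NNReal

noncomputable section

namespace Pool.Agent.Helper89.Haar

/-- signed sum of Haar functions over cells, completed by 1 outside `[0,1)` -/
def RR (C : Finset (ℕ × ℕ)) (ε : ℕ × ℕ → ℝ) (t : ℝ) : ℝ :=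
  ∑ K ∈ C, ε K * hh K t + (Ico (0 : ℝ) 1)ᶜ.indicator (fun _ => 1) t

theorem meas_RR (C : Finset (ℕ × ℕ)) (ε : ℕ × ℕ → ℝ) : Measurable (RR C ε) :=
  (Bd.sum C (fun K _ => (Bd.const (ε K)).mul (bd_hh K))).meas.add
    (measurable_const.indicator measurableSet_Ico.compl)

theorem RR_in {C : Finset (ℕ × ℕ)} {ε : ℕ × ℕ → ℝ} {t : ℝ} (ht : t ∈ Ico (0 : ℝ) 1) :
    RR C ε t = ∑ K ∈ C, ε K * hh K t := by
  rw [RR, indicator_of_notMem (show t ∉ (Ico (0 : ℝ) 1)ᶜ from fun h => h ht), add_zero]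

theorem hh_zero {K : ℕ × ℕ} {t : ℝ} (h : t ∉ I K.1 K.2) : hh K t = 0 := by
  rw [hh, indicator_of_notMem h, mul_zero]

theorem RR_or {m : ℕ} {C : Finset (ℕ × ℕ)} (hC : Cells m C)
    (hcov : ∀ t ∈ Ico (0 : ℝ) 1, ∃ K ∈ C, t ∈ I K.1 K.2) {ε : ℕ × ℕ → ℝ}
    (hε : ∀ K, ε K = 1 ∨ ε K = -1) (t : ℝ) : RR C ε t = 1 ∨ RR C ε t = -1 := by
  by_cases ht : t ∈ Ico (0 : ℝ) 1
  · obtain ⟨K, hK, htK⟩ := hcov t ht
    rw [RR_in ht, sum_cells hC ε hK htK (fun K => hh K t) (fun L _ h => hh_zero h), hh,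
      indicator_of_mem htK, mul_one]
    rcases hε K with h | h <;> rcases rad_or (K.1 + 1) t with h' | h' <;> rw [h, h'] <;> norm_num
  · left
    rw [RR, indicator_of_mem (show t ∈ (Ico (0 : ℝ) 1)ᶜ from ht), Finset.sum_eq_zero, zero_add]
    intro K hK
    rw [hh_zero, mul_zero]
    exact fun h => ht (I_subset (hC.lt K hK) h)

theorem RR_St {N : ℕ} {C : Finset (ℕ × ℕ)} (hN : ∀ K ∈ C, K.1 ≤ N)
    (ε : ℕ × ℕ → ℝ) : St (N + 1) (RR C ε) := by
  obtain ⟨φ, hφ⟩ := St.sum (L := N + 1) C (f := fun K t => ε K * hh K t)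
    (fun K hK => (St.const _ (ε K)).mul ((St.hh K).mono (by have := hN K hK; omega)))
  exact ⟨φ, fun t ht => by rw [RR_in ht, ← hφ t ht]⟩

theorem RR_MZ {m : ℕ} {C : Finset (ℕ × ℕ)} (hC : Cells m C) (ε : ℕ × ℕ → ℝ) : MZ m (RR C ε) := by
  intro ψ
  have e : ∫ t, ψ (qq m t) * RR C ε t ∂μ = ∫ t, ∑ K ∈ C, ε K * (ψ (qq m t) * hh K t) ∂μ := by
    refine integral_congr_ae ?_
    filter_upwards [ae_mem] with t ht
    rw [RR_in ht, Finset.mul_sum]
    exact Finset.sum_congr rfl fun K _ => by ring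
  rw [e, integral_finsetSum]
  · refine Finset.sum_eq_zero fun K hK => ?_
    rw [integral_const_mul, MZ.hh (hC.lev K hK) ψ, mul_zero]
  · intro K _
    refine Integrable.const_mul ?_ _
    have := (bd_hh K).mul_integrable (integrable_floor m ψ)
    refine this.congr (Eventually.of_forall fun t => mul_comm _ _)

/-- index of the ancestor of level `n` -/
def pj (n : ℕ) (K : ℕ × ℕ) : ℕ := K.2 / 2 ^ (K.1 - n)

theorem ind_hh {n j : ℕ} {K : ℕ × ℕ} (hn : n ≤ K.1) {t : ℝ} (ht : t ∈ Ico (0 : ℝ) 1) :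
    (I n j).indicator (fun _ => (1 : ℝ)) t * hh K t = if pj n K = j then hh K t else 0 := by
  by_cases h : t ∈ I K.1 K.2
  · have h1 : qq n t = pj n K := by rw [pj, qq_le' hn, (mem_I' ht).1 h]
    by_cases h2 : pj n K = j
    · rw [if_pos h2, indicator_of_mem ((mem_I' ht).2 (h1.trans h2)), one_mul]
    · rw [if_neg h2, indicator_of_notMem (fun h' => h2 (h1.symm.trans ((mem_I' ht).1 h'))), zero_mul]
  · rw [hh_zero h]; simp

theorem ind_RR {n m j : ℕ} (hnm : n ≤ m) {C : Finset (ℕ × ℕ)} (hC : Cells m C) {ε : ℕ × ℕ → ℝ} {t : ℝ}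
    (ht : t ∈ Ico (0 : ℝ) 1) :
    (I n j).indicator (fun _ => (1 : ℝ)) t * RR C ε t =
      ∑ K ∈ C, (if pj n K = j then ε K else 0) * hh K t := by
  rw [RR_in ht, Finset.mul_sum]
  refine Finset.sum_congr rfl fun K hK => ?_
  have := ind_hh (j := j) (hnm.trans (hC.lev K hK)) ht
  calc _ = ε K * ((I n j).indicator (fun _ => (1 : ℝ)) t * hh K t) := by ring
    _ = _ := by rw [this]; split_ifs <;> ring

variable {p : ℝ≥0∞} [hp1 : Fact (1 ≤ p)]

theorem igc_congr {g g' : ℝ → ℝ} (hg : Bd g) (hg' : Bd g') (h : ∀ t ∈ Ico (0 : ℝ) 1, g t = g' t) (f : LL p) :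
    igc p g f = igc p g' f := by
  rw [igc_apply hg, igc_apply hg']
  refine integral_congr_ae ?_
  filter_upwards [ae_mem] with t ht
  rw [h t ht]

theorem cl_congr' {f g : ℝ → ℝ} (hf : MemLp f p μ) (h : ∀ t ∈ Ico (0 : ℝ) 1, f t = g t) :
    cl p f = cl p g := by
  refine cl_congr hf ?_
  filter_upwards [ae_mem] with t ht
  exact h t ht

theorem igc_sum {ι : Type*} (s : Finset ι) {g : ι → ℝ → ℝ} (hg : ∀ i ∈ s, Bd (g i)) (c : ι → ℝ) (f : LL p) :
    igc p (fun t => ∑ i ∈ s, c i * g i t) f = ∑ i ∈ s, c i * igc p (g i) f := by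
  rw [igc_apply (Bd.sum s fun i hi => (Bd.const (c i)).mul (hg i hi))]
  have : ∀ t, (∑ i ∈ s, c i * g i t) * f t = ∑ i ∈ s, c i * (g i t * f t) := by
    intro t
    rw [Finset.sum_mul]
    exact Finset.sum_congr rfl fun i _ => by ring
  simp only [this]
  rw [integral_finsetSum]
  · refine Finset.sum_congr rfl fun i hi => ?_
    rw [integral_const_mul, igc_apply (hg i hi)]
  · intro i hi
    exact ((hg i hi).mul_integrable (integrable_coe f)).const_mul _

/-- indicator of a dyadic interval -/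
def J (n j : ℕ) : ℝ → ℝ := (I n j).indicator (fun _ => 1)

theorem bd_J (n j : ℕ) : Bd (J n j) := Bd.ind (meas_I n j)

theorem bd_RR {m : ℕ} {C : Finset (ℕ × ℕ)} (hC : Cells m C)
    (hcov : ∀ t ∈ Ico (0 : ℝ) 1, ∃ K ∈ C, t ∈ I K.1 K.2) {ε : ℕ × ℕ → ℝ}
    (hε : ∀ K, ε K = 1 ∨ ε K = -1) : Bd (RR C ε) :=
  ⟨meas_RR C ε, 1, fun t => by rcases RR_or hC hcov hε t with h | h <;> rw [h] <;> simp⟩

theorem stage_eval (T : LL p →L[ℝ] LL p) {n m : ℕ} (hnm : n ≤ m) {C : Finset (ℕ × ℕ)} (hC : Cells m C)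
    (hcov : ∀ t ∈ Ico (0 : ℝ) 1, ∃ K ∈ C, t ∈ I K.1 K.2) {ε : ℕ × ℕ → ℝ}
    (hε : ∀ K, ε K = 1 ∨ ε K = -1) (j j' : ℕ) :
    igc p (fun t => J n j' t * RR C ε t) (T (cl p (fun t => J n j t * RR C ε t))) =
      ∑ K ∈ C, ∑ K' ∈ C, (if pj n K = j then ε K else 0) * ((if pj n K' = j' then ε K' else 0) *
        xx T K K') := by
  have hR := bd_RR hC hcov hε
  have hb : ∀ K ∈ C, Bd (hh K) := fun K _ => bd_hh K
  rw [igc_congr (g' := fun t => ∑ K ∈ C, (if pj n K = j' then ε K else 0) * hh K t)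
    ((bd_J n j').mul hR) (Bd.sum C fun K hK => (Bd.const _).mul (hb K hK))
    (fun t ht => ind_RR hnm hC ht), igc_sum C hb]
  rw [cl_congr' (((bd_J n j).mul hR).memLp p) (fun t ht => ind_RR hnm hC ht),
    cl_sum _ (fun K _ => ((bd_hh K).memLp p).const_mul _)]
  rw [Finset.sum_comm]
  refine Finset.sum_congr rfl fun K' _ => ?_
  rw [map_sum, map_sum, Finset.mul_sum]
  refine Finset.sum_congr rfl fun K _ => ?_
  rw [cl_smul _ ((bd_hh K).memLp p), map_smul, map_smul, smul_eq_mul]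
  show _ * (_ * xx T K K') = _
  ring

/-- diagonal function of a family of cells -/
def th (T : LL p →L[ℝ] LL p) (C : Finset (ℕ × ℕ)) (t : ℝ) : ℝ :=
  ∑ K ∈ C, (xx T K K / sz K) * (I K.1 K.2).indicator (fun _ => 1) t

theorem bd_th (T : LL p →L[ℝ] LL p) (C : Finset (ℕ × ℕ)) : Bd (th T C) :=
  Bd.sum C fun K _ => (Bd.const _).mul (Bd.ind (meas_I _ _))

theorem int_th (T : LL p →L[ℝ] LL p) {n m : ℕ} (hnm : n ≤ m) {C : Finset (ℕ × ℕ)} (hC : Cells m C)
    (j : ℕ) : ∫ t, J n j t * th T C t ∂μ = ∑ K ∈ C, if pj n K = j then xx T K K else 0 := by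
  have e : ∫ t, J n j t * th T C t ∂μ =
      ∫ t, ∑ K ∈ C, (if pj n K = j then xx T K K / sz K else 0) * (I K.1 K.2).indicator (fun _ => 1) t ∂μ := by
    refine integral_congr_ae ?_
    filter_upwards [ae_mem] with t ht
    rw [th, Finset.mul_sum]
    refine Finset.sum_congr rfl fun K hK => ?_
    by_cases h : t ∈ I K.1 K.2
    · have h1 : qq n t = pj n K := by rw [pj, qq_le' (hnm.trans (hC.lev K hK)), (mem_I' ht).1 h]
      rw [indicator_of_mem h]
      by_cases h2 : pj n K = j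
      · rw [if_pos h2, J, indicator_of_mem ((mem_I' ht).2 (h1.trans h2)), one_mul]
      · rw [if_neg h2, J, indicator_of_notMem (fun h' => h2 (h1.symm.trans ((mem_I' ht).1 h')))]
        ring
    · rw [indicator_of_notMem h]; ring
  rw [e, integral_finsetSum]
  · refine Finset.sum_congr rfl fun K hK => ?_
    rw [integral_const_mul, integral_indicator (meas_I _ _), setIntegral_const,
      real_mu_I (hC.lt K hK), smul_eq_mul, mul_one]
    split_ifs
    · exact div_mul_cancel₀ _ (sz_pos K).ne'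
    · rw [zero_mul]
  · intro K _
    exact (Bd.ind (meas_I _ _)).integrable.const_mul _

theorem stage (hp : p ≠ ∞) (T : LL p →L[ℝ] LL p) {n m N : ℕ} (hnm : n ≤ m) {C : Finset (ℕ × ℕ)}
    (hC : Cells m C) (hN : ∀ K ∈ C, K.1 ≤ N)
    (hcov : ∀ t ∈ Ico (0 : ℝ) 1, ∃ K ∈ C, t ∈ I K.1 K.2) :
    ∃ R : ℝ → ℝ, Measurable R ∧ (∀ t, R t = 1 ∨ R t = -1) ∧ St (N + 1) R ∧ MZ m R ∧
      ∀ j < 2 ^ n, ∀ j' < 2 ^ n,
        (igc p (fun t => J n j' t * R t) (T (cl p (fun t => J n j t * R t))) -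
          if j = j' then ∫ t, J n j t * th T C t ∂μ else 0) ^ 2 ≤
            2 * (‖T‖ ^ 2 * (((2 : ℝ) ^ m)⁻¹) ^ (1 / 2 : ℝ)) := by
  classical
  let ι := {K // K ∈ C}
  let y : (Fin (2 ^ n) × Fin (2 ^ n)) → ι × ι → ℝ := fun c a =>
    if a.1 = a.2 then 0 else if pj n a.1 = c.1 ∧ pj n a.2 = c.2 then xx T a.1 a.2 else 0
  obtain ⟨e, he⟩ := exists_signs y (fun c i => by simp [y])
  have hsum : ∑ c, ∑ a, (y c a) ^ 2 ≤ ‖T‖ ^ 2 * (((2 : ℝ) ^ m)⁻¹) ^ (1 / 2 : ℝ) := by
    rw [Finset.sum_comm]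
    calc ∑ a : ι × ι, ∑ c, (y c a) ^ 2 ≤ ∑ a : ι × ι, xx T a.1 a.2 ^ 2 := by
          refine Finset.sum_le_sum fun a _ => ?_
          calc ∑ c, (y c a) ^ 2 ≤ ∑ c : Fin (2 ^ n) × Fin (2 ^ n),
                if pj n a.1 = c.1 ∧ pj n a.2 = c.2 then xx T a.1 a.2 ^ 2 else 0 := by
                refine Finset.sum_le_sum fun c _ => ?_
                simp only [y]
                split_ifs <;> simp [sq_nonneg]
            _ ≤ xx T a.1 a.2 ^ 2 := by
                rw [← Finset.sum_filter, Finset.sum_const]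
                have hcard : (Finset.univ.filter fun c : Fin (2 ^ n) × Fin (2 ^ n) =>
                    pj n a.1 = c.1 ∧ pj n a.2 = c.2).card ≤ 1 := by
                  refine Finset.card_le_one.2 fun c hc d hd => ?_
                  simp only [Finset.mem_filter, Finset.mem_univ, true_and] at hc hd
                  exact Prod.ext (Fin.ext (hc.1.symm.trans hd.1)) (Fin.ext (hc.2.symm.trans hd.2))
                rw [nsmul_eq_mul]
                refine mul_le_of_le_one_left (sq_nonneg _) ?_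
                exact_mod_cast hcard
      _ = ∑ K ∈ C, ∑ K' ∈ C, xx T K K' ^ 2 := by
          rw [Fintype.sum_prod_type, ← Finset.sum_attach C]
          refine Finset.sum_congr rfl fun K _ => ?_
          rw [← Finset.sum_attach C]
          rfl
      _ ≤ _ := sum_xx_sq hp T hC
  let ε : ℕ × ℕ → ℝ := fun K => if h : K ∈ C then sg (e ⟨K, h⟩) else 1
  have hε : ∀ K, ε K = 1 ∨ ε K = -1 := by
    intro K
    simp only [ε]
    split_ifs
    · exact sg_or _
    · exact Or.inl rfl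
  refine ⟨RR C ε, meas_RR C ε, RR_or hC hcov hε, RR_St hN ε, RR_MZ hC ε, fun j hj j' hj' => ?_⟩
  have key : igc p (fun t => J n j' t * RR C ε t) (T (cl p (fun t => J n j t * RR C ε t))) -
      (if j = j' then ∫ t, J n j t * th T C t ∂μ else 0) = Qf (y (⟨j, hj⟩, ⟨j', hj'⟩)) e := by
    rw [stage_eval T hnm hC hcov hε, int_th T hnm hC, Qf, Fintype.sum_prod_type]
    have e1 : (if j = j' then ∑ K ∈ C, (if pj n K = j then xx T K K else 0) else 0) =
        ∑ K ∈ C, ∑ K' ∈ C, if K = K' then (if pj n K = j then ε K else 0) *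
          ((if pj n K' = j' then ε K' else 0) * xx T K K') else 0 := by
      by_cases hjj : j = j'
      · rw [if_pos hjj]
        refine Finset.sum_congr rfl fun K hK => ?_
        rw [Finset.sum_ite_eq C K, if_pos hK, ← hjj]
        split_ifs
        · rcases hε K with h | h <;> rw [h] <;> ring
        · ring
      · rw [if_neg hjj]
        symm
        refine Finset.sum_eq_zero fun K hK => ?_
        rw [Finset.sum_ite_eq C K, if_pos hK]
        by_cases h1 : pj n K = j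
        · rw [if_neg (fun h2 : pj n K = j' => hjj (h1.symm.trans h2))]; ring
        · rw [if_neg h1]; ring
    rw [e1, ← Finset.sum_sub_distrib, ← Finset.sum_attach C]
    refine Finset.sum_congr rfl fun K _ => ?_
    rw [← Finset.sum_sub_distrib, ← Finset.sum_attach C]
    refine Finset.sum_congr rfl fun K' _ => ?_
    have h1 : ε K = sg (e K) := by simp [ε]
    have h2 : ε K' = sg (e K') := by simp [ε]
    by_cases hKK : K = K'
    · subst hKK
      simp [y]
    · have hKK' : (K : ℕ × ℕ) ≠ K' := fun h => hKK (Subtype.ext h)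
      simp only [y, if_neg hKK, if_neg hKK', sub_zero, h1, h2]
      by_cases h3 : pj n K = j <;> by_cases h4 : pj n K' = j' <;> simp [h3, h4] <;> ring
  rw [key]
  calc Qf (y (⟨j, hj⟩, ⟨j', hj'⟩)) e ^ 2 ≤ ∑ c, Qf (y c) e ^ 2 :=
        Finset.single_le_sum (f := fun c => Qf (y c) e ^ 2) (fun _ _ => sq_nonneg _) (Finset.mem_univ _)
    _ ≤ 2 * ∑ c, ∑ a, (y c a) ^ 2 := he
    _ ≤ _ := by gcongr

end Pool.Agent.Helper89.Haar
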