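import Pool.Agent.Helper89.Haar.Cells

/-!
Stopping-time partitions and one random-sign stage (problem MP_e03f8f_an).
-/

set_option autoImplicit false
set_option linter.unusedSectionVars false

open MeasureTheory Filter Topology Set
open scoped ENNReal NNReal

noncomputable section

namespace Pool.Agent.Helper89.Haar

theorem qq_le (n d : ℕ) (t : ℝ) : qq n t = qq (n + d) t / 2 ^ d := by
  induction d with
  | zero => simp
  | succ d ih =>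
    rw [ih, ← add_assoc, qq_succ (n + d), Nat.div_div_eq_div_mul, pow_succ, mul_comm 2]

theorem qq_le' {n m : ℕ} (h : n ≤ m) (t : ℝ) : qq n t = qq m t / 2 ^ (m - n) := by
  have := qq_le n (m - n) t
  rwa [Nat.add_sub_cancel' h] at this

theorem mem_I' {n k : ℕ} {t : ℝ} (ht : t ∈ Ico (0 : ℝ) 1) : t ∈ I n k ↔ qq n t = k := mem_I_iff ht.1

/-- step function of level `L` -/
def St (L : ℕ) (f : ℝ → ℝ) : Prop := ∃ φ : ℕ → ℝ, ∀ t ∈ Ico (0 : ℝ) 1, f t = φ (qq L t)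

theorem St.mono {L L' : ℕ} (h : L ≤ L') {f : ℝ → ℝ} (hf : St L f) : St L' f := by
  obtain ⟨φ, hφ⟩ := hf
  exact ⟨fun q => φ (q / 2 ^ (L' - L)), fun t ht => by rw [hφ t ht, qq_le' h]⟩

theorem St.mul {L : ℕ} {f g : ℝ → ℝ} (hf : St L f) (hg : St L g) : St L (fun t => f t * g t) := by
  obtain ⟨φ, hφ⟩ := hf
  obtain ⟨ψ, hψ⟩ := hg
  exact ⟨fun q => φ q * ψ q, fun t ht => by simp only [hφ t ht, hψ t ht]⟩

theorem St.sum {ι : Type*} {L : ℕ} (s : Finset ι) {f : ι → ℝ → ℝ} (hf : ∀ i ∈ s, St L (f i)) :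
    St L (fun t => ∑ i ∈ s, f i t) := by
  classical
  have : ∀ i, ∃ φ : ℕ → ℝ, i ∈ s → ∀ t ∈ Ico (0 : ℝ) 1, f i t = φ (qq L t) := by
    intro i
    by_cases hi : i ∈ s
    · obtain ⟨φ, hφ⟩ := hf i hi
      exact ⟨φ, fun _ => hφ⟩
    · exact ⟨0, fun h => absurd h hi⟩
  choose φ hφ using this
  exact ⟨fun q => ∑ i ∈ s, φ i q, fun t ht => Finset.sum_congr rfl fun i hi => hφ i hi t ht⟩

theorem St.const (L : ℕ) (c : ℝ) : St L (fun _ => c) := ⟨fun _ => c, fun _ _ => rfl⟩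

theorem St.hh (K : ℕ × ℕ) : St (K.1 + 1) (hh K) := by
  refine ⟨fun q => if q / 2 = K.2 then (if q % 2 = 0 then 1 else -1) else 0, fun t ht => ?_⟩
  rw [Haar.hh, rad]
  dsimp only
  rw [← qq_succ]
  by_cases h : qq K.1 t = K.2
  · rw [indicator_of_mem ((mem_I' ht).2 h), if_pos h, mul_one]
  · rw [indicator_of_notMem (fun h' => h ((mem_I' ht).1 h')), if_neg h, mul_zero]

/-- zero averages on all cells of level `m` -/
def MZ (m : ℕ) (f : ℝ → ℝ) : Prop := ∀ ψ : ℕ → ℝ, ∫ t, ψ (qq m t) * f t ∂μ = 0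

theorem MZ.hh {m : ℕ} {K : ℕ × ℕ} (h : m ≤ K.1) : MZ m (hh K) := by
  intro ψ
  set φ : ℕ → ℝ := fun q => if q / 2 = K.2 then
      ψ (K.2 / 2 ^ (K.1 - m)) * (if q % 2 = 0 then 1 else -1) else 0 with hφ
  have e : ∫ t, ψ (qq m t) * Haar.hh K t ∂μ = ∫ t, φ (qq (K.1 + 1) t) ∂μ := by
    refine integral_congr_ae ?_
    filter_upwards [ae_mem] with t ht
    rw [Haar.hh, rad, hφ]
    dsimp only
    rw [← qq_succ]
    by_cases h' : qq K.1 t = K.2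
    · rw [indicator_of_mem ((mem_I' ht).2 h'), if_pos h', mul_one, qq_le' h, h']
    · rw [indicator_of_notMem (fun h'' => h' ((mem_I' ht).1 h'')), if_neg h', mul_zero, mul_zero]
  rw [e, int_floor, pow_succ 2 K.1, mul_comm (2 ^ K.1) 2, sum_even_odd]
  refine Finset.sum_eq_zero fun k _ => ?_
  rw [hφ]
  have h1 : (2 * k) / 2 = k := by omega
  have h2 : (2 * k + 1) / 2 = k := by omega
  have h3 : (2 * k) % 2 = 0 := by omega
  have h4 : (2 * k + 1) % 2 = 1 := by omega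
  simp only [h1, h2, h3, h4]
  split_ifs <;> simp_all

/-- the cells of the stopping time -/
def CC (pos : ℕ → ℕ → Prop) (m N : ℕ) : Finset (ℕ × ℕ) :=
  open Classical in
  ((Finset.range (N + 1)).sigma fun n => Finset.range (2 ^ n)).map
    ⟨fun x => (x.1, x.2), fun x y h => by
      rcases x with ⟨a, b⟩; rcases y with ⟨c, d⟩; simp only [Prod.mk.injEq] at h
      obtain ⟨rfl, rfl⟩ := h; rfl⟩ |>.filter
    fun K => m ≤ K.1 ∧ (pos K.1 K.2 ∨ K.1 = N) ∧ ∀ n' < K.1, m ≤ n' → ¬ pos n' (K.2 / 2 ^ (K.1 - n'))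

theorem mem_CC {pos : ℕ → ℕ → Prop} {m N : ℕ} {K : ℕ × ℕ} : K ∈ CC pos m N ↔
    K.1 ≤ N ∧ K.2 < 2 ^ K.1 ∧ m ≤ K.1 ∧ (pos K.1 K.2 ∨ K.1 = N) ∧
      ∀ n' < K.1, m ≤ n' → ¬ pos n' (K.2 / 2 ^ (K.1 - n')) := by
  classical
  rw [CC, Finset.mem_filter, Finset.mem_map]
  constructor
  · rintro ⟨⟨⟨a, b⟩, h, rfl⟩, h2⟩
    simp only [Finset.mem_sigma, Finset.mem_range, Nat.lt_succ_iff] at h
    exact ⟨h.1, h.2, h2⟩
  · rintro ⟨h1, h2, h3⟩
    exact ⟨⟨⟨K.1, K.2⟩, by simp [Finset.mem_sigma, h1, h2], rfl⟩, h3⟩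

theorem cells_CC (pos : ℕ → ℕ → Prop) (m N : ℕ) : Cells m (CC pos m N) := by
  refine ⟨fun K hK => (mem_CC.1 hK).2.2.1, fun K hK => (mem_CC.1 hK).2.1, ?_⟩
  have key : ∀ K ∈ CC pos m N, ∀ L ∈ CC pos m N, K.1 < L.1 → Disjoint (I K.1 K.2) (I L.1 L.2) := by
    intro K hK L hL hlt
    rw [Set.disjoint_left]
    intro t h1 h2
    have h0 := I_nonneg h1
    obtain ⟨hL1, -, -, -, hL5⟩ := mem_CC.1 hL
    obtain ⟨-, -, hK3, hK4, -⟩ := mem_CC.1 hK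
    have e1 : qq K.1 t = K.2 := (mem_I_iff h0).1 h1
    have e2 : qq L.1 t = L.2 := (mem_I_iff h0).1 h2
    have e3 := hL5 K.1 hlt hK3
    rw [← e2, ← qq_le' hlt.le, e1] at e3
    rcases hK4 with h | h
    · exact e3 h
    · omega
  intro K hK L hL hne
  rcases lt_trichotomy K.1 L.1 with h | h | h
  · exact key K hK L hL h
  · rw [h]
    refine disj_I fun h2 => hne (Prod.ext h h2)
  · exact (key L hL K hK h).symm

theorem exists_cell (pos : ℕ → ℕ → Prop) {m N : ℕ} (hmN : m ≤ N) {t : ℝ} (ht : t ∈ Ico (0 : ℝ) 1) :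
    ∃ K ∈ CC pos m N, t ∈ I K.1 K.2 := by
  classical
  have hex : ∃ n, m ≤ n ∧ (pos n (qq n t) ∨ n = N) := ⟨N, hmN, Or.inr rfl⟩
  set n := Nat.find hex with hn
  obtain ⟨h1, h2⟩ := Nat.find_spec hex
  have h3 : n ≤ N := Nat.find_min' hex ⟨hmN, Or.inr rfl⟩
  refine ⟨(n, qq n t), mem_CC.2 ⟨h3, floor_lt ht, h1, h2, ?_⟩, (mem_I' ht).2 rfl⟩
  intro n' hn' hm
  have := Nat.find_min hex hn'
  simp only [not_and, not_or] at this
  rw [← qq_le' hn'.le]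
  exact (this hm).1

/-- sum over cells evaluated at a point -/
theorem sum_cells {m : ℕ} {C : Finset (ℕ × ℕ)} (hC : Cells m C) (c : ℕ × ℕ → ℝ) {K : ℕ × ℕ}
    (hK : K ∈ C) {t : ℝ} (ht : t ∈ I K.1 K.2) (g : ℕ × ℕ → ℝ)
    (hg : ∀ L ∈ C, t ∉ I L.1 L.2 → g L = 0) : ∑ L ∈ C, c L * g L = c K * g K := by
  refine Finset.sum_eq_single_of_mem K hK fun L hL hLK => ?_
  have : t ∉ I L.1 L.2 := fun h' => (Set.disjoint_left.1 (hC.disj L hL K hK hLK)) h' ht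
  rw [hg L hL this, mul_zero]

end Pool.Agent.Helper89.Haar
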