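import Pool.Agent.Helper89.Haar.Gamma

/-!
Systems of disjoint functions.
-/

set_option autoImplicit false
set_option linter.unusedSectionVars false

open MeasureTheory Filter Topology Set
open scoped ENNReal NNReal

noncomputable section

namespace Pool.Agent.Helper89.Haar

theorem lpq {p q : ℝ} (hp : 1 ≤ p) (hq : 1 ≤ q) {N : ℕ} (x : Fin N → ℝ) (hx : ∀ a, 0 ≤ x a) :
    (∑ a, x a ^ q) ^ (1 / q) ≤ (N : ℝ) ^ |1 / p - 1 / q| * (∑ a, x a ^ p) ^ (1 / p) := by
  have hp0 : 0 < p := by linarith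
  have hq0 : 0 < q := by linarith
  have hsp : 0 ≤ ∑ a, x a ^ p := Finset.sum_nonneg fun a _ => Real.rpow_nonneg (hx a) _
  have hsq : 0 ≤ ∑ a, x a ^ q := Finset.sum_nonneg fun a _ => Real.rpow_nonneg (hx a) _
  rcases Nat.eq_zero_or_pos N with hN | hN
  · subst hN
    have : (1 / q) ≠ 0 := by positivity
    simp only [Finset.univ_eq_empty, Finset.sum_empty]
    rw [Real.zero_rpow this]
    positivity
  have hN1 : (1 : ℝ) ≤ N := by exact_mod_cast hN
  rcases le_or_gt p q with h | h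
  · have h1 : (∑ a, x a ^ q) ^ (1 / q) ≤ (∑ a, x a ^ p) ^ (1 / p) := by
      set A := (∑ a, x a ^ p) ^ (1 / p) with hA
      have hA0 : 0 ≤ A := Real.rpow_nonneg hsp _
      have hAp : A ^ p = ∑ a, x a ^ p := by
        rw [hA, ← Real.rpow_mul hsp, one_div, inv_mul_cancel₀ hp0.ne', Real.rpow_one]
      have hxA : ∀ a, x a ≤ A := by
        intro a
        have : x a ^ p ≤ A ^ p := by
          rw [hAp]
          exact Finset.single_le_sum (f := fun a => x a ^ p) (fun b _ => Real.rpow_nonneg (hx b) _) (Finset.mem_univ a)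
        exact (Real.rpow_le_rpow_iff (hx a) hA0 hp0).1 this
      have h2 : ∑ a, x a ^ q ≤ A ^ q := by
        calc ∑ a, x a ^ q ≤ ∑ a, x a ^ p * A ^ (q - p) := by
              refine Finset.sum_le_sum fun a _ => ?_
              have e : x a ^ q = x a ^ p * x a ^ (q - p) := by
                rw [← Real.rpow_add_of_nonneg (hx a) hp0.le (by linarith)]; congr 1; ring
              rw [e]
              exact mul_le_mul_of_nonneg_left (Real.rpow_le_rpow (hx a) (hxA a) (by linarith))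
                (Real.rpow_nonneg (hx a) _)
          _ = A ^ p * A ^ (q - p) := by rw [← Finset.sum_mul, hAp]
          _ = A ^ q := by
              rw [← Real.rpow_add_of_nonneg hA0 hp0.le (by linarith)]; congr 1; ring
      calc (∑ a, x a ^ q) ^ (1 / q) ≤ (A ^ q) ^ (1 / q) := Real.rpow_le_rpow hsq h2 (by positivity)
        _ = A := by rw [← Real.rpow_mul hA0, mul_one_div, div_self hq0.ne', Real.rpow_one]
    refine h1.trans ?_
    have h3 : (1 : ℝ) ≤ (N : ℝ) ^ |1 / p - 1 / q| := Real.one_le_rpow hN1 (abs_nonneg _)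
    calc (∑ a, x a ^ p) ^ (1 / p) = 1 * (∑ a, x a ^ p) ^ (1 / p) := (one_mul _).symm
      _ ≤ _ := mul_le_mul_of_nonneg_right h3 (Real.rpow_nonneg hsp _)
  · have hN0 : (0 : ℝ) < N := by linarith
    have h1 := Real.rpow_arith_mean_le_arith_mean_rpow Finset.univ (fun _ : Fin N => (N : ℝ)⁻¹)
      (fun a => x a ^ q) (fun a _ => by positivity) (by simp [hN0.ne'])
      (fun a _ => Real.rpow_nonneg (hx a) _) (p := p / q) ((one_le_div hq0).2 h.le)
    rw [← Finset.mul_sum, ← Finset.mul_sum] at h1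
    have e1 : ∑ a, (x a ^ q) ^ (p / q) = ∑ a, x a ^ p := by
      refine Finset.sum_congr rfl fun a _ => ?_
      rw [← Real.rpow_mul (hx a)]; congr 1; field_simp
    rw [e1] at h1
    -- take power `1/p`
    have h2 := Real.rpow_le_rpow (Real.rpow_nonneg (mul_nonneg (by positivity) hsq) _) h1 (z := 1 / p) (by positivity)
    rw [← Real.rpow_mul (mul_nonneg (by positivity) hsq)] at h2
    have e2 : p / q * (1 / p) = 1 / q := by field_simp
    rw [e2, Real.mul_rpow (by positivity) hsq, Real.mul_rpow (by positivity) hsp] at h2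
    have e3 : |1 / p - 1 / q| = 1 / q - 1 / p := by
      rw [abs_sub_comm, abs_of_nonneg]
      have : 1 / p ≤ 1 / q := one_div_le_one_div_of_le hq0 h.le
      linarith
    rw [e3, Real.rpow_sub hN0]
    rw [Real.inv_rpow hN0.le, Real.inv_rpow hN0.le] at h2
    have hNq : 0 < (N : ℝ) ^ (1 / q) := Real.rpow_pos_of_pos hN0 _
    calc (∑ a, x a ^ q) ^ (1 / q) = (N : ℝ) ^ (1 / q) * (((N : ℝ) ^ (1 / q))⁻¹ * (∑ a, x a ^ q) ^ (1 / q)) := by
          rw [← mul_assoc, mul_inv_cancel₀ hNq.ne', one_mul]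
      _ ≤ (N : ℝ) ^ (1 / q) * (((N : ℝ) ^ (1 / p))⁻¹ * (∑ a, x a ^ p) ^ (1 / p)) :=
          mul_le_mul_of_nonneg_left h2 hNq.le
      _ = _ := by rw [div_eq_mul_inv ((N : ℝ) ^ (1 / q)), mul_assoc]

variable {p : ℝ≥0∞} [hp1 : Fact (1 ≤ p)]

theorem norm_rpow (hp : p ≠ ∞) (f : LL p) : ‖f‖ ^ p.toReal = ∫ t, |f t| ^ p.toReal ∂μ := by
  have h0 : p ≠ 0 := (lt_of_lt_of_le one_pos hp1.out).ne'
  have h1 : 0 < p.toReal := lt_of_lt_of_le one_pos (toReal_one_le hp)
  have h2 : 0 ≤ ∫ t, ‖f t‖ ^ p.toReal ∂μ := integral_nonneg fun t => Real.rpow_nonneg (norm_nonneg _) _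
  rw [Lp.norm_def, (Lp.memLp f).eLpNorm_eq_integral_rpow_norm h0 hp,
    ENNReal.toReal_ofReal (Real.rpow_nonneg h2 _), ← Real.rpow_mul h2, inv_mul_cancel₀ h1.ne', Real.rpow_one]
  rfl

theorem int_rpow (hp : p ≠ ∞) (f : LL p) : Integrable (fun t => |f t| ^ p.toReal) μ := by
  have h0 : p ≠ 0 := (lt_of_lt_of_le one_pos hp1.out).ne'
  exact (Lp.memLp f).integrable_norm_rpow h0 hp

/-- restriction to a set -/
def rs (p : ℝ≥0∞) [Fact (1 ≤ p)] (E : Set ℝ) : LL p →L[ℝ] LL p :=
  open Classical in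
  if hE : MeasurableSet E then
    LinearMap.mkContinuous
      { toFun := fun f => cl p (E.indicator f)
        map_add' := fun f g => by
          rw [← cl_add ((Lp.memLp f).indicator hE) ((Lp.memLp g).indicator hE)]
          refine cl_congr ((Lp.memLp (f + g)).indicator hE) ?_
          filter_upwards [Lp.coeFn_add f g] with t ht
          by_cases h : t ∈ E
          · rw [indicator_of_mem h, indicator_of_mem h, indicator_of_mem h]; exact ht
          · rw [indicator_of_notMem h, indicator_of_notMem h, indicator_of_notMem h, add_zero]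
        map_smul' := fun c f => by
          rw [RingHom.id_apply, ← cl_smul c ((Lp.memLp f).indicator hE)]
          refine cl_congr ((Lp.memLp (c • f)).indicator hE) ?_
          filter_upwards [Lp.coeFn_smul c f] with t ht
          by_cases h : t ∈ E
          · rw [indicator_of_mem h, indicator_of_mem h]; exact ht
          · rw [indicator_of_notMem h, indicator_of_notMem h, mul_zero] } 1 fun f => by
        rw [one_mul]
        refine Lp.norm_le_norm_of_ae_le ?_
        filter_upwards [coe_cl ((Lp.memLp f).indicator hE)] with t ht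
        show ‖(cl p (E.indicator f) : ℝ → ℝ) t‖ ≤ _
        rw [ht]
        by_cases h : t ∈ E <;> simp [h]
  else 0

theorem rs_apply {E : Set ℝ} (hE : MeasurableSet E) (f : LL p) : rs p E f = cl p (E.indicator f) := by
  simp only [rs, dif_pos hE]
  rfl

theorem rs_ae {E : Set ℝ} (hE : MeasurableSet E) (f : LL p) : (rs p E f : ℝ → ℝ) =ᵐ[μ] E.indicator f := by
  rw [rs_apply hE]
  exact coe_cl ((Lp.memLp f).indicator hE)

theorem rs_rs {E F : Set ℝ} (hE : MeasurableSet E) (hF : MeasurableSet F) (f : LL p) :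
    rs p E (rs p F f) = rs p (E ∩ F) f := by
  rw [rs_apply hE, rs_apply (hE.inter hF)]
  refine cl_congr ((Lp.memLp _).indicator hE) ?_
  filter_upwards [rs_ae hF f] with t ht
  by_cases h : t ∈ E <;> by_cases h' : t ∈ F <;> simp [h, h', ht]

theorem rs_empty (f : LL p) : rs p ∅ f = 0 := by
  rw [rs_apply MeasurableSet.empty]
  simp only [indicator_empty]
  exact cl_zero

theorem sum_ind_le {N : ℕ} {E : Fin N → Set ℝ} (hd : ∀ a b, a ≠ b → Disjoint (E a) (E b)) (x : ℝ) (hx : 0 ≤ x)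
    (t : ℝ) : ∑ a, (E a).indicator (fun _ => x) t ≤ x := by
  by_cases h : ∃ a, t ∈ E a
  · obtain ⟨a, ha⟩ := h
    rw [Finset.sum_eq_single a]
    · rw [indicator_of_mem ha]
    · intro b _ hb
      exact indicator_of_notMem (fun h' => Set.disjoint_left.1 (hd b a hb) h' ha) _
    · intro h; exact absurd (Finset.mem_univ a) h
  · push Not at h
    rw [Finset.sum_eq_zero fun a _ => indicator_of_notMem (h a) _]
    exact hx

theorem low_rs (hp : p ≠ ∞) {N : ℕ} {E : Fin N → Set ℝ} (hE : ∀ a, MeasurableSet (E a))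
    (hd : ∀ a b, a ≠ b → Disjoint (E a) (E b)) (f : LL p) :
    ∑ a, ‖rs p (E a) f‖ ^ p.toReal ≤ ‖f‖ ^ p.toReal := by
  have h1 : 0 < p.toReal := lt_of_lt_of_le one_pos (toReal_one_le hp)
  have e1 : ∀ a, ‖rs p (E a) f‖ ^ p.toReal = ∫ t, (E a).indicator (fun t => |f t| ^ p.toReal) t ∂μ := by
    intro a
    rw [norm_rpow hp]
    refine integral_congr_ae ?_
    filter_upwards [rs_ae (hE a) f] with t ht
    rw [ht]
    by_cases h : t ∈ E a
    · simp [h]
    · simp [h, Real.zero_rpow h1.ne']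
  simp only [e1]
  rw [← integral_finsetSum _ fun a _ => (int_rpow hp f).indicator (hE a), norm_rpow hp]
  refine integral_mono (integrable_finsetSum _ fun a _ => (int_rpow hp f).indicator (hE a)) (int_rpow hp f) fun t => ?_
  have := sum_ind_le hd (|f t| ^ p.toReal) (Real.rpow_nonneg (abs_nonneg _) _) t
  refine le_trans (le_of_eq ?_) this
  refine Finset.sum_congr rfl fun a _ => ?_
  by_cases h : t ∈ E a <;> simp [h]

theorem abs_sum_rpow {r : ℝ} (hr : 0 < r) {N : ℕ} (x : Fin N → ℝ) (hx : ∀ a b, a ≠ b → x a = 0 ∨ x b = 0) :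
    |∑ a, x a| ^ r = ∑ a, |x a| ^ r := by
  by_cases h : ∃ a, x a ≠ 0
  · obtain ⟨a, ha⟩ := h
    have h0 : ∀ b, b ≠ a → x b = 0 := fun b hb => (hx b a hb).resolve_right ha
    rw [Finset.sum_eq_single a (fun b _ hb => h0 b hb) (fun h => absurd (Finset.mem_univ a) h),
      Finset.sum_eq_single a (fun b _ hb => by rw [h0 b hb, abs_zero, Real.zero_rpow hr.ne'])
        (fun h => absurd (Finset.mem_univ a) h)]
  · push Not at h
    rw [Finset.sum_eq_zero fun a _ => h a, Finset.sum_eq_zero fun a _ => by rw [h a, abs_zero, Real.zero_rpow hr.ne'],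
      abs_zero, Real.zero_rpow hr.ne']

theorem up_rs (hp : p ≠ ∞) {N : ℕ} {E : Fin N → Set ℝ} (hE : ∀ a, MeasurableSet (E a))
    (hd : ∀ a b, a ≠ b → Disjoint (E a) (E b)) (e : Fin N → LL p) (he : ∀ a, rs p (E a) (e a) = e a)
    (hn : ∀ a, ‖e a‖ ≤ 1) (c : Fin N → ℝ) :
    ‖∑ a, c a • e a‖ ^ p.toReal ≤ ∑ a, |c a| ^ p.toReal := by
  have h1 : 0 < p.toReal := lt_of_lt_of_le one_pos (toReal_one_le hp)
  have e1 : ‖∑ a, c a • e a‖ ^ p.toReal = ∑ a, |c a| ^ p.toReal * ‖e a‖ ^ p.toReal := by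
    rw [norm_rpow hp]
    simp only [norm_rpow hp, ← integral_const_mul]
    rw [← integral_finsetSum _ fun a _ => (int_rpow hp (e a)).const_mul _]
    refine integral_congr_ae ?_
    have hz : ∀ᵐ t ∂μ, ∀ a, (e a : ℝ → ℝ) t = (E a).indicator (e a) t := by
      rw [ae_all_iff]
      intro a
      have := rs_ae (hE a) (e a)
      rw [he a] at this
      exact this
    have hs : ∀ᵐ t ∂μ, ∀ a, ((c a • e a : LL p) : ℝ → ℝ) t = c a * e a t := by
      rw [ae_all_iff]
      intro a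
      filter_upwards [Lp.coeFn_smul (c a) (e a)] with t ht
      rw [ht, Pi.smul_apply, smul_eq_mul]
    filter_upwards [hz, hs, Lp.coeFn_finsetSum Finset.univ fun a => c a • e a] with t h2 h3 h4
    rw [h4, Finset.sum_apply, Finset.sum_congr rfl fun a _ => h3 a, abs_sum_rpow h1]
    · exact Finset.sum_congr rfl fun a _ => by rw [abs_mul, Real.mul_rpow (abs_nonneg _) (abs_nonneg _)]
    · intro a b hab
      by_cases h : t ∈ E a
      · right
        rw [h2 b, indicator_of_notMem (fun h' => Set.disjoint_left.1 (hd a b hab) h h'), mul_zero]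
      · left
        rw [h2 a, indicator_of_notMem h, mul_zero]
  rw [e1]
  refine Finset.sum_le_sum fun a _ => ?_
  calc |c a| ^ p.toReal * ‖e a‖ ^ p.toReal ≤ |c a| ^ p.toReal * 1 := by
        refine mul_le_mul_of_nonneg_left (Real.rpow_le_one (norm_nonneg _) (hn a) h1.le)
          (Real.rpow_nonneg (abs_nonneg _) _)
    _ = _ := mul_one _

structure IsSys (p : ℝ≥0∞) [Fact (1 ≤ p)] {N : ℕ} (e : Fin N → LL p) (Ψ : Fin N → LL p →L[ℝ] ℝ) : Prop where
  up : ∀ c : Fin N → ℝ, ‖∑ a, c a • e a‖ ^ p.toReal ≤ ∑ a, |c a| ^ p.toReal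
  low : ∀ f, ∑ a, |Ψ a f| ^ p.toReal ≤ ‖f‖ ^ p.toReal

theorem exists_sys (hp : p ≠ ∞) {N : ℕ} {E : Fin N → Set ℝ} (hE : ∀ a, MeasurableSet (E a))
    (hd : ∀ a b, a ≠ b → Disjoint (E a) (E b)) (g : LL p) :
    ∃ (e : Fin N → LL p) (Ψ : Fin N → LL p →L[ℝ] ℝ), IsSys p e Ψ ∧
      (∀ a b, Ψ a (rs p (E b) g) = if a = b then ‖rs p (E a) g‖ else 0) ∧
      ∀ a, e a = ‖rs p (E a) g‖⁻¹ • rs p (E a) g := by
  have h1 : 0 < p.toReal := lt_of_lt_of_le one_pos (toReal_one_le hp)
  choose Φ hΦ1 hΦ2 using fun a => exists_dual_vector'' ℝ (rs p (E a) g)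
  refine ⟨fun a => ‖rs p (E a) g‖⁻¹ • rs p (E a) g, fun a => (Φ a).comp (rs p (E a)), ⟨?_, ?_⟩, ?_, fun a => rfl⟩
  · refine up_rs hp hE hd _ (fun a => ?_) (fun a => ?_)
    · rw [map_smul, rs_rs (hE a) (hE a), Set.inter_self]
    · rw [norm_smul, norm_inv, norm_norm]
      by_cases h : ‖rs p (E a) g‖ = 0
      · rw [h]; simp
      · rw [inv_mul_cancel₀ h]
  · intro f
    refine le_trans (Finset.sum_le_sum fun a _ => ?_) (low_rs hp hE hd f)
    refine Real.rpow_le_rpow (abs_nonneg _) ?_ h1.le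
    calc |Φ a (rs p (E a) f)| ≤ ‖Φ a‖ * ‖rs p (E a) f‖ := (Φ a).le_opNorm _
      _ ≤ 1 * ‖rs p (E a) f‖ := by gcongr; exact hΦ1 a
      _ = _ := one_mul _
  · intro a b
    show Φ a (rs p (E a) (rs p (E b) g)) = _
    rw [rs_rs (hE a) (hE b)]
    by_cases h : a = b
    · subst h
      rw [Set.inter_self, if_pos rfl, hΦ2 a]
      rfl
    · rw [(hd a b h).inter_eq, rs_empty, map_zero, if_neg h]

end Pool.Agent.Helper89.Haar
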