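import Pool.Agent.Helper89.Haar.Sys

/-!
Uniform approximation of tuples by systems.
-/

set_option autoImplicit false
set_option linter.unusedSectionVars false

open MeasureTheory Filter Topology Set
open scoped ENNReal NNReal

noncomputable section

namespace Pool.Agent.Helper89.Haar

variable {p : ℝ≥0∞} [hp1 : Fact (1 ≤ p)]

/-- digit -/
def dig (M : ℕ) (x : ℝ) : Fin (2 * M + 1) := ⟨min (2 * M) ⌊M * x + M⌋₊, by omega⟩

theorem meas_dig (M : ℕ) : Measurable (dig M) := by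
  have h1 : Measurable (fun x : ℝ => ⌊M * x + M⌋₊) :=
    Nat.measurable_floor.comp ((measurable_id.const_mul (M : ℝ)).add_const (M : ℝ))
  have h2 : Measurable (fun n : ℕ => (⟨min (2 * M) n, by omega⟩ : Fin (2 * M + 1))) := measurable_from_nat
  exact h2.comp h1

theorem dig_close {M : ℕ} (hM : 0 < M) {x : ℝ} (hx : |x| ≤ 1) :
    |x - (((dig M x : ℕ) : ℝ) - M) / M| ≤ 1 / M := by
  have hM' : (0 : ℝ) < M := by exact_mod_cast hM
  have hx' := abs_le.1 hx
  have h0 : 0 ≤ M * x + M := by nlinarith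
  have h1 : ⌊M * x + M⌋₊ ≤ 2 * M := by
    rw [← Nat.floor_natCast (R := ℝ) (2 * M)]
    refine Nat.floor_le_floor ?_
    push_cast
    nlinarith
  have e : ((dig M x : ℕ) : ℝ) = (⌊M * x + M⌋₊ : ℝ) := by
    simp only [dig, min_eq_right h1]
  rw [e]
  have h2 := Nat.floor_le h0
  have h3 := Nat.lt_floor_add_one (M * x + M)
  have e2 : x - ((⌊M * x + M⌋₊ : ℝ) - M) / M = ((M * x + M) - (⌊M * x + M⌋₊ : ℝ)) / M := by
    field_simp
    ring
  rw [e2, abs_div, abs_of_pos hM', abs_of_nonneg (by linarith)]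
  gcongr
  linarith

theorem exists_cells (m M : ℕ) (hM : 0 < M) (f : Fin m → LL p) (hf : ∀ l, ‖f l‖ ≤ 1) :
    ∃ (E : Fin ((2 * M + 1) ^ m) → Set ℝ) (g : LL p) (c : Fin m → Fin ((2 * M + 1) ^ m) → ℝ),
      (∀ a, MeasurableSet (E a)) ∧ (∀ a b, a ≠ b → Disjoint (E a) (E b)) ∧
      ∀ l, ‖f l - ∑ a, c l a • rs p (E a) g‖ ≤ m / M := by
  have hM' : (0 : ℝ) < M := by exact_mod_cast hM
  have hmf : ∀ l, Measurable (f l : ℝ → ℝ) := fun l => (Lp.stronglyMeasurable (f l)).measurable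
  set G : ℝ → ℝ := fun t => ∑ l, |f l t| with hG
  have hGm : MemLp G p μ := memLp_finsetSum _ fun l _ => (Lp.memLp (f l)).abs
  have hG0 : ∀ t, 0 ≤ G t := fun t => Finset.sum_nonneg fun l _ => abs_nonneg _
  have hGmeas : Measurable G := Finset.measurable_fun_sum _ fun l _ => (hmf l).abs
  set g : LL p := cl p G with hg
  have hgn : ‖g‖ ≤ m := by
    have e1 : g = ∑ l : Fin m, cl p (fun t => |f l t|) := by
      rw [hg, hG]; exact cl_sum _ fun l _ => (Lp.memLp (f l)).abs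
    rw [e1]
    have e2 : ∀ l, ‖cl p (fun t => |f l t|)‖ ≤ 1 := by
      intro l
      refine le_trans (le_of_eq ?_) (hf l)
      rw [norm_cl (f := fun t => |f l t|) (Lp.memLp (f l)).abs, Lp.norm_def]
      congr 1
      exact eLpNorm_congr_norm_ae (Eventually.of_forall fun t => by simp)
    calc ‖∑ l : Fin m, cl p (fun t => |f l t|)‖ ≤ ∑ l : Fin m, (1 : ℝ) := norm_sum_le_of_le _ fun l _ => e2 l
      _ = m := by simp
  set A : ℝ → Fin ((2 * M + 1) ^ m) := fun t => finFunctionFinEquiv fun l => dig M (f l t / G t) with hA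
  have hAm : Measurable A := by
    have h1 : Measurable fun t => (fun l => dig M (f l t / G t) : Fin m → Fin (2 * M + 1)) :=
      measurable_pi_lambda _ fun l => (meas_dig M).comp ((hmf l).div hGmeas)
    exact (measurable_of_finite _).comp h1
  set c : Fin m → Fin ((2 * M + 1) ^ m) → ℝ := fun l a => (((finFunctionFinEquiv.symm a l : ℕ) : ℝ) - M) / M with hc
  have hE : ∀ a, MeasurableSet {t | A t = a} := fun a => hAm (measurableSet_singleton a)
  refine ⟨fun a => {t | A t = a}, g, c, hE, fun a b hab => ?_, fun l => ?_⟩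
  · rw [Set.disjoint_left]
    intro t h1 h2
    exact hab (h1.symm.trans h2)
  · have hz : ∀ᵐ t ∂μ, ∀ a, (rs p {t | A t = a} g : ℝ → ℝ) t = {t | A t = a}.indicator g t := by
      rw [ae_all_iff]
      exact fun a => rs_ae (hE a) g
    have hs : ∀ᵐ t ∂μ, ∀ a, ((c l a • rs p {t | A t = a} g : LL p) : ℝ → ℝ) t = c l a * rs p {t | A t = a} g t := by
      rw [ae_all_iff]
      intro a
      filter_upwards [Lp.coeFn_smul (c l a) (rs p {t | A t = a} g)] with t ht
      rw [ht, Pi.smul_apply, smul_eq_mul]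
    have key : ∀ᵐ t ∂μ, ‖(f l - ∑ a, c l a • rs p {t | A t = a} g : LL p) t‖ ≤ (1 / M) * ‖g t‖ := by
      filter_upwards [hz, hs, Lp.coeFn_finsetSum Finset.univ fun a => c l a • rs p {t | A t = a} g,
        Lp.coeFn_sub (f l) (∑ a, c l a • rs p {t | A t = a} g), coe_cl hGm] with t h1 h2 h3 h4 h5
      rw [h4, Pi.sub_apply, h3, Finset.sum_apply, Finset.sum_congr rfl fun a _ => h2 a,
        Finset.sum_congr rfl fun a _ => by rw [h1 a]]
      have e3 : ∑ a, c l a * {t | A t = a}.indicator (g : ℝ → ℝ) t = c l (A t) * G t := by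
        rw [Finset.sum_eq_single (A t)]
        · have : t ∈ {t' | A t' = A t} := rfl
          rw [indicator_of_mem this, h5]
        · intro b _ hb
          have : t ∉ {t' | A t' = b} := fun h => hb h.symm
          rw [indicator_of_notMem this, mul_zero]
        · intro h; exact absurd (Finset.mem_univ _) h
      rw [e3, h5, Real.norm_eq_abs, Real.norm_eq_abs, abs_of_nonneg (hG0 t)]
      have e4 : c l (A t) = (((dig M (f l t / G t) : ℕ) : ℝ) - M) / M := by
        simp only [hc, hA, Equiv.symm_apply_apply]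
      rw [e4]
      have e5 : |f l t| ≤ G t := Finset.single_le_sum (f := fun l => |f l t|) (fun _ _ => abs_nonneg _) (Finset.mem_univ l)
      rcases (hG0 t).eq_or_lt with h0 | h0
      · rw [← h0] at e5 ⊢
        have : f l t = 0 := abs_nonpos_iff.1 e5
        rw [this]; simp
      · have e6 : |f l t / G t| ≤ 1 := by
          rw [abs_div, abs_of_pos h0]
          exact (div_le_one h0).2 e5
        have e7 := dig_close hM e6
        have e8 : f l t - (((dig M (f l t / G t) : ℕ) : ℝ) - M) / M * G t =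
            (f l t / G t - (((dig M (f l t / G t) : ℕ) : ℝ) - M) / M) * G t := by
          rw [sub_mul, div_mul_cancel₀ _ h0.ne']
        rw [e8, abs_mul, abs_of_pos h0]
        exact mul_le_mul_of_nonneg_right e7 h0.le
    refine (Lp.norm_le_mul_norm_of_ae_le_mul key).trans ?_
    calc 1 / (M : ℝ) * ‖g‖ ≤ 1 / M * m := by gcongr
      _ = m / M := by ring

/-- size of the systems -/
def MM (m r : ℕ) : ℕ := 2 * (m + 1) * (r + 1)
/-- size of the systems -/
def NN (m r : ℕ) : ℕ := (2 * MM m r + 1) ^ m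

theorem exists_approx (hp : p ≠ ∞) (m r : ℕ) (f : Fin m → LL p) (hf : ∀ l, ‖f l‖ ≤ 1) :
    ∃ (e : Fin (NN m r) → LL p) (Ψ : Fin (NN m r) → LL p →L[ℝ] ℝ), IsSys p e Ψ ∧
      ∀ l, ‖∑ a, Ψ a (f l) • e a - f l‖ ≤ 1 / ((r : ℝ) + 1) := by
  have hM : 0 < MM m r := by unfold MM; positivity
  have h1 : 0 < p.toReal := lt_of_lt_of_le one_pos (toReal_one_le hp)
  obtain ⟨E, g, c, hE, hd, hc⟩ := exists_cells m (MM m r) hM f hf
  obtain ⟨e, Ψ, hs, hΨ, he⟩ := exists_sys hp hE hd g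
  refine ⟨e, Ψ, hs, fun l => ?_⟩
  set P : LL p →L[ℝ] LL p := ∑ a, (Ψ a).smulRight (e a) with hP
  have hPa : ∀ x, P x = ∑ a, Ψ a x • e a := by
    intro x; rw [hP, sum_apply]; rfl
  have hPn : ∀ x, ‖P x‖ ≤ ‖x‖ := by
    intro x
    rw [hPa]
    have := (hs.up fun a => Ψ a x).trans (hs.low x)
    exact (Real.rpow_le_rpow_iff (norm_nonneg _) (norm_nonneg _) h1).1 this
  set u := ∑ a, c l a • rs p (E a) g with hu
  have hPu : P u = u := by
    have e1 : ∀ b, P (rs p (E b) g) = rs p (E b) g := by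
      intro b
      rw [hPa, Finset.sum_eq_single b]
      · rw [hΨ, if_pos rfl, he, smul_smul]
        by_cases h : ‖rs p (E b) g‖ = 0
        · rw [norm_eq_zero.1 h]; simp
        · rw [mul_inv_cancel₀ h, one_smul]
      · intro a _ hab
        rw [hΨ, if_neg hab, zero_smul]
      · intro h; exact absurd (Finset.mem_univ _) h
    rw [hu, map_sum]
    exact Finset.sum_congr rfl fun a _ => by rw [map_smul, e1]
  have hgoal : ‖P (f l) - f l‖ ≤ 1 / ((r : ℝ) + 1) → ‖∑ a, Ψ a (f l) • e a - f l‖ ≤ 1 / ((r : ℝ) + 1) := by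
    rw [hPa]; exact fun h => h
  refine hgoal ?_
  have e2 : P (f l) - f l = P (f l - u) - (f l - u) := by
    rw [map_sub, hPu]; abel
  have hMr : (0 : ℝ) < MM m r := by exact_mod_cast hM
  calc ‖P (f l) - f l‖ = ‖P (f l - u) - (f l - u)‖ := by rw [e2]
    _ ≤ ‖P (f l - u)‖ + ‖f l - u‖ := norm_sub_le _ _
    _ ≤ ‖f l - u‖ + ‖f l - u‖ := by gcongr; exact hPn _
    _ ≤ m / MM m r + m / MM m r := by gcongr <;> exact hc l
    _ ≤ 1 / ((r : ℝ) + 1) := by
      have e3 : (MM m r : ℝ) = 2 * (m + 1) * (r + 1) := by unfold MM; push_cast; ring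
      rw [e3, ← two_mul, ← mul_div_assoc, div_le_div_iff₀ (by positivity) (by positivity)]
      have : (0 : ℝ) < (r : ℝ) + 1 := by positivity
      nlinarith

theorem exists_target (hp : p ≠ ∞) (N : ℕ) :
    ∃ (e : Fin N → LL p) (Ψ : Fin N → LL p →L[ℝ] ℝ), IsSys p e Ψ ∧ ∀ a b, Ψ a (e b) = if a = b then 1 else 0 := by
  rcases Nat.eq_zero_or_pos N with hN | hN
  · subst hN
    have h1 : 0 < p.toReal := lt_of_lt_of_le one_pos (toReal_one_le hp)
    refine ⟨fun a => 0, fun a => 0, ⟨fun c => ?_, fun f => ?_⟩, fun a => a.elim0⟩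
    · simp [Real.zero_rpow h1.ne']
    · simp only [Finset.univ_eq_empty, Finset.sum_empty]; positivity
  have hN' : (0 : ℝ) < N := by exact_mod_cast hN
  set E : Fin N → Set ℝ := fun a => Ico ((a : ℝ) / N) (((a : ℝ) + 1) / N) with hEdef
  have hE : ∀ a, MeasurableSet (E a) := fun a => measurableSet_Ico
  have hd : ∀ a b, a ≠ b → Disjoint (E a) (E b) := by
    intro a b hab
    rw [Set.disjoint_left]
    intro t h1 h2
    rw [hEdef, Set.mem_Ico, div_le_iff₀ hN', lt_div_iff₀ hN'] at h1 h2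
    apply hab
    have e1 : ((a : ℕ) : ℝ) < (b : ℕ) + 1 := by linarith
    have e2 : ((b : ℕ) : ℝ) < (a : ℕ) + 1 := by linarith
    have e3 : (a : ℕ) < b + 1 := by exact_mod_cast e1
    have e4 : (b : ℕ) < a + 1 := by exact_mod_cast e2
    exact Fin.ext (by omega)
  obtain ⟨e, Ψ, hs, hΨ, he⟩ := exists_sys hp hE hd (cl p fun _ => 1)
  refine ⟨e, Ψ, hs, fun a b => ?_⟩
  rw [he, map_smul, hΨ, smul_eq_mul]
  by_cases h : a = b
  · subst h
    rw [if_pos rfl, if_pos rfl, inv_mul_cancel₀]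
    intro h0
    rw [norm_eq_zero] at h0
    have h1 := rs_ae (hE a) (cl p fun _ => (1 : ℝ))
    rw [h0] at h1
    have h2 : ∀ᵐ t ∂μ, t ∉ E a := by
      filter_upwards [h1, coe_cl ((Bd.const 1).memLp p), Lp.coeFn_zero ℝ p μ] with t h3 h4 h5 hmem
      rw [h5, indicator_of_mem hmem, h4] at h3
      exact absurd h3 (by norm_num)
    have h3 : μ (E a) = 0 := by
      have := ae_iff.1 h2
      simpa using this
    have hsub : E a ⊆ Ico 0 1 := by
      intro t ht
      rw [hEdef, Set.mem_Ico, div_le_iff₀ hN', lt_div_iff₀ hN'] at ht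
      have h4 : ((a : ℕ) : ℝ) + 1 ≤ N := by exact_mod_cast a.2
      have h5 : (0 : ℝ) ≤ (a : ℕ) := by positivity
      constructor
      · by_contra h6; push Not at h6; nlinarith
      · by_contra h6; push Not at h6; nlinarith
    rw [μ, Measure.restrict_apply (hE a), Set.inter_eq_left.2 hsub, hEdef, Real.volume_Ico] at h3
    rw [ENNReal.ofReal_eq_zero] at h3
    have : ((a : ℝ) + 1) / N - a / N = 1 / N := by ring
    rw [this] at h3
    have h7 : (0 : ℝ) < 1 / N := by positivity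
    linarith
  · rw [if_neg h, if_neg h, mul_zero]

theorem sys_norm {q : ℝ≥0∞} [Fact (1 ≤ q)] (hp : p ≠ ∞) (hq : q ≠ ∞) {N : ℕ} {e' : Fin N → LL p} {e : Fin N → LL q}
    {Ψ : Fin N → LL p →L[ℝ] ℝ} {Ψ' : Fin N → LL q →L[ℝ] ℝ}
    (h : IsSys p e' Ψ) (h' : IsSys q e Ψ') (hN : (N : ℝ) ^ |1 / p.toReal - 1 / q.toReal| ≤ 2) :
    ‖∑ a, (Ψ a).smulRight (e a)‖ ≤ 2 := by
  have h1 : 0 < p.toReal := lt_of_lt_of_le one_pos (toReal_one_le hp)
  have h2 : 0 < q.toReal := lt_of_lt_of_le one_pos (toReal_one_le hq)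
  refine ContinuousLinearMap.opNorm_le_bound _ zero_le_two fun x => ?_
  rw [sum_apply]
  simp only [ContinuousLinearMap.smulRight_apply]
  have e1 := h'.up fun a => Ψ a x
  have e2 := lpq (toReal_one_le hp) (toReal_one_le hq) (fun a => |Ψ a x|) (fun a => abs_nonneg _)
  have e3 := h.low x
  have s1 : 0 ≤ ∑ a, |Ψ a x| ^ p.toReal := Finset.sum_nonneg fun a _ => Real.rpow_nonneg (abs_nonneg _) _
  have e4 : (∑ a, |Ψ a x| ^ p.toReal) ^ (1 / p.toReal) ≤ ‖x‖ := by
    calc _ ≤ (‖x‖ ^ p.toReal) ^ (1 / p.toReal) := Real.rpow_le_rpow s1 e3 (by positivity)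
      _ = ‖x‖ := by rw [← Real.rpow_mul (norm_nonneg _), mul_one_div, div_self h1.ne', Real.rpow_one]
  calc ‖∑ a, Ψ a x • e a‖ = (‖∑ a, Ψ a x • e a‖ ^ q.toReal) ^ (1 / q.toReal) := by
        rw [← Real.rpow_mul (norm_nonneg _), mul_one_div, div_self h2.ne', Real.rpow_one]
    _ ≤ (∑ a, |Ψ a x| ^ q.toReal) ^ (1 / q.toReal) :=
        Real.rpow_le_rpow (Real.rpow_nonneg (norm_nonneg _) _) e1 (by positivity)
    _ ≤ (N : ℝ) ^ |1 / p.toReal - 1 / q.toReal| * (∑ a, |Ψ a x| ^ p.toReal) ^ (1 / p.toReal) := e2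
    _ ≤ 2 * ‖x‖ := mul_le_mul hN e4 (Real.rpow_nonneg s1 _) zero_le_two

theorem exists_VU {q : ℝ≥0∞} [Fact (1 ≤ q)] (hp : p ≠ ∞) (hq : q ≠ ∞) (m r : ℕ) (f : Fin m → LL p)
    (hf : ∀ l, ‖f l‖ ≤ 1) (hN : (NN m r : ℝ) ^ |1 / p.toReal - 1 / q.toReal| ≤ 2) :
    ∃ (V : LL p →L[ℝ] LL q) (U : LL q →L[ℝ] LL p), ‖V‖ ≤ 2 ∧ ‖U‖ ≤ 2 ∧
      ∀ l, ‖U (V (f l)) - f l‖ ≤ 1 / ((r : ℝ) + 1) := by
  obtain ⟨e, Ψ, hs, hf'⟩ := exists_approx hp m r f hf
  obtain ⟨e', Ψ', hs', h'⟩ := exists_target (p := q) hq (NN m r)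
  refine ⟨∑ a, (Ψ a).smulRight (e' a), ∑ a, (Ψ' a).smulRight (e a), sys_norm hp hq hs hs' hN,
    sys_norm hq hp hs' hs (by rw [abs_sub_comm]; exact hN), fun l => ?_⟩
  have e1 : (∑ a, (Ψ' a).smulRight (e a)) ((∑ a, (Ψ a).smulRight (e' a)) (f l)) = ∑ a, Ψ a (f l) • e a := by
    rw [sum_apply, sum_apply]
    simp only [ContinuousLinearMap.smulRight_apply, map_sum, map_smul, h']
    refine Finset.sum_congr rfl fun a _ => ?_
    simp
  rw [e1]
  exact hf' l

end Pool.Agent.Helper89.Haar
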