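import Pool.Agent.Helper89.Haar.Stage

/-!
The limiting diagonal function (problem MP_e03f8f_an).
-/

set_option autoImplicit false
set_option linter.unusedSectionVars false
set_option linter.unusedVariables false

open MeasureTheory Filter Topology Set
open scoped ENNReal NNReal

noncomputable section

namespace Pool.Agent.Helper89.Haar

section sets
variable (pos : ℕ → ℕ → Prop)

/-- points in a good interval of level at least `m` -/
def Ws (m : ℕ) : Set ℝ := {t | ∃ n, m ≤ n ∧ pos n (qq n t)}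

/-- points in a good interval of level between `m` and `N` -/
def Ps (m N : ℕ) : Set ℝ := {t | ∃ n, m ≤ n ∧ n ≤ N ∧ pos n (qq n t)}

/-- points in infinitely many good intervals -/
def Gs : Set ℝ := {t | ∀ m, ∃ n, m ≤ n ∧ pos n (qq n t)}

theorem meas_one (n : ℕ) : MeasurableSet {t | pos n (qq n t)} :=
  meas_qq n (MeasurableSet.of_discrete (s := {k | pos n k}))

theorem meas_Ws (m : ℕ) : MeasurableSet (Ws pos m) := by
  have : Ws pos m = ⋃ n, ⋃ (_ : m ≤ n), {t | pos n (qq n t)} := by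
    ext t; simp [Ws]
  rw [this]
  exact MeasurableSet.iUnion fun n => MeasurableSet.iUnion fun _ => meas_one pos n

theorem meas_Ps (m N : ℕ) : MeasurableSet (Ps pos m N) := by
  have : Ps pos m N = ⋃ n, ⋃ (_ : m ≤ n), ⋃ (_ : n ≤ N), {t | pos n (qq n t)} := by
    ext t
    simp only [Ps, mem_ofPred_eq, mem_iUnion, exists_prop]
  rw [this]
  exact MeasurableSet.iUnion fun n => MeasurableSet.iUnion fun _ => MeasurableSet.iUnion fun _ =>
    meas_one pos n

theorem meas_Gs : MeasurableSet (Gs pos) := by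
  have : Gs pos = ⋂ m, Ws pos m := by
    ext t; simp [Gs, Ws]
  rw [this]
  exact MeasurableSet.iInter fun m => meas_Ws pos m

theorem Ps_subset (m N : ℕ) : Ps pos m N ⊆ Ws pos m := by
  rintro t ⟨n, h1, -, h2⟩
  exact ⟨n, h1, h2⟩

theorem Gs_subset (m : ℕ) : Gs pos ⊆ Ws pos m := fun _ ht => ht m

theorem exists_N (m : ℕ) {ε : ℝ≥0∞} (hε : 0 < ε) : ∃ N, m ≤ N ∧ μ (Ws pos m \ Ps pos m N) < ε := by
  have h : Tendsto (fun N => μ (Ws pos m \ Ps pos m N)) atTop (𝓝 (μ (⋂ N, Ws pos m \ Ps pos m N))) := by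
    refine tendsto_measure_iInter_atTop
      (fun N => ((meas_Ws pos m).diff (meas_Ps pos m N)).nullMeasurableSet) ?_ ⟨0, measure_ne_top _ _⟩
    intro N N' hN t ht
    exact ⟨ht.1, fun ⟨n, h1, h2, h3⟩ => ht.2 ⟨n, h1, h2.trans hN, h3⟩⟩
  have h0 : (⋂ N, Ws pos m \ Ps pos m N) = ∅ := by
    ext t
    simp only [mem_iInter, Set.mem_sdiff, mem_empty_iff_false, iff_false, not_forall, not_and, not_not]
    by_cases ht : t ∈ Ws pos m
    · obtain ⟨n, h1, h2⟩ := ht
      exact ⟨n, fun _ => ⟨n, h1, le_rfl, h2⟩⟩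
    · exact ⟨0, fun h => absurd h ht⟩
  rw [h0, measure_empty] at h
  obtain ⟨N, hN, hN'⟩ := ((h.eventually (gt_mem_nhds hε)).and (eventually_ge_atTop m)).exists
  exact ⟨N, hN', hN⟩

theorem tendsto_Ws : Tendsto (fun m => μ (Ws pos m \ Gs pos)) atTop (𝓝 0) := by
  have h : Tendsto (fun m => μ (Ws pos m \ Gs pos)) atTop (𝓝 (μ (⋂ m, Ws pos m \ Gs pos))) := by
    refine tendsto_measure_iInter_atTop
      (fun m => ((meas_Ws pos m).diff (meas_Gs pos)).nullMeasurableSet) ?_ ⟨0, measure_ne_top _ _⟩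
    intro m m' hm t ht
    refine ⟨?_, ht.2⟩
    obtain ⟨n, h1, h2⟩ := ht.1
    exact ⟨n, hm.trans h1, h2⟩
  have h0 : (⋂ m, Ws pos m \ Gs pos) = ∅ := by
    ext t
    simp only [mem_iInter, Set.mem_sdiff, mem_empty_iff_false, iff_false]
    intro h
    exact (h 0).2 fun m => (h m).1
  rwa [h0, measure_empty] at h

end sets

variable {p : ℝ≥0∞} [hp1 : Fact (1 ≤ p)]

theorem abs_xx_diag (hp : p ≠ ∞) (T : LL p →L[ℝ] LL p) {K : ℕ × ℕ} (hK : K.2 < 2 ^ K.1) :
    |xx T K K| ≤ ‖T‖ * sz K := by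
  refine (abs_xx_le hp T hK hK).trans ?_
  rw [mul_assoc, ← Real.rpow_add (sz_pos K)]
  simp

theorem th_cell (T : LL p →L[ℝ] LL p) {m : ℕ} {C : Finset (ℕ × ℕ)} (hC : Cells m C) {K : ℕ × ℕ}
    (hK : K ∈ C) {t : ℝ} (ht : t ∈ I K.1 K.2) : th T C t = xx T K K / sz K := by
  rw [th, sum_cells hC (fun K => xx T K K / sz K) hK ht
    (fun K => (I K.1 K.2).indicator (fun _ => 1) t) (fun L _ h => indicator_of_notMem h _),
    indicator_of_mem ht, mul_one]

theorem abs_th_le (hp : p ≠ ∞) (T : LL p →L[ℝ] LL p) {m : ℕ} {C : Finset (ℕ × ℕ)} (hC : Cells m C)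
    (t : ℝ) : |th T C t| ≤ ‖T‖ := by
  by_cases h : ∃ K ∈ C, t ∈ I K.1 K.2
  · obtain ⟨K, hK, ht⟩ := h
    rw [th_cell T hC hK ht, abs_div, abs_of_pos (sz_pos K), div_le_iff₀ (sz_pos K)]
    exact abs_xx_diag hp T (hC.lt K hK)
  · push Not at h
    rw [th, Finset.sum_eq_zero, abs_zero]
    · exact norm_nonneg _
    · intro K hK
      rw [indicator_of_notMem (h K hK), mul_zero]

theorem th_sign (T : LL p →L[ℝ] LL p) {δ : ℝ} (hT : ∀ K : ℕ × ℕ, K.2 < 2 ^ K.1 → δ * sz K ≤ |xx T K K|)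
    {m N : ℕ} (hmN : m ≤ N) {t : ℝ} (ht : t ∈ Ico (0 : ℝ) 1) :
    (t ∈ Ps (fun n k => 0 < xx T (n, k) (n, k)) m N →
      δ ≤ th T (CC (fun n k => 0 < xx T (n, k) (n, k)) m N) t) ∧
    (t ∉ Ps (fun n k => 0 < xx T (n, k) (n, k)) m N →
      th T (CC (fun n k => 0 < xx T (n, k) (n, k)) m N) t ≤ -δ) := by
  set pos : ℕ → ℕ → Prop := fun n k => 0 < xx T (n, k) (n, k) with hpos
  obtain ⟨K, hK, htK⟩ := exists_cell pos hmN ht
  have hC := cells_CC pos m N
  obtain ⟨h1, h2, h3, h4, h5⟩ := mem_CC.1 hK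
  have hq : qq K.1 t = K.2 := (mem_I' ht).1 htK
  have hb := hT K h2
  rw [th_cell T hC hK htK]
  constructor
  · rintro ⟨n, hn1, hn2, hn3⟩
    have hp : pos K.1 K.2 := by
      rcases h4 with h | h
      · exact h
      · rcases lt_or_eq_of_le hn2 with h' | h'
        · have := h5 n (by omega) hn1
          rw [← hq, ← qq_le' (by omega)] at this
          exact absurd hn3 this
        · rw [← h, ] at h'
          rw [h', hq] at hn3
          exact hn3
    have hp' : 0 < xx T K K := hp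
    rw [le_div_iff₀ (sz_pos K)]
    rwa [abs_of_pos hp'] at hb
  · intro hn
    have hp : ¬ pos K.1 K.2 := fun h => hn ⟨K.1, h3, h1, by rw [hq]; exact h⟩
    have hp' : xx T K K ≤ 0 := not_lt.1 hp
    rw [div_le_iff₀ (sz_pos K)]
    rw [abs_of_nonpos hp'] at hb
    linarith

/-- The limiting diagonal function. -/
theorem exists_theta (hp : p ≠ ∞) (T : LL p →L[ℝ] LL p) {δ : ℝ} (hδ : 0 < δ)
    (hT : ∀ K : ℕ × ℕ, K.2 < 2 ^ K.1 → δ * sz K ≤ |xx T K K|) :
    ∃ (s Θ : ℝ → ℝ), Measurable s ∧ Measurable Θ ∧ (∀ t, s t = 1 ∨ s t = -1) ∧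
      (∀ t, δ ≤ Θ t ∧ Θ t ≤ max δ ‖T‖) ∧
      ∀ (n L : ℕ) (η : ℝ), 0 < η → ∃ (L' : ℕ) (R : ℝ → ℝ), L ≤ L' ∧ Measurable R ∧
        (∀ t, R t = 1 ∨ R t = -1) ∧ St L' R ∧ MZ (max n L) R ∧
        ∀ j < 2 ^ n, ∀ j' < 2 ^ n,
          |igc p (fun t => J n j' t * R t) (T (cl p (fun t => J n j t * R t))) -
            if j = j' then ∫ t, J n j t * (s t * Θ t) ∂μ else 0| ≤ η := by
  classical
  set pos : ℕ → ℕ → Prop := fun n k => 0 < xx T (n, k) (n, k) with hpos
  have hNex : ∀ m : ℕ, ∃ N, m ≤ N ∧ μ (Ws pos m \ Ps pos m N) < ENNReal.ofReal ((1 / 2 : ℝ) ^ m) := fun m =>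
    exists_N pos m (by simp)
  choose N hN1 hN2 using hNex
  set C : ℕ → Finset (ℕ × ℕ) := fun m => CC pos m (N m) with hCdef
  have hC : ∀ m, Cells m (C m) := fun m => cells_CC pos m (N m)
  set s : ℝ → ℝ := fun t => if t ∈ Gs pos then 1 else -1 with hs
  have hsm : Measurable s := Measurable.ite (meas_Gs pos) measurable_const measurable_const
  have hs1 : ∀ t, s t = 1 ∨ s t = -1 := fun t => by simp only [hs]; split_ifs <;> simp
  have hsb : Bd s := ⟨hsm, 1, fun t => by rcases hs1 t with h | h <;> rw [h] <;> simp⟩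
  -- bad set
  set Bad : ℕ → Set ℝ := fun m => (Ws pos m \ Gs pos) ∪ (Ws pos m \ Ps pos m (N m)) with hBad
  have hBadm : ∀ m, MeasurableSet (Bad m) := fun m =>
    ((meas_Ws pos m).diff (meas_Gs pos)).union ((meas_Ws pos m).diff (meas_Ps pos m _))
  have hBad0 : Tendsto (fun m => μ.real (Bad m)) atTop (𝓝 0) := by
    have h1 : Tendsto (fun m => μ (Ws pos m \ Gs pos) + ENNReal.ofReal ((1 / 2 : ℝ) ^ m)) atTop (𝓝 (0 + 0)) := by
      refine (tendsto_Ws pos).add ?_
      rw [← ENNReal.ofReal_zero]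
      exact ENNReal.tendsto_ofReal (tendsto_pow_atTop_nhds_zero_of_lt_one (by norm_num) (by norm_num))
    rw [add_zero] at h1
    have h2 : Tendsto (fun m => μ (Bad m)) atTop (𝓝 0) := by
      refine tendsto_of_tendsto_of_tendsto_of_le_of_le tendsto_const_nhds h1 (fun _ => zero_le) fun m => ?_
      exact (measure_union_le _ _).trans (add_le_add le_rfl (hN2 m).le)
    have h3 := (ENNReal.tendsto_toReal ENNReal.zero_ne_top).comp h2
    rw [ENNReal.toReal_zero] at h3
    exact h3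
  have hgood : ∀ m, ∀ t ∈ Ico (0 : ℝ) 1, t ∉ Bad m → δ ≤ s t * th T (C m) t := by
    intro m t ht hb
    have hsg := th_sign T hT (hN1 m) ht
    have hiff : t ∈ Ps pos m (N m) ↔ t ∈ Gs pos := by
      constructor
      · intro h
        by_contra h'
        exact hb (Or.inl ⟨Ps_subset pos m _ h, h'⟩)
      · intro h
        by_contra h'
        exact hb (Or.inr ⟨Gs_subset pos m h, h'⟩)
    by_cases h : t ∈ Gs pos
    · simp only [hs, if_pos h, one_mul]
      exact hsg.1 (hiff.2 h)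
    · simp only [hs, if_neg h]
      have := hsg.2 (fun h' => h (hiff.1 h'))
      have h3 : th T (C m) t ≤ -δ := this
      linarith
  -- the ultralimit
  set 𝒰 : Ultrafilter ℕ := Filter.hyperfilter ℕ with h𝒰
  have h𝒰le : (𝒰 : Filter ℕ) ≤ atTop := Nat.hyperfilter_le_atTop
  have hthb : ∀ m, Bd (th T (C m)) := fun m => bd_th T (C m)
  have : Fact ((1 : ℝ≥0∞) ≤ 2) := ⟨one_le_two⟩
  have hlim : ∀ g : LL 2, ∃ l, Tendsto (fun m => igc 2 (th T (C m)) g) 𝒰 (𝓝 l) := by
    intro g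
    have hc : IsCompact (Icc (-(‖T‖ * ‖g‖)) (‖T‖ * ‖g‖)) := isCompact_Icc
    obtain ⟨l, -, hl⟩ := hc.ultrafilter_le_nhds (𝒰.map fun m => igc 2 (th T (C m)) g) (by
      rw [Filter.le_principal_iff]
      show (fun m => igc 2 (th T (C m)) g) ⁻¹' _ ∈ 𝒰
      refine Filter.univ_mem' fun m => ?_
      exact abs_le.1 (abs_igc_le (hthb m) (abs_th_le hp T (hC m)) g))
    exact ⟨l, hl⟩
  choose Φ hΦ using hlim
  let Φl : LL 2 →ₗ[ℝ] ℝ :=
    { toFun := Φ
      map_add' := fun g g' => tendsto_nhds_unique (hΦ _) (((hΦ g).add (hΦ g')).congr fun m => by rw [map_add])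
      map_smul' := fun c g => tendsto_nhds_unique (hΦ _) (((hΦ g).const_mul c).congr fun m => by
        rw [map_smul, smul_eq_mul]) }
  let Φc : LL 2 →L[ℝ] ℝ := Φl.mkContinuous ‖T‖ (fun g => by
    refine le_of_tendsto (hΦ g).norm (Eventually.of_forall fun m => ?_)
    exact abs_igc_le (hthb m) (abs_th_le hp T (hC m)) g)
  set Θ₀ : LL 2 := (InnerProductSpace.toDual ℝ (LL 2)).symm Φc with hΘ₀
  have hΘ : ∀ g : LL 2, ∫ t, Θ₀ t * g t ∂μ = Φ g := by
    intro g
    have h1 : inner ℝ Θ₀ g = Φc g := by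
      rw [hΘ₀, InnerProductSpace.toDual_symm_apply]
    have h2 : inner ℝ Θ₀ g = ∫ t, Θ₀ t * g t ∂μ := by
      rw [MeasureTheory.L2.inner_def]
      refine integral_congr_ae (Eventually.of_forall fun t => ?_)
      simp [mul_comm]
    rw [← h2, h1]
    rfl
  have hTl : ∀ g : ℝ → ℝ, Bd g → Tendsto (fun m => ∫ t, g t * th T (C m) t ∂μ) 𝒰 (𝓝 (∫ t, g t * Θ₀ t ∂μ)) := by
    intro g hg
    have h1 := hΦ (cl 2 g)
    rw [← hΘ] at h1
    have e1 : ∫ t, Θ₀ t * (cl 2 g : LL 2) t ∂μ = ∫ t, g t * Θ₀ t ∂μ := by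
      refine integral_congr_ae ?_
      filter_upwards [coe_cl (hg.memLp 2)] with t ht
      rw [ht]; ring
    rw [e1] at h1
    refine h1.congr fun m => ?_
    rw [igc_cl (hthb m) (hg.memLp 2)]
    exact integral_congr_ae (Eventually.of_forall fun t => mul_comm _ _)
  have hΘi : Integrable Θ₀ μ := integrable_coe Θ₀
  have hsΘi : Integrable (fun t => s t * Θ₀ t) μ := hsb.mul_integrable hΘi
  have hTl' : ∀ A, MeasurableSet A → Tendsto (fun m => ∫ t in A, s t * th T (C m) t ∂μ) 𝒰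
      (𝓝 (∫ t in A, s t * Θ₀ t ∂μ)) := by
    intro A hA
    have h1 := hTl (fun t => A.indicator (fun _ => 1) t * s t) ((Bd.ind hA).mul hsb)
    have e1 : ∀ g : ℝ → ℝ, ∫ t, (A.indicator (fun _ => 1) t * s t) * g t ∂μ = ∫ t in A, s t * g t ∂μ := by
      intro g
      rw [← integral_indicator hA]
      refine integral_congr_ae (Eventually.of_forall fun t => ?_)
      by_cases h : t ∈ A <;> simp [h]
    simp only [e1] at h1
    exact h1
  have hup : ∀ᵐ t ∂μ, s t * Θ₀ t ≤ ‖T‖ := by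
    refine ae_le_of_forall_setIntegral_le hsΘi (integrable_const _) fun A hA _ => ?_
    refine le_of_tendsto (hTl' A hA) (Eventually.of_forall fun m => ?_)
    refine integral_mono ((hsb.mul (hthb m)).integrable.integrableOn) (integrable_const _).integrableOn fun t => ?_
    show s t * th T (C m) t ≤ ‖T‖
    refine (le_abs_self _).trans ?_
    rw [abs_mul]
    have h2 : |s t| = 1 := by rcases hs1 t with h | h <;> rw [h] <;> simp
    rw [h2, one_mul]
    exact abs_th_le hp T (hC m) t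
  have hlo : ∀ᵐ t ∂μ, δ ≤ s t * Θ₀ t := by
    refine ae_le_of_forall_setIntegral_le (integrable_const _) hsΘi fun A hA _ => ?_
    have h1 : Tendsto (fun m => ∫ t in A, δ ∂μ - (δ + ‖T‖) * μ.real (Bad m)) 𝒰
        (𝓝 (∫ t in A, δ ∂μ - (δ + ‖T‖) * 0)) :=
      tendsto_const_nhds.sub ((hBad0.mono_left h𝒰le).const_mul _)
    rw [mul_zero, sub_zero] at h1
    refine le_of_tendsto_of_tendsto' h1 (hTl' A hA) fun m => ?_
    have h2 : ∫ t in A, (δ - (δ + ‖T‖) * (Bad m).indicator (fun _ => 1) t) ∂μ ≤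
        ∫ t in A, s t * th T (C m) t ∂μ := by
      refine setIntegral_mono_ae (μ := μ) ?_ ((hsb.mul (hthb m)).integrable.integrableOn) ?_
      · exact (((Bd.const δ).sub ((Bd.const _).mul (Bd.ind (hBadm m)))).integrable).integrableOn
      · filter_upwards [ae_mem] with t ht
        by_cases hb : t ∈ Bad m
        · rw [indicator_of_mem hb]
          have h3 : |s t * th T (C m) t| ≤ ‖T‖ := by
            rw [abs_mul]
            have h2 : |s t| = 1 := by rcases hs1 t with h | h <;> rw [h] <;> simp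
            rw [h2, one_mul]
            exact abs_th_le hp T (hC m) t
          have := (abs_le.1 h3).1
          linarith
        · rw [indicator_of_notMem hb]
          have := hgood m t ht hb
          linarith
    refine le_trans ?_ h2
    rw [integral_sub (integrable_const _).integrableOn
      (((Bd.const _).mul (Bd.ind (hBadm m))).integrable).integrableOn, integral_const_mul]
    have h4 : ∫ t in A, (Bad m).indicator (fun _ => (1 : ℝ)) t ∂μ ≤ μ.real (Bad m) := by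
      calc ∫ t in A, (Bad m).indicator (fun _ => (1 : ℝ)) t ∂μ
          ≤ ∫ t, (Bad m).indicator (fun _ => (1 : ℝ)) t ∂μ :=
            setIntegral_le_integral (Bd.ind (hBadm m)).integrable
              (Eventually.of_forall fun t => indicator_nonneg (fun _ _ => zero_le_one) t)
        _ = μ.real (Bad m) := by
            rw [integral_indicator (hBadm m), setIntegral_const, smul_eq_mul, mul_one]
    have h5 : 0 ≤ δ + ‖T‖ := by positivity
    nlinarith
  -- clean version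
  set Θ : ℝ → ℝ := fun t => max δ (min (max δ ‖T‖) (s t * Θ₀ t)) with hΘdef
  have hΘ₀m : Measurable Θ₀ := (Lp.stronglyMeasurable Θ₀).measurable
  have hΘm : Measurable Θ := measurable_const.max (measurable_const.min (hsm.mul hΘ₀m))
  have hΘae : ∀ᵐ t ∂μ, s t * Θ t = Θ₀ t := by
    filter_upwards [hup, hlo] with t h1 h2
    have h3 : Θ t = s t * Θ₀ t := by
      simp only [hΘdef]
      rw [min_eq_right (h1.trans (le_max_right _ _)), max_eq_right h2]
    rw [h3]
    rcases hs1 t with h | h <;> rw [h] <;> ring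
  refine ⟨s, Θ, hsm, hΘm, hs1, fun t => ⟨le_max_left _ _, max_le (le_max_left _ _) (min_le_left _ _)⟩, ?_⟩
  intro n L η hη
  have hev1 : ∀ᶠ m in (𝒰 : Filter ℕ), max n L ≤ m := h𝒰le (eventually_ge_atTop _)
  have hev2 : ∀ᶠ m in (𝒰 : Filter ℕ), ∀ j ∈ Finset.range (2 ^ n),
      |∫ t, J n j t * th T (C m) t ∂μ - ∫ t, J n j t * Θ₀ t ∂μ| < η / 2 := by
    rw [Filter.eventually_all_finset]
    intro j _
    have := hTl (J n j) (bd_J n j)
    rw [Metric.tendsto_nhds] at this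
    exact this (η / 2) (by positivity)
  have hev3 : ∀ᶠ m in (𝒰 : Filter ℕ), 2 * (‖T‖ ^ 2 * (((2 : ℝ) ^ m)⁻¹) ^ (1 / 2 : ℝ)) < (η / 2) ^ 2 := by
    refine h𝒰le ?_
    have h1 : Tendsto (fun m : ℕ => ((2 : ℝ) ^ m)⁻¹) atTop (𝓝 0) := by
      have := tendsto_pow_atTop_nhds_zero_of_lt_one (r := (1 / 2 : ℝ)) (by norm_num) (by norm_num)
      refine this.congr fun m => ?_
      rw [one_div, inv_pow]
    have h2 : Tendsto (fun m : ℕ => (((2 : ℝ) ^ m)⁻¹) ^ (1 / 2 : ℝ)) atTop (𝓝 0) := by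
      have := (h1.rpow_const (p := (1 / 2 : ℝ)) (Or.inr (by norm_num)))
      rwa [Real.zero_rpow (by norm_num)] at this
    have h3 : Tendsto (fun m : ℕ => 2 * (‖T‖ ^ 2 * (((2 : ℝ) ^ m)⁻¹) ^ (1 / 2 : ℝ))) atTop (𝓝 (2 * (‖T‖ ^ 2 * 0))) :=
      (h2.const_mul _).const_mul _
    rw [mul_zero, mul_zero] at h3
    exact h3.eventually (gt_mem_nhds (by positivity))
  obtain ⟨m, hm1, hm2, hm3⟩ := (hev1.and (hev2.and hev3)).exists
  obtain ⟨R, hR1, hR2, hR3, hR4, hR5⟩ := stage hp T (le_trans (le_max_left n L) hm1) (hC m)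
    (N := N m) (fun K hK => (mem_CC.1 hK).1) (fun t ht => exists_cell pos (hN1 m) ht)
  refine ⟨N m + 1, R, ?_, hR1, hR2, hR3, ?_, ?_⟩
  · have := hN1 m
    have h' := le_trans (le_max_right n L) hm1
    omega
  · intro ψ
    have := hR4 (fun q => ψ (q / 2 ^ (m - max n L)))
    simpa only [← qq_le' hm1] using this
  · intro j hj j' hj'
    have h1 := hR5 j hj j' hj'
    have h2 := abs_le_of_sq_le_sq (h1.trans hm3.le) (by positivity)
    have h2' := h2
    have e1 : ∫ t, J n j t * (s t * Θ t) ∂μ = ∫ t, J n j t * Θ₀ t ∂μ := by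
      refine integral_congr_ae ?_
      filter_upwards [hΘae] with t ht
      rw [ht]
    have h3 := hm2 j (by simpa using hj)
    rw [e1]
    by_cases hjj : j = j'
    · rw [if_pos hjj] at h2' ⊢
      have := abs_sub_le (igc p (fun t => J n j' t * R t) (T (cl p (fun t => J n j t * R t))))
        (∫ t, J n j t * th T (C m) t ∂μ) (∫ t, J n j t * Θ₀ t ∂μ)
      linarith
    · rw [if_neg hjj] at h2' ⊢
      linarith

end Pool.Agent.Helper89.Haar
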