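import Pool.Agent.Helper89.Haar.Theta

/-!
Uniform integrability type estimates (problem MP_e03f8f_an).
-/

set_option autoImplicit false
set_option linter.unusedSectionVars false
set_option linter.unusedVariables false

open MeasureTheory Filter Topology Set
open scoped ENNReal NNReal

noncomputable section

namespace Pool.Agent.Helper89.Haar

variable {p : ℝ≥0∞} [hp1 : Fact (1 ≤ p)]

theorem norm_cl_small (hp : p ≠ ∞) {g : ℝ → ℝ} (hg : Measurable g) (h : ∀ t, |g t| ≤ 1) :
    ‖cl p g‖ ≤ (∫ t, |g t| ∂μ) ^ (1 / p.toReal) := by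
  have h1 : 0 < p.toReal := lt_of_lt_of_le one_pos (toReal_one_le hp)
  have hb : Bd g := ⟨hg, 1, h⟩
  have hi : Integrable g μ := hb.integrable
  have h0 : 0 ≤ ∫ t, |g t| ∂μ := integral_nonneg fun t => abs_nonneg _
  rw [norm_cl (hb.memLp p)]
  refine ENNReal.toReal_le_of_le_ofReal (Real.rpow_nonneg h0 _) ?_
  rw [← ENNReal.ofReal_rpow_of_nonneg h0 (by positivity), ← ENNReal.rpow_le_rpow_iff h1,
    ← ENNReal.rpow_mul, one_div, inv_mul_cancel₀ h1.ne', ENNReal.rpow_one, lint_rpow hp,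
    ofReal_integral_eq_lintegral_ofReal hi.abs (Eventually.of_forall fun t => abs_nonneg _)]
  refine lintegral_mono fun t => ?_
  have h2 : ‖g t‖ₑ ≤ 1 := by
    rw [← ofReal_norm, ← ENNReal.ofReal_one]
    exact ENNReal.ofReal_le_ofReal (h t)
  calc ‖g t‖ₑ ^ p.toReal ≤ ‖g t‖ₑ ^ (1 : ℝ) :=
        ENNReal.rpow_le_rpow_of_exponent_ge h2 (toReal_one_le hp)
    _ = ENNReal.ofReal |g t| := by rw [ENNReal.rpow_one, ← ofReal_norm, Real.norm_eq_abs]

/-- absolute continuity of the integral against small bounded functions -/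
theorem small_int {f : ℝ → ℝ} (hf : Integrable f μ) {ε : ℝ} (hε : 0 < ε) :
    ∃ η > 0, ∀ v : ℝ → ℝ, Measurable v → (∀ t, |v t| ≤ 1) → ∫ t, |v t| ∂μ ≤ η →
      ∫ t, |f t| * |v t| ∂μ ≤ ε := by
  have h1 : Tendsto (fun n : ℕ => ∫ t, (|f t| - min |f t| n) ∂μ) atTop (𝓝 0) := by
    have h2 : Tendsto (fun n : ℕ => ∫ t, (|f t| - min |f t| n) ∂μ) atTop (𝓝 (∫ t, (0 : ℝ) ∂μ)) := by
      refine tendsto_integral_of_dominated_convergence (fun t => |f t|) ?_ hf.abs ?_ ?_
      · intro n
        exact (hf.abs.1.sub (hf.abs.1.inf aestronglyMeasurable_const))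
      · intro n
        refine Eventually.of_forall fun t => ?_
        rw [Real.norm_eq_abs, abs_of_nonneg (sub_nonneg.2 (min_le_left _ _))]
        have : 0 ≤ min |f t| (n : ℝ) := le_min (abs_nonneg _) (Nat.cast_nonneg _)
        linarith
      · refine Eventually.of_forall fun t => ?_
        obtain ⟨N, hN⟩ := exists_nat_ge |f t|
        refine tendsto_const_nhds.congr' ?_
        filter_upwards [eventually_ge_atTop N] with n hn
        rw [min_eq_left, sub_self]
        exact hN.trans (by exact_mod_cast hn)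
    simpa using h2
  obtain ⟨n, hn⟩ := (h1.eventually (gt_mem_nhds (half_pos hε))).exists
  refine ⟨ε / 2 / (n + 1), by positivity, fun v hv hv1 hv2 => ?_⟩
  have hvb : Bd (fun t => |v t|) := ⟨hv.norm, 1, fun t => by rw [abs_abs]; exact hv1 t⟩
  have i1 : Integrable (fun t => (|f t| - min |f t| n)) μ :=
    hf.abs.sub (hf.abs.inf (integrable_const _))
  have i2 : Integrable (fun t => (n : ℝ) * |v t|) μ := hvb.integrable.const_mul _
  calc ∫ t, |f t| * |v t| ∂μ ≤ ∫ t, ((|f t| - min |f t| n) + n * |v t|) ∂μ := by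
        refine integral_mono ?_ (i1.add i2) fun t => ?_
        · exact (hvb.mul_integrable hf.abs).congr (Eventually.of_forall fun t => mul_comm _ _)
        · show |f t| * |v t| ≤ (|f t| - min |f t| n) + n * |v t|
          have h3 : 0 ≤ |f t| - min |f t| n := sub_nonneg.2 (min_le_left _ _)
          have h4 : min |f t| (n : ℝ) ≤ n := min_le_right _ _
          have h5 := hv1 t
          have h6 := abs_nonneg (v t)
          have e : |f t| * |v t| = (|f t| - min |f t| n) * |v t| + min |f t| n * |v t| := by ring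
          rw [e]
          refine add_le_add (mul_le_of_le_one_right h3 h5) (mul_le_mul_of_nonneg_right h4 h6)
    _ = ∫ t, (|f t| - min |f t| n) ∂μ + n * ∫ t, |v t| ∂μ := by
        rw [integral_add i1 i2, integral_const_mul]
    _ ≤ ε / 2 + n * (ε / 2 / (n + 1)) := by
        gcongr
    _ ≤ ε / 2 + ε / 2 := by
        gcongr
        rw [mul_div_assoc', div_le_iff₀ (by positivity)]
        nlinarith [half_pos hε]
    _ = ε := by ring

theorem small_int' {f : ℝ → ℝ} (hf : Integrable f μ) {ε : ℝ} (hε : 0 < ε) :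
    ∃ η > 0, ∀ v : ℝ → ℝ, Measurable v → (∀ t, |v t| ≤ 1) → ∫ t, |v t| ∂μ ≤ η →
      |∫ t, f t * v t ∂μ| ≤ ε := by
  obtain ⟨η, hη, h⟩ := small_int hf hε
  refine ⟨η, hη, fun v hv hv1 hv2 => ?_⟩
  refine abs_integral_le_integral_abs.trans ?_
  simp only [abs_mul]
  exact h v hv hv1 hv2

/-- `L¹` majorant -/
theorem exists_majorant (T : LL 1 →L[ℝ] LL 1) : ∃ G : ℝ → ℝ, Integrable G μ ∧
    ∀ u : ℝ → ℝ, Measurable u → (∀ t, |u t| ≤ 1) → ∀ᵐ t ∂μ, |T (cl 1 u) t| ≤ G t := by
  set g : ℕ → ℝ → ℝ≥0∞ := fun n t => ∑ j ∈ Finset.range (2 ^ n), ‖T (cl 1 (J n j)) t‖ₑ with hg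
  have hgm : ∀ n, Measurable (g n) := by
    intro n
    refine Finset.measurable_sum _ fun j _ => ?_
    exact (Lp.stronglyMeasurable _).measurable.enorm
  have hsplit : ∀ n j, cl 1 (J n j) = cl 1 (J (n + 1) (2 * j)) + cl 1 (J (n + 1) (2 * j + 1)) := by
    intro n j
    rw [← cl_add ((bd_J _ _).memLp 1) ((bd_J _ _).memLp 1)]
    congr 1
    ext t
    rw [J, I_split]
    rw [indicator_union_of_disjoint (disj_I (by omega))]
    rfl
  have hmono : ∀ᵐ t ∂μ, Monotone fun n => g n t := by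
    have h1 : ∀ᵐ t ∂μ, ∀ n j, T (cl 1 (J n j)) t =
        T (cl 1 (J (n + 1) (2 * j))) t + T (cl 1 (J (n + 1) (2 * j + 1))) t := by
      rw [ae_all_iff]; intro n
      rw [ae_all_iff]; intro j
      rw [hsplit n j, map_add]
      exact Lp.coeFn_add _ _
    filter_upwards [h1] with t ht
    refine monotone_nat_of_le_succ fun n => ?_
    have hEO : ∀ (m : ℕ) (φ : ℕ → ℝ≥0∞), ∑ k ∈ Finset.range (2 * m), φ k =
        ∑ k ∈ Finset.range m, (φ (2 * k) + φ (2 * k + 1)) := by
      intro m φ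
      induction m with
      | zero => simp
      | succ m ih =>
        rw [show 2 * (m + 1) = 2 * m + 1 + 1 by ring, Finset.sum_range_succ, Finset.sum_range_succ, ih,
          Finset.sum_range_succ]
        ring
    show ∑ j ∈ Finset.range (2 ^ n), ‖T (cl 1 (J n j)) t‖ₑ ≤
      ∑ j ∈ Finset.range (2 ^ (n + 1)), ‖T (cl 1 (J (n + 1) j)) t‖ₑ
    rw [pow_succ, mul_comm, hEO]
    refine Finset.sum_le_sum fun j _ => ?_
    rw [ht n j]
    exact enorm_add_le _ _
  have hint : ∀ n, ∫⁻ t, g n t ∂μ ≤ ENNReal.ofReal ‖T‖ := by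
    intro n
    rw [lintegral_finsetSum _ (fun j _ => (Lp.stronglyMeasurable _).measurable.enorm)]
    have h1 : ∀ j ∈ Finset.range (2 ^ n), ∫⁻ t, ‖T (cl 1 (J n j)) t‖ₑ ∂μ ≤
        ENNReal.ofReal (‖T‖ * ((2 : ℝ) ^ n)⁻¹) := by
      intro j hj
      rw [← eLpNorm_one_eq_lintegral_enorm]
      have h2 : eLpNorm (T (cl 1 (J n j))) 1 μ = ENNReal.ofReal ‖T (cl 1 (J n j))‖ := by
        rw [Lp.norm_def, ENNReal.ofReal_toReal (Lp.eLpNorm_ne_top _)]
      rw [h2]
      refine ENNReal.ofReal_le_ofReal ?_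
      refine (T.le_opNorm _).trans (mul_le_mul_of_nonneg_left ?_ (norm_nonneg _))
      have h3 := norm_cl_ind_le (p := 1) ENNReal.one_ne_top (meas_I n j) (w := fun _ => 1)
        measurable_const (by simp)
      rw [real_mu_I (by simpa using hj)] at h3
      simpa [J] using h3
    refine (Finset.sum_le_sum h1).trans ?_
    rw [Finset.sum_const, Finset.card_range, nsmul_eq_mul, ← ENNReal.ofReal_natCast,
      ← ENNReal.ofReal_mul (Nat.cast_nonneg _)]
    refine ENNReal.ofReal_le_ofReal ?_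
    push_cast
    field_simp
    exact le_rfl
  set G₀ : ℝ → ℝ≥0∞ := fun t => ⨆ n, g n t with hG₀
  have hG₀m : Measurable G₀ := Measurable.iSup hgm
  have hG₀i : ∫⁻ t, G₀ t ∂μ ≤ ENNReal.ofReal ‖T‖ := by
    rw [lintegral_iSup' (fun n => (hgm n).aemeasurable) hmono]
    exact iSup_le hint
  have hG₀fin : ∀ᵐ t ∂μ, G₀ t < ∞ :=
    ae_lt_top hG₀m (lt_of_le_of_lt hG₀i ENNReal.ofReal_lt_top).ne
  refine ⟨fun t => (G₀ t).toReal, integrable_toReal_of_lintegral_ne_top hG₀m.aemeasurable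
    (lt_of_le_of_lt hG₀i ENNReal.ofReal_lt_top).ne, fun u hu hu1 => ?_⟩
  have hub : Bd u := ⟨hu, 1, hu1⟩
  -- step functions
  have hstep : ∀ n, ∀ᵐ t ∂μ, |T (EE 1 n (cl 1 u)) t| ≤ (G₀ t).toReal := by
    intro n
    have e1 : T (EE 1 n (cl 1 u)) = ∑ k ∈ Finset.range (2 ^ n),
        (2 ^ n * av (cl 1 u) n k) • T (cl 1 (J n k)) := by
      rw [EE_apply', map_sum]
      exact Finset.sum_congr rfl fun k _ => by rw [map_smul]; rfl
    have h1 : ∀ᵐ t ∂μ, T (EE 1 n (cl 1 u)) t = ∑ k ∈ Finset.range (2 ^ n),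
        (2 ^ n * av (cl 1 u) n k) * T (cl 1 (J n k)) t := by
      rw [e1]
      have h2 : ∀ᵐ t ∂μ, ∀ k, ((2 ^ n * av (cl 1 u) n k) • T (cl 1 (J n k)) : LL 1) t =
          (2 ^ n * av (cl 1 u) n k) * T (cl 1 (J n k)) t := by
        rw [ae_all_iff]; intro k
        filter_upwards [Lp.coeFn_smul (2 ^ n * av (cl 1 u) n k) (T (cl 1 (J n k)))] with t ht
        rw [ht]; rfl
      filter_upwards [Lp.coeFn_finsetSum (Finset.range (2 ^ n)) (fun k =>
        ((2 ^ n * av (cl 1 u) n k) • T (cl 1 (J n k)) : LL 1)), h2] with t h3 h4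
      rw [h3, Finset.sum_apply]
      exact Finset.sum_congr rfl fun k _ => h4 k
    filter_upwards [h1, hG₀fin] with t ht hfin
    rw [ht]
    have h5 : ∀ k ∈ Finset.range (2 ^ n), |2 ^ n * av (cl 1 u) n k| ≤ 1 := by
      intro k hk
      have h6 : |av (cl 1 u) n k| ≤ ((2 : ℝ) ^ n)⁻¹ := by
        rw [av]
        have h7 : ∫ t in I n k, (cl 1 u : LL 1) t ∂μ = ∫ t in I n k, u t ∂μ :=
          integral_congr_ae (ae_restrict_of_ae (coe_cl (hub.memLp 1)))
        rw [h7, ← Real.norm_eq_abs]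
        have := norm_setIntegral_le_of_norm_le_const (μ := μ) (s := I n k) (f := u) (C := 1)
          (measure_lt_top _ _) (fun t _ => hu1 t)
        rwa [real_mu_I (by simpa using hk), one_mul] at this
      rw [abs_mul, abs_of_pos (by positivity : (0 : ℝ) < 2 ^ n)]
      calc (2 : ℝ) ^ n * |av (cl 1 u) n k| ≤ 2 ^ n * ((2 : ℝ) ^ n)⁻¹ := by gcongr
        _ = 1 := mul_inv_cancel₀ (by positivity)
    calc |∑ k ∈ Finset.range (2 ^ n), (2 ^ n * av (cl 1 u) n k) * T (cl 1 (J n k)) t|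
        ≤ ∑ k ∈ Finset.range (2 ^ n), |(2 ^ n * av (cl 1 u) n k) * T (cl 1 (J n k)) t| :=
          Finset.abs_sum_le_sum_abs _ _
      _ ≤ ∑ k ∈ Finset.range (2 ^ n), |T (cl 1 (J n k)) t| := by
          refine Finset.sum_le_sum fun k hk => ?_
          rw [abs_mul]
          exact mul_le_of_le_one_left (abs_nonneg _) (h5 k hk)
      _ = (g n t).toReal := by
          rw [hg]
          simp only
          rw [ENNReal.toReal_sum (fun k _ => enorm_ne_top)]
          exact Finset.sum_congr rfl fun k _ => by rw [toReal_enorm, Real.norm_eq_abs]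
      _ ≤ (G₀ t).toReal := ENNReal.toReal_mono hfin.ne (le_iSup (fun n => g n t) n)
  have hconv : Tendsto (fun n => T (EE 1 n (cl 1 u))) atTop (𝓝 (T (cl 1 u))) :=
    (T.continuous.tendsto _).comp (EE_tendsto ENNReal.one_ne_top _)
  obtain ⟨ns, hns, hae⟩ := (tendstoInMeasure_of_tendsto_Lp hconv).exists_seq_tendsto_ae
  filter_upwards [hae, ae_all_iff.2 hstep] with t h1 h2
  exact le_of_tendsto h1.abs (Eventually.of_forall fun i => h2 (ns i))

/-- Uniform integrability of the image of the unit ball of `L^∞`. -/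
theorem ui (hp : p ≠ ∞) (T : LL p →L[ℝ] LL p) {ε : ℝ} (hε : 0 < ε) :
    ∃ η > 0, ∀ u v : ℝ → ℝ, Measurable u → Measurable v → (∀ t, |u t| ≤ 1) → (∀ t, |v t| ≤ 1) →
      ∫ t, |v t| ∂μ ≤ η → |igc p v (T (cl p u))| ≤ ε := by
  rcases hp1.out.eq_or_lt with h | h
  · subst h
    obtain ⟨G, hG, hGu⟩ := exists_majorant T
    obtain ⟨η, hη, hη'⟩ := small_int hG hε
    refine ⟨η, hη, fun u v hu hv hu1 hv1 hvi => ?_⟩
    have hvb : Bd v := ⟨hv, 1, hv1⟩
    rw [igc_apply hvb]
    refine abs_integral_le_integral_abs.trans (le_trans ?_ (hη' v hv hv1 hvi))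
    refine integral_mono_ae (hvb.mul_integrable (integrable_coe _)).abs ?_ ?_
    · have hvb' : Bd (fun t => |v t|) := ⟨hv.norm, 1, fun t => by rw [abs_abs]; exact hv1 t⟩
      exact (hvb'.mul_integrable hG.abs).congr (Eventually.of_forall fun t => mul_comm _ _)
    · filter_upwards [hGu u hu hu1] with t ht
      rw [abs_mul, mul_comm]
      exact mul_le_mul_of_nonneg_right (ht.trans (le_abs_self _)) (abs_nonneg _)
  · have hr : 1 < p.toReal := by
      have := ENNReal.toReal_strict_mono hp h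
      simpa using this
    have hr0 : 0 < p.toReal := by linarith
    set b : ℝ := 1 - 1 / p.toReal with hb
    have hb0 : 0 < b := by
      rw [hb, sub_pos, div_lt_one hr0]; exact hr
    set κ : ℝ := ε / 2 / (‖T‖ + 1) with hκ
    have hκ0 : 0 < κ := by positivity
    refine ⟨κ * κ ^ (1 / b), by positivity, fun u v hu hv hu1 hv1 hvi => ?_⟩
    have hvb : Bd v := ⟨hv, 1, hv1⟩
    set f := T (cl p u) with hf
    have hfn : ‖f‖ ≤ ‖T‖ := by
      refine (T.le_opNorm _).trans (mul_le_of_le_one_right (norm_nonneg _) ?_)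
      exact norm_cl_le hu zero_le_one hu1
    set A : Set ℝ := {t | κ ≤ |v t|} with hA
    have hAm : MeasurableSet A := measurableSet_le measurable_const hv.norm
    have hμA : μ.real A ≤ κ ^ (1 / b) := by
      have h1 := mul_meas_ge_le_integral_of_nonneg (μ := μ) (f := fun t => |v t|)
        (Eventually.of_forall fun t => abs_nonneg _) hvb.integrable.abs κ
      have h2 : κ * μ.real A ≤ κ * κ ^ (1 / b) := h1.trans hvi
      exact le_of_mul_le_mul_left h2 hκ0
    rw [igc_apply hvb]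
    have e1 : ∫ t, v t * f t ∂μ = ∫ t, (v t * A.indicator (fun _ => 1) t) * f t ∂μ +
        ∫ t, (v t * Aᶜ.indicator (fun _ => 1) t) * f t ∂μ := by
      rw [← integral_add ((hvb.mul_ind hAm).mul_integrable (integrable_coe f))
        ((hvb.mul_ind hAm.compl).mul_integrable (integrable_coe f))]
      refine integral_congr_ae (Eventually.of_forall fun t => ?_)
      by_cases ht : t ∈ A
      · simp [ht]
      · simp [ht]
    have h3 : |∫ t, (v t * A.indicator (fun _ => 1) t) * f t ∂μ| ≤ ε / 2 := by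
      refine (holder hp f hAm hv1).trans ?_
      calc ‖f‖ * μ.real A ^ b ≤ ‖T‖ * (κ ^ (1 / b)) ^ b := by
            gcongr
        _ = ‖T‖ * κ := by
            rw [← Real.rpow_mul hκ0.le, one_div, inv_mul_cancel₀ hb0.ne', Real.rpow_one]
        _ ≤ ε / 2 := by
            rw [hκ, mul_div_assoc', div_le_iff₀ (by positivity)]
            nlinarith [half_pos hε]
    have h4 : |∫ t, (v t * Aᶜ.indicator (fun _ => 1) t) * f t ∂μ| ≤ ε / 2 := by
      have h5 := abs_igc_le (p := p) (hvb.mul_ind hAm.compl) (C := κ) (fun t => by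
        by_cases ht : t ∈ A
        · simp [ht, hκ0.le]
        · have : |v t| < κ := not_le.1 ht
          simp [ht, this.le]) f
      rw [igc_apply (hvb.mul_ind hAm.compl)] at h5
      refine h5.trans ?_
      calc κ * ‖f‖ ≤ κ * ‖T‖ := by gcongr
        _ ≤ ε / 2 := by
            rw [hκ, div_mul_eq_mul_div, div_le_iff₀ (by positivity)]
            nlinarith [half_pos hε]
    rw [e1]
    refine (abs_add_le _ _).trans ?_
    linarith

end Pool.Agent.Helper89.Haar
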