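import Pool.Agent.Helper89.Haar.Rho

/-!
The sum `ℓ^∞(L^{p_k})`.
-/

set_option autoImplicit false
set_option linter.unusedSectionVars false

open MeasureTheory Filter Topology Set
open scoped ENNReal NNReal

noncomputable section

namespace Pool.Agent.Helper89.Haar

/-- The space `ℓ^∞(L^{p_k} : k ∈ ℕ)`. -/
abbrev ZZ (p : ℕ → ℝ≥0∞) [∀ k, Fact (1 ≤ p k)] := lp (fun k => LL (p k)) ∞

variable {p : ℕ → ℝ≥0∞} [hp1 : ∀ k, Fact (1 ≤ p k)]

/-- the `k`-th coordinate -/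
def ev (k : ℕ) : ZZ p →L[ℝ] LL (p k) :=
  LinearMap.mkContinuous
    { toFun := fun z => z k
      map_add' := fun _ _ => rfl
      map_smul' := fun _ _ => rfl } 1 fun z => by
        rw [one_mul]; exact lp.norm_apply_le_norm ENNReal.top_ne_zero z k

@[simp] theorem ev_apply (k : ℕ) (z : ZZ p) : ev k z = z k := rfl

theorem norm_ev_le (k : ℕ) : ‖(ev k : ZZ p →L[ℝ] LL (p k))‖ ≤ 1 :=
  LinearMap.mkContinuous_norm_le _ zero_le_one _

/-- inclusion of the `k`-th coordinate -/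
def inc (k : ℕ) : LL (p k) →L[ℝ] ZZ p := lp.singleContinuousLinearMap ℝ (fun k => LL (p k)) ∞ k

theorem inc_same (k : ℕ) (x : LL (p k)) : (inc k x : ZZ p) k = x := lp.single_apply_self _ _ _

theorem inc_ne {k l : ℕ} (h : l ≠ k) (x : LL (p k)) : (inc k x : ZZ p) l = 0 :=
  lp.single_apply_ne _ _ _ h

theorem norm_inc (k : ℕ) (x : LL (p k)) : ‖(inc k x : ZZ p)‖ = ‖x‖ :=
  lp.norm_single (by simp) _ _

theorem norm_inc_le (k : ℕ) : ‖(inc k : LL (p k) →L[ℝ] ZZ p)‖ ≤ 1 :=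
  ContinuousLinearMap.opNorm_le_bound _ zero_le_one fun x => by rw [norm_inc, one_mul]

theorem norm_ZZ_le {z : ZZ p} {C : ℝ} (hC : 0 ≤ C) (h : ∀ k, ‖z k‖ ≤ C) : ‖z‖ ≤ C :=
  lp.norm_le_of_forall_le hC h

theorem norm_coord_le (z : ZZ p) (k : ℕ) : ‖z k‖ ≤ ‖z‖ :=
  lp.norm_apply_le_norm ENNReal.top_ne_zero z k

variable {Y : Type*} [NormedAddCommGroup Y] [NormedSpace ℝ Y]

/-- operator into the sum with given coordinates -/
def mkZ (L : ∀ k, Y →L[ℝ] LL (p k)) (C : ℝ) (hC : 0 ≤ C) (hL : ∀ k, ‖L k‖ ≤ C) : Y →L[ℝ] ZZ p :=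
  have hb : ∀ y k, ‖L k y‖ ≤ C * ‖y‖ := fun y k =>
    ((L k).le_opNorm y).trans (mul_le_mul_of_nonneg_right (hL k) (norm_nonneg _))
  LinearMap.mkContinuous
    { toFun := fun y => ⟨fun k => L k y, memℓp_infty ⟨C * ‖y‖, by
        rintro _ ⟨k, rfl⟩; exact hb y k⟩⟩
      map_add' := fun y y' => by
        apply lp.ext; funext k
        exact map_add (L k) y y'
      map_smul' := fun c y => by
        apply lp.ext; funext k
        exact map_smul (L k) c y } C fun y =>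
        norm_ZZ_le (mul_nonneg hC (norm_nonneg _)) fun k => hb y k

@[simp] theorem mkZ_apply (L : ∀ k, Y →L[ℝ] LL (p k)) (C : ℝ) (hC : 0 ≤ C) (hL : ∀ k, ‖L k‖ ≤ C)
    (y : Y) (k : ℕ) : mkZ L C hC hL y k = L k y := rfl

theorem norm_mkZ_le (L : ∀ k, Y →L[ℝ] LL (p k)) (C : ℝ) (hC : 0 ≤ C) (hL : ∀ k, ‖L k‖ ≤ C) :
    ‖mkZ L C hC hL‖ ≤ C :=
  ContinuousLinearMap.opNorm_le_bound _ hC fun y =>
    norm_ZZ_le (mul_nonneg hC (norm_nonneg _)) fun k =>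
      ((L k).le_opNorm y).trans (mul_le_mul_of_nonneg_right (hL k) (norm_nonneg _))

/-- Operator ultralimits in the sum. -/
theorem OLZ (hp : ∀ k, p k ≠ ∞) {D : Type*} (𝒰 : Ultrafilter D) (U : D → Y →L[ℝ] ZZ p) (C : ℝ)
    (hC : 0 ≤ C) (hU : ∀ d, ‖U d‖ ≤ C) :
    ∃ V : Y →L[ℝ] ZZ p, ‖V‖ ≤ C ∧ ∀ y (k : ℕ) (x : LL (p k)), Tendsto (fun d => U d y k) 𝒰 (𝓝 x) → V y k = x := by
  have h : ∀ k, ∃ V : Y →L[ℝ] LL (p k), ‖V‖ ≤ C ∧
      ∀ y x, Tendsto (fun d => ((ev k).comp (U d)) y) 𝒰 (𝓝 x) → V y = x := fun k =>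
    OL (hp k) 𝒰 (fun d => (ev k).comp (U d)) C hC fun d => by
      refine ((ev k).opNorm_comp_le (U d)).trans ?_
      calc ‖(ev k : ZZ p →L[ℝ] LL (p k))‖ * ‖U d‖ ≤ 1 * C :=
            mul_le_mul (norm_ev_le k) (hU d) (norm_nonneg _) zero_le_one
        _ = C := one_mul C
  choose V hV1 hV2 using h
  exact ⟨mkZ V C hC hV1, norm_mkZ_le _ _ _ _, fun y k x hx => hV2 k y x hx⟩

end Pool.Agent.Helper89.Haar
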